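import Pool.Agent.Q17.TC.Fin
import Pool.Agent.Q277.TC.Kc
import Pool.Agent.Q277.TC.Ti
import Pool.Agent.Q277.TC.Nrm
import Pool.Agent.Q277.TC.Rep
import Pool.Agent.Q277.TC.Sq
import Pool.Agent.Q239.TC.CL
import Pool.Agent.Q239.TC.EXT
import Pool.Agent.Q239.TC.MAT
import Pool.Agent.Q239.TC.TR

/-!
# All parts of project TC
-/

set_option autoImplicit false

namespace Pool.Agent.Q17.TC

theorem parts : Parts where
  lft := t_LFT
  hom := t_HOM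
  mat := Pool.Agent.Q239.TC.t_MAT
  ext := Pool.Agent.Q239.TC.t_EXT t_LFT t_SQ (t_IRN t_HOM)
  tr := Pool.Agent.Q239.TC.t_TR t_ORT t_DEC t_REP t_NRM (t_IRN t_HOM) t_SQ
  cl := Pool.Agent.Q239.TC.t_CL t_LFT t_SQ
  kc := t_KC
  sq := t_SQ
  ti := t_TI

end Pool.Agent.Q17.TC
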