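import Pool.Agent.Q17.TC.Defs

/-!
# Statements of the parts of project TC

`IC.B f h = |G|⁻¹ ∑ f(g) h(g⁻¹)` (Helper884.IC.Compl; there also `IC.Irr G`, `IC.expand`, `IC.B_irr`,
`IC.B_expand`); `IsIrr` is that of `H254R3.IN.Defs` (the same as `IC.IsIrrChar`), `IsIrr.conj`,
`IsIrr.deg`, `IsIrr.one_ne` in `H254R3.IN.Chars`; `irr_comp`, `irr_twist`, `irr_mul_comm` in
`Y62.Transfer`; natural multiplicities: `Q21.CO.mult_nat`, `IC.beta_nat`.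
-/

set_option autoImplicit false

open scoped BigOperators Classical
open Pool.Agent.Helper884 Representation Pool.Agent.H254R3.IN Pool.Agent.Y62

noncomputable section

namespace Pool.Agent.Q17.TC

/-- ORT. Schur orthogonality in trace form. Proof: `∑ n, ρ n ∘ C ∘ ρ n⁻¹` commutes with `ρ`, so it is
`(|N| / dim W) tr C` (Schur and trace). With a basis `e i` and dual basis `e i *`,
`tr (A ρ n) tr (ρ n⁻¹ B) = ∑ i j, e i * (A ρ n (e i ⊗ e j *) ρ n⁻¹ B e j)`; sum over `n`. Or: both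
sides are bilinear in `A`, `B`; rank one maps span. -/
def S_ORT : Prop := ∀ (N W : Type) [Group N] [Fintype N] [AddCommGroup W] [Module ℂ W]
  [FiniteDimensional ℂ W] (ρ : Representation ℂ N W), ρ.IsIrreducible → ∀ A B : W →ₗ[ℂ] W,
  ∑ n : N, LinearMap.trace ℂ W (A ∘ₗ ρ n) * LinearMap.trace ℂ W (ρ n⁻¹ ∘ₗ B) =
    (Nat.card N : ℂ) / (Module.finrank ℂ W : ℂ) * LinearMap.trace ℂ W (A ∘ₗ B)

/-- LFT. Irreducible representations with the same character are isomorphic; applied to `ρ` and its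
conjugate by `g`. (If `ρ`, `ρ₁` are irreducible with the same character then
`∑ n, ρ₁ n ∘ A ∘ ρ n⁻¹` is an intertwiner for every `A : W → W₁`; it is not zero for some `A` since
otherwise the characters are orthogonal; a nonzero intertwiner is bijective.) -/
def S_LFT : Prop := ∀ (G W : Type) [Group G] [Fintype G] [AddCommGroup W] [Module ℂ W]
  [FiniteDimensional ℂ W] (N : Subgroup G) [N.Normal] (ρ : Representation ℂ N W),
  ρ.IsIrreducible → ∀ g : G, (∀ n : N, ρ.character (MulAut.conjNormal g n) = ρ.character n) →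
    ∃ u : W ≃ₗ[ℂ] W, Lf ρ g u

/-- DEC. Values of `χ` on a coset of `N`, if `χ` lies over the `G`-invariant character `θ` of `ρ`.
Proof: let `X` be a representation with character `χ` and `e = (θ(1)/|N|) ∑ θ(n⁻¹) X(n)`. As `θ` is
`G`-invariant, `e` commutes with `X`, so it is a scalar (Schur); `e² = e` (ORT with `A = B = 1`, or
the orthogonality relations) and `tr e = θ(1) B(χ_N, θ) ≠ 0`, so `e = 1`. Hence
`χ(n g) = tr(X(n) X(g)) = (θ(1)/|N|) ∑ₖ θ(k⁻¹) χ(k n g) = tr (ρ(n) A)` where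
`A = (θ(1)/|N|) ∑ₖ χ(k g) ρ(k⁻¹)`. As `χ` is a class function, `A ρ(m) = ρ(g m g⁻¹) A` for `m ∈ N`,
so `A u⁻¹` commutes with `ρ(N)`; by Schur `A = s u`. -/
def S_DEC : Prop := ∀ (G W : Type) [Group G] [Fintype G] [AddCommGroup W] [Module ℂ W]
  [FiniteDimensional ℂ W] (N : Subgroup G) [N.Normal] (ρ : Representation ℂ N W),
  ρ.IsIrreducible → (∀ g : G, ∃ u : W ≃ₗ[ℂ] W, Lf ρ g u) → ∀ χ : G → ℂ, IsIrr χ →
  Ov N χ ρ.character → ∀ (g : G) (u : W ≃ₗ[ℂ] W), Lf ρ g u →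
    ∃ s : ℂ, ∀ n : N, χ (n * g) = s * tr ρ u n

/-- REP. The representation of `H` on `W' ⊗ Hom_N(W, V)`. Proof: let `X` be a representation of `G`
on `V` with character `χ`, `S = {f : W → V | X(n) f = f ρ(n) for n ∈ N}` (a submodule of
`W →ₗ V`), `S_h : S → S`, `f ↦ X(i h) f (u h)⁻¹` (it preserves `S` as `u h` is a lift), and
`τ(h) = (u' h) ⊗ S_h` on `W' ⊗ S`. By `Mat.mul` the scalars cancel in `τ(h k) = τ(h) τ(k)` and by
`Mat.res` (with `m = 1`) `τ(1) = 1`. The trace of `τ(h)` is `tr(u' h) tr(S_h)`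
(`LinearMap.trace_tensorProduct'`), and `tr(S_h)` is the trace on `W →ₗ V` of `f ↦ X(i h) π(f) (u h)⁻¹`,
`π(f) = |N|⁻¹ ∑ₙ X(n) f ρ(n⁻¹)` the projection onto `S`
(`LinearMap.trace_restrict_eq_of_forall_mem`); the trace of `f ↦ a f b` on `W →ₗ V` is
`tr(a) tr(b)`; then reindex the sum (`(u h)⁻¹ ρ(i h n⁻¹ i h⁻¹) = ρ(n⁻¹) (u h)⁻¹`). -/
def S_REP : Prop := ∀ (G H W W' : Type) [Group G] [Fintype G] [Group H] [Fintype H]
  [AddCommGroup W] [Module ℂ W] [FiniteDimensional ℂ W] [AddCommGroup W'] [Module ℂ W']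
  [FiniteDimensional ℂ W'] (i : H →* G) (N : Subgroup G) [N.Normal] (ρ : Representation ℂ N W)
  (ρ' : Representation ℂ (N.comap i) W') (u : H → (W ≃ₗ[ℂ] W)) (u' : H → (W' ≃ₗ[ℂ] W')),
  Mat i N ρ ρ' u u' → ∀ χ : G → ℂ, IsIrr χ →
  ∃ (Y : Type) (_ : AddCommGroup Y) (_ : Module ℂ Y) (_ : FiniteDimensional ℂ Y)
    (τ : Representation ℂ H Y), ∀ h : H, τ.character h =
      ((Nat.card N : ℂ)⁻¹ * ∑ n : N, χ (n * i h) *
        LinearMap.trace ℂ W (((u h).symm : W →ₗ[ℂ] W) ∘ₗ ρ n⁻¹)) *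
      LinearMap.trace ℂ W' (u' h : W' →ₗ[ℂ] W')

/-- NRM. The correspondence is an isometry. Proof: for `g = n (i h)` we have
`g⁻¹ = n' (i h⁻¹)`, `n' = h⁻¹ n⁻¹ h`, so `χ₂(g⁻¹) = s₂(h⁻¹) tr(ρ(n') u(h⁻¹))` and
`u(h⁻¹) = c (u h)⁻¹` with `c = c(h)` (from `mul` and `res` at `1`; the same `c` for `u'`), so it is
`s₂(h⁻¹) c tr((u h)⁻¹ ρ(n⁻¹))`. By ORT `∑ₙ χ₁(n h) χ₂((n h)⁻¹) = |N| F(h)`,
`F(h) = s₁(h) s₂(h⁻¹) c(h)`, and in the same way `∑ₘ ψ₁(m h) ψ₂((m h)⁻¹) = |M| F(h)`,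
`M = N.comap i`. Summing over `h ∈ H`: every `g ∈ G` is `n (i h)` for exactly `|M|` pairs, every
element of `H` is `m h` for exactly `|M|` pairs; `|N| |H| = |G| |M|`. So both inner products are
`|H|⁻¹ ∑_h F(h)`. -/
def S_NRM : Prop := ∀ (G H W W' : Type) [Group G] [Fintype G] [Group H] [Fintype H]
  [AddCommGroup W] [Module ℂ W] [FiniteDimensional ℂ W] [AddCommGroup W'] [Module ℂ W']
  [FiniteDimensional ℂ W'] (i : H →* G) (N : Subgroup G) [N.Normal] (ρ : Representation ℂ N W)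
  (ρ' : Representation ℂ (N.comap i) W') (u : H → (W ≃ₗ[ℂ] W)) (u' : H → (W' ≃ₗ[ℂ] W')),
  (∀ g : G, ∃ n ∈ N, ∃ h, g = n * i h) → ρ.IsIrreducible → ρ'.IsIrreducible →
  Mat i N ρ ρ' u u' → ∀ (χ₁ χ₂ : G → ℂ) (ψ₁ ψ₂ : H → ℂ), Cor i N ρ ρ' u u' χ₁ ψ₁ →
  Cor i N ρ ρ' u u' χ₂ ψ₂ → IC.B ψ₁ ψ₂ = IC.B χ₁ χ₂

/-- IRN. A character of norm `1` is irreducible. Proof: if `U` is a proper nonzero invariant subspace
choose an invariant complement `U'` (Maschke); the projections onto `U`, `U'` are two linearly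
independent endomorphisms, but `dim End_H = B(χ, χ) = 1` (`χ(h⁻¹)` is the character of the dual,
`Representation.average_char_eq_finrank_invariants` for `linHom`). Or expand the character by
irreducible ones with natural coefficients. -/
def S_IRN : Prop := ∀ (H Y : Type) [Group H] [Fintype H] [AddCommGroup Y] [Module ℂ Y]
  [FiniteDimensional ℂ Y] (τ : Representation ℂ H Y), IC.B τ.character τ.character = 1 →
    IsIrr τ.character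

/-- SQ. Proof: the first part is DEC with `g = 1`, `u = 1` (the scalar is `χ(1)/θ(1) = B(χ_N, θ)`, a
natural number by `Q21.CO.mult_nat`). Second part:
`∑ χ ∈ Irr G, B(χ_N, θ) χ(1) = |N|⁻¹ ∑ₙ θ(n⁻¹) ∑_χ χ(n) χ(1) = |N|⁻¹ θ(1) |G|` (second
orthogonality relation: expand the class function `δ₁` by `IC.expand`), and the terms with
`B(χ_N, θ) ≠ 0` are `(χ(1)/θ(1)) χ(1)`. -/
def S_SQ : Prop := ∀ (G W : Type) [Group G] [Fintype G] [AddCommGroup W] [Module ℂ W]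
  [FiniteDimensional ℂ W] (N : Subgroup G) [N.Normal] (ρ : Representation ℂ N W),
  ρ.IsIrreducible → (∀ g : G, ∃ u : W ≃ₗ[ℂ] W, Lf ρ g u) →
  (∀ χ : G → ℂ, IsIrr χ → Ov N χ ρ.character → ∃ e : ℕ, 0 < e ∧
    ∀ n : N, χ n = e * ρ.character n) ∧
  ∑ χ ∈ (IC.Irr G).filter (fun χ => Ov N χ ρ.character), (χ 1 / ρ.character 1) ^ 2 =
    (N.index : ℂ)

/-- HOM. Dimension of a space of intertwiners. (Mathlib: `Representation.linHom`, `char_linHom`,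
`average_char_eq_finrank_invariants`.) -/
def S_HOM : Prop := ∀ (L W W' : Type) [Group L] [Fintype L] [AddCommGroup W] [Module ℂ W]
  [FiniteDimensional ℂ W] [AddCommGroup W'] [Module ℂ W'] [FiniteDimensional ℂ W']
  (R : Representation ℂ L W) (R' : Representation ℂ L W') (V : Submodule ℂ (W' →ₗ[ℂ] W)),
  (∀ v, v ∈ V ↔ ∀ x : L, R x ∘ₗ v = v ∘ₗ R' x) →
    (Module.finrank ℂ V : ℂ) = IC.B R.character R'.character

/-- the determinant of `v ↦ u v u'⁻¹` on `V` (`0` if `V` is not preserved) -/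
def dT {W W' : Type} [AddCommGroup W] [Module ℂ W] [AddCommGroup W'] [Module ℂ W']
    (V : Submodule ℂ (W' →ₗ[ℂ] W)) (u : W ≃ₗ[ℂ] W) (u' : W' ≃ₗ[ℂ] W') : ℂ :=
  if h : ∀ v ∈ V, (LinearMap.lcomp ℂ W (u'.symm : W' →ₗ[ℂ] W') ∘ₗ
      LinearMap.llcomp ℂ W' W W (u : W →ₗ[ℂ] W)) v ∈ V then
    LinearMap.det ((LinearMap.lcomp ℂ W (u'.symm : W' →ₗ[ℂ] W') ∘ₗ
      LinearMap.llcomp ℂ W' W W (u : W →ₗ[ℂ] W)).restrict h)
  else 0

/-- MAT. Existence of a matching. Proof: for a pair of lifts `u`, `u'` of `h` put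
`r(u, u') = dT V₀ u u' / dT V₁ u u'`. It is multiplicative in the pair (composition of the maps
`v ↦ u v u'⁻¹`), `r(c u, c' u') = (c / c') ^ (± 1) r(u, u')` since the dimensions differ by one, and
`r = 1` for `(ρ m, ρ' m)` since these act trivially on `V₀`, `V₁` by the first assumption. So for a
lift `u` of `i h` there is exactly one lift `u'` of `h` with `r(u, u') = 1` (lifts of the same element
differ by a scalar, Schur). Choose `u h` arbitrarily and `u' h` in this way. -/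
def S_MAT : Prop := ∀ (G H W W' : Type) [Group G] [Fintype G] [Group H] [Fintype H]
  [AddCommGroup W] [Module ℂ W] [FiniteDimensional ℂ W] [AddCommGroup W'] [Module ℂ W']
  [FiniteDimensional ℂ W'] (i : H →* G) (N : Subgroup G) [N.Normal] (ρ : Representation ℂ N W)
  (ρ' : Representation ℂ (N.comap i) W'), ρ.IsIrreducible → ρ'.IsIrreducible →
  ∀ V₀ V₁ : Submodule ℂ (W' →ₗ[ℂ] W),
  (∀ v, v ∈ V₀ ∨ v ∈ V₁ → ∀ m : N.comap i, ρ ⟨i m, m.2⟩ ∘ₗ v = v ∘ₗ ρ' m) →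
  (∀ (h : H) (u : W ≃ₗ[ℂ] W) (u' : W' ≃ₗ[ℂ] W'), Lf ρ (i h) u → Lf ρ' h u' →
    (∀ v ∈ V₀, (u : W →ₗ[ℂ] W) ∘ₗ v ∘ₗ (u'.symm : W' →ₗ[ℂ] W') ∈ V₀) ∧
    ∀ v ∈ V₁, (u : W →ₗ[ℂ] W) ∘ₗ v ∘ₗ (u'.symm : W' →ₗ[ℂ] W') ∈ V₁) →
  (Module.finrank ℂ V₀ = Module.finrank ℂ V₁ + 1 ∨ Module.finrank ℂ V₁ = Module.finrank ℂ V₀ + 1) →
  (∀ h : H, ∃ u : W ≃ₗ[ℂ] W, Lf ρ (i h) u) → (∀ h : H, ∃ u' : W' ≃ₗ[ℂ] W', Lf ρ' h u') →
  ∃ (u : H → (W ≃ₗ[ℂ] W)) (u' : H → (W' ≃ₗ[ℂ] W')), Mat i N ρ ρ' u u' ∧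
    ∀ (h : H) (v : W ≃ₗ[ℂ] W) (v' : W' ≃ₗ[ℂ] W'), Lf ρ (i h) v → Lf ρ' h v' →
      dT V₀ v v' = dT V₁ v v' → ∃ c : ℂ, c ≠ 0 ∧ (∀ w, v w = c • u h w) ∧ ∀ w, v' w = c • u' h w

/-- TR. The correspondence of a matching. Proof (from DEC, REP, NRM, IRN, SQ, ORT): for `χ` over
`θ = ρ.character` let `s` be given by DEC for the lifts `u h`; by ORT
`s(h) = |N|⁻¹ ∑ χ(n h) tr((u h)⁻¹ ρ(n⁻¹))`. So `ψ(h) = s(h) tr(u' h)` is a character by REP. From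
`Mat.mul`, `Mat.res`: `u(m h) = c a ρ(m) u(h)`, `u'(m h) = c a ρ'(m) u'(h)`, and
`s(m h) c a = s(h)` (compare the two expressions of `χ(n m h)`; some trace is not zero by ORT); so
`ψ(m h) = s(h) tr(ρ'(m) u' h)`, i.e. `Cor`. By NRM and IRN `ψ` is irreducible and different `χ` have
different `ψ`; `ψ(m) = (χ(1)/θ(1)) η(m)`, so `ψ` lies over `η` and `ψ(1)/η(1) = χ(1)/θ(1)`. By SQ for
`(G, N)` and `(H, N.comap i)` and `|G : N| = |H : N.comap i|` the map is onto. (Lifts of all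
`g ∈ G`: if `g = n (i h)` then `ρ(n) u(h)` is one.) -/
def S_TR : Prop := ∀ (G H W W' : Type) [Group G] [Fintype G] [Group H] [Fintype H]
  [AddCommGroup W] [Module ℂ W] [FiniteDimensional ℂ W] [AddCommGroup W'] [Module ℂ W']
  [FiniteDimensional ℂ W'] (i : H →* G) (N : Subgroup G) [N.Normal] (ρ : Representation ℂ N W)
  (ρ' : Representation ℂ (N.comap i) W') (u : H → (W ≃ₗ[ℂ] W)) (u' : H → (W' ≃ₗ[ℂ] W')),
  (∀ g : G, ∃ n ∈ N, ∃ h, g = n * i h) → ρ.IsIrreducible → ρ'.IsIrreducible →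
  Mat i N ρ ρ' u u' →
  ∃ e : {χ : G → ℂ // IsIrr χ ∧ Ov N χ ρ.character} ≃
      {ψ : H → ℂ // IsIrr ψ ∧ Ov (N.comap i) ψ ρ'.character},
    ∀ χ, Cor i N ρ ρ' u u' χ.1 (e χ).1

/-- CL. The Clifford correspondence. Proof: put `Ind ξ (g) = |T|⁻¹ ∑ₓ ξ°(x⁻¹ g x)`; Frobenius
reciprocity `B_G(Ind ξ, χ) = B_T(ξ, χ_T)` for class functions `χ`, so `Ind ξ` is a sum of irreducible
characters with natural coefficients. (1) A character `ξ` of `T` over `θ` is `e θ` on `N` (`θ` is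
`T`-invariant, see SQ), and then `B((Ind ξ)_N, θ) = e` and `(Ind ξ)(1) = |G : T| e θ(1)`. (2) If `χ`
is an irreducible constituent of `Ind ξ`, then `ξ` is a constituent of `χ_T`, so
`B(χ_N, θ) ≥ e`; `B(χ_N, θ^g) = B(χ_N, θ)` and there are `|G : T|` different conjugates `θ^g`, so
`χ(1) ≥ |G : T| e θ(1) = (Ind ξ)(1)` and `χ = Ind ξ`. (3) If `χ` lies over `θ`, some constituent
`ξ` of `χ_T` lies over `θ`, and `χ` is a constituent of `Ind ξ`. (4) If `Ind ξ = Ind ξ' = χ` and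
`ξ ≠ ξ'` then `B(χ_N, θ) ≥ e + e' > e`. -/
def S_CL : Prop := ∀ (G : Type) [Group G] [Fintype G] (N : Subgroup G) [N.Normal] (θ : N → ℂ),
  IsIrr θ → ∀ T : Subgroup G, (∀ g, g ∈ T ↔ ∀ n : N, θ (MulAut.conjNormal g n) = θ n) →
  ∃ e : {ξ : T → ℂ // IsIrr ξ ∧ Ov (N.comap T.subtype) ξ (fun n => θ ⟨n, n.2⟩)} ≃
      {χ : G → ℂ // IsIrr χ ∧ Ov N χ θ},
    ∀ ξ g, (e ξ : G → ℂ) g = (Nat.card T : ℂ)⁻¹ *
      ∑ x : G, (if h : x⁻¹ * g * x ∈ T then (ξ : T → ℂ) ⟨x⁻¹ * g * x, h⟩ else 0)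

/-- RL. Passage from one coset to its powers. Proof: let `c' = c ^ t`, `k ∈ H` with `l k = c ^ t`.
Choose `t'` with `t t' ≡ 1` modulo `p` and `t' ≡ 1` modulo the part of `|G|` prime to `p`, so that
`t'` is prime to `|G|`; there is a field automorphism `σ` of `ℂ` with `σ(ζ) = ζ ^ t'` for all
`|G|`-th roots of unity, so `σ(χ(g)) = χ(g ^ t')`, and `σ(ε) = ε`. Apply the assumption to
`k ^ t'`. -/
def S_RL : Prop := ∀ (G : Type) [Group G] [Fintype G] (p : ℕ), p.Prime → ∀ (l : G →* ℂˣ) (c : ℂˣ),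
  orderOf c = p → ∀ (H : Subgroup G) (χ : G → ℂ) (ψ : H → ℂ), IsIrr χ → IsIrr ψ → ∀ ε : ℤ,
  (∀ k : H, l k = c → χ k = ε * ψ k) → ∀ t : ℕ, ¬ p ∣ t → ∀ k : H, l k = c ^ t → χ k = ε * ψ k

/-- TI. `H` contains every `g ∈ G` which conjugates an element of `H ∩ K` outside `N` into `H`, and
every element of `K` outside `N` is conjugate under `N` to an element of `H`. Proof: `K = N⟨y⟩` with
the Sylow `p`-subgroup `P ∩ K` satisfies `Q21.CO.Dat` in the group `K` (`C_K(x) = C_N(x)⟨x⟩`), so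
`Dat.setup` gives the statement for `g ∈ K` and elements of `yN`, and `TI.pow` for the elements of
`yᵗN`, `t` prime to `p`; for `g = n h` reduce to `n`. -/
def S_TI : Prop := ∀ (G : Type) [Group G] [Fintype G] (p : ℕ) [Fact p.Prime] (N : Subgroup G)
  (y : G) (H : Subgroup G) (P : Sylow p G), TD p N y H P →
  (∀ g h : G, h ∈ H → h ∈ KK N y → h ∉ N → g⁻¹ * h * g ∈ H → g ∈ H) ∧
  ∀ k ∈ KK N y, k ∉ N → ∃ n ∈ N, n⁻¹ * k * n ∈ H

/-- KC. The correspondence for `K = N⟨y⟩`. Proof: apply `Q21.CO` (`Dat.setup`, `Setup.right`,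
`Setup.left`, `Setup.right_unique`, `Setup.left_unique`) to the group `K`, its subgroup
`H ∩ K` and the Sylow `p`-subgroup `P ∩ K`, and RL; transport along
`↥(H.subgroupOf K) ≃* ↥(K.comap H.subtype)`. The congruence is `Q1.MK.deg_cong`. -/
def S_KC : Prop := ∀ (G : Type) [Group G] [Fintype G] (p : ℕ) [Fact p.Prime] (N : Subgroup G)
  (y : G) (H : Subgroup G) (P : Sylow p G), TD p N y H P →
  (∀ θ : KK N y → ℂ, IsIrr θ → (∃ k : KK N y, (k : G) ∉ N ∧ θ k ≠ 0) →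
    ∃ η : (KK N y).comap H.subtype → ℂ, IsIrr η ∧
      (∃ k : (KK N y).comap H.subtype, ((k : H) : G) ∉ N ∧ η k ≠ 0) ∧
      ∃ ε : ℤ, (ε = 1 ∨ (ε = -1 ∧ p ≠ 2)) ∧ Rl N (KK N y) H ε θ η) ∧
  (∀ η : (KK N y).comap H.subtype → ℂ, IsIrr η →
    (∃ k : (KK N y).comap H.subtype, ((k : H) : G) ∉ N ∧ η k ≠ 0) →
    ∃ θ : KK N y → ℂ, IsIrr θ ∧ (∃ k : KK N y, (k : G) ∉ N ∧ θ k ≠ 0) ∧
      ∃ ε : ℤ, (ε = 1 ∨ (ε = -1 ∧ p ≠ 2)) ∧ Rl N (KK N y) H ε θ η) ∧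
  (∀ (θ θ' : KK N y → ℂ) (η η' : (KK N y).comap H.subtype → ℂ) (ε ε' : ℤ),
    (ε = 1 ∨ (ε = -1 ∧ p ≠ 2)) → (ε' = 1 ∨ (ε' = -1 ∧ p ≠ 2)) →
    IsIrr θ → IsIrr θ' → IsIrr η → IsIrr η' → (∃ k : KK N y, (k : G) ∉ N ∧ θ k ≠ 0) →
    Rl N (KK N y) H ε θ η → Rl N (KK N y) H ε' θ' η' → (θ = θ' ↔ η = η')) ∧
  ∀ (θ : KK N y → ℂ) (η : (KK N y).comap H.subtype → ℂ) (ε : ℤ), IsIrr θ → IsIrr η →
    Rl N (KK N y) H ε θ η → ∀ a b : ℕ, (a : ℂ) = θ 1 → (b : ℂ) = η 1 →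
      (a : ℤ) ≡ ε * b [ZMOD p]

/-- EXT. Restriction and extension for a normal subgroup of prime index. Proof: choose
`μ : K →* ℂˣ` with kernel `N`. (1) `B(χ_N, χ_N) = ∑ⱼ B(χ, μʲ χ)` is `1` if the `μʲχ` are different,
and they are if `χ(k) ≠ 0` for some `k ∉ N` (`p` prime); use IRN. (2) By SQ (LFT gives the lifts)
`∑ e_χ² = p` over the `χ` over `θ`, `χ_N = e_χ θ`; if `χ` vanishes off `N` then
`1 = B(χ, χ) = e²/p`, impossible; so the `p` characters `μʲχ` are different and over `θ`, and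
`e_χ = 1`. (3) `θ̂` as in (2) does not vanish off `N`: otherwise `1 = B(θ̂, θ̂) = 1/p`. -/
def S_EXT : Prop := ∀ (K : Type) [Group K] [Fintype K] (N : Subgroup K) [N.Normal],
  N.index.Prime →
  (∀ χ : K → ℂ, IsIrr χ → (∃ k, k ∉ N ∧ χ k ≠ 0) → IsIrr (fun n : N => χ n)) ∧
  (∀ θ : N → ℂ, IsIrr θ → (∀ (k : K) (n : N), θ (MulAut.conjNormal k n) = θ n) →
    ∃ χ : K → ℂ, IsIrr χ ∧ ∀ n : N, χ n = θ n) ∧
  (∀ χ : K → ℂ, IsIrr χ → IsIrr (fun n : N => χ n) → ∃ k, k ∉ N ∧ χ k ≠ 0) ∧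
  ∀ χ χ' : K → ℂ, IsIrr χ → IsIrr χ' → IsIrr (fun n : N => χ n) → (∀ n : N, χ n = χ' n) →
    ∃ l : K →* ℂˣ, (∀ n : N, l n = 1) ∧ ∀ k, χ' k = (l k : ℂ) * χ k

end Pool.Agent.Q17.TC
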