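import Pool.Agent.Q17.TC.C6

/-!
# Transport of the canonical relation
-/

set_option autoImplicit false

open scoped BigOperators Classical
open Pool.Agent.Helper884 Representation Pool.Agent.H254R3.IN Pool.Agent.Y62

noncomputable section

namespace Pool.Agent.Q17.TC

/-- restriction of an automorphism to an invariant subgroup -/
def rst {G : Type} [Group G] (α : G ≃* G) {S : Subgroup G} (h : ∀ g, α g ∈ S ↔ g ∈ S) :
    S ≃* S where
  toFun x := ⟨α x, (h x).mpr x.2⟩
  invFun x := ⟨α.symm x, (h _).mp (by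
    rw [MulEquiv.apply_symm_apply]
    exact x.2)⟩
  left_inv x := Subtype.ext (α.symm_apply_apply _)
  right_inv x := Subtype.ext (α.apply_symm_apply _)
  map_mul' x y := Subtype.ext (map_mul α _ _)

/-- `α` is an automorphism of `G` which stabilises `N`, `H` and the coset `yN` -/
structure Al {G : Type} [Group G] (N : Subgroup G) (y : G) (H : Subgroup G) (α : G ≃* G) :
    Prop where
  aN : ∀ g, α g ∈ N ↔ g ∈ N
  aH : ∀ g, α g ∈ H ↔ g ∈ H
  ay : y⁻¹ * α y ∈ N

section

variable {G : Type} [Group G] {N : Subgroup G} {y : G} {H : Subgroup G} {α : G ≃* G}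

lemma Al.aK (al : Al N y H α) (g : G) : α g ∈ KK N y ↔ g ∈ KK N y := by
  have h1 : ∀ β : G ≃* G, (∀ g, g ∈ N → β g ∈ N) → β y ∈ KK N y → ∀ g ∈ KK N y, β g ∈ KK N y := by
    intro β h1 h2
    have h3 : KK N y ≤ (KK N y).comap β.toMonoidHom := by
      refine sup_le (fun n hn => le_KK (h1 n hn)) ?_
      rw [Subgroup.zpowers_le]
      exact h2
    exact fun g hg => h3 hg
  have h4 : α y ∈ KK N y := by
    have h5 := (KK N y).mul_mem y_mem (le_KK al.ay)
    rwa [mul_inv_cancel_left] at h5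
  have hs : ∀ g, g ∈ N → α.symm g ∈ N := by
    intro g hg
    rw [← al.aN, MulEquiv.apply_symm_apply]
    exact hg
  have h5 : α.symm y ∈ KK N y := by
    have h6 := le_KK (y := y) (hs _ al.ay)
    rw [map_mul, map_inv, MulEquiv.symm_apply_apply] at h6
    have h7 := (KK N y).mul_mem h6 ((KK N y).inv_mem y_mem)
    rw [mul_inv_cancel_right] at h7
    exact (KK N y).inv_mem_iff.mp h7
  constructor
  · intro hg
    have := h1 α.symm hs h5 _ hg
    rwa [MulEquiv.symm_apply_apply] at this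
  · exact h1 α (fun g hg => (al.aN g).mpr hg) h4 g

/-- the restriction to `K` -/
def Al.rK (al : Al N y H α) : KK N y ≃* KK N y := rst α al.aK

/-- the restriction to `H` -/
def Al.rH (al : Al N y H α) : H ≃* H := rst α al.aH

lemma Al.aKH (al : Al N y H α) (g : H) :
    al.rH g ∈ (KK N y).comap H.subtype ↔ g ∈ (KK N y).comap H.subtype := al.aK g

lemma Al.aM (al : Al N y H α) (g : H) :
    al.rH g ∈ N.comap H.subtype ↔ g ∈ N.comap H.subtype := al.aN g

/-- the restriction to `K ∩ H` -/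
def Al.rKH (al : Al N y H α) : (KK N y).comap H.subtype ≃* (KK N y).comap H.subtype :=
  rst al.rH al.aKH

end

section

variable {G : Type} [Group G] [Fintype G]

lemma B_gal (σ : ℂ ≃+* ℂ) (f g : G → ℂ) :
    IC.B (fun x => σ (f x)) (fun x => σ (g x)) = σ (IC.B f g) := by
  unfold IC.B
  rw [map_mul, map_inv₀, map_natCast, map_sum]
  congr 1
  exact Finset.sum_congr rfl fun x _ => (map_mul σ _ _).symm

lemma irr_gal (σ : ℂ ≃+* ℂ) {χ : G → ℂ} (h : IsIrr χ) : IsIrr (fun x => σ (χ x)) :=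
  Pool.Agent.Y824.GA.S_IRR _ σ _ h

lemma B_iso {A B : Type} [Group A] [Fintype A] [Group B] [Fintype B] (e : A ≃* B)
    (f g : B → ℂ) : IC.B (fun a => f (e a)) (fun a => g (e a)) = IC.B f g := by
  unfold IC.B
  rw [Nat.card_congr e.toEquiv]
  congr 1
  refine Fintype.sum_equiv e.toEquiv _ _ fun a => ?_
  change f (e a) * g (e a⁻¹) = f (e a) * g (e a)⁻¹
  rw [map_inv]

omit [Fintype G] in
lemma mem_St_tr {N : Subgroup G} [N.Normal] {α : G ≃* G} (aN : ∀ g, α g ∈ N ↔ g ∈ N)
    (σ : ℂ ≃+* ℂ) {θ θ₂ : N → ℂ} (hθ : ∀ n : N, θ₂ n = σ (θ (rst α aN n))) {g : G} :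
    g ∈ St θ₂ ↔ α g ∈ St θ := by
  have h1 : ∀ n : N, rst α aN (MulAut.conjNormal g n) =
      MulAut.conjNormal (α g) (rst α aN n) := by
    intro n
    apply Subtype.ext
    change α (g * n * g⁻¹) = α g * α n * (α g)⁻¹
    rw [map_mul, map_mul, map_inv]
  rw [mem_St, mem_St]
  constructor
  · intro h n
    obtain ⟨n, rfl⟩ := (rst α aN).surjective n
    apply σ.injective
    rw [← h1, ← hθ, ← hθ, h]
  · intro h n
    rw [hθ, hθ, h1, h]

/-- transport of Clifford correspondents -/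
lemma Cf.transport {N : Subgroup G} [N.Normal] {α : G ≃* G} (aN : ∀ g, α g ∈ N ↔ g ∈ N)
    (σ : ℂ ≃+* ℂ) {θ θ₂ : N → ℂ} (hθ : ∀ n : N, θ₂ n = σ (θ (rst α aN n))) {χ ξ : G → ℂ}
    (c : Cf θ χ ξ) : Cf θ₂ (fun g => σ (χ (α g))) (fun g => σ (ξ (α g))) := by
  have hm : ∀ g, g ∈ St θ₂ ↔ α g ∈ St θ := fun g => mem_St_tr aN σ hθ
  let E : St θ₂ ≃* St θ :=
    { toFun := fun t => ⟨α t, (hm t).mp t.2⟩
      invFun := fun t => ⟨α.symm t, (hm _).mpr (by
        rw [MulEquiv.apply_symm_apply]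
        exact t.2)⟩
      left_inv := fun t => Subtype.ext (α.symm_apply_apply _)
      right_inv := fun t => Subtype.ext (α.apply_symm_apply _)
      map_mul' := fun s t => Subtype.ext (map_mul α _ _) }
  let E' : N.comap (St θ₂).subtype ≃* N.comap (St θ).subtype :=
    { toFun := fun t => ⟨E t, (aN _).mpr t.2⟩
      invFun := fun t => ⟨E.symm t, (aN _).mp (by
        change (E (E.symm (t : St θ)) : G) ∈ N
        rw [MulEquiv.apply_symm_apply]
        exact t.2)⟩
      left_inv := fun t => Subtype.ext (E.symm_apply_apply _)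
      right_inv := fun t => Subtype.ext (E.apply_symm_apply _)
      map_mul' := fun s t => Subtype.ext (map_mul E _ _) }
  refine ⟨fun g hg => ?_, ?_, ?_, fun g => ?_⟩
  · rw [c.zero _ (fun h => hg ((hm g).mpr h)), map_zero]
  · exact irr_gal σ (irr_comp c.irr E)
  · unfold Ov
    have h1 : (fun n : N.comap (St θ₂).subtype => θ₂ ⟨n, n.2⟩) =
        fun n => σ ((fun k : N.comap (St θ).subtype => θ ⟨k, k.2⟩) (E' n)) := by
      funext n
      exact hθ _
    rw [h1]
    have h2 := B_gal σ (fun n => (fun k : N.comap (St θ).subtype => ξ k) (E' n))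
      (fun n => (fun k : N.comap (St θ).subtype => θ ⟨k, k.2⟩) (E' n))
    rw [B_iso E' (fun k : N.comap (St θ).subtype => ξ k)
      (fun k : N.comap (St θ).subtype => θ ⟨k, k.2⟩)] at h2
    intro h3
    apply c.ov
    apply σ.injective
    rw [map_zero, ← h3]
    exact h2.symm
  · rw [c.ind, map_mul, map_inv₀, map_natCast, map_sum, Nat.card_congr E.toEquiv]
    congr 1
    symm
    refine Fintype.sum_equiv α.toEquiv _ _ fun x => ?_
    change σ (ξ (α (x⁻¹ * g * x))) = σ (ξ ((α x)⁻¹ * α g * α x))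
    rw [map_mul, map_mul, map_inv]

end

section gd

variable {G : Type} [Group G] [Fintype G] {N : Subgroup G} {y : G} {H : Subgroup G} {p : ℕ}
  {W W' W₂ W₂' : Type} [AddCommGroup W] [Module ℂ W] [FiniteDimensional ℂ W]
  [AddCommGroup W'] [Module ℂ W'] [FiniteDimensional ℂ W']
  [AddCommGroup W₂] [Module ℂ W₂] [FiniteDimensional ℂ W₂]
  [AddCommGroup W₂'] [Module ℂ W₂'] [FiniteDimensional ℂ W₂']
  {R : Representation ℂ (KK N y) W} {R' : Representation ℂ ((KK N y).comap H.subtype) W'}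
  {R₂ : Representation ℂ (KK N y) W₂} {R₂' : Representation ℂ ((KK N y).comap H.subtype) W₂'}
  {ε : ℤ} {α : G ≃* G} {σ : ℂ ≃+* ℂ} {e : W ≃+ W₂} {e' : W' ≃+ W₂'} {m : KK N y →* ℂˣ}

omit [Fintype G] [FiniteDimensional ℂ W₂] in
lemma ch_tr {A : Type} [Group A] {R : Representation ℂ A W} {R₂ : Representation ℂ A W₂}
    {α : A ≃* A} {m : A →* ℂˣ} (he : Sem σ e)
    (hR : ∀ x w, e (R (α x) w) = ((m x : ℂˣ) : ℂ) • R₂ x (e w)) (x : A) :
    R₂.character x = ((m⁻¹ x : ℂˣ) : ℂ) * σ (R.character (α x)) := by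
  have h1 := he.trace (R (α x)) (((m x : ℂˣ) : ℂ) • R₂ x) (fun w => (hR x w).symm)
  rw [map_smul] at h1
  change _ * R₂.character x = σ (R.character (α x)) at h1
  rw [← h1, MonoidHom.inv_apply, Units.val_inv_eq_inv_val,
    inv_mul_cancel_left₀ (Units.ne_zero _)]

/-- transport of the data -/
lemma SD.transport (hom : S_HOM) (al : Al N y H α) (he : Sem σ e) (he' : Sem σ e')
    (hR : ∀ x w, e (R (al.rK x) w) = ((m x : ℂˣ) : ℂ) • R₂ x (e w))
    (hR' : ∀ x w, e' (R' (al.rKH x) w) =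
      ((m (ci H.subtype (KK N y) x) : ℂˣ) : ℂ) • R₂' x (e' w))
    (s : SD p N y H R R' ε) : SD p N y H R₂ R₂' ε := by
  have h1 : IsIrr R.character := ⟨W, _, _, inferInstance, R, s.irr, rfl⟩
  have h2 : IsIrr R'.character := ⟨W', _, _, inferInstance, R', s.irr', rfl⟩
  have c1 := ch_tr he hR
  have c2 := ch_tr (m := m.comp (ci H.subtype (KK N y))) he' hR'
  refine ⟨?_, ?_, ?_, ?_, s.eps, ?_⟩
  · apply irr_of_char hom
    have h3 : R₂.character = fun x => ((m⁻¹ x : ℂˣ) : ℂ) * σ (R.character (al.rK x)) := funext c1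
    rw [h3]
    exact irr_twist (irr_gal σ (irr_comp h1 al.rK)) m⁻¹
  · apply irr_of_char hom
    have h3 : R₂'.character = fun x => (((m.comp (ci H.subtype (KK N y)))⁻¹ x : ℂˣ) : ℂ) *
        σ (R'.character (al.rKH x)) := funext c2
    rw [h3]
    exact irr_twist (irr_gal σ (irr_comp h2 al.rKH)) _
  · obtain ⟨k, hk, hk'⟩ := s.nv
    refine ⟨al.rK.symm k, fun h => hk ?_, ?_⟩
    · have h3 := (al.aN _).mpr h
      have h4 : α (al.rK.symm k : G) = k := congrArg Subtype.val (al.rK.apply_symm_apply k)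
      rwa [h4] at h3
    · rw [c1, MulEquiv.apply_symm_apply]
      exact mul_ne_zero (Units.ne_zero _) (fun h => hk' (σ.injective (by rw [h, map_zero])))
  · obtain ⟨k, hk, hk'⟩ := s.nv'
    refine ⟨al.rKH.symm k, fun h => hk ?_, ?_⟩
    · have h3 := (al.aN _).mpr h
      have h4 : α ((al.rKH.symm k : H) : G) = k :=
        congrArg (fun z : (KK N y).comap H.subtype => ((z : H) : G)) (al.rKH.apply_symm_apply k)
      rwa [h4] at h3
    · rw [c2, MulEquiv.apply_symm_apply]
      exact mul_ne_zero (Units.ne_zero _) (fun h => hk' (σ.injective (by rw [h, map_zero])))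
  · intro h hk hn
    rw [c1, c2]
    have h3 := s.val (al.rH h) ((al.aK h).mpr hk) (fun h4 => hn ((al.aN h).mp h4))
    have h4 : R.character (al.rK ⟨h, hk⟩) = ε * R'.character (al.rKH ⟨h, hk⟩) := h3
    rw [h4, map_mul, map_intCast]
    have h5 : (m.comp (ci H.subtype (KK N y)))⁻¹ ⟨h, hk⟩ = m⁻¹ ⟨h, hk⟩ := rfl
    rw [h5]
    ring

variable [N.Normal] [(KK N y).Normal] [hp : Fact p.Prime] {P : Sylow p G}

omit hp in
/-- **Transport of the relation.** -/
theorem GD.transport (hom : S_HOM) (trp : S_TRP) (hfin : Finite (Ln (jK N y H) (BK N y)))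
    (al : Al N y H α) (he : Sem σ e)
    (he' : Sem σ e') (hm : ∀ x : KK N y, (x : G) ∈ N → m x = 1)
    (hR : ∀ x w, e (R (al.rK x) w) = ((m x : ℂˣ) : ℂ) • R₂ x (e w))
    (hR' : ∀ x w, e' (R' (al.rKH x) w) =
      ((m (ci H.subtype (KK N y) x) : ℂˣ) : ℂ) • R₂' x (e' w))
    {χ : G → ℂ} {ψ : H → ℂ} {ξ : G → ℂ} {ξ' : H → ℂ} (g : GD p N y H R R' ε χ ψ ξ ξ') :
    GD p N y H R₂ R₂' ε (fun g => σ (χ (α g))) (fun h => σ (ψ (al.rH h)))
      (fun g => σ (ξ (α g))) (fun h => σ (ξ' (al.rH h))) := by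
  have c1 := ch_tr he hR
  have c2 := ch_tr (m := m.comp (ci H.subtype (KK N y))) he' hR'
  have r1 : ∀ n : N, rN R₂ n = σ (rN R (rst α al.aN n)) := by
    intro n
    unfold rN
    rw [c1, MonoidHom.inv_apply, hm _ n.2, inv_one, Units.val_one, one_mul]
    rfl
  have r2 : ∀ n : N.comap H.subtype, rM R₂' n = σ (rM R' (rst al.rH al.aM n)) := by
    intro n
    unfold rM
    have h1 : (m.comp (ci H.subtype (KK N y))) ⟨n, le_KK n.2⟩ = 1 := hm _ n.2
    rw [c2, MonoidHom.inv_apply, h1, inv_one, Units.val_one, one_mul]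
    rfl
  have ov_tr : ∀ {A : Type} [Group A] [Fintype A] (M : Subgroup A) (β : A ≃* A)
      (aM : ∀ g, β g ∈ M ↔ g ∈ M) (χ : A → ℂ) (θ θ₂ : M → ℂ)
      (_ : ∀ n : M, θ₂ n = σ (θ (rst β aM n))), Ov M χ θ → Ov M (fun g => σ (χ (β g))) θ₂ := by
    intro A _ _ M β aM χ θ θ₂ hθ ho h3
    apply ho
    apply σ.injective
    rw [map_zero, ← h3, funext hθ, ← B_iso (rst β aM) (fun n : M => χ n) θ, ← B_gal]
    rfl
  refine ⟨g.sd.transport hom al he he' hR hR', irr_gal σ (irr_comp g.irr α),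
    irr_gal σ (irr_comp g.irr' al.rH), ov_tr N α al.aN χ _ _ r1 g.ov,
    ov_tr _ al.rH al.aM ψ _ _ r2 g.ov', g.cf.transport al.aN σ r1, g.cf'.transport al.aM σ r2, ?_⟩
  intro h u₂ u₂' hch
  -- the conjugate lifts
  let u : W ≃ₗ[ℂ] W :=
    { toFun := fun w => e.symm (u₂ (e w))
      map_add' := fun a b => by rw [map_add, map_add, map_add]
      map_smul' := fun c a => by
        rw [he, map_smul, he.symm, RingEquiv.symm_apply_apply, RingHom.id_apply]
      invFun := fun w => e.symm (u₂.symm (e w))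
      left_inv := fun w => by simp
      right_inv := fun w => by simp }
  let u' : W' ≃ₗ[ℂ] W' :=
    { toFun := fun w => e'.symm (u₂' (e' w))
      map_add' := fun a b => by rw [map_add, map_add, map_add]
      map_smul' := fun c a => by
        rw [he', map_smul, he'.symm, RingEquiv.symm_apply_apply, RingHom.id_apply]
      invFun := fun w => e'.symm (u₂'.symm (e' w))
      left_inv := fun w => by simp
      right_inv := fun w => by simp }
  have hu : ∀ w, u₂ (e w) = e (u w) := fun w => (e.apply_symm_apply _).symm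
  have hu' : ∀ w, u₂' (e' w) = e' (u' w) := fun w => (e'.apply_symm_apply _).symm
  have hc : CH p R R' (al.rH h) u u' := by
    refine CP.transport (α := al.rK) (α' := al.rKH) (m := m) trp hfin (fun x => rfl)
      (fun x => al.aN x) he he' (fun x hx => hm x hx) hR hR' ?_ ?_ ?_ (fun x => rfl) hu hu' hch
    · intro x
      apply Subtype.ext
      change α h * α x * (α h)⁻¹ = α (h * x * (h : G)⁻¹)
      rw [map_mul, map_mul, map_inv]
    · intro x
      apply Subtype.ext
      apply Subtype.ext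
      change α h * α (x : H) * (α h)⁻¹ = α (h * (x : H) * (h : G)⁻¹)
      rw [map_mul, map_mul, map_inv]
    · intro x
      change (h : G) * x * (h : G)⁻¹ ∈ N ↔ (x : G) ∈ N
      constructor
      · intro h1
        have h2 := (inferInstance : N.Normal).conj_mem _ h1 (h : G)⁻¹
        have e1 : (h : G)⁻¹ * (h * x * (h : G)⁻¹) * (h : G)⁻¹⁻¹ = x := by group
        rwa [e1] at h2
      · intro h1
        exact (inferInstance : N.Normal).conj_mem _ h1 _
  obtain ⟨s, h1, h2⟩ := g.cc (al.rH h) u u' hc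
  refine ⟨σ s, fun n => ?_, fun n => ?_⟩
  · have h3 := h1 (rst α al.aN n)
    have h4 : α (n * h) = (rst α al.aN n : N) * (al.rH h : G) := map_mul α _ _
    rw [h4, h3, map_mul]
    congr 1
    symm
    refine he.trace _ _ fun w => ?_
    rw [LinearMap.comp_apply, LinearMap.comp_apply, LinearEquiv.coe_coe, LinearEquiv.coe_coe, hu]
    have h5 := hR ⟨n, le_KK n.2⟩ (u w)
    rw [hm _ n.2, Units.val_one, one_smul] at h5
    exact h5.symm
  · have h3 := h2 (rst al.rH al.aM n)
    have h4 : al.rH (n * h) = (rst al.rH al.aM n : N.comap H.subtype) * al.rH h := map_mul al.rH _ _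
    rw [h4, h3, map_mul]
    congr 1
    symm
    refine he'.trace _ _ fun w => ?_
    rw [LinearMap.comp_apply, LinearMap.comp_apply, LinearEquiv.coe_coe, LinearEquiv.coe_coe, hu']
    have h5 := hR' ⟨n, le_KK n.2⟩ (u' w)
    have h6 : m (ci H.subtype (KK N y) ⟨n, le_KK n.2⟩) = 1 := hm _ n.2
    rw [h6, Units.val_one, one_smul] at h5
    exact h5.symm

end gd

end Pool.Agent.Q17.TC
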