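import Pool.Agent.Q17.TC.ASM3

/-!
# Clifford theory and the global bijection
-/

set_option autoImplicit false

open scoped BigOperators Classical
open Pool.Agent.Helper884 Representation Pool.Agent.H254R3.IN Pool.Agent.Y62

noncomputable section

namespace Pool.Agent.Q17.TC

section clif

variable {G : Type} [Group G] [Fintype G] {N : Subgroup G} [N.Normal]

/-- the restriction of a character of `G` over `θ` -/
lemma clif (hom : S_HOM) (lft : S_LFT) (sq : S_SQ) (cl : S_CL) {θ : N → ℂ} (hθ : IsIrr θ)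
    {χ : G → ℂ} (hχ : IsIrr χ) (ho : Ov N χ θ) : ∃ (e : ℕ) (c : ℂ), χ 1 = e * θ 1 ∧
      ∀ n : N, χ n = c * ∑ g : G, θ (MulAut.conjNormal g n) := by
  set T : Subgroup G := St θ with hT
  have hNT : N ≤ T := by
    intro n hn m
    rw [← hθ.conj m ⟨n, hn⟩]
    congr 1
  obtain ⟨f, hf⟩ := cl G N θ hθ T (fun g => Iff.rfl)
  obtain ⟨ξ, hξ⟩ := f.surjective ⟨χ, hχ, ho⟩
  obtain ⟨W, _, _, _, ρ₀, -, hρ₀⟩ := id hθ
  let ρ : Representation ℂ (N.comap T.subtype) W := ρ₀.comp (eT hNT)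
  have hρ : ρ.character = fun n => θ (eT hNT n) := by
    rw [hρ₀]
    rfl
  have hirr : ρ.IsIrreducible := by
    apply irr_of_char hom
    rw [hρ]
    exact irr_comp hθ _
  obtain ⟨e, -, he⟩ := (sq T W (N.comap T.subtype) ρ hirr (fun g => lft T W _ ρ hirr g (by
    intro n
    rw [hρ]
    exact g.2 (eT hNT n)))).1 ξ.1 ξ.2.1 (by
    rw [hρ]
    exact ξ.2.2)
  have h1 : ∀ n : N, ξ.1 ⟨n, hNT n.2⟩ = e * θ n := by
    intro n
    have h2 := he ⟨⟨n, hNT n.2⟩, n.2⟩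
    rw [hρ] at h2
    exact h2
  have hχ' : ∀ g, χ g = (Nat.card T : ℂ)⁻¹ *
      ∑ x : G, (if h : x⁻¹ * g * x ∈ T then ξ.1 ⟨x⁻¹ * g * x, h⟩ else 0) := by
    intro g
    rw [← hf ξ g, hξ]
  refine ⟨T.index * e, (Nat.card T : ℂ)⁻¹ * e, ?_, fun n => ?_⟩
  · rw [hχ' 1, ind_one]
    have h2 := h1 1
    have h3 : (⟨((1 : N) : G), hNT (1 : N).2⟩ : T) = 1 := rfl
    rw [h3] at h2
    rw [h2]
    push_cast
    ring
  · rw [hχ' n, mul_assoc]
    congr 1
    rw [Finset.mul_sum]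
    refine Fintype.sum_equiv (Equiv.inv G) _ _ fun x => ?_
    have h2 : x⁻¹ * n * x ∈ N := by
      have := (inferInstance : N.Normal).conj_mem _ n.2 x⁻¹
      simpa using this
    rw [dif_pos (hNT h2), h1 ⟨_, h2⟩]
    congr 2
    apply Subtype.ext
    simp

lemma ov_conj {θ : N → ℂ} {χ : G → ℂ} (hχ : IsIrr χ) (g : G) :
    Ov N χ (fun n => θ (MulAut.conjNormal g n)) ↔ Ov N χ θ := by
  have h1 : IC.B (fun n : N => χ n) (fun n => θ (MulAut.conjNormal g n)) =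
      IC.B (fun n : N => χ n) θ := by
    unfold IC.B
    congr 1
    refine Fintype.sum_equiv (MulAut.conjNormal g : MulAut N).toEquiv _ _ fun n => ?_
    change χ (n : G) * θ (MulAut.conjNormal g n⁻¹) =
      χ ((MulAut.conjNormal g n : N) : G) * θ (MulAut.conjNormal g n)⁻¹
    have h2 : χ ((MulAut.conjNormal g n : N) : G) = χ n := by
      rw [← hχ.conj n g]
      rfl
    rw [h2, map_inv]
  unfold Ov
  rw [h1]

lemma clif_conj (hom : S_HOM) (lft : S_LFT) (sq : S_SQ) (cl : S_CL) {θ θ' : N → ℂ}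
    (hθ : IsIrr θ) (hθ' : IsIrr θ') {χ : G → ℂ} (hχ : IsIrr χ) (ho : Ov N χ θ)
    (ho' : Ov N χ θ') : ∃ g : G, θ' = fun n => θ (MulAut.conjNormal g n) := by
  obtain ⟨e, c, -, h1⟩ := clif hom lft sq cl hθ hχ ho
  by_contra hne
  push Not at hne
  apply ho'
  have h2 : (fun n : N => χ n) = c • ∑ g : G, fun n => θ (MulAut.conjNormal g n) := by
    funext n
    rw [Pi.smul_apply, Finset.sum_apply]
    exact h1 n
  rw [h2, IC.B_smul_left, IC.B_sum_left, Finset.sum_eq_zero, mul_zero]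
  intro g _
  rw [IC.B_irr (irr_comp hθ _) hθ', if_neg (fun h => hne g h.symm)]

omit [Fintype G] in
lemma st_conj {θ : N → ℂ} (hθ : IsIrr θ) {y g : G} (hy : y ∈ St θ)
    (hc : g * y * g⁻¹ * y⁻¹ ∈ N) : y ∈ St (fun n => θ (MulAut.conjNormal g n)) := by
  intro n
  have h1 : N ≤ St θ := by
    intro n hn m
    rw [← hθ.conj m ⟨n, hn⟩]
    congr 1
  have h2 : g * y * g⁻¹ ∈ St θ := by
    have h3 := (St θ).mul_mem (h1 hc) hy
    rwa [inv_mul_cancel_right] at h3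
  have h3 := h2 (MulAut.conjNormal g n)
  simp only
  rw [← h3]
  congr 1
  apply Subtype.ext
  simp [mul_assoc]

omit [Fintype G] in
lemma conj_mul {θ : N → ℂ} (hθ : IsIrr θ) {n h : G} (hn : n ∈ N) :
    (fun m => θ (MulAut.conjNormal (n * h) m)) = fun m => θ (MulAut.conjNormal h m) := by
  funext m
  rw [← hθ.conj (MulAut.conjNormal h m) ⟨n, hn⟩]
  congr 1
  apply Subtype.ext
  simp [mul_assoc]

end clif

lemma sig_eq {A Q : Type} {R : Q → A → Prop} {q q' : Q} (h : q = q') {a : A} (ha : R q a)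
    (ha' : R q' a) : (⟨q, ⟨a, ha⟩⟩ : Σ q, {a // R q a}) = ⟨q', ⟨a, ha'⟩⟩ := by
  subst h
  rfl

/-- gluing along a partition -/
lemma glue {A Q : Type} (P : A → Prop) (R : Q → A → Prop) (h1 : ∀ a, P a ↔ ∃ q, R q a)
    (h2 : ∀ q q' a, R q a → R q' a → q = q') :
    ∃ e : {a // P a} ≃ (Σ q, {a // R q a}), ∀ x, ((e x).2 : A) = x := by
  classical
  refine ⟨{ toFun := fun a => ⟨((h1 a).mp a.2).choose, a, ((h1 a).mp a.2).choose_spec⟩
            invFun := fun x => ⟨x.2, (h1 _).mpr ⟨x.1, x.2.2⟩⟩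
            left_inv := fun a => rfl
            right_inv := ?_ }, fun x => rfl⟩
  rintro ⟨q, a, ha⟩
  have h3 : ((h1 a).mp ((h1 a).mpr ⟨q, ha⟩)).choose = q :=
    h2 _ _ a ((h1 a).mp ((h1 a).mpr ⟨q, ha⟩)).choose_spec ha
  exact sig_eq h3 _ ha

/-- gluing of bijections over the classes of an equivalence relation -/
theorem glue2 {A B I J : Type} (PA : A → Prop) (PB : B → Prop) (OA : A → I → Prop)
    (OB : B → J → Prop) (F : I ≃ J) (r : I → I → Prop) (hr : Equivalence r)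
    (hA : ∀ a, PA a → ∀ i i', r i i' → OA a i → OA a i')
    (hB : ∀ b, PB b → ∀ i i', r i i' → OB b (F i) → OB b (F i'))
    (hA2 : ∀ a, PA a → ∀ i i', OA a i → OA a i' → r i i')
    (hB2 : ∀ b, PB b → ∀ i i', OB b (F i) → OB b (F i') → r i i')
    (e : ∀ i, {a // PA a ∧ OA a i} ≃ {b // PB b ∧ OB b (F i)}) :
    ∃ f : {a // PA a ∧ ∃ i, OA a i} ≃ {b // PB b ∧ ∃ j, OB b j},
      (∀ a i, OA a.1 i ↔ OB (f a).1 (F i)) ∧
      ∀ a, ∃ (q : I) (h : PA a.1 ∧ OA a.1 q), (f a).1 = (e q ⟨a.1, h⟩).1 := by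
  let S : Setoid I := ⟨r, hr⟩
  have hout : ∀ i : I, r (Quotient.mk S i).out i := fun i => Quotient.mk_out (s := S) i
  obtain ⟨a, ha⟩ := glue (fun x : A => PA x ∧ ∃ i, OA x i)
    (fun (q : Quotient S) x => PA x ∧ OA x q.out) (fun x => by
      constructor
      · rintro ⟨h1, i, h2⟩
        exact ⟨Quotient.mk S i, h1, hA x h1 _ _ (hr.symm (hout i)) h2⟩
      · rintro ⟨q, h1, h2⟩
        exact ⟨h1, q.out, h2⟩)
    (fun q q' x h1 h2 => by
      have h3 : Quotient.mk S q.out = Quotient.mk S q'.out :=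
        Quotient.sound (hA2 x h1.1 _ _ h1.2 h2.2)
      rwa [Quotient.out_eq, Quotient.out_eq] at h3)
  obtain ⟨b, hb⟩ := glue (fun x : B => PB x ∧ ∃ j, OB x j)
    (fun (q : Quotient S) x => PB x ∧ OB x (F q.out)) (fun x => by
      constructor
      · rintro ⟨h1, j, h2⟩
        obtain ⟨i, rfl⟩ := F.surjective j
        exact ⟨Quotient.mk S i, h1, hB x h1 _ _ (hr.symm (hout i)) h2⟩
      · rintro ⟨q, h1, h2⟩
        exact ⟨h1, F q.out, h2⟩)
    (fun q q' x h1 h2 => by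
      have h3 : Quotient.mk S q.out = Quotient.mk S q'.out :=
        Quotient.sound (hB2 x h1.1 _ _ h1.2 h2.2)
      rwa [Quotient.out_eq, Quotient.out_eq] at h3)
  let f := a.trans ((Equiv.sigmaCongrRight fun q : Quotient S => e q.out).trans b.symm)
  have hf : ∀ x, ∃ (q : I) (h : PA x.1 ∧ OA x.1 q), (f x).1 = (e q ⟨x.1, h⟩).1 := by
    intro x
    have h1 := ha x
    have h2 := hb (f x)
    have h3 : b (f x) = (Equiv.sigmaCongrRight fun q : Quotient S => e q.out) (a x) :=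
      b.apply_symm_apply _
    rw [h3] at h2
    refine ⟨(a x).1.out, ⟨x.2.1, ?_⟩, ?_⟩
    · have h4 := (a x).2.2.2
      rwa [h1] at h4
    · rw [← h2]
      change ((e (a x).1.out (a x).2).1 : B) = _
      congr 2
      exact Subtype.ext h1
  refine ⟨f, fun x i => ?_, hf⟩
  obtain ⟨q, h, h1⟩ := hf x
  have h2 := (e q ⟨x.1, h⟩).2
  rw [← h1] at h2
  constructor
  · intro h3
    exact hB _ h2.1 _ _ (hA2 _ h.1 _ _ h.2 h3) h2.2
  · intro h3
    exact hA _ h.1 _ _ (hB2 _ h2.1 _ _ h2.2 h3) h.2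

end Pool.Agent.Q17.TC
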