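import Pool.Agent.Q17.TC.ASM2

/-!
# The relation between `y`-invariant characters of `N` and of `N ∩ H`
-/

set_option autoImplicit false

open scoped BigOperators Classical
open Pool.Agent.Helper884 Representation Pool.Agent.H254R3.IN Pool.Agent.Y62

noncomputable section

namespace Pool.Agent.Q17.TC

section grp

variable {G : Type} [Group G] {N : Subgroup G} {y : G}

lemma le_KK : N ≤ KK N y := le_sup_left

lemma y_mem : y ∈ KK N y := Subgroup.mem_sup_right (Subgroup.mem_zpowers y)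

lemma KK_com [N.Normal] (hcen : ∀ g : G, g * y * g⁻¹ * y⁻¹ ∈ N) :
    ∀ g k, k ∈ KK N y → g * k * g⁻¹ * k⁻¹ ∈ N := by
  intro g k hk
  have h1 : KK N y ≤ (Subgroup.center (G ⧸ N)).comap (QuotientGroup.mk' N) := by
    refine sup_le (fun n hn => ?_) ?_
    · have h2 : (QuotientGroup.mk' N) n = 1 := (QuotientGroup.eq_one_iff n).mpr hn
      rw [Subgroup.mem_comap, h2]
      exact Subgroup.one_mem _
    · rw [Subgroup.zpowers_le, Subgroup.mem_comap, Subgroup.mem_center_iff]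
      intro q
      obtain ⟨g, rfl⟩ := QuotientGroup.mk'_surjective N q
      have h2 : (QuotientGroup.mk' N) (g * y * g⁻¹ * y⁻¹) = 1 :=
        (QuotientGroup.eq_one_iff _).mpr (hcen g)
      rw [map_mul, map_mul, map_mul, map_inv, map_inv, mul_inv_eq_one, mul_inv_eq_iff_eq_mul] at h2
      exact h2
  have h2 := Subgroup.mem_center_iff.mp (h1 hk) ((QuotientGroup.mk' N) g)
  have h3 : (QuotientGroup.mk' N) (g * k * g⁻¹ * k⁻¹) = 1 := by
    rw [map_mul, map_mul, map_mul, map_inv, map_inv, mul_inv_eq_one, mul_inv_eq_iff_eq_mul]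
    exact h2
  exact (QuotientGroup.eq_one_iff _).mp h3

lemma KK_normal [N.Normal] (hcen : ∀ g : G, g * y * g⁻¹ * y⁻¹ ∈ N) : (KK N y).Normal := by
  refine ⟨fun k hk g => ?_⟩
  have h1 := KK_com hcen g k hk
  have h2 := (KK N y).mul_mem (le_KK h1) hk
  rwa [inv_mul_cancel_right] at h2

lemma KK_idx [N.Normal] {p : ℕ} (hp : p.Prime) (hyN : y ∉ N) (hyp : y ^ p ∈ N) :
    N.relIndex (KK N y) = p := by
  rw [KK, Subgroup.relIndex_sup_left]
  have h1 := Subgroup.relIndex_ker (Subgroup.zpowers y) (QuotientGroup.mk' N)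
  rw [QuotientGroup.ker_mk'] at h1
  rw [h1, MonoidHom.map_zpowers, Nat.card_zpowers]
  have : Fact p.Prime := ⟨hp⟩
  apply orderOf_eq_prime
  · rw [← map_pow]
    exact (QuotientGroup.eq_one_iff _).mpr hyp
  · exact fun h => hyN ((QuotientGroup.eq_one_iff _).mp h)

end grp

/-- linear characters extend from `K ∩ H` to `K` -/
lemma ext_lin {G H : Type} [Group G] [Group H] (i : H →* G) {N K : Subgroup G} [N.Normal]
    (hGH : ∀ g : G, ∃ n ∈ N, ∃ h, g = n * i h) (hNK : N ≤ K) (l : K.comap i →* ℂˣ)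
    (hl : ∀ k : K.comap i, i k ∈ N → l k = 1) :
    ∃ l' : K →* ℂˣ, (∀ k : K, (k : G) ∈ N → l' k = 1) ∧ ∀ k, l' (ci i K k) = l k := by
  set f : K.comap i →* K ⧸ N.subgroupOf K := (QuotientGroup.mk' (N.subgroupOf K)).comp (ci i K)
    with hf
  have hker : ∀ k, f k = 1 ↔ i k ∈ N := by
    intro k
    rw [hf, MonoidHom.comp_apply]
    constructor
    · intro h
      exact Subgroup.mem_subgroupOf.mp ((QuotientGroup.eq_one_iff _).mp h)
    · intro h
      exact (QuotientGroup.eq_one_iff _).mpr (Subgroup.mem_subgroupOf.mpr h)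
  have hsurj : Function.Surjective f := by
    intro q
    obtain ⟨k, rfl⟩ := QuotientGroup.mk'_surjective _ q
    obtain ⟨n, hn, x, hx⟩ := hGH k
    have hxK : i x ∈ K := by
      have h2 := K.mul_mem (K.inv_mem (hNK hn)) k.2
      rwa [hx, inv_mul_cancel_left] at h2
    refine ⟨⟨x, hxK⟩, ?_⟩
    have e : k = ⟨n, hNK hn⟩ * ci i K ⟨x, hxK⟩ := Subtype.ext hx
    rw [e, map_mul]
    have h1 : (QuotientGroup.mk' (N.subgroupOf K)) ⟨n, hNK hn⟩ = 1 :=
      (QuotientGroup.eq_one_iff _).mpr (Subgroup.mem_subgroupOf.mpr hn)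
    rw [h1, one_mul]
    rfl
  let L := f.liftOfSurjective hsurj ⟨l, fun k hk => hl k ((hker k).mp hk)⟩
  have hL : ∀ k, L (f k) = l k := fun k =>
    f.liftOfRightInverse_comp_apply _ (Function.rightInverse_surjInv hsurj) _ k
  refine ⟨L.comp (QuotientGroup.mk' (N.subgroupOf K)), fun k hk => ?_, fun k => hL k⟩
  have h1 : (QuotientGroup.mk' (N.subgroupOf K)) k = 1 :=
    (QuotientGroup.eq_one_iff _).mpr (Subgroup.mem_subgroupOf.mpr hk)
  rw [MonoidHom.comp_apply, h1, map_one]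

variable {G : Type} [Group G] [Fintype G] {p : ℕ} {N : Subgroup G} {y : G}
  {H : Subgroup G}

/-- corresponding characters `θ` of `N` and `η` of `N ∩ H`: there are extensions to `K` and to
`K ∩ H` which are equal up to sign outside `N`. -/
structure RR (p : ℕ) (N K H : Subgroup G) (hNK : N ≤ K) (θ : N → ℂ) (η : N.comap H.subtype → ℂ)
    (θ' : K → ℂ) (η' : K.comap H.subtype → ℂ) (ε : ℤ) : Prop where
  irr : IsIrr θ
  irr' : IsIrr η
  ext : IsIrr θ'
  ext' : IsIrr η'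
  res : ∀ n : N, θ' ⟨n, hNK n.2⟩ = θ n
  res' : ∀ m : N.comap H.subtype, η' ⟨m, hNK m.2⟩ = η m
  sgn : ε = 1 ∨ (ε = -1 ∧ p ≠ 2)
  val : Rl N K H ε θ' η'

/-- the relation `F θ = η` -/
def Rel (p : ℕ) (N K H : Subgroup G) (hNK : N ≤ K) (θ : N → ℂ) (η : N.comap H.subtype → ℂ) :
    Prop := ∃ θ' η' ε, RR p N K H hNK θ η θ' η' ε

omit [Fintype G] in
lemma irr_inv {K : Subgroup G} [N.Normal] (hNK : N ≤ K) {θ : K → ℂ} (h : IsIrr θ) {k : G}
    (hk : k ∈ K) (n : N) :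
    θ ⟨MulAut.conjNormal k n, hNK (MulAut.conjNormal k n).2⟩ = θ ⟨n, hNK n.2⟩ := by
  rw [← h.conj ⟨n, hNK n.2⟩ ⟨k, hk⟩]
  congr 1

omit [Fintype G] in
lemma inv_KK [N.Normal] {θ : N → ℂ} (hθ : IsIrr θ) (hy : y ∈ St θ) : KK N y ≤ St θ := by
  refine sup_le (fun n hn => ?_) (Subgroup.zpowers_le.mpr hy)
  intro m
  rw [← hθ.conj m ⟨n, hn⟩]
  congr 1

namespace TD

variable [hp : Fact p.Prime] {P : Sylow p G} (d : TD p N y H P)

include d

omit hp in
lemma nK : (KK N y).Normal := by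
  have := d.hN
  exact KK_normal d.hcen

lemma idx : N.relIndex (KK N y) = p := by
  have := d.hN
  exact KK_idx hp.out d.hyN d.hyp

lemma idx' : (N.relIndex (KK N y)).Prime := by
  rw [d.idx]
  exact hp.out

omit hp in
lemma hGH : ∀ g : G, ∃ n ∈ N, ∃ h : H, g = n * H.subtype h := by
  intro g
  obtain ⟨n, hn, x, hx, e⟩ := d.hNH g
  exact ⟨n, hn, ⟨x, hx⟩, e⟩

lemma idxH : ((N.comap H.subtype).relIndex ((KK N y).comap H.subtype)).Prime := by
  have := d.hN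
  rw [rel_comap H.subtype le_KK d.hGH]
  exact d.idx'

omit hp in
lemma hyH : y ∈ H := d.hPH d.hyP

/-- existence of the corresponding character -/
lemma rel_ex (ext : S_EXT) (kc : S_KC) [N.Normal] {θ : N → ℂ} (hθ : IsIrr θ) (hy : y ∈ St θ) :
    ∃ η, Rel p N (KK N y) H le_KK θ η := by
  obtain ⟨θ', h1, h2⟩ := ext2 ext le_KK d.idx' hθ (fun k hk => inv_KK hθ hy hk)
  have h3 : IsIrr (fun n : N => θ' ⟨n, le_KK n.2⟩) := by
    have : (fun n : N => θ' ⟨n, le_KK n.2⟩) = θ := funext h2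
    rw [this]
    exact hθ
  obtain ⟨η', h4, h5, ε, h6, h7⟩ := (kc G p N y H P d).1 θ' h1 (ext3 ext le_KK d.idx' h1 h3)
  refine ⟨fun m => η' ⟨m, le_KK m.2⟩, θ', η', ε, hθ, ?_, h1, h4, h2, fun _ => rfl, h6, h7⟩
  exact ext1 ext (Subgroup.comap_mono le_KK) d.idxH h4 h5

lemma rel_ex' (ext : S_EXT) (kc : S_KC) [N.Normal] {η : N.comap H.subtype → ℂ} (hη : IsIrr η)
    (hy : (⟨y, d.hyH⟩ : H) ∈ St η) : ∃ θ, Rel p N (KK N y) H le_KK θ η := by
  have hle : N.comap H.subtype ≤ (KK N y).comap H.subtype := Subgroup.comap_mono le_KK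
  have hst : (KK N y).comap H.subtype ≤ St η := by
    have h1 := inv_KK hη hy
    refine le_trans ?_ h1
    intro k hk
    have hk' : (k : G) ∈ ((N ⊔ Subgroup.zpowers y : Subgroup G) : Set G) := hk
    rw [Subgroup.normal_mul] at hk'
    obtain ⟨n, hn, z, hz, e⟩ := Set.mem_mul.mp hk'
    obtain ⟨j, rfl⟩ := Subgroup.mem_zpowers_iff.mp hz
    have h2 : n ∈ H := by
      have h3 : n = k * (y ^ j)⁻¹ := by rw [← e]; group
      rw [h3]
      exact H.mul_mem k.2 (H.inv_mem (H.zpow_mem d.hyH j))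
    have h3 : k = ⟨n, h2⟩ * ⟨y, d.hyH⟩ ^ j := Subtype.ext e.symm
    rw [h3]
    exact Subgroup.mul_mem_sup (show n ∈ N from hn) (Subgroup.zpow_mem _ (Subgroup.mem_zpowers _) _)
  obtain ⟨η', h1, h2⟩ := ext2 ext hle d.idxH hη (fun k hk => hst hk)
  have h3 : IsIrr (fun n : N.comap H.subtype => η' ⟨n, hle n.2⟩) := by
    have : (fun n : N.comap H.subtype => η' ⟨n, hle n.2⟩) = η := funext h2
    rw [this]
    exact hη
  obtain ⟨θ', h4, h5, ε, h6, h7⟩ := (kc G p N y H P d).2.1 η' h1 (ext3 ext hle d.idxH h1 h3)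
  refine ⟨fun m => θ' ⟨m, le_KK m.2⟩, θ', η', ε, ?_, hη, h4, h1, fun _ => rfl, h2, h6, h7⟩
  exact ext1 ext le_KK d.idx' h4 h5

omit [Fintype G] hp d in
lemma _root_.Pool.Agent.Q17.TC.RR.hN {K : Subgroup G} {hNK : N ≤ K} {θ : N → ℂ}
    {η : N.comap H.subtype → ℂ} {θ' : K → ℂ} {η' : K.comap H.subtype → ℂ} {ε : ℤ}
    (r : RR p N K H hNK θ η θ' η' ε) : IsIrr (fun n : N => θ' ⟨n, hNK n.2⟩) := by
  have : (fun n : N => θ' ⟨n, hNK n.2⟩) = θ := funext r.res
  rw [this]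
  exact r.irr

omit [Fintype G] hp d in
lemma _root_.Pool.Agent.Q17.TC.RR.hN' {K : Subgroup G} {hNK : N ≤ K} {θ : N → ℂ}
    {η : N.comap H.subtype → ℂ} {θ' : K → ℂ} {η' : K.comap H.subtype → ℂ} {ε : ℤ}
    (r : RR p N K H hNK θ η θ' η' ε) :
    IsIrr (fun m : N.comap H.subtype => η' ⟨m, hNK m.2⟩) := by
  have : (fun m : N.comap H.subtype => η' ⟨m, hNK m.2⟩) = η := funext r.res'
  rw [this]
  exact r.irr'

omit [Fintype G] hp d in
/-- twist by linear characters -/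
lemma rel_tw [N.Normal] {θ : N → ℂ} {η : N.comap H.subtype → ℂ} {θ' : KK N y → ℂ}
    {η' : (KK N y).comap H.subtype → ℂ} {ε : ℤ} (r : RR p N (KK N y) H le_KK θ η θ' η' ε)
    (l : KK N y →* ℂˣ) :
    Rl N (KK N y) H ε (fun k => ((l k : ℂˣ) : ℂ) * θ' k)
      (fun k => (((l.comp (ci H.subtype (KK N y))) k : ℂˣ) : ℂ) * η' k) := by
  intro h hk hn
  have h1 := r.val h hk hn
  change ((l ⟨h, hk⟩ : ℂˣ) : ℂ) * θ' ⟨h, hk⟩ = ε * (((l ⟨h, hk⟩ : ℂˣ) : ℂ) * η' ⟨h, hk⟩)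
  rw [h1]
  ring

lemma rel_unique (ext : S_EXT) (kc : S_KC) [N.Normal] {θ : N → ℂ} {η₁ η₂ : N.comap H.subtype → ℂ}
    (h1 : Rel p N (KK N y) H le_KK θ η₁) (h2 : Rel p N (KK N y) H le_KK θ η₂) : η₁ = η₂ := by
  obtain ⟨a, b, ε, r⟩ := h1
  obtain ⟨a', b', ε', r'⟩ := h2
  obtain ⟨l, hl, hl'⟩ := ext4 ext le_KK d.idx' r.ext r'.ext r.hN (fun n => by
    rw [r.res, r'.res])
  have h3 := rel_tw r l
  have h4 : (fun k => ((l k : ℂˣ) : ℂ) * a k) = a' := (funext hl').symm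
  rw [h4] at h3
  have h5 := ((kc G p N y H P d).2.2.1 a' a' _ _ ε ε' r.sgn r'.sgn r'.ext r'.ext
    (irr_twist r.ext' _) r'.ext' (ext3 ext le_KK d.idx' r'.ext r'.hN) h3 r'.val).mp rfl
  funext m
  have h6 := congrFun h5 ⟨m, le_KK m.2⟩
  rw [r'.res'] at h6
  rw [← h6]
  have h7 : (l.comp (ci H.subtype (KK N y))) ⟨m, le_KK m.2⟩ = 1 := hl _ m.2
  simp only [h7, Units.val_one, one_mul]
  exact (r.res' m).symm

lemma rel_unique' (ext : S_EXT) (kc : S_KC) [N.Normal] {θ₁ θ₂ : N → ℂ}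
    {η : N.comap H.subtype → ℂ} (h1 : Rel p N (KK N y) H le_KK θ₁ η)
    (h2 : Rel p N (KK N y) H le_KK θ₂ η) : θ₁ = θ₂ := by
  obtain ⟨a, b, ε, r⟩ := h1
  obtain ⟨a', b', ε', r'⟩ := h2
  have hle : N.comap H.subtype ≤ (KK N y).comap H.subtype := Subgroup.comap_mono le_KK
  obtain ⟨l₀, hl₀, hl₀'⟩ := ext4 ext hle d.idxH r.ext' r'.ext' r.hN' (fun n => by
    have h3 := r.res' n
    have h4 := r'.res' n
    rw [← h4] at h3
    exact h3)
  obtain ⟨l, hl, hl'⟩ := ext_lin H.subtype d.hGH le_KK l₀ (fun k hk => hl₀ k hk)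
  have h3 := rel_tw r l
  have h4 : (fun k => (((l.comp (ci H.subtype (KK N y))) k : ℂˣ) : ℂ) * b k) = b' := by
    funext k
    rw [hl₀', MonoidHom.comp_apply, hl']
  rw [h4] at h3
  have h5 := ((kc G p N y H P d).2.2.1 a' _ b' b' ε' ε r'.sgn r.sgn r'.ext (irr_twist r.ext l)
    r'.ext' r'.ext' (ext3 ext le_KK d.idx' r'.ext r'.hN) r'.val h3).mpr rfl
  funext m
  have h6 := congrFun h5 ⟨m, le_KK m.2⟩
  rw [r'.res, hl _ m.2] at h6
  simp only [Units.val_one, one_mul] at h6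
  rw [h6]
  exact (r.res m).symm

omit [Fintype G] hp d in
lemma _root_.Pool.Agent.Q17.TC.Rel.conj {K : Subgroup G} [N.Normal] [K.Normal] {hNK : N ≤ K}
    {θ : N → ℂ} {η : N.comap H.subtype → ℂ} (r : Rel p N K H hNK θ η) (h : H) :
    Rel p N K H hNK (fun n => θ (MulAut.conjNormal (h : G) n))
      (fun m => η (MulAut.conjNormal h m)) := by
  obtain ⟨a, b, ε, r⟩ := r
  refine ⟨fun k => a (MulAut.conjNormal (h : G) k), fun k => b (MulAut.conjNormal h k), ε,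
    irr_comp r.irr _, irr_comp r.irr' _, irr_comp r.ext _, irr_comp r.ext' _, fun n => ?_,
    fun m => ?_, r.sgn, ?_⟩
  · rw [← r.res]
    rfl
  · rw [← r.res']
    rfl
  · intro x hx hn
    have h1 : ((h * x * h⁻¹ : H) : G) ∈ K := by
      have h2 := (inferInstance : K.Normal).conj_mem _ hx h
      exact h2
    have h2 : ((h * x * h⁻¹ : H) : G) ∉ N := by
      intro h3
      apply hn
      have h4 := (inferInstance : N.Normal).conj_mem _ h3 (h : G)⁻¹
      simpa [mul_assoc] using h4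
    exact r.val (h * x * h⁻¹) h1 h2

end TD

end Pool.Agent.Q17.TC
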