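import Pool.Agent.Q17.TC.Stm

/-!
# A character of norm one is irreducible
-/

set_option autoImplicit false

open scoped BigOperators Classical
open Pool.Agent.Helper884 Representation Pool.Agent.H254R3.IN Pool.Agent.Y62

noncomputable section

namespace Pool.Agent.Q17.TC

/-- a representation whose character has norm one is irreducible -/
theorem irr_of_norm (hom : S_HOM) {H Y : Type} [Group H] [Fintype H] [AddCommGroup Y] [Module ℂ Y]
    [FiniteDimensional ℂ Y] (τ : Representation ℂ H Y)
    (h : IC.B τ.character τ.character = 1) : τ.IsIrreducible := by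
  let V : Submodule ℂ (Y →ₗ[ℂ] Y) :=
    { carrier := {v | ∀ x : H, τ x ∘ₗ v = v ∘ₗ τ x}
      add_mem' := by
        intro a b ha hb k
        rw [LinearMap.comp_add, ha k, hb k, LinearMap.add_comp]
      zero_mem' := by
        intro k
        rw [LinearMap.comp_zero, LinearMap.zero_comp]
      smul_mem' := by
        intro c a ha k
        rw [LinearMap.comp_smul, ha k, LinearMap.smul_comp] }
  have h1 : Module.finrank ℂ V = 1 := by
    have h2 := hom H Y Y τ τ V (fun v => Iff.rfl)
    rw [h] at h2
    exact_mod_cast h2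
  have hY : Nontrivial Y := by
    by_contra hn
    rw [not_nontrivial_iff_subsingleton] at hn
    have h3 : Module.finrank ℂ V = 0 := by
      have : Subsingleton V := ⟨fun a b => Subtype.ext (LinearMap.ext fun y =>
        Subsingleton.elim _ _)⟩
      exact Module.finrank_zero_of_subsingleton
    omega
  have hid : (LinearMap.id : Y →ₗ[ℂ] Y) ∈ V := fun x => rfl
  have hid0 : (⟨LinearMap.id, hid⟩ : V) ≠ 0 := by
    intro h3
    obtain ⟨y, hy⟩ := exists_ne (0 : Y)
    have h4 := congrArg (fun v : V => (v : Y →ₗ[ℂ] Y) y) h3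
    exact hy h4
  have hscal : ∀ v ∈ V, ∃ c : ℂ, v = c • LinearMap.id := by
    intro v hv
    obtain ⟨c, hc⟩ := (finrank_eq_one_iff_of_nonzero' _ hid0).mp h1 ⟨v, hv⟩
    exact ⟨c, (congrArg (fun v : V => (v : Y →ₗ[ℂ] Y)) hc).symm⟩
  have : Nontrivial (Subrepresentation τ) := by
    refine ⟨⊥, ⊤, fun h1 => ?_⟩
    have h2 := congrArg (fun T : Subrepresentation τ => T.toSubmodule) h1
    exact bot_ne_top h2
  refine ⟨fun S => ?_⟩
  by_cases hS : S = ⊥
  · exact Or.inl hS
  · right
    have hS' : S.toSubmodule ≠ ⊥ := fun h2 => hS (Subrepresentation.toSubmodule_injective h2)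
    obtain ⟨u, hu, hu0⟩ := (Submodule.ne_bot_iff _).mp hS'
    obtain ⟨g, hg⟩ := S.toSubmodule.subtype.exists_leftInverse_of_injective
      (Submodule.ker_subtype _)
    set π₀ : Y →ₗ[ℂ] Y := S.toSubmodule.subtype ∘ₗ g with hπ₀
    have h3 : ∀ y, π₀ y ∈ S.toSubmodule := fun y => (g y).2
    have h4 : ∀ y ∈ S.toSubmodule, π₀ y = y := by
      intro y hy
      have h5 := LinearMap.congr_fun hg ⟨y, hy⟩
      exact congrArg Subtype.val h5
    set π : Y →ₗ[ℂ] Y := ∑ x : H, τ x ∘ₗ π₀ ∘ₗ τ x⁻¹ with hπ
    have h5 : π ∈ V := by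
      intro x
      rw [hπ]
      ext w
      simp only [LinearMap.comp_apply, LinearMap.sum_apply, map_sum]
      refine Fintype.sum_equiv (Equiv.mulLeft x) _ _ fun z => ?_
      rw [Equiv.coe_mulLeft, mul_inv_rev, map_mul, map_mul, Module.End.mul_apply,
        Module.End.mul_apply]
      congr 3
      rw [← Module.End.mul_apply (τ x⁻¹), ← map_mul, inv_mul_cancel, map_one]
      rfl
    have h6 : π u = (Nat.card H : ℂ) • u := by
      rw [hπ, LinearMap.sum_apply]
      have : ∀ x : H, (τ x ∘ₗ π₀ ∘ₗ τ x⁻¹) u = u := by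
        intro x
        rw [LinearMap.comp_apply, LinearMap.comp_apply, h4 _ (S.apply_mem_toSubmodule _ hu),
          ← Module.End.mul_apply, ← map_mul, mul_inv_cancel, map_one]
        rfl
      rw [Finset.sum_congr rfl fun x _ => this x, Finset.sum_const, Finset.card_univ,
        Nat.card_eq_fintype_card, Nat.cast_smul_eq_nsmul]
    obtain ⟨c, hc⟩ := hscal π h5
    have h7 : c ≠ 0 := by
      rintro rfl
      rw [hc, zero_smul, LinearMap.zero_apply] at h6
      exact (smul_ne_zero IC.cardG_ne hu0) h6.symm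
    apply Subrepresentation.toSubmodule_injective
    change S.toSubmodule = ⊤
    rw [Submodule.eq_top_iff']
    intro y
    have h8 : π y ∈ S.toSubmodule := by
      rw [hπ, LinearMap.sum_apply]
      exact Submodule.sum_mem _ fun x _ => S.apply_mem_toSubmodule x (h3 _)
    rw [hc, LinearMap.smul_apply, LinearMap.id_apply] at h8
    have h9 := S.toSubmodule.smul_mem c⁻¹ h8
    rwa [smul_smul, inv_mul_cancel₀ h7, one_smul] at h9

theorem t_IRN (hom : S_HOM) : S_IRN := fun _ Y _ _ _ _ _ τ h =>
  ⟨Y, _, _, inferInstance, τ, irr_of_norm hom τ h, rfl⟩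

/-- a representation with an irreducible character is irreducible -/
theorem irr_of_char (hom : S_HOM) {H Y : Type} [Group H] [Fintype H] [AddCommGroup Y] [Module ℂ Y]
    [FiniteDimensional ℂ Y] (τ : Representation ℂ H Y) (h : IsIrr τ.character) :
    τ.IsIrreducible := by
  apply irr_of_norm hom
  rw [IC.B_irr h h, if_pos rfl]

end Pool.Agent.Q17.TC
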