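import Pool.Agent.Q17.TC.Main2
import Pool.Agent.Q17.TC.All
import Pool.Agent.Q222.TC.DET
import Pool.Agent.Q222.TC.RP
import Pool.Agent.Q222.TC.TRP
import Pool.Agent.Q222.TC.NOR
import Pool.Agent.Q222.TC.CM
import Pool.Agent.Q222.TC.INT
import Pool.Agent.Q239.TC.KH

/-!
# All parts of the second stage of project TC
-/

set_option autoImplicit false

namespace Pool.Agent.Q17.TC

theorem parts2 : Parts2 where
  toParts := parts
  ort := t_ORT
  rp := Pool.Agent.Q222.TC.t_RP Pool.Agent.Q222.TC.t_DET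
  trp := Pool.Agent.Q222.TC.t_TRP
  kh := Pool.Agent.Q239.TC.t_KH
  nor := Pool.Agent.Q222.TC.t_NOR

theorem gdx : S_GDX := t_GDX parts.hom parts.ext parts.tr parts.cl

end Pool.Agent.Q17.TC
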