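import Pool.Agent.Q17.TC.MT4
import Pool.Agent.Q17.TC.IRN

/-!
# The correspondence over one character
-/

set_option autoImplicit false

open scoped BigOperators Classical
open Pool.Agent.Helper884 Representation Pool.Agent.H254R3.IN Pool.Agent.Y62

noncomputable section

namespace Pool.Agent.Q17.TC

/-- the stabiliser of a function on a normal subgroup -/
def St {G : Type} [Group G] {N : Subgroup G} [N.Normal] (θ : N → ℂ) : Subgroup G where
  carrier := {g | ∀ n : N, θ (MulAut.conjNormal g n) = θ n}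
  mul_mem' := by
    intro a b ha hb n
    rw [map_mul, MulAut.mul_apply, ha, hb]
  one_mem' := by
    intro n
    rw [map_one]
    rfl
  inv_mem' := by
    intro a ha n
    have h1 := ha (MulAut.conjNormal a⁻¹ n)
    rw [← h1, ← MulAut.mul_apply, ← map_mul, mul_inv_cancel, map_one]
    rfl

lemma mem_St {G : Type} [Group G] {N : Subgroup G} [N.Normal] {θ : N → ℂ} {g : G} :
    g ∈ St θ ↔ ∀ n : N, θ (MulAut.conjNormal g n) = θ n := Iff.rfl

/-- the index of `T` -/
lemma index_comap {G : Type} [Group G] {N T H : Subgroup G} [N.Normal] (h : N ≤ T)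
    (hNH : ∀ g : G, ∃ n ∈ N, ∃ h ∈ H, g = n * h) [Finite G] :
    (T.comap H.subtype).index = T.index := by
  have hGH : ∀ g : G, ∃ n ∈ N, ∃ h : H, g = n * H.subtype h := by
    intro g
    obtain ⟨n, hn, x, hx, e⟩ := hNH g
    exact ⟨n, hn, ⟨x, hx⟩, e⟩
  have h1 := rel_comap H.subtype h hGH
  have h2 := rel_comap H.subtype (le_top : N ≤ ⊤) hGH
  rw [Subgroup.comap_top, Subgroup.relIndex_top_right, Subgroup.relIndex_top_right] at h2
  have h3 := Subgroup.relIndex_mul_index h
  have h4 := Subgroup.relIndex_mul_index (Subgroup.comap_mono h :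
    N.comap H.subtype ≤ T.comap H.subtype)
  rw [h1, h2, ← h3] at h4
  have h5 : N.relIndex T ≠ 0 := by
    rw [Subgroup.relIndex]
    exact Subgroup.index_ne_zero_of_finite
  exact Nat.eq_of_mul_eq_mul_left (Nat.pos_of_ne_zero h5) h4

lemma ind_one {G : Type} [Group G] [Fintype G] (T : Subgroup G) (ξ : T → ℂ) :
    (Nat.card T : ℂ)⁻¹ *
      ∑ x : G, (if h : x⁻¹ * 1 * x ∈ T then (ξ : T → ℂ) ⟨x⁻¹ * 1 * x, h⟩ else 0) =
      T.index * ξ 1 := by
  have h1 : ∀ x : G, (if h : x⁻¹ * 1 * x ∈ T then (ξ : T → ℂ) ⟨x⁻¹ * 1 * x, h⟩ else 0) = ξ 1 := by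
    intro x
    have e : x⁻¹ * 1 * x = 1 := by group
    rw [dif_pos (by rw [e]; exact T.one_mem)]
    congr 1
    exact Subtype.ext e
  rw [Finset.sum_congr rfl fun x _ => h1 x, Finset.sum_const, Finset.card_univ, nsmul_eq_mul,
    ← Nat.card_eq_fintype_card, ← Subgroup.index_mul_card T]
  have h2 : (Nat.card T : ℂ) ≠ 0 := IC.cardG_ne
  push_cast
  field_simp

lemma cor_one {G H : Type} [Group G] [Group H] {W W' : Type} [AddCommGroup W] [Module ℂ W]
    [FiniteDimensional ℂ W] [AddCommGroup W'] [Module ℂ W'] [FiniteDimensional ℂ W']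
    {i : H →* G} {N : Subgroup G} [N.Normal] {ρ : Representation ℂ N W}
    {ρ' : Representation ℂ (N.comap i) W'} {u : H → (W ≃ₗ[ℂ] W)} {u' : H → (W' ≃ₗ[ℂ] W')}
    (m : Mat i N ρ ρ' u u') {χ : G → ℂ} {ψ : H → ℂ} (h : Cor i N ρ ρ' u u' χ ψ) :
    χ 1 * ρ'.character 1 = ψ 1 * ρ.character 1 := by
  obtain ⟨s, h1, h2⟩ := h
  obtain ⟨c, -, h3, h4⟩ := m.res 1
  have h5 := h1 1 1
  have h6 := h2 1 1
  have e1 : (u 1 : W →ₗ[ℂ] W) = c • LinearMap.id := by
    ext w
    have h7 := h3 w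
    have h8 : (⟨i (1 : N.comap i), (1 : N.comap i).2⟩ : N) = 1 := Subtype.ext (map_one i)
    rw [h8, map_one] at h7
    exact h7
  have e2 : (u' 1 : W' →ₗ[ℂ] W') = c • LinearMap.id := by
    ext w
    have h7 := h4 w
    rw [map_one] at h7
    exact h7
  have e3 : tr ρ (u 1) 1 = c * ρ.character 1 := by
    unfold tr
    rw [e1, map_one, Representation.char_one]
    change LinearMap.trace ℂ W (LinearMap.id ∘ₗ (c • LinearMap.id)) = _
    rw [LinearMap.id_comp, map_smul, LinearMap.trace_id]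
    rfl
  have e4 : tr ρ' (u' 1) 1 = c * ρ'.character 1 := by
    unfold tr
    rw [e2, map_one, Representation.char_one]
    change LinearMap.trace ℂ W' (LinearMap.id ∘ₗ (c • LinearMap.id)) = _
    rw [LinearMap.id_comp, map_smul, LinearMap.trace_id]
    rfl
  rw [e3] at h5
  rw [e4] at h6
  have e5 : ((1 : N) : G) * i 1 = 1 := by rw [map_one]; simp
  have e6 : ((1 : N.comap i) : H) * 1 = 1 := by simp
  rw [e5] at h5
  rw [e6] at h6
  rw [h5, h6]
  ring

end Pool.Agent.Q17.TC
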