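import Pool.Agent.Q17.TC.ASM1

/-!
# The correspondence over one character, II
-/

set_option autoImplicit false

open scoped BigOperators Classical
open Pool.Agent.Helper884 Representation Pool.Agent.H254R3.IN Pool.Agent.Y62

noncomputable section

namespace Pool.Agent.Q17.TC

/-- Data for one character `θ` of `K` and the corresponding character `η` of `K ∩ H`. -/
structure RD {G : Type} [Group G] (p : ℕ) (N K H : Subgroup G) [N.Normal] [K.Normal]
    (hNK : N ≤ K) (θ : K → ℂ) (η : K.comap H.subtype → ℂ) (ε : ℤ) : Prop where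
  hp : p.Prime
  hidx : N.relIndex K = p
  hcom : ∀ g k, k ∈ K → g * k * g⁻¹ * k⁻¹ ∈ N
  hNH : ∀ g : G, ∃ n ∈ N, ∃ h ∈ H, g = n * h
  hθ : IsIrr θ
  hθN : IsIrr (fun n : N => θ ⟨n, hNK n.2⟩)
  hη : IsIrr η
  hηN : IsIrr (fun m : N.comap H.subtype => η ⟨m, hNK m.2⟩)
  hε : ε = 1 ∨ ε = -1
  hval : Rl N K H ε θ η
  hst : ∀ h : H, (h : G) ∈ St (fun n : N => θ ⟨n, hNK n.2⟩) ↔
    h ∈ St (fun m : N.comap H.subtype => η ⟨m, hNK m.2⟩)

section

variable {G : Type} [Group G]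

/-- the inclusion `T ∩ H → T` -/
def iT (T H : Subgroup G) : T.comap H.subtype →* T where
  toFun t := ⟨t.1.1, t.2⟩
  map_one' := rfl
  map_mul' _ _ := rfl

/-- `K ∩ T → K` -/
def jT (K T : Subgroup G) : K.comap T.subtype →* K where
  toFun k := ⟨k.1.1, k.2⟩
  map_one' := rfl
  map_mul' _ _ := rfl

/-- the same for `H` -/
def jT' (K T H : Subgroup G) : (K.comap T.subtype).comap (iT T H) →* K.comap H.subtype where
  toFun k := ⟨k.1.1, k.2⟩
  map_one' := rfl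
  map_mul' _ _ := rfl

/-- `N ∩ T = N` if `N ≤ T` -/
def eT {N T : Subgroup G} (h : N ≤ T) : N.comap T.subtype ≃* N where
  toFun k := ⟨k.1.1, k.2⟩
  invFun n := ⟨⟨n, h n.2⟩, n.2⟩
  left_inv _ := rfl
  right_inv _ := rfl
  map_mul' _ _ := rfl

/-- the same for `H` -/
def eT' {N T : Subgroup G} (H : Subgroup G) (h : N ≤ T) :
    (N.comap T.subtype).comap (iT T H) ≃* N.comap H.subtype where
  toFun k := ⟨k.1.1, k.2⟩
  invFun n := ⟨⟨n.1, h n.2⟩, n.2⟩
  left_inv _ := rfl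
  right_inv _ := rfl
  map_mul' _ _ := rfl

end

theorem relC (lft : S_LFT) (hom : S_HOM) (mat : S_MAT) (ext : S_EXT) (tr : S_TR) (cl : S_CL)
    {G : Type} [Group G] [Fintype G] {p : ℕ} {N K H : Subgroup G} [N.Normal] [K.Normal]
    {hNK : N ≤ K} {θ : K → ℂ} {η : K.comap H.subtype → ℂ} {ε : ℤ}
    (d : RD p N K H hNK θ η ε) :
    ∃ e : {χ : G → ℂ // IsIrr χ ∧ Ov N χ (fun n : N => θ ⟨n, hNK n.2⟩)} ≃
        {ψ : H → ℂ // IsIrr ψ ∧
          Ov (N.comap H.subtype) ψ (fun m : N.comap H.subtype => η ⟨m, hNK m.2⟩)},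
      ∀ χ, (e χ).1 1 * θ 1 = χ.1 1 * η 1 := by
  set θ₀ : N → ℂ := fun n => θ ⟨n, hNK n.2⟩ with hθ₀
  set η₀ : N.comap H.subtype → ℂ := fun m => η ⟨m, hNK m.2⟩ with hη₀
  set T : Subgroup G := St θ₀ with hT
  have hKT : K ≤ T := by
    intro k hk n
    have h1 := d.hθ.conj ⟨n, hNK n.2⟩ ⟨k, hk⟩
    rw [hθ₀]
    simp only
    rw [← h1]
    congr 1
  have hNT : N ≤ T := hNK.trans hKT
  have hst : ∀ h : H, h ∈ T.comap H.subtype ↔ h ∈ St η₀ := d.hst
  -- representations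
  obtain ⟨W, _, _, _, R₀, -, hR₀⟩ := id d.hθ
  obtain ⟨W', _, _, _, R₀', -, hR₀'⟩ := id d.hη
  let R : Representation ℂ (K.comap T.subtype) W := R₀.comp (jT K T)
  let ρ : Representation ℂ (N.comap T.subtype) W :=
    R.comp (Subgroup.inclusion (Subgroup.comap_mono hNK))
  let R' : Representation ℂ ((K.comap T.subtype).comap (iT T H)) W' := R₀'.comp (jT' K T H)
  let ρ' : Representation ℂ ((N.comap T.subtype).comap (iT T H)) W' :=
    R'.comp (Subgroup.inclusion (Subgroup.comap_mono (Subgroup.comap_mono hNK)))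
  have hρ : ρ.character = fun n => θ₀ (eT hNT n) := by
    rw [hθ₀, hR₀]
    rfl
  have hρ' : ρ'.character = fun n => η₀ (eT' H hNT n) := by
    rw [hη₀, hR₀']
    rfl
  have dM : MD p (iT T H) (N.comap T.subtype) (K.comap T.subtype) ρ ρ' R R' ε :=
    { hp := d.hp
      hNK := Subgroup.comap_mono hNK
      hidx := by
        have h1 := Subgroup.relIndex_subgroupOf (H := N) hKT
        exact h1.trans d.hidx
      hcom := fun g k hk => d.hcom g k hk
      hGH := by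
        intro g
        obtain ⟨n, hn, h, hh, e⟩ := d.hNH g
        have h1 : h ∈ T := by
          have h2 := T.mul_mem (T.inv_mem (hNT hn)) g.2
          rwa [e, inv_mul_cancel_left] at h2
        exact ⟨⟨n, hNT hn⟩, hn, ⟨⟨h, hh⟩, h1⟩, Subtype.ext e⟩
      irr := by
        apply irr_of_char hom
        rw [hρ]
        exact irr_comp d.hθN _
      irr' := by
        apply irr_of_char hom
        rw [hρ']
        exact irr_comp d.hηN _
      res := fun _ => rfl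
      res' := fun _ => rfl
      eps := d.hε
      val := by
        intro k hk
        have h1 := d.hval k.1.1 k.2 hk
        rw [hR₀, hR₀'] at h1
        exact h1
      inv := by
        intro g n
        rw [hρ]
        exact g.2 (eT hNT n) }
  obtain ⟨u, u', hm⟩ := dM.matching lft hom mat ext
  obtain ⟨e₁, he₁⟩ := tr T (T.comap H.subtype) W W' (iT T H) (N.comap T.subtype) ρ ρ' u u'
    dM.hGH dM.irr dM.irr' hm
  obtain ⟨e₂, he₂⟩ := cl G N θ₀ d.hθN T (fun g => Iff.rfl)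
  obtain ⟨e₃, he₃⟩ := cl H (N.comap H.subtype) η₀ d.hηN (T.comap H.subtype) hst
  have hc₂ : (fun n : N.comap T.subtype => θ₀ ⟨n, n.2⟩) = ρ.character := by
    rw [hρ]
    rfl
  have hc₃ : (fun n : (N.comap H.subtype).comap (T.comap H.subtype).subtype => η₀ ⟨n, n.2⟩) =
      ρ'.character := by
    rw [hρ']
    rfl
  have f₂ : ∃ f : {ξ : T → ℂ // IsIrr ξ ∧ Ov (N.comap T.subtype) ξ ρ.character} ≃
      {χ : G → ℂ // IsIrr χ ∧ Ov N χ θ₀}, ∀ ξ, (f ξ).1 1 = T.index * ξ.1 1 := by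
    rw [← hc₂]
    exact ⟨e₂, fun ξ => (he₂ ξ 1).trans (ind_one T ξ.1)⟩
  have f₃ : ∃ f : {ξ : T.comap H.subtype → ℂ // IsIrr ξ ∧
      Ov ((N.comap T.subtype).comap (iT T H)) ξ ρ'.character} ≃
      {χ : H → ℂ // IsIrr χ ∧ Ov (N.comap H.subtype) χ η₀},
      ∀ ξ, (f ξ).1 1 = T.index * ξ.1 1 := by
    rw [← hc₃, ← index_comap hNT d.hNH]
    exact ⟨e₃, fun ξ => (he₃ ξ 1).trans (ind_one (T.comap H.subtype) ξ.1)⟩
  obtain ⟨f₂, hf₂⟩ := f₂
  obtain ⟨f₃, hf₃⟩ := f₃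
  refine ⟨f₂.symm.trans (e₁.trans f₃), fun χ => ?_⟩
  obtain ⟨ξ, rfl⟩ := f₂.surjective χ
  rw [Equiv.trans_apply, Equiv.symm_apply_apply, Equiv.trans_apply, hf₂, hf₃]
  have h1 := cor_one hm (he₁ ξ)
  have h2 : ρ'.character 1 = η 1 := by
    rw [hρ']
    rfl
  have h3 : ρ.character 1 = θ 1 := by
    rw [hρ]
    rfl
  rw [h2, h3] at h1
  rw [mul_assoc, mul_assoc, h1]

end Pool.Agent.Q17.TC
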