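import Pool.Agent.Q17.TC.ASM4

/-!
# The global bijection
-/

set_option autoImplicit false

open scoped BigOperators Classical
open Pool.Agent.Helper884 Representation Pool.Agent.H254R3.IN Pool.Agent.Y62

noncomputable section

namespace Pool.Agent.Q17.TC

/-- the `y`-invariant irreducible characters of the normal subgroup `N` -/
def Iv {G : Type} [Group G] (N : Subgroup G) [N.Normal] (y : G) : Type :=
  {θ : N → ℂ // IsIrr θ ∧ ∀ n : N, θ (MulAut.conjNormal y n) = θ n}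

/-- the irreducible characters of `G` which lie over a `y`-invariant irreducible character of
`N` -/
def Ab {G : Type} [Group G] [Fintype G] (N : Subgroup G) [N.Normal] (y : G) : Type :=
  {χ : G → ℂ // IsIrr χ ∧ ∃ θ : Iv N y, Ov N χ θ.1}

section

variable {G : Type} [Group G] [Fintype G] {N : Subgroup G} [N.Normal] {y : G}

/-- the conjugate of a `y`-invariant character -/
def Iv.cj (hcen : ∀ g : G, g * y * g⁻¹ * y⁻¹ ∈ N) (g : G) (θ : Iv N y) : Iv N y :=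
  ⟨fun n => θ.1 (MulAut.conjNormal g n), irr_comp θ.2.1 _, st_conj θ.2.1 θ.2.2 (hcen g)⟩

omit [Fintype G] in
lemma Iv.cj_cj (hcen : ∀ g : G, g * y * g⁻¹ * y⁻¹ ∈ N) (g h : G) (θ : Iv N y) :
    (θ.cj hcen g).cj hcen h = θ.cj hcen (g * h) := by
  apply Subtype.ext
  funext n
  change θ.1 (MulAut.conjNormal g (MulAut.conjNormal h n)) = θ.1 (MulAut.conjNormal (g * h) n)
  rw [map_mul, MulAut.mul_apply]

omit [Fintype G] in
lemma Iv.cj_one (hcen : ∀ g : G, g * y * g⁻¹ * y⁻¹ ∈ N) (θ : Iv N y) : θ.cj hcen 1 = θ := by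
  apply Subtype.ext
  funext n
  change θ.1 (MulAut.conjNormal 1 n) = θ.1 n
  rw [map_one, MulAut.one_apply]

end

section loc

variable {G : Type} [Group G] [Fintype G] {N : Subgroup G} [N.Normal] {y : G}
  {H : Subgroup G} {p : ℕ} [hp : Fact p.Prime] {P : Sylow p G}

namespace TD

variable (d : TD p N y H P)

include d

/-- the correspondence of invariant characters -/
theorem exists_F (ext : S_EXT) (kc : S_KC) :
    ∃ F : Iv N y ≃ Iv (N.comap H.subtype) (⟨y, d.hyH⟩ : H),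
      ∀ θ, Rel p N (KK N y) H le_KK θ.1 (F θ).1 := by
  have hst : ∀ {θ : N → ℂ} {η : N.comap H.subtype → ℂ}, Rel p N (KK N y) H le_KK θ η →
      y ∈ St θ ∧ (⟨y, d.hyH⟩ : H) ∈ St η := by
    intro θ η h
    obtain ⟨a, b, ε, r⟩ := h
    constructor
    · intro n
      rw [← r.res, ← r.res]
      exact irr_inv le_KK r.ext y_mem n
    · intro m
      have h1 := irr_inv (Subgroup.comap_mono le_KK) r.ext' (k := (⟨y, d.hyH⟩ : H)) y_mem m
      rw [← r.res', ← r.res']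
      exact h1
  have hF : ∀ θ : Iv N y, ∃ η : Iv (N.comap H.subtype) (⟨y, d.hyH⟩ : H),
      Rel p N (KK N y) H le_KK θ.1 η.1 := by
    intro θ
    obtain ⟨η, hη⟩ := d.rel_ex ext kc θ.2.1 θ.2.2
    exact ⟨⟨η, by obtain ⟨_, _, _, r⟩ := hη; exact r.irr', (hst hη).2⟩, hη⟩
  choose F hF using hF
  have hb : Function.Bijective F := by
    constructor
    · intro θ θ' h
      have h1 := hF θ
      rw [h] at h1
      exact Subtype.ext (d.rel_unique' ext kc h1 (hF θ'))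
    · intro η
      obtain ⟨θ, hθ⟩ := d.rel_ex' ext kc η.2.1 η.2.2
      refine ⟨⟨θ, by obtain ⟨_, _, _, r⟩ := hθ; exact r.irr, (hst hθ).1⟩, ?_⟩
      exact Subtype.ext (d.rel_unique ext kc (hF _) hθ)
  exact ⟨Equiv.ofBijective F hb, hF⟩

variable {F : Iv N y ≃ Iv (N.comap H.subtype) (⟨y, d.hyH⟩ : H)}

omit hp [N.Normal] in
lemma cenH : ∀ h : H, h * ⟨y, d.hyH⟩ * h⁻¹ * (⟨y, d.hyH⟩ : H)⁻¹ ∈ N.comap H.subtype :=
  fun h => d.hcen h

/-- `F` is `H`-equivariant -/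
theorem F_equiv (ext : S_EXT) (kc : S_KC) (hF : ∀ θ, Rel p N (KK N y) H le_KK θ.1 (F θ).1)
    (h : H) (θ : Iv N y) : F (θ.cj d.hcen h) = (F θ).cj d.cenH h := by
  have := d.nK
  apply Subtype.ext
  exact d.rel_unique ext kc (hF _) ((hF θ).conj h)

/-- the stabilisers agree -/
theorem F_stab (ext : S_EXT) (kc : S_KC) (hF : ∀ θ, Rel p N (KK N y) H le_KK θ.1 (F θ).1)
    (h : H) (θ : Iv N y) : (h : G) ∈ St θ.1 ↔ h ∈ St (F θ).1 := by
  constructor
  · intro h1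
    have h2 : θ.cj d.hcen h = θ := Subtype.ext (funext h1)
    have h3 := d.F_equiv ext kc hF h θ
    rw [h2] at h3
    exact fun m => congrFun (congrArg Subtype.val h3.symm) m
  · intro h1
    have h2 : (F θ).cj d.cenH h = F θ := Subtype.ext (funext h1)
    have h3 := d.F_equiv ext kc hF h θ
    rw [h2] at h3
    have h4 := F.injective h3
    exact fun m => congrFun (congrArg Subtype.val h4) m

/-- the correspondence over one character -/
theorem loc (lft : S_LFT) (hom : S_HOM) (mat : S_MAT) (ext : S_EXT) (tr : S_TR) (cl : S_CL)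
    (kc : S_KC) (hF : ∀ θ, Rel p N (KK N y) H le_KK θ.1 (F θ).1) (θ : Iv N y) :
    ∃ e : {χ : G → ℂ // IsIrr χ ∧ Ov N χ θ.1} ≃
        {ψ : H → ℂ // IsIrr ψ ∧ Ov (N.comap H.subtype) ψ (F θ).1},
      ∀ χ, (e χ).1 1 * θ.1 1 = χ.1 1 * (F θ).1 1 := by
  have := d.nK
  obtain ⟨a, b, ε, r⟩ := hF θ
  have h1 : (fun n : N => a ⟨n, le_KK n.2⟩) = θ.1 := funext r.res
  have h2 : (fun m : N.comap H.subtype => b ⟨m, le_KK m.2⟩) = (F θ).1 := funext r.res'
  have hR : RD p N (KK N y) H le_KK a b ε :=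
    { hp := hp.out
      hidx := d.idx
      hcom := KK_com d.hcen
      hNH := d.hNH
      hθ := r.ext
      hθN := r.hN
      hη := r.ext'
      hηN := r.hN'
      hε := by
        rcases r.sgn with h | h
        · exact Or.inl h
        · exact Or.inr h.1
      hval := r.val
      hst := by
        intro h
        rw [h1, h2]
        exact d.F_stab ext kc hF h θ }
  have h5 := relC lft hom mat ext tr cl hR
  have h3 : θ.1 1 = a 1 := (r.res 1).symm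
  have h4 : (F θ).1 1 = b 1 := (r.res' 1).symm
  rw [h1, h2, ← h3, ← h4] at h5
  exact h5

/-- **The global correspondence.** -/
theorem glob (lft : S_LFT) (hom : S_HOM) (mat : S_MAT) (ext : S_EXT) (tr : S_TR) (cl : S_CL)
    (kc : S_KC) (sq : S_SQ) (hF : ∀ θ, Rel p N (KK N y) H le_KK θ.1 (F θ).1) :
    ∃ f : Ab N y ≃ Ab (N.comap H.subtype) (⟨y, d.hyH⟩ : H),
      (∀ χ θ, Ov N χ.1 θ.1 ↔ Ov (N.comap H.subtype) (f χ).1 (F θ).1) ∧
      ∀ χ θ, Ov N χ.1 θ.1 → (f χ).1 1 * θ.1 1 = χ.1 1 * (F θ).1 1 := by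
  choose e he using d.loc lft hom mat ext tr cl kc hF
  have hovH : ∀ {ψ : H → ℂ}, IsIrr ψ → ∀ (h : H) (θ : Iv N y),
      Ov (N.comap H.subtype) ψ (F (θ.cj d.hcen h)).1 ↔ Ov (N.comap H.subtype) ψ (F θ).1 := by
    intro ψ hψ h θ
    rw [d.F_equiv ext kc hF h θ]
    exact ov_conj hψ h
  -- two invariant characters under the same character of `G`
  have hG : ∀ χ : G → ℂ, IsIrr χ → ∀ θ θ' : Iv N y, Ov N χ θ.1 → Ov N χ θ'.1 →
      ∃ h : H, θ' = θ.cj d.hcen h := by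
    intro χ hχ θ θ' h1 h2
    obtain ⟨g, hg⟩ := clif_conj hom lft sq cl θ.2.1 θ'.2.1 hχ h1 h2
    obtain ⟨n, hn, h, hh, rfl⟩ := d.hNH g
    refine ⟨⟨h, hh⟩, Subtype.ext ?_⟩
    rw [hg, conj_mul θ.2.1 hn]
    rfl
  have hH : ∀ ψ : H → ℂ, IsIrr ψ → ∀ θ θ' : Iv N y, Ov (N.comap H.subtype) ψ (F θ).1 →
      Ov (N.comap H.subtype) ψ (F θ').1 → ∃ h : H, θ' = θ.cj d.hcen h := by
    intro ψ hψ θ θ' h1 h2
    obtain ⟨h, hh⟩ := clif_conj hom lft sq cl (F θ).2.1 (F θ').2.1 hψ h1 h2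
    refine ⟨h, F.injective ?_⟩
    rw [d.F_equiv ext kc hF h θ]
    exact Subtype.ext hh
  have hr : Equivalence (fun θ θ' : Iv N y => ∃ h : H, θ' = θ.cj d.hcen h) := by
    refine ⟨fun θ => ⟨1, (θ.cj_one d.hcen).symm⟩, ?_, ?_⟩
    · rintro θ _ ⟨h, rfl⟩
      refine ⟨h⁻¹, ?_⟩
      rw [Iv.cj_cj, Subgroup.coe_inv, mul_inv_cancel, Iv.cj_one]
    · rintro θ _ _ ⟨h, rfl⟩ ⟨k, rfl⟩
      exact ⟨h * k, by rw [Iv.cj_cj, Subgroup.coe_mul]⟩
  obtain ⟨f, h1, h2⟩ := glue2 (IsIrr : (G → ℂ) → Prop) (IsIrr : (H → ℂ) → Prop)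
    (fun χ (θ : Iv N y) => Ov N χ θ.1)
    (fun ψ (η : Iv (N.comap H.subtype) (⟨y, d.hyH⟩ : H)) => Ov (N.comap H.subtype) ψ η.1) F
    (fun θ θ' => ∃ h : H, θ' = θ.cj d.hcen h) hr
    (fun χ hχ θ θ' hh h3 => by
      obtain ⟨h, rfl⟩ := hh
      exact (ov_conj hχ (h : G)).mpr h3)
    (fun ψ hψ θ θ' hh h3 => by
      obtain ⟨h, rfl⟩ := hh
      exact (hovH hψ h θ).mpr h3) hG hH e
  refine ⟨f, h1, fun χ θ ho => ?_⟩
  obtain ⟨q, h, h3⟩ := h2 χ
  obtain ⟨k, hk⟩ := hG χ.1 χ.2.1 _ _ h.2 ho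
  have h5 := he q ⟨χ.1, h⟩
  rw [← h3] at h5
  have h6 : θ.1 1 = q.1 1 := by
    rw [hk]
    change q.1 (MulAut.conjNormal (k : G) 1) = _
    rw [map_one]
  have h7 : (F θ).1 1 = (F q).1 1 := by
    rw [hk, d.F_equiv ext kc hF k]
    change (F q).1 (MulAut.conjNormal k 1) = _
    rw [map_one]
  rw [h6, h7]
  exact h5

end TD

end loc

end Pool.Agent.Q17.TC
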