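import Pool.Agent.Q17.TC.ASM5

/-!
# Characters of degree prime to `p`
-/

set_option autoImplicit false

open scoped BigOperators Classical
open Pool.Agent.Helper884 Representation Pool.Agent.H254R3.IN Pool.Agent.Y62
open Pool.Agent.Q1.MK (IrrP)

noncomputable section

namespace Pool.Agent.Q17.TC

lemma B_equiv {A B : Type} [Group A] [Fintype A] [Group B] [Fintype B] (e : A ≃* B)
    (f g : B → ℂ) : IC.B (fun a => f (e a)) (fun a => g (e a)) = IC.B f g := by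
  unfold IC.B
  rw [Nat.card_congr e.toEquiv]
  congr 1
  refine Fintype.sum_equiv e.toEquiv _ _ fun a => ?_
  change f (e a) * g (e a⁻¹) = f (e a) * g (e a)⁻¹
  rw [map_inv]

lemma B_nat {G : Type} [Group G] [Fintype G] {N K : Subgroup G} (h : N ≤ K) {χ : K → ℂ}
    (hχ : IsIrr χ) {ψ : N → ℂ} (hψ : IsIrr ψ) :
    ∃ n : ℕ, IC.B (fun n : N => χ ⟨n, h n.2⟩) ψ = n := by
  obtain ⟨n, hn⟩ := Pool.Agent.Q21.CO.mult_nat (N.subgroupOf K) hχ
    (irr_comp hψ (Subgroup.subgroupOfEquivOfLe h))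
  refine ⟨n, ?_⟩
  rw [← hn]
  exact (B_equiv (Subgroup.subgroupOfEquivOfLe h) (fun n : N => χ ⟨n, h n.2⟩) ψ).symm

/-- a character of degree prime to `p` lies over a `y`-invariant character -/
theorem ov_pprime (ext : S_EXT) {G : Type} [Group G] [Fintype G] {N : Subgroup G} [N.Normal]
    {y : G} {p : ℕ} [hp : Fact p.Prime] (hyN : y ∉ N) (hyp : y ^ p ∈ N) {k : ℕ}
    (hk : orderOf y = p ^ k) {χ : G → ℂ} (hχ : χ ∈ IrrP p G) :
    ∃ θ : Iv N y, Ov N χ θ.1 := by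
  have idx' : (N.relIndex (KK N y)).Prime := by
    rw [KK_idx hp.out hyN hyp]
    exact hp.out
  obtain ⟨O, hpO⟩ := Pool.Agent.Q1.MK.exists_place p
  obtain ⟨h1, h2⟩ := (Pool.Agent.Q1.MK.irrP_iff hpO).mp hχ
  have h3 : χ y ≠ 0 := by
    intro h4
    apply h2
    rw [← Pool.Agent.Q1.MK.val_one hpO h1 hk, h4, red_zero]
  set f : KK N y → ℂ := fun k => χ k with hf
  have hfc : IC.IsClass f := fun g x => h1.conj g x
  have h4 := congrFun (IC.expand f hfc) ⟨y, y_mem⟩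
  rw [Finset.sum_apply] at h4
  have h5 : ∑ c ∈ IC.Irr (KK N y), (IC.B f c • c) ⟨y, y_mem⟩ ≠ 0 := by
    rw [← h4]
    exact h3
  obtain ⟨θ, hθ, h6⟩ := Finset.exists_ne_zero_of_sum_ne_zero h5
  rw [Pi.smul_apply, smul_eq_mul] at h6
  have hθi : IsIrr θ := IC.mem_Irr.mp hθ
  have h7 : IC.B f θ ≠ 0 := left_ne_zero_of_mul h6
  have h8 : θ ⟨y, y_mem⟩ ≠ 0 := right_ne_zero_of_mul h6
  have hθN : IsIrr (fun n : N => θ ⟨n, le_KK n.2⟩) :=
    ext1 ext le_KK idx' hθi ⟨⟨y, y_mem⟩, hyN, h8⟩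
  refine ⟨⟨_, hθN, fun n => irr_inv le_KK hθi y_mem n⟩, ?_⟩
  -- the multiplicity
  have h9 : IC.B (fun n : N => χ n) (fun n : N => θ ⟨n, le_KK n.2⟩) =
      ∑ c ∈ IC.Irr (KK N y), IC.B f c *
        IC.B (fun n : N => c ⟨n, le_KK n.2⟩) (fun n : N => θ ⟨n, le_KK n.2⟩) := by
    have e1 : (fun n : N => χ n) = ∑ c ∈ IC.Irr (KK N y),
        (IC.B f c • fun n : N => c ⟨n, le_KK n.2⟩) := by
      funext n
      have h10 := congrFun (IC.expand f hfc) ⟨n, le_KK n.2⟩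
      rw [Finset.sum_apply] at h10 ⊢
      exact h10
    rw [e1, IC.B_sum_left]
    exact Finset.sum_congr rfl fun c _ => IC.B_smul_left _ _ _
  have h10 : ∀ c ∈ IC.Irr (KK N y), ∃ n : ℕ, IC.B f c *
      IC.B (fun n : N => c ⟨n, le_KK n.2⟩) (fun n : N => θ ⟨n, le_KK n.2⟩) = n := by
    intro c hc
    obtain ⟨n, hn⟩ := Pool.Agent.Q21.CO.mult_nat (KK N y) h1 (IC.mem_Irr.mp hc)
    obtain ⟨m, hm⟩ := B_nat le_KK (IC.mem_Irr.mp hc) hθN
    refine ⟨n * m, ?_⟩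
    rw [hm]
    push_cast
    rw [← hn]
  unfold Ov
  simp only
  rw [h9]
  choose! n hn using h10
  rw [Finset.sum_congr rfl hn, ← Nat.cast_sum, Nat.cast_ne_zero]
  intro h11
  rw [Finset.sum_eq_zero_iff] at h11
  have h12 := hn θ hθ
  rw [h11 θ hθ, IC.B_irr hθN hθN, if_pos rfl, mul_one, Nat.cast_zero] at h12
  exact h7 h12

namespace TD

variable {G : Type} [Group G] [Fintype G] {N : Subgroup G} [N.Normal] {y : G}
  {H : Subgroup G} {p : ℕ} [hp : Fact p.Prime] {P : Sylow p G} (d : TD p N y H P)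

include d

omit [N.Normal] in
lemma ord : ∃ k, orderOf y = p ^ k := by
  obtain ⟨k, hk⟩ := P.isPGroup' ⟨y, d.hyP⟩
  have h3 : y ^ p ^ k = 1 := congrArg Subtype.val hk
  obtain ⟨j, _, hj⟩ := (Nat.dvd_prime_pow hp.out).mp (orderOf_dvd_of_pow_eq_one h3)
  exact ⟨j, hj⟩

theorem ov_G (ext : S_EXT) (χ : IrrP p G) : ∃ θ : Iv N y, Ov N (χ : G → ℂ) θ.1 := by
  obtain ⟨k, hk⟩ := d.ord
  exact ov_pprime ext d.hyN d.hyp hk χ.2

theorem ov_H (ext : S_EXT) (ψ : IrrP p H) :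
    ∃ η : Iv (N.comap H.subtype) (⟨y, d.hyH⟩ : H), Ov (N.comap H.subtype) (ψ : H → ℂ) η.1 := by
  obtain ⟨k, hk⟩ := d.ord
  have h1 : orderOf (⟨y, d.hyH⟩ : H) = p ^ k := by rw [Subgroup.orderOf_mk, hk]
  exact ov_pprime ext (N := N.comap H.subtype) (y := (⟨y, d.hyH⟩ : H)) d.hyN d.hyp h1 ψ.2

omit [N.Normal] in
/-- the degrees are congruent up to sign -/
theorem deg_cong (kc : S_KC) {θ : N → ℂ} {η : N.comap H.subtype → ℂ}
    (h : Rel p N (KK N y) H le_KK θ η) : ∃ ε : ℤ, (ε = 1 ∨ ε = -1) ∧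
      ∀ a b : ℕ, (a : ℂ) = θ 1 → (b : ℂ) = η 1 → (a : ℤ) ≡ ε * b [ZMOD p] := by
  obtain ⟨a', b', ε, r⟩ := h
  refine ⟨ε, ?_, fun a b ha hb => ?_⟩
  · rcases r.sgn with h | h
    · exact Or.inl h
    · exact Or.inr h.1
  · exact (kc G p N y H P d).2.2.2 a' b' ε r.ext r.ext' r.val a b
      (ha.trans (r.res 1).symm) (hb.trans (r.res' 1).symm)

omit [N.Normal] in
/-- the normaliser of `P` is contained in `H` -/
theorem norm_le (ti : S_TI) : Subgroup.normalizer ((P : Subgroup G) : Set G) ≤ H := by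
  intro g hg
  have h1 : g⁻¹ * y * g ∈ (P : Subgroup G) := by
    have h2 := (Subgroup.mem_normalizer_iff.mp (Subgroup.inv_mem _ hg) y).mp d.hyP
    rwa [inv_inv] at h2
  exact (ti G p N y H P d).1 g y d.hyH y_mem d.hyN (d.hPH h1)

/-- degrees prime to `p` correspond -/
theorem pprime (hom : S_HOM) (lft : S_LFT) (sq : S_SQ) (cl : S_CL) (kc : S_KC)
    {χ : G → ℂ} {ψ : H → ℂ} (hχ : IsIrr χ) (hψ : IsIrr ψ) {θ : N → ℂ} (hθ : IsIrr θ)
    {η : N.comap H.subtype → ℂ} (h : Rel p N (KK N y) H le_KK θ η) (ho : Ov N χ θ)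
    (hd : ψ 1 * θ 1 = χ 1 * η 1) : ∃ ε : ℤ, (ε = 1 ∨ ε = -1) ∧
      (∀ n m : ℕ, (n : ℂ) = χ 1 → (m : ℂ) = ψ 1 → (n : ℤ) ≡ ε * m [ZMOD p]) ∧
      (χ ∈ IrrP p G ↔ ψ ∈ IrrP p H) := by
  obtain ⟨ε, hε, h1⟩ := d.deg_cong kc h
  obtain ⟨e, c, h2, -⟩ := clif hom lft sq cl hθ hχ ho
  obtain ⟨a, ha0, ha⟩ := hθ.deg
  obtain ⟨b, -, hb⟩ : ∃ n : ℕ, 0 < n ∧ (n : ℂ) = η 1 := by
    obtain ⟨_, _, _, r⟩ := h
    exact r.irr'.deg
  have h3 := h1 a b ha hb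
  have h4 : ψ 1 = e * η 1 := by
    have h5 : (e * η 1 - ψ 1) * θ 1 = 0 := by
      rw [sub_mul, hd, h2]
      ring
    rcases mul_eq_zero.mp h5 with h6 | h6
    · exact (sub_eq_zero.mp h6).symm
    · exact absurd h6 hθ.one_ne
  have h5 : ((e * a : ℕ) : ℂ) = χ 1 := by
    push_cast
    rw [h2, ha]
  have h6 : ((e * b : ℕ) : ℂ) = ψ 1 := by
    push_cast
    rw [h4, hb]
  have h7 : ((e * a : ℕ) : ℤ) ≡ ε * ((e * b : ℕ) : ℤ) [ZMOD p] := by
    push_cast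
    have h8 := h3.mul_left (e : ℤ)
    have h9 : (e : ℤ) * (ε * b) = ε * (e * b) := by ring
    rwa [h9] at h8
  have h8 : p ∣ e * a ↔ p ∣ e * b := by
    have h9 : (p : ℤ) ∣ ((e * a : ℕ) : ℤ) ↔ (p : ℤ) ∣ ε * ((e * b : ℕ) : ℤ) := h7.dvd_iff
    have h10 : (p : ℤ) ∣ ε * ((e * b : ℕ) : ℤ) ↔ (p : ℤ) ∣ ((e * b : ℕ) : ℤ) := by
      rcases hε with h | h <;> rw [h]
      · rw [one_mul]
      · rw [neg_one_mul, dvd_neg]
    rw [h10, Int.natCast_dvd_natCast, Int.natCast_dvd_natCast] at h9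
    exact h9
  refine ⟨ε, hε, fun n m hn hm => ?_, ?_⟩
  · have e1 : n = e * a := by
      have : (n : ℂ) = ((e * a : ℕ) : ℂ) := by rw [hn, h5]
      exact_mod_cast this
    have e2 : m = e * b := by
      have : (m : ℂ) = ((e * b : ℕ) : ℂ) := by rw [hm, h6]
      exact_mod_cast this
    rw [e1, e2]
    exact h7
  · constructor
    · rintro ⟨_, n, hn, hpn⟩
      refine ⟨hψ, e * b, h6, ?_⟩
      rw [← h8]
      have e1 : n = e * a := by
        have : (n : ℂ) = ((e * a : ℕ) : ℂ) := by rw [hn, h5]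
        exact_mod_cast this
      rwa [← e1]
    · rintro ⟨_, n, hn, hpn⟩
      refine ⟨hχ, e * a, h5, ?_⟩
      rw [h8]
      have e1 : n = e * b := by
        have : (n : ℂ) = ((e * b : ℕ) : ℂ) := by rw [hn, h6]
        exact_mod_cast this
      rwa [← e1]

end TD

end Pool.Agent.Q17.TC
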