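import Pool.Agent.Q17.TC.Stm3

/-!
# Statements of the last parts of project TC
-/

set_option autoImplicit false

open scoped BigOperators Classical
open Pool.Agent.Helper884 Representation Pool.Agent.H254R3.IN Pool.Agent.Y62 Pool.Agent.Q21.CO

noncomputable section

namespace Pool.Agent.Q17.TC

/-- TBC. A block of `N_G(D)` with defect group `D` is its own Brauer correspondent in
`N_{N_G(D)}(D) = N_G(D)`. Proof: with `K = N_G(D)`, `L = N_K(D)` (all of `K`), `e = eN : L ≃* K`,
`b = {θ₀ ∘ e}`: `omega (θ₀ ∘ e) x = omega θ₀ (e x)` (the classes correspond), so `b` is a block;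
`blockCoeff b x = blockCoeff b₀ (e x)` (`finsum_mem` over the image of the injective map
`θ₀ ↦ θ₀ ∘ e`), so a defect class of `b₀` gives a defect class of `b` and the Sylow subgroup of the
centraliser is transported by `e`. For the last part:
`∑_{z ∈ L, z ~ x} θ(z) / θ(1) = ∑_{z ∈ K, z ~ x} θ₀(z) / θ₀(1) = omega θ₀ x`, congruent to
`omega χ x` for `χ ∈ b₀` since `b₀` is a block. -/
def S_TBC : Prop := ∀ (G : Type) [Group G] [Fintype G] (p : ℕ) [Fact p.Prime]
  (O : ValuationSubring ℂ), (p : ℂ) ∈ O.nonunits → ∀ (D : Subgroup G)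
  (b₀ : Set (NN D → ℂ)), IsBlock O b₀ → IsDefectGroup p O b₀ (DD D) →
  IsBrauerCorrespondent p O (DD D) b₀
    {θ | ∃ θ₀ ∈ b₀, θ = fun x => θ₀ (eN (H := NN D) (le_NN D) le_rfl x)}

end Pool.Agent.Q17.TC
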