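import Pool.Agent.Q17.TC.All2
import Pool.Agent.Q17.TC.Stm4
import Pool.Agent.Q239.TC.AB
import Pool.Agent.Q239.TC.BLK
import Pool.Agent.Q239.TC.TRN
import Pool.Agent.Q21.CO.Deg

/-!
# Blocks under the canonical bijection
-/

set_option autoImplicit false

open scoped BigOperators Classical
open Pool.Agent.Helper884 Representation Pool.Agent.H254R3.IN Pool.Agent.Y62 Pool.Agent.Q21.CO

noncomputable section

namespace Pool.Agent.Q17.TC

variable {G : Type} [Group G] [Fintype G] {N : Subgroup G} [N.Normal] {y : G}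
  {H : Subgroup G} {p : ℕ} [hp : Fact p.Prime] {P : Sylow p G}

/-- the lift of a set of characters of `N_G(D)` to `N_H(D)` -/
def lft {H D : Subgroup G} (hD : D ≤ H) (hN : NN D ≤ H) (b₀ : Set (NN D → ℂ)) :
    Set (NN (D.subgroupOf H) → ℂ) :=
  {θ | ∃ θ₀ ∈ b₀, θ = fun x => θ₀ (eN hD hN x)}

omit [N.Normal] in
lemma TD.ty (ti : S_TI) (d : TD p N y H P) {g : G} (hg : g⁻¹ * y * g ∈ H) : g ∈ H :=
  (ti G p N y H P d).1 g y d.hyH (y_mem d) d.hyN hg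

omit [N.Normal] in
lemma TD.D_le (ti : S_TI) (d : TD p N y H P) {D : Subgroup G} (hD : IsPGroup p D) (hy : y ∈ D) :
    D ≤ H := by
  obtain ⟨Q, hQ⟩ := hD.exists_le_sylow
  obtain ⟨g, hg⟩ := MulAction.exists_smul_eq G P Q
  have h1 : ∀ x ∈ Q, g⁻¹ * x * g ∈ P := by
    intro x hx
    rw [← hg, ← SetLike.mem_coe, Sylow.coe_smul, Set.mem_smul_set] at hx
    obtain ⟨z, hz, rfl⟩ := hx
    have h2 : g⁻¹ * (MulAut.conj g • z) * g = z := by
      change g⁻¹ * (g * z * g⁻¹) * g = z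
      group
    rw [h2]
    exact hz
  have h2 : g ∈ H := d.ty ti (d.hPH (h1 y (hQ hy)))
  intro x hx
  have h3 := H.mul_mem (H.mul_mem h2 (d.hPH (h1 x (hQ hx)))) (H.inv_mem h2)
  have h4 : g * (g⁻¹ * x * g) * g⁻¹ = x := by group
  rwa [h4] at h3

omit [N.Normal] in
lemma TD.NN_le (ti : S_TI) (d : TD p N y H P) {D : Subgroup G} (hD : D ≤ H) (hy : y ∈ D) :
    NN D ≤ H := by
  intro g hg
  have h1 := (Subgroup.mem_normalizer_iff.mp ((NN D).inv_mem hg) y).mp hy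
  rw [inv_inv] at h1
  exact d.ty ti (hD h1)

omit [N.Normal] in
lemma TD.ord_y (d : TD p N y H P) : ∃ k, orderOf y = p ^ k := by
  obtain ⟨k, hk⟩ := P.isPGroup' ⟨y, d.hyP⟩
  have h1 : y ^ p ^ k = 1 := congrArg Subtype.val hk
  obtain ⟨j, -, hj⟩ := (Nat.dvd_prime_pow hp.out).mp (orderOf_dvd_of_pow_eq_one h1)
  exact ⟨j, hj⟩

/-- the data for a block -/
structure BT (p : ℕ) (O : ValuationSubring ℂ) (y : G) (H D : Subgroup G) (hDH : D ≤ H)
    (hN : NN D ≤ H) (B : Set (G → ℂ)) (b : Set (H → ℂ)) (b₀ : Set (NN D → ℂ)) : Prop where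
  hpO : (p : ℂ) ∈ O.nonunits
  hy : y ∈ D
  hB : IsBlock O B
  hD : IsDefectGroup p O B D
  hb₀ : IsBrauerCorrespondent p O D B b₀
  hb : IsBlock O b
  hbD : IsDefectGroup p O b (D.subgroupOf H)
  hbb : IsBrauerCorrespondent p O (D.subgroupOf H) b (lft hDH hN b₀)

theorem TD.blk (ti : S_TI) (cl : S_CL) (d : TD p N y H P) {O : ValuationSubring ℂ}
    {D : Subgroup G} {hDH : D ≤ H} {hN : NN D ≤ H} {B : Set (G → ℂ)} {b : Set (H → ℂ)}
    {b₀ : Set (NN D → ℂ)} (e : BT p O y H D hDH hN B b b₀) :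
    (∀ χ ∈ B, red O (uu D χ) ≠ 0 → ∃ θ : Iv N y, Ov N χ θ.1) ∧
    (∀ ψ ∈ b, red O (uu (D.subgroupOf H) ψ) ≠ 0 →
      ∃ θ : Iv (N.comap H.subtype) (⟨y, d.hyH⟩ : H), Ov (N.comap H.subtype) ψ θ.1) ∧
    ∀ (χ : G → ℂ) (ψ : H → ℂ) (ε : ℤ), IsIrr χ → IsIrr ψ → (ε = 1 ∨ ε = -1) →
      (∀ k : H, Commute y (k : G) → χ k - ε * ψ k ∈ O.nonunits) →
      ((χ ∈ B ∧ red O (uu D χ) ≠ 0) ↔ (ψ ∈ b ∧ red O (uu (D.subgroupOf H) ψ) ≠ 0)) ∧
      (χ ∈ B → ψ ∈ b → red O (uu D χ) = red O (ε : ℂ) * red O (uu (D.subgroupOf H) ψ)) := by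
  have hpO := e.hpO
  have hDp : IsPGroup p D := defect_pgroup e.hD
  obtain ⟨s, hsp, hsk, hsB, -⟩ := exists_s hpO e.hB e.hD e.hb₀
  obtain ⟨k, hk⟩ := d.ord_y
  have htrn := Pool.Agent.Q239.TC.t_TRN G p O hpO H D hDH hN B b b₀ e.hB e.hb e.hb₀ e.hbb
  have hsH : (s : G) ∈ H := hN s.2
  have hys : Commute y (s : G) := Subgroup.mem_centralizer_iff.mp hsp.2 y e.hy
  obtain ⟨-, h2, h3⟩ := Pool.Agent.Q239.TC.t_BLK G p O hpO H y ⟨k, hk⟩ (fun g hg => d.ty ti hg) D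
    hDp hDH e.hy B b e.hB e.hD e.hb e.hbD _ e.hbb htrn ⟨s, hsH⟩ hsp hsk hsB
  have := d.nK
  refine ⟨?_, ?_, ?_⟩
  · intro χ hχ hh
    have hχi := e.hB.irr χ hχ
    have h4 : red O (χ s) ≠ 0 :=
      (height_val hpO hχi (uu_mem hpO e.hB e.hD hχ) hsp.2 hsk (hsB χ hχ)).mpr hh
    refine Pool.Agent.Q239.TC.t_AB cl G p N y s k hk hsp.1 hys χ hχi ?_
    intro h0
    apply h4
    have h5 := val_red hpO hχi hk hys 1
    rw [pow_one, h0, red_zero] at h5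
    exact h5.symm
  · intro ψ hψ hh
    have hψi := e.hb.irr ψ hψ
    have h4 : red O (ψ ⟨s, hsH⟩) ≠ 0 := h2 ψ hψ hh
    have hk' : orderOf (⟨y, d.hyH⟩ : H) = p ^ k := by
      rw [Subgroup.orderOf_mk]
      exact hk
    have hys' : Commute (⟨y, d.hyH⟩ : H) ⟨s, hsH⟩ := Subtype.ext hys
    refine Pool.Agent.Q239.TC.t_AB cl H p (N.comap H.subtype) ⟨y, d.hyH⟩ ⟨s, hsH⟩ k hk' ?_ hys'
      ψ hψi ?_
    · rw [Subgroup.orderOf_mk]
      exact hsp.1
    · intro h0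
      apply h4
      have h5 := val_red hpO hψi hk' hys' 1
      rw [pow_one, h0, red_zero] at h5
      exact h5.symm
  · intro χ ψ ε hχ hψ hε hcg
    exact h3 χ ψ ε hχ hψ hε fun g hg hc => hcg ⟨g, hg⟩ hc

/-- the degree congruence -/
theorem deg_cong' {O : ValuationSubring ℂ} (hpO : (p : ℂ) ∈ O.nonunits) {D : Subgroup G}
    (hDH : D ≤ H) {P : Sylow p G} (hP : (P : Subgroup G) ≤ H) {χ : G → ℂ} {ψ : H → ℂ} {ε : ℤ}
    (hu : uu D χ ∈ O) (hu' : uu (D.subgroupOf H) ψ ∈ O)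
    (h : red O (uu D χ) = red O (ε : ℂ) * red O (uu (D.subgroupOf H) ψ)) {n m : ℕ}
    (hn : (n : ℂ) = χ 1) (hm : (m : ℂ) = ψ 1) (hn0 : n ≠ 0) (hm0 : m ≠ 0)
    (hfn : n.factorization p = D.index.factorization p)
    (hfm : m.factorization p = (D.subgroupOf H).index.factorization p) :
    (pPrimePart p n : ℤ) ≡ ε * (H.index * pPrimePart p m) [ZMOD p] := by
  have := charP_RF hpO
  have h1 := uu_part hn hn0 hfn
  have h2 := uu_part hm hm0 hfm
  have hidx : ¬ p ∣ H.index := fun h3 =>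
    P.not_dvd_index (h3.trans (Subgroup.index_dvd_of_le hP))
  have h3 : D.index = H.index * (D.subgroupOf H).index := by
    rw [mul_comm]
    exact (Subgroup.relIndex_mul_index hDH).symm
  have h4 : pPrimePart p D.index = H.index * pPrimePart p (D.subgroupOf H).index := by
    rw [h3]
    exact part_mul Subgroup.index_ne_zero_of_finite hidx
  rw [← CharP.intCast_eq_intCast (RF O) p]
  have h5 := congrArg (red O) h1
  have h6 := congrArg (red O) h2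
  rw [red_mul hu (natCast_mem' _), red_natCast, red_natCast] at h5
  rw [red_mul hu' (natCast_mem' _), red_natCast, red_natCast] at h6
  rw [h, h4, red_intCast, Nat.cast_mul] at h5
  push_cast
  rw [← h5, ← h6]
  ring

end Pool.Agent.Q17.TC
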