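import Pool.Agent.Q17.TC.B1

/-!
# The canonical relation depends on the subgroup `N⟨y⟩` only
-/

set_option autoImplicit false

open scoped BigOperators Classical
open Pool.Agent.Helper884 Representation Pool.Agent.H254R3.IN Pool.Agent.Y62

noncomputable section

namespace Pool.Agent.Q17.TC

section grp

variable {G : Type} [Group G] [Fintype G] {N : Subgroup G} [N.Normal] {y z : G}
  {H : Subgroup G} {p : ℕ} [hp : Fact p.Prime] {P : Sylow p G}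

/-- the canonical relation for a normal subgroup `K` -/
def GK (p : ℕ) (N H K : Subgroup G) [N.Normal] [K.Normal] (hK : N ≤ K) (χ : G → ℂ) (ψ : H → ℂ)
    (ε : ℤ) : Prop :=
  ∃ (W : Type) (_ : AddCommGroup W) (_ : Module ℂ W) (_ : FiniteDimensional ℂ W)
    (W' : Type) (_ : AddCommGroup W') (_ : Module ℂ W') (_ : FiniteDimensional ℂ W')
    (R : Representation ℂ K W) (R' : Representation ℂ (K.comap H.subtype) W')
    (ξ : G → ℂ) (ξ' : H → ℂ),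
    (R.IsIrreducible ∧ R'.IsIrreducible ∧ (∃ k : K, (k : G) ∉ N ∧ R.character k ≠ 0) ∧
      (∃ k : K.comap H.subtype, ((k : H) : G) ∉ N ∧ R'.character k ≠ 0) ∧
      (ε = 1 ∨ (ε = -1 ∧ p ≠ 2)) ∧ Rl N K H ε R.character R'.character) ∧
    (IsIrr χ ∧ IsIrr ψ ∧ Ov N χ (fun n => R.character ⟨n, hK n.2⟩) ∧
      Ov (N.comap H.subtype) ψ (fun m => R'.character ⟨m, hK m.2⟩) ∧
      Cf (fun n : N => R.character ⟨n, hK n.2⟩) χ ξ ∧
      Cf (fun m : N.comap H.subtype => R'.character ⟨m, hK m.2⟩) ψ ξ') ∧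
    ∀ (h : H) (u : W ≃ₗ[ℂ] W) (u' : W' ≃ₗ[ℂ] W'),
      CP p (ci H.subtype K) (N.subgroupOf K) R R' (MulAut.conjNormal (h : G))
        (MulAut.conjNormal h) u u' → ∃ s : ℂ,
      (∀ n : N, ξ (n * h) = s * LinearMap.trace ℂ W (R ⟨n, hK n.2⟩ ∘ₗ (u : W →ₗ[ℂ] W))) ∧
      ∀ m : N.comap H.subtype, ξ' (m * h) =
        s * LinearMap.trace ℂ W' (R' ⟨m, hK m.2⟩ ∘ₗ (u' : W' →ₗ[ℂ] W'))

omit hp in
lemma gr_iff [(KK N y).Normal] {χ : G → ℂ} {ψ : H → ℂ} {ε : ℤ} :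
    GR p N y H χ ψ ε ↔ GK p N H (KK N y) le_KK χ ψ ε := by
  constructor
  · rintro ⟨W, i1, i2, i3, W', i4, i5, i6, R, R', ξ, ξ', g⟩
    exact ⟨W, i1, i2, i3, W', i4, i5, i6, R, R', ξ, ξ',
      ⟨g.sd.irr, g.sd.irr', g.sd.nv, g.sd.nv', g.sd.eps, g.sd.val⟩,
      ⟨g.irr, g.irr', g.ov, g.ov', g.cf, g.cf'⟩, g.cc⟩
  · rintro ⟨W, i1, i2, i3, W', i4, i5, i6, R, R', ξ, ξ', ⟨a1, a2, a3, a4, a5, a6⟩,
      ⟨b1, b2, b3, b4, b5, b6⟩, c⟩
    exact ⟨W, i1, i2, i3, W', i4, i5, i6, R, R', ξ, ξ',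
      ⟨⟨a1, a2, a3, a4, a5, a6⟩, b1, b2, b3, b4, b5, b6, c⟩⟩

omit hp in
lemma gk_congr {K K' : Subgroup G} [K.Normal] [K'.Normal] (hK : N ≤ K) (hK' : N ≤ K')
    (h : K = K') {χ : G → ℂ} {ψ : H → ℂ} {ε : ℤ} :
    GK p N H K hK χ ψ ε ↔ GK p N H K' hK' χ ψ ε := by
  subst h
  rfl

omit hp in
lemma gr_congr [(KK N y).Normal] [(KK N z).Normal] (h : KK N z = KK N y) {χ : G → ℂ}
    {ψ : H → ℂ} {ε : ℤ} : GR p N z H χ ψ ε ↔ GR p N y H χ ψ ε := by
  rw [gr_iff, gr_iff]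
  exact gk_congr le_KK le_KK h

omit [Fintype G] [N.Normal] hp in
lemma KK_le (hz : z ∈ KK N y) : KK N z ≤ KK N y :=
  sup_le le_KK (Subgroup.zpowers_le.mpr hz)

lemma TD.KK_eq (d : TD p N y H P) (hz : z ∈ KK N y) (hzN : z ∉ N) : KK N z = KK N y := by
  apply le_antisymm (KK_le hz)
  have h1 : N.relIndex (KK N z) * (KK N z).relIndex (KK N y) = N.relIndex (KK N y) :=
    Subgroup.relIndex_mul_relIndex N (KK N z) (KK N y) le_KK (KK_le hz)
  rw [d.idx] at h1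
  have h2 : N.relIndex (KK N z) ≠ 1 := by
    intro h
    exact hzN (Subgroup.relIndex_eq_one.mp h (Subgroup.mem_sup_right (Subgroup.mem_zpowers z)))
  have h3 : N.relIndex (KK N z) = p := by
    rcases (Nat.dvd_prime hp.out).mp (Dvd.intro _ h1) with h | h
    · exact absurd h h2
    · exact h
  rw [h3] at h1
  have h4 : (KK N z).relIndex (KK N y) = 1 :=
    Nat.eq_of_mul_eq_mul_left hp.out.pos (by rw [h1, mul_one])
  exact Subgroup.relIndex_eq_one.mp h4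

/-- another element of `N⟨y⟩` -/
theorem TD.sub (ti : S_TI) (d : TD p N y H P) {D : Subgroup G} (hD : IsPGroup p D) (hDH : D ≤ H)
    (hz : z ∈ D) (hzK : z ∈ KK N y) (hzN : z ∉ N) : ∃ P' : Sylow p G, TD p N z H P' := by
  have hD' : IsPGroup p (D.subgroupOf H) :=
    hD.of_equiv (Subgroup.subgroupOfEquivOfLe hDH).symm
  obtain ⟨Q, hQ⟩ := hD'.exists_le_sylow
  obtain ⟨h, hh⟩ := MulAction.exists_smul_eq H (P.subtype d.hPH) Q
  have hle : ∀ x ∈ ((h : G) • P : Sylow p G), x ∈ H := by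
    intro x hx
    rw [← SetLike.mem_coe, Sylow.coe_smul, Set.mem_smul_set] at hx
    obtain ⟨w, hw, rfl⟩ := hx
    exact H.mul_mem (H.mul_mem h.2 (d.hPH hw)) (H.inv_mem h.2)
  refine ⟨(h : G) • P, d.hN, hzN, ?_, fun g => ?_, ?_, hle, d.hNH, ?_⟩
  · have h1 : (⟨z, hzK⟩ : KK N y) ^ p ∈ N.subgroupOf (KK N y) := by
      have h2 : (N.subgroupOf (KK N y)).index = p := d.idx
      rw [← h2]
      exact Subgroup.pow_index_mem _ _
    exact h1
  · exact KK_com d.hcen g z hzK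
  · have h1 : (⟨z, hDH hz⟩ : H) ∈ Q := hQ (Subgroup.mem_subgroupOf.mpr hz)
    rw [← hh, ← SetLike.mem_coe, Sylow.coe_smul, Set.mem_smul_set] at h1
    obtain ⟨w, hw, hw'⟩ := h1
    rw [← SetLike.mem_coe, Sylow.coe_smul, Set.mem_smul_set]
    exact ⟨w, hw, congrArg Subtype.val hw'⟩
  · intro x hx hzx n hn hc
    have h1 : x ∈ KK N y := by
      have h2 := (KK N y).mul_mem hzK (le_KK hzx)
      rwa [mul_inv_cancel_left] at h2
    have h2 : x ∉ N := by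
      intro h3
      apply hzN
      have h4 := N.mul_mem h3 (N.inv_mem hzx)
      have e1 : x * (z⁻¹ * x)⁻¹ = z := by group
      rwa [e1] at h4
    refine (ti G p N y H P d).1 n x (hle x hx) h1 h2 ?_
    have e1 : n⁻¹ * x * n = x := by
      rw [mul_assoc, ← hc.eq]
      group
    rw [e1]
    exact hle x hx

omit hp [Fintype G] in
/-- invariant characters -/
lemma Iv.tr (h : KK N z = KK N y) (θ : Iv N z) : ∃ θ' : Iv N y, θ'.1 = θ.1 := by
  have h1 : KK N z ≤ St θ.1 := inv_KK θ.2.1 θ.2.2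
  rw [h] at h1
  exact ⟨⟨θ.1, θ.2.1, h1 y_mem⟩, rfl⟩

end grp

end Pool.Agent.Q17.TC
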