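import Pool.Agent.Q17.TC.B2

/-!
# The canonical bijection and blocks
-/

set_option autoImplicit false

open scoped BigOperators Classical
open Pool.Agent.Helper884 Representation Pool.Agent.H254R3.IN Pool.Agent.Y62
open Pool.Agent.Q1.MK (IrrP)

noncomputable section

namespace Pool.Agent.Q17.TC

variable {G : Type} [Group G] [Fintype G] {N : Subgroup G} [N.Normal] {y : G}
  {H : Subgroup G} {p : ℕ} [hp : Fact p.Prime] {P : Sylow p G}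

/-- the characters of height zero -/
def I0 {G : Type} [Group G] (p : ℕ) (D : Subgroup G) (B : Set (G → ℂ)) : Set (G → ℂ) :=
  {χ | χ ∈ B ∧ ∃ n : ℕ, (n : ℂ) = χ 1 ∧ n.factorization p = D.index.factorization p}

/-- the congruence for all elements of `N⟨y⟩` outside `N` -/
theorem TD.cong_z (q : Parts2) (cm : S_CM) (int : S_INT) (d : TD p N y H P)
    [(KK N y).Normal] {χ : G → ℂ} {ψ : H → ℂ} {ε : ℤ} (g : GR p N y H χ ψ ε) {z : G}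
    (hz : z ∈ H) (hzK : z ∈ KK N y) (hzN : z ∉ N) (ho : ∃ j, z ^ p ^ j = 1)
    {O : ValuationSubring ℂ} (hO : (p : ℂ) ∈ O.nonunits) (k : H) (hk : Commute z (k : G)) :
    χ k - ε * ψ k ∈ O.nonunits := by
  have h1 : IsPGroup p (Subgroup.zpowers z) := by
    obtain ⟨j, hj⟩ := ho
    obtain ⟨i, -, hi⟩ := (Nat.dvd_prime_pow hp.out).mp (orderOf_dvd_of_pow_eq_one hj)
    apply IsPGroup.of_card (n := i)
    rw [Nat.card_zpowers, hi]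
  obtain ⟨P', d'⟩ := d.sub q.ti h1 (Subgroup.zpowers_le.mpr hz) (Subgroup.mem_zpowers z) hzK hzN
  have := d'.nK
  exact d'.cong q cm int hO ((gr_congr (d.KK_eq hzK hzN)).mpr g) k.2 hk

omit hp in
/-- invariant characters of `N ∩ H` -/
lemma TD.stH (d : TD p N y H P) {η : N.comap H.subtype → ℂ} (hη : IsIrr η)
    (hy : (⟨y, d.hyH⟩ : H) ∈ St η) : (KK N y).comap H.subtype ≤ St η := by
  have h1 := inv_KK hη hy
  refine le_trans ?_ h1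
  intro k hk
  have hk' : (k : G) ∈ ((N ⊔ Subgroup.zpowers y : Subgroup G) : Set G) := hk
  rw [Subgroup.normal_mul] at hk'
  obtain ⟨n, hn, z, hz, e⟩ := Set.mem_mul.mp hk'
  obtain ⟨j, rfl⟩ := Subgroup.mem_zpowers_iff.mp hz
  have h2 : n ∈ H := by
    have h3 : n = k * (y ^ j)⁻¹ := by rw [← e]; group
    rw [h3]
    exact H.mul_mem k.2 (H.inv_mem (H.zpow_mem d.hyH j))
  have h3 : k = ⟨n, h2⟩ * ⟨y, d.hyH⟩ ^ j := Subtype.ext e.symm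
  rw [h3]
  exact Subgroup.mul_mem_sup (show n ∈ N from hn) (Subgroup.zpow_mem _ (Subgroup.mem_zpowers _) _)

/-- the block part -/
theorem TD.blk3 (q : Parts2) (cm : S_CM) (int : S_INT) (d : TD p N y H P)
    [(KK N y).Normal] {O : ValuationSubring ℂ} {z : G} {D : Subgroup G} {hDH : D ≤ H}
    {hN : NN D ≤ H} {B : Set (G → ℂ)} {b : Set (H → ℂ)} {b₀ : Set (NN D → ℂ)}
    (e : BT p O z H D hDH hN B b b₀) (hzK : z ∈ KK N y) (hzN : z ∉ N) :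
    (∀ χ ∈ I0 p D B, ∃ χ' : Ab N y, χ'.1 = χ) ∧
    (∀ ψ ∈ I0 p (D.subgroupOf H) b, ∃ ψ' : Ab (N.comap H.subtype) (⟨y, d.hyH⟩ : H), ψ'.1 = ψ) ∧
    ∀ (χ : G → ℂ) (ψ : H → ℂ) (ε : ℤ), GR p N y H χ ψ ε → (ε = 1 ∨ ε = -1) →
      (χ ∈ I0 p D B ↔ ψ ∈ I0 p (D.subgroupOf H) b) ∧
      (χ ∈ I0 p D B → ∀ n m : ℕ, (n : ℂ) = χ 1 → (m : ℂ) = ψ 1 →
        (pPrimePart p n : ℤ) ≡ ε * (H.index * pPrimePart p m) [ZMOD p]) := by
  have hDp : IsPGroup p D := defect_pgroup e.hD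
  obtain ⟨P', d'⟩ := d.sub q.ti hDp hDH e.hy hzK hzN
  have hKK := d.KK_eq hzK hzN
  have := d'.nK
  obtain ⟨h1, h2, h3⟩ := d'.blk q.ti q.cl e
  have hzk : ∃ j, z ^ p ^ j = 1 := by
    obtain ⟨j, hj⟩ := hDp ⟨z, e.hy⟩
    exact ⟨j, congrArg Subtype.val hj⟩
  have hB0 : ∀ χ : G → ℂ, χ ∈ I0 p D B ↔ χ ∈ B ∧ red O (uu D χ) ≠ 0 := by
    intro χ
    constructor
    · rintro ⟨h6, h7⟩
      exact ⟨h6, (height_iff e.hpO (e.hB.irr χ h6) (uu_mem e.hpO e.hB e.hD h6)).mpr h7⟩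
    · rintro ⟨h6, h7⟩
      exact ⟨h6, (height_iff e.hpO (e.hB.irr χ h6) (uu_mem e.hpO e.hB e.hD h6)).mp h7⟩
  have hb0 : ∀ ψ : H → ℂ, ψ ∈ I0 p (D.subgroupOf H) b ↔
      ψ ∈ b ∧ red O (uu (D.subgroupOf H) ψ) ≠ 0 := by
    intro ψ
    constructor
    · rintro ⟨h6, h7⟩
      exact ⟨h6, (height_iff e.hpO (e.hb.irr ψ h6) (uu_mem e.hpO e.hb e.hbD h6)).mpr h7⟩
    · rintro ⟨h6, h7⟩
      exact ⟨h6, (height_iff e.hpO (e.hb.irr ψ h6) (uu_mem e.hpO e.hb e.hbD h6)).mp h7⟩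
  refine ⟨fun χ hχ => ?_, fun ψ hψ => ?_, fun χ ψ ε g hε => ?_⟩
  · obtain ⟨h4, h5⟩ := (hB0 χ).mp hχ
    obtain ⟨θ, hθ⟩ := h1 χ h4 h5
    obtain ⟨θ', hθ'⟩ := θ.tr hKK
    refine ⟨⟨χ, e.hB.irr χ h4, θ', ?_⟩, rfl⟩
    rw [hθ']
    exact hθ
  · obtain ⟨h4, h5⟩ := (hb0 ψ).mp hψ
    obtain ⟨θ, hθ⟩ := h2 ψ h4 h5
    have h7 := d'.stH θ.2.1 θ.2.2
    rw [hKK] at h7
    have h8 : (⟨y, d.hyH⟩ : H) ∈ St θ.1 := h7 (Subgroup.mem_sup_right (Subgroup.mem_zpowers y))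
    exact ⟨⟨ψ, e.hb.irr ψ h4, ⟨θ.1, θ.2.1, h8⟩, hθ⟩, rfl⟩
  · obtain ⟨i1, i2, -⟩ := d.gr_ab q g
    have h4 := h3 χ ψ ε i1 i2 hε
      (fun k hk => d.cong_z q cm int g (hDH e.hy) hzK hzN hzk e.hpO k hk)
    have h5 : χ ∈ I0 p D B ↔ ψ ∈ I0 p (D.subgroupOf H) b := by
      rw [hB0, hb0]
      exact h4.1
    refine ⟨h5, fun hχ n m hn hm => ?_⟩
    have hψ := h5.mp hχ
    have h6 := (hB0 χ).mp hχ
    have h7 := (hb0 ψ).mp hψ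
    obtain ⟨n', hn', hfn⟩ := hχ.2
    obtain ⟨m', hm', hfm⟩ := hψ.2
    have hnn : n = n' := by exact_mod_cast hn.trans hn'.symm
    have hmm : m = m' := by exact_mod_cast hm.trans hm'.symm
    subst hnn hmm
    have hn0 : n ≠ 0 := by
      rintro rfl
      apply (e.hB.irr _ h6.1).one_ne
      rw [← hn, Nat.cast_zero]
    have hm0 : m ≠ 0 := by
      rintro rfl
      apply (e.hb.irr _ h7.1).one_ne
      rw [← hm, Nat.cast_zero]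
    exact deg_cong' e.hpO hDH d.hPH (uu_mem e.hpO e.hB e.hD h6.1) (uu_mem e.hpO e.hb e.hbD h7.1)
      (h4.2 h6.1 h7.1) hn hm hn0 hm0 hfn hfm

theorem main3 (q : Parts2) (cm : S_CM) (int : S_INT) (gdx : S_GDX) (d : TD p N y H P) :
    ∃ (F : Iv N y ≃ Iv (N.comap H.subtype) (⟨y, d.hyH⟩ : H))
      (f : Ab N y ≃ Ab (N.comap H.subtype) (⟨y, d.hyH⟩ : H)) (s : Ab N y → ℤ),
      (∀ θ, Rel p N (KK N y) H le_KK θ.1 (F θ).1) ∧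
      (∀ (σ : ℂ ≃+* ℂ) (α : G ≃* G), Al N y H α → ∀ θ θ' : Iv N y,
        (∀ n n' : N, (n' : G) = α n → θ'.1 n = σ (θ.1 n')) →
        ∀ m m' : N.comap H.subtype, ((m' : H) : G) = α (m : H) →
        (F θ').1 m = σ ((F θ).1 m')) ∧
      (∀ χ θ, Ov N χ.1 θ.1 ↔ Ov (N.comap H.subtype) (f χ).1 (F θ).1) ∧
      (∀ χ θ, Ov N χ.1 θ.1 → (f χ).1 1 * θ.1 1 = χ.1 1 * (F θ).1 1) ∧
      Eqv y N H (fun χ : Ab N y => χ.1)
        (fun ψ : Ab (N.comap H.subtype) (⟨y, d.hyH⟩ : H) => ψ.1) f ∧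
      (∀ χ, s χ = 1 ∨ (s χ = -1 ∧ p ≠ 2)) ∧
      (∀ (χ : Ab N y) (z : G), z ∈ H → z ∈ KK N y → z ∉ N → (∃ j, z ^ p ^ j = 1) →
        ∀ O : ValuationSubring ℂ, (p : ℂ) ∈ O.nonunits →
        ∀ k : H, Commute z (k : G) → χ.1 k - s χ * (f χ).1 k ∈ O.nonunits) ∧
      ∀ (O : ValuationSubring ℂ) (z : G) (D : Subgroup G) (hDH : D ≤ H) (hN : NN D ≤ H)
        (B : Set (G → ℂ)) (b : Set (H → ℂ)) (b₀ : Set (NN D → ℂ)),
        BT p O z H D hDH hN B b b₀ → z ∈ KK N y → z ∉ N →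
        (∀ χ ∈ I0 p D B, ∃ χ' : Ab N y, χ'.1 = χ) ∧
        (∀ ψ ∈ I0 p (D.subgroupOf H) b,
          ∃ ψ' : Ab (N.comap H.subtype) (⟨y, d.hyH⟩ : H), ψ'.1 = ψ) ∧
        ∀ χ : Ab N y, (χ.1 ∈ I0 p D B ↔ (f χ).1 ∈ I0 p (D.subgroupOf H) b) ∧
          (χ.1 ∈ I0 p D B → ∀ n m : ℕ, (n : ℂ) = χ.1 1 → (m : ℂ) = (f χ).1 1 →
            (pPrimePart p n : ℤ) ≡ s χ * (H.index * pPrimePart p m) [ZMOD p]) := by
  have := d.nK
  obtain ⟨F, hF⟩ := d.exists_F q.ext q.kc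
  obtain ⟨f, s, hf⟩ := d.canon q gdx
  -- characters under `χ`
  have base : ∀ χ : Ab N y, ∃ θ₀ : Iv N y, Ov N χ.1 θ₀.1 ∧
      Ov (N.comap H.subtype) (f χ).1 (F θ₀).1 ∧ (f χ).1 1 * θ₀.1 1 = χ.1 1 * (F θ₀).1 1 := by
    intro χ
    obtain ⟨-, -, -, θ, η, h1, h2, h3, h4⟩ := d.gr_ab q (hf χ)
    have h5 : F θ = η := Subtype.ext (d.rel_unique q.ext q.kc (hF θ) h1)
    refine ⟨θ, h2, ?_, ?_⟩
    · rw [h5]
      exact h3
    · rw [h5]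
      exact h4
  have hG : ∀ χ : G → ℂ, IsIrr χ → ∀ θ θ' : Iv N y, Ov N χ θ.1 → Ov N χ θ'.1 →
      ∃ h : H, θ' = θ.cj d.hcen h := by
    intro χ hχ θ θ' h1 h2
    obtain ⟨g, hg⟩ := clif_conj q.hom q.lft q.sq q.cl θ.2.1 θ'.2.1 hχ h1 h2
    obtain ⟨n, hn, h, hh, rfl⟩ := d.hNH g
    refine ⟨⟨h, hh⟩, Subtype.ext ?_⟩
    rw [hg, conj_mul θ.2.1 hn]
    rfl
  have hH : ∀ ψ : H → ℂ, IsIrr ψ → ∀ θ θ' : Iv N y, Ov (N.comap H.subtype) ψ (F θ).1 →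
      Ov (N.comap H.subtype) ψ (F θ').1 → ∃ h : H, θ' = θ.cj d.hcen h := by
    intro ψ hψ θ θ' h1 h2
    obtain ⟨h, hh⟩ := clif_conj q.hom q.lft q.sq q.cl (F θ).2.1 (F θ').2.1 hψ h1 h2
    refine ⟨h, F.injective ?_⟩
    rw [d.F_equiv q.ext q.kc hF h θ]
    exact Subtype.ext hh
  have hov : ∀ (χ : Ab N y) (θ : Iv N y),
      Ov N χ.1 θ.1 ↔ Ov (N.comap H.subtype) (f χ).1 (F θ).1 := by
    intro χ θ
    obtain ⟨θ₀, h1, h2, -⟩ := base χ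
    constructor
    · intro h3
      obtain ⟨h, rfl⟩ := hG χ.1 χ.2.1 θ₀ θ h1 h3
      rw [d.F_equiv q.ext q.kc hF h θ₀]
      exact (ov_conj (f χ).2.1 h).mpr h2
    · intro h3
      obtain ⟨h, rfl⟩ := hH (f χ).1 (f χ).2.1 θ₀ θ h2 h3
      exact (ov_conj χ.2.1 (h : G)).mpr h1
  have hdeg : ∀ (χ : Ab N y) (θ : Iv N y), Ov N χ.1 θ.1 →
      (f χ).1 1 * θ.1 1 = χ.1 1 * (F θ).1 1 := by
    intro χ θ h3
    obtain ⟨θ₀, h1, -, h2⟩ := base χ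
    obtain ⟨h, rfl⟩ := hG χ.1 χ.2.1 θ₀ θ h1 h3
    have h6 : (θ₀.cj d.hcen h).1 1 = θ₀.1 1 := by
      change θ₀.1 (MulAut.conjNormal (h : G) 1) = _
      rw [map_one]
    have h7 : (F (θ₀.cj d.hcen h)).1 1 = (F θ₀).1 1 := by
      rw [d.F_equiv q.ext q.kc hF h]
      change (F θ₀).1 (MulAut.conjNormal h 1) = _
      rw [map_one]
    rw [h6, h7]
    exact h2
  have heqv : ∀ (σ : ℂ ≃+* ℂ) (α : G ≃* G), Al N y H α → ∀ χ χ' : Ab N y,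
      (∀ x, χ'.1 x = σ (χ.1 (α x))) → ∀ k k' : H, (k' : G) = α k →
      (f χ').1 k = σ ((f χ).1 k') := by
    intro σ α al χ χ' h1 k k' hk
    have h2 := d.gr_equiv q al σ (hf χ)
    have h3 : (fun x => σ (χ.1 (α x))) = χ'.1 := (funext h1).symm
    rw [h3] at h2
    have h4 := (d.gr_right q (hf χ') h2).1
    rw [h4]
    have h5 : k' = al.rH k := Subtype.ext hk
    rw [h5]
  have hs : ∀ χ : Ab N y, s χ = 1 ∨ (s χ = -1 ∧ p ≠ 2) := by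
    intro χ
    obtain ⟨-, -, h1, -⟩ := d.gr_ab q (hf χ)
    exact h1
  refine ⟨F, f, s, hF, ?_, hov, hdeg, heqv, hs, ?_, ?_⟩
  · intro σ α al θ θ' h1 m m' hm
    have h2 := (hF θ).tr al σ
    have h3 : (fun n => σ (θ.1 (rst α al.aN n))) = θ'.1 := by
      funext n
      exact (h1 n (rst α al.aN n) rfl).symm
    rw [h3] at h2
    rw [d.rel_unique q.ext q.kc (hF θ') h2]
    have h4 : m' = rst al.rH al.aM m := Subtype.ext (Subtype.ext hm)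
    rw [h4]
  · intro χ z hz hzK hzN ho O hO k hk
    exact d.cong_z q cm int (hf χ) hz hzK hzN ho hO k hk
  · intro O z D hDH hN B b b₀ e hzK hzN
    obtain ⟨h1, h2, h3⟩ := d.blk3 q cm int e hzK hzN
    refine ⟨h1, h2, fun χ => h3 χ.1 (f χ).1 (s χ) (hf χ) ?_⟩
    rcases hs χ with h | h
    · exact Or.inl h
    · exact Or.inr h.1

end Pool.Agent.Q17.TC
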