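import Pool.Agent.Q17.TC.D2
import Pool.Agent.Q17.TC.IRN
import Pool.Agent.Q239.TC.MAT

/-!
# Canonical pairs of lifts: dimensions and stability
-/

set_option autoImplicit false

open scoped BigOperators Classical
open Pool.Agent.Helper884 Representation Pool.Agent.H254R3.IN Pool.Agent.Y62

noncomputable section

namespace Pool.Agent.Q17.TC

lemma Bs {L : Type} [Group L] [Fintype L] (M : Subgroup L) (f f' : L → ℂ) :
    (Nat.card L : ℂ) * IC.B f f' =
    (Nat.card M : ℂ) * IC.B (fun n : M => f n) (fun n : M => f' n) +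
    ∑ k ∈ Finset.univ.filter (fun k : L => k ∉ M), f k * f' k⁻¹ := by
  unfold IC.B
  rw [mul_inv_cancel_left₀ IC.cardG_ne, mul_inv_cancel_left₀ IC.cardG_ne,
    ← Finset.sum_filter_add_sum_filter_not Finset.univ (fun k : L => k ∈ M)]
  congr 1
  symm
  refine Finset.sum_bij (fun (n : M) _ => (n : L)) ?_ ?_ ?_ ?_
  · intro n _
    exact Finset.mem_filter.mpr ⟨Finset.mem_univ _, n.2⟩
  · intro a _ b _ hab
    exact Subtype.ext hab
  · intro k hk
    exact ⟨⟨k, (Finset.mem_filter.mp hk).2⟩, Finset.mem_univ _, rfl⟩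
  · intro n _
    rfl

/-- the restriction of a representation to a subgroup -/
def rsB {A W : Type} [Group A] [AddCommGroup W] [Module ℂ W] (B : Subgroup A)
    (R : Representation ℂ A W) : Representation ℂ B W := R.comp B.subtype

/-- comparison of a representation with its conjugate by an automorphism -/
lemma lamA {A W : Type} [Group A] [AddCommGroup W] [Module ℂ W] [FiniteDimensional ℂ W]
    {B : Subgroup A} (hB : B.Normal) {R : Representation ℂ A W}
    (irr : (rsB B R).IsIrreducible) {a : MulAut A}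
    (ha : ∀ x, a x * x⁻¹ ∈ B) {u : W ≃ₗ[ℂ] W} (hu : ∀ x ∈ B, ∀ w, u (R x w) = R (a x) (u w)) :
    ∃ l : A →* ℂˣ, (∀ x ∈ B, l x = 1) ∧
      ∀ (x : A) (w : W), u (R x w) = (l x : ℂ) • R (a x) (u w) := by
  have := irr_nontrivial _ irr
  have haB : ∀ x, x ∈ B ↔ a x ∈ B := by
    intro x
    constructor
    · intro h
      have := B.mul_mem (ha x) h
      rwa [inv_mul_cancel_right] at this
    · intro h
      have := B.mul_mem (B.inv_mem (ha x)) h
      simpa using this
  have hR1 : ∀ (x : A) (w : W), R x⁻¹ (R x w) = w := by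
    intro x w
    rw [← Module.End.mul_apply, ← map_mul, inv_mul_cancel, map_one]
    rfl
  have hR2 : ∀ (x : A) (w : W), R x (R x⁻¹ w) = w := by
    intro x w
    rw [← Module.End.mul_apply, ← map_mul, mul_inv_cancel, map_one]
    rfl
  have hus : ∀ x ∈ B, ∀ w, u.symm (R (a x) w) = R x (u.symm w) := by
    intro x hx w
    rw [LinearEquiv.symm_apply_eq, hu x hx, u.apply_symm_apply]
  have key : ∀ x : A, ∃ c : ℂ, ∀ w : W, u (R x w) = c • R (a x) (u w) := by
    intro x
    obtain ⟨c, hc⟩ := schur _ irr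
      ((R (a x)⁻¹) ∘ₗ (u : W →ₗ[ℂ] W) ∘ₗ (R x) ∘ₗ (u.symm : W →ₗ[ℂ] W)) (by
        rintro ⟨n, hn⟩ w
        simp only [LinearMap.comp_apply, LinearEquiv.coe_coe]
        change (R (a x)⁻¹) (u ((R x) (u.symm (R n w)))) =
          R n ((R (a x)⁻¹) (u ((R x) (u.symm w))))
        obtain ⟨m, rfl⟩ := a.surjective n
        have hm := (haB m).mpr hn
        rw [hus m hm]
        have e1 : ∀ w, R x (R m w) = R (x * m * x⁻¹) (R x w) := by
          intro w
          rw [← Module.End.mul_apply, ← Module.End.mul_apply, ← map_mul, ← map_mul]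
          congr 2
          group
        rw [e1, hu _ (hB.conj_mem m hm x), ← Module.End.mul_apply, ← Module.End.mul_apply,
          ← map_mul, ← map_mul]
        congr 2
        simp only [map_mul, map_inv]
        group)
    refine ⟨c, fun w => ?_⟩
    have h1 := LinearMap.congr_fun hc (u w)
    simp only [LinearMap.comp_apply, LinearEquiv.coe_coe, u.symm_apply_apply,
      LinearMap.smul_apply, LinearMap.id_apply] at h1
    have h2 := congrArg (R (a x)) h1
    rw [hR2, map_smul] at h2
    exact h2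
  choose c hc using key
  obtain ⟨w₀, hw₀⟩ := exists_ne (0 : W)
  have uniq : ∀ (x : A) (s t : ℂ), s • R x (u w₀) = t • R x (u w₀) → s = t := by
    intro x s t hst
    have h1 : R x (u w₀) ≠ 0 := by
      intro h2
      have h3 := hR1 x (u w₀)
      rw [h2, map_zero] at h3
      exact hw₀ (u.map_eq_zero_iff.mp h3.symm)
    exact smul_left_injective ℂ h1 hst
  have hc1 : ∀ x : A, x ∈ B → c x = 1 := by
    intro x hx
    apply uniq (a x)
    rw [← hc x w₀, one_smul, hu x hx]
  let c' : A →* ℂ :=
    { toFun := c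
      map_one' := hc1 1 B.one_mem
      map_mul' := fun x y => by
        apply uniq (a (x * y))
        rw [← hc, map_mul, Module.End.mul_apply, hc, hc, map_mul, map_mul, Module.End.mul_apply,
          map_smul, smul_smul, mul_comm] }
  refine ⟨c'.toHomUnits, fun x hx => ?_, fun x w => ?_⟩
  · apply Units.ext
    exact hc1 x hx
  · exact hc x w

section core

variable {A A' : Type} [Group A] [Fintype A] [Group A'] [Fintype A'] {W W' : Type}
  [AddCommGroup W] [Module ℂ W] [FiniteDimensional ℂ W] [AddCommGroup W'] [Module ℂ W']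
  [FiniteDimensional ℂ W'] {p : ℕ} {j : A' →* A} {B : Subgroup A} {R : Representation ℂ A W}
  {R' : Representation ℂ A' W'} {ε : ℤ}

namespace AD

variable (d : AD p j B R R' ε)

include d

omit [Fintype A] [Fintype A'] [FiniteDimensional ℂ W] [FiniteDimensional ℂ W'] in
lemma eps' : ε = 1 ∨ ε = -1 := by
  rcases d.eps with h | h
  · exact Or.inl h
  · exact Or.inr h.1

omit [Fintype A] [Fintype A'] [FiniteDimensional ℂ W] [FiniteDimensional ℂ W'] in
lemma idx' : (B.comap j).index = p := by
  have := d.nB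
  rw [Subgroup.index_comap, ← Subgroup.relIndex_sup_left, ← d.hidx]
  have h : B ⊔ j.range = ⊤ := by
    rw [eq_top_iff]
    intro a _
    obtain ⟨b, hb, x, rfl⟩ := d.hj a
    exact Subgroup.mul_mem_sup hb ⟨x, rfl⟩
  rw [h, Subgroup.relIndex_top_right]

omit [Fintype A] [Fintype A'] [FiniteDimensional ℂ W] in
lemma irrχ' : IsIrr R'.character := ⟨W', _, _, inferInstance, R', d.irr', rfl⟩

omit [Fintype A] [FiniteDimensional ℂ W] in
/-- the character of `R'` does not vanish outside the preimage of `B` -/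
lemma nv' : ∃ x, j x ∉ B ∧ R'.character x ≠ 0 := by
  by_contra hne
  push Not at hne
  have h1 := Bs (B.comap j) R'.character R'.character
  rw [IC.B_irr d.irrχ' d.irrχ', IC.B_irr d.irrB' d.irrB', if_pos rfl, if_pos rfl,
    Finset.sum_eq_zero, add_zero, mul_one, mul_one] at h1
  · have h2 : Nat.card A' = Nat.card (B.comap j) := by exact_mod_cast h1
    have h3 := Subgroup.index_mul_card (B.comap j)
    rw [d.idx', ← h2] at h3
    have h4 : 0 < Nat.card A' := Nat.card_pos
    have h5 := d.hp.two_le
    nlinarith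
  · intro x hx
    rw [hne x (Finset.mem_filter.mp hx).2, zero_mul]

omit [Fintype A] [Fintype A'] [FiniteDimensional ℂ W] [FiniteDimensional ℂ W'] in
lemma lin_one {l : A' →* ℂˣ} (hl : ∀ x, j x ∈ B → l x = 1) {x : A'} (hx : j x ∉ B)
    (hx1 : l x = 1) : l = 1 := by
  have h1 : B.comap j ≤ l.ker := fun x hx => hl x hx
  have h2 : (B.comap j).relIndex l.ker * l.ker.index = (B.comap j).index :=
    Subgroup.relIndex_mul_index h1
  have h3 : (B.comap j).relIndex l.ker ≠ 1 := by
    intro h4
    rw [Subgroup.relIndex_eq_one] at h4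
    exact hx (h4 hx1)
  have h4 : l.ker.index = 1 := by
    rw [d.idx'] at h2
    have h5 := d.hp
    rcases (Nat.prime_mul_iff.mp (h2 ▸ h5)) with h6 | h6
    · exact h6.2
    · exact absurd h6.2 h3
  rw [Subgroup.index_eq_one] at h4
  exact MonoidHom.ker_eq_top_iff.mp h4

omit [Fintype A] [FiniteDimensional ℂ W] in
lemma B_tw {l : A' →* ℂˣ} (hl : ∀ x, j x ∈ B → l x = 1) :
    IC.B R'.character (fun x => ((l x : ℂˣ) : ℂ) * R'.character x) = if l = 1 then 1 else 0 := by
  rw [IC.B_irr d.irrχ' (irr_twist d.irrχ' l)]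
  congr 1
  apply propext
  constructor
  · intro h3
    obtain ⟨x, hx, hx'⟩ := d.nv'
    have h4 := congrFun h3 x
    refine d.lin_one hl hx (Units.ext ?_)
    have h5 : ((l x : ℂˣ) : ℂ) * R'.character x = 1 * R'.character x := by
      rw [one_mul]
      exact h4.symm
    exact mul_right_cancel₀ hx' h5
  · rintro rfl
    funext k
    simp

omit [Fintype A] in
/-- the dimensions of the spaces of intertwiners -/
lemma dim (hom : S_HOM) : ∃ a : ℤ, ∀ l : A' →* ℂˣ, (∀ x, j x ∈ B → l x = 1) →
    (Module.finrank ℂ (Va j R R' l) : ℤ) = a + if l = 1 then ε else 0 := by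
  set a : ℂ := (Nat.card A' : ℂ)⁻¹ * ((Nat.card (B.comap j) : ℂ) *
    IC.B (fun m : B.comap j => R.character (j m)) (fun m : B.comap j => R'.character m) -
    ε * ((Nat.card (B.comap j) : ℂ))) with ha
  have key : ∀ l : A' →* ℂˣ, (∀ x, j x ∈ B → l x = 1) →
      (Module.finrank ℂ (Va j R R' l) : ℂ) = a + if l = 1 then (ε : ℂ) else 0 := by
    intro l hl
    let R₁ : Representation ℂ A' W := R.comp j
    have h1 := hom A' W W' R₁ (twr l R') (Va j R R' l) (fun v => by
      constructor
      · intro h x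
        ext w
        have h2 := h x w
        change R (j x) (v w) = v (((l x : ℂˣ) : ℂ) • R' x w)
        rw [map_smul]
        exact h2
      · intro h x w
        have h2 := LinearMap.congr_fun (h x) w
        change R (j x) (v w) = v (((l x : ℂˣ) : ℂ) • R' x w) at h2
        rw [map_smul] at h2
        exact h2)
    have h2 : R₁.character = fun k => R.character (j k) := rfl
    have h3 : (twr l R').character = fun k => ((l k : ℂˣ) : ℂ) * R'.character k :=
      funext fun k => twr_char l R' k
    rw [h2, h3] at h1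
    have h4 := Bs (B.comap j) (fun k => R.character (j k))
      (fun k => ((l k : ℂˣ) : ℂ) * R'.character k)
    have h5 := Bs (B.comap j) (R'.character) (fun k => ((l k : ℂˣ) : ℂ) * R'.character k)
    rw [d.B_tw hl] at h5
    have h6 : (fun n : B.comap j => ((l n : ℂˣ) : ℂ) * R'.character n) =
        fun n : B.comap j => R'.character n := by
      funext n
      rw [hl n n.2]
      simp
    rw [h6] at h4 h5
    rw [IC.B_irr d.irrB' d.irrB', if_pos rfl] at h5
    have h7 : ∑ k ∈ Finset.univ.filter (fun k : A' => k ∉ B.comap j),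
        R.character (j k) * (((l k⁻¹ : ℂˣ) : ℂ) * R'.character k⁻¹) =
        ε * ∑ k ∈ Finset.univ.filter (fun k : A' => k ∉ B.comap j),
        R'.character k * (((l k⁻¹ : ℂˣ) : ℂ) * R'.character k⁻¹) := by
      rw [Finset.mul_sum]
      refine Finset.sum_congr rfl fun k hk => ?_
      rw [d.val k (Finset.mem_filter.mp hk).2]
      ring
    rw [h7] at h4
    have hc : (Nat.card A' : ℂ) ≠ 0 := IC.cardG_ne
    rw [h1]
    have h8 : (Nat.card A' : ℂ) * IC.B (fun k => R.character (j k))
        (fun k => ((l k : ℂˣ) : ℂ) * R'.character k) =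
        (Nat.card A' : ℂ) * (a + if l = 1 then (ε : ℂ) else 0) := by
      rw [h4, ha, mul_add, mul_inv_cancel_left₀ hc]
      split_ifs at h5 ⊢ with h9
      · linear_combination (-(ε : ℂ)) * h5
      · linear_combination (-(ε : ℂ)) * h5
    exact mul_left_cancel₀ hc h8
  by_cases hex : ∃ l₀ : A' →* ℂˣ, (∀ x, j x ∈ B → l₀ x = 1) ∧ l₀ ≠ 1
  · obtain ⟨l₀, hl₀, hne⟩ := hex
    have h1 := key l₀ hl₀
    rw [if_neg hne, add_zero] at h1
    refine ⟨Module.finrank ℂ (Va j R R' l₀), fun l hl => ?_⟩
    have h2 := key l hl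
    rw [← h1] at h2
    split_ifs at h2 ⊢ with h3
    · exact_mod_cast h2
    · exact_mod_cast h2
  · push Not at hex
    refine ⟨Module.finrank ℂ (Va j R R' 1) - ε, fun l hl => ?_⟩
    rw [hex l hl, if_pos rfl]
    ring

end AD

end core

end Pool.Agent.Q17.TC
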