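import Pool.Agent.Q17.TC.C9

/-!
# The canonical bijection
-/

set_option autoImplicit false

open scoped BigOperators Classical
open Pool.Agent.Helper884 Representation Pool.Agent.H254R3.IN Pool.Agent.Y62

noncomputable section

namespace Pool.Agent.Q17.TC

section

variable {G : Type} [Group G] [Fintype G] {N : Subgroup G} [N.Normal] {y : G}
  [(KK N y).Normal] {H : Subgroup G} {p : ℕ} [hp : Fact p.Prime] {P : Sylow p G}

namespace TD

variable (d : TD p N y H P)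

include d

omit [(KK N y).Normal] in
/-- representations for corresponding characters -/
lemma sd_ex (q : Parts) {θ : N → ℂ} {η : N.comap H.subtype → ℂ}
    (r : Rel p N (KK N y) H le_KK θ η) :
    ∃ (W : Type) (_ : AddCommGroup W) (_ : Module ℂ W) (_ : FiniteDimensional ℂ W)
      (W' : Type) (_ : AddCommGroup W') (_ : Module ℂ W') (_ : FiniteDimensional ℂ W')
      (R : Representation ℂ (KK N y) W) (R' : Representation ℂ ((KK N y).comap H.subtype) W')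
      (ε : ℤ), SD p N y H R R' ε ∧ rN R = θ ∧ rM R' = η := by
  obtain ⟨θ', η', ε, r⟩ := r
  have h1 := ext3 q.ext le_KK d.idx' r.ext r.hN
  have h2 := ext3 q.ext (Subgroup.comap_mono le_KK) d.idxH r.ext' r.hN'
  obtain ⟨W, _, _, _, R, hR, hRc⟩ := id r.ext
  obtain ⟨W', _, _, _, R', hR', hRc'⟩ := id r.ext'
  subst hRc hRc'
  exact ⟨W, _, _, inferInstance, W', _, _, inferInstance, R, R', ε,
    ⟨hR, hR', h1, h2, r.sgn, r.val⟩, funext r.res, funext r.res'⟩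

theorem gr_ex (q : Parts2) (gdx : S_GDX) {χ : G → ℂ} (hχ : IsIrr χ) (θ : Iv N y)
    (ho : Ov N χ θ.1) : ∃ (ψ : H → ℂ) (ε : ℤ), GR p N y H χ ψ ε := by
  obtain ⟨η, hη⟩ := d.rel_ex q.ext q.kc θ.2.1 θ.2.2
  obtain ⟨W, _, _, _, W', _, _, _, R, R', ε, s, h1, h2⟩ := d.sd_ex q.toParts hη
  obtain ⟨e, he⟩ := gdx G W W' p N y H P d R R' ε s (d.sd_stab q.toParts s)
    (fun h hh => d.exh q s hh)
  have ho' : Ov N χ (rN R) := by rwa [h1]
  obtain ⟨ξ, ξ', g⟩ := he ⟨χ, hχ, ho'⟩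
  exact ⟨_, ε, W, _, _, inferInstance, W', _, _, inferInstance, R, R', ξ, ξ', g⟩

theorem gr_ex' (q : Parts2) (gdx : S_GDX) {ψ : H → ℂ} (hψ : IsIrr ψ)
    (η : Iv (N.comap H.subtype) (⟨y, d.hyH⟩ : H)) (ho : Ov (N.comap H.subtype) ψ η.1) :
    ∃ (χ : G → ℂ) (ε : ℤ), GR p N y H χ ψ ε := by
  obtain ⟨θ, hθ⟩ := d.rel_ex' q.ext q.kc η.2.1 η.2.2
  obtain ⟨W, _, _, _, W', _, _, _, R, R', ε, s, h1, h2⟩ := d.sd_ex q.toParts hθ
  obtain ⟨e, he⟩ := gdx G W W' p N y H P d R R' ε s (d.sd_stab q.toParts s)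
    (fun h hh => d.exh q s hh)
  have ho' : Ov (N.comap H.subtype) ψ (rM R') := by rwa [h2]
  obtain ⟨ξ, ξ', g⟩ := he (e.symm ⟨ψ, hψ, ho'⟩)
  rw [Equiv.apply_symm_apply] at g
  exact ⟨_, ε, W, _, _, inferInstance, W', _, _, inferInstance, R, R', ξ, ξ', g⟩

omit [(KK N y).Normal] in
/-- the restriction of `R` to `N` is `y`-invariant -/
lemma inv_rN (q : Parts) {W W' : Type} [AddCommGroup W] [Module ℂ W] [FiniteDimensional ℂ W]
    [AddCommGroup W'] [Module ℂ W'] [FiniteDimensional ℂ W'] {R : Representation ℂ (KK N y) W}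
    {R' : Representation ℂ ((KK N y).comap H.subtype) W'} {ε : ℤ} (s : SD p N y H R R' ε) :
    (IsIrr (rN R) ∧ ∀ n : N, rN R (MulAut.conjNormal y n) = rN R n) ∧
    (IsIrr (rM R') ∧ ∀ n : N.comap H.subtype,
      rM R' (MulAut.conjNormal (⟨y, d.hyH⟩ : H) n) = rM R' n) := by
  refine ⟨⟨d.irrN q s, fun n => ?_⟩, ⟨d.irrM q s, fun n => ?_⟩⟩
  · exact irr_inv le_KK ⟨W, _, _, inferInstance, R, s.irr, rfl⟩ y_mem n
  · exact irr_inv (K := (KK N y).comap H.subtype) (Subgroup.comap_mono le_KK)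
      ⟨W', _, _, inferInstance, R', s.irr', rfl⟩ (k := (⟨y, d.hyH⟩ : H)) y_mem n

/-- both characters are over invariant characters which correspond -/
theorem gr_ab (q : Parts2) {χ : G → ℂ} {ψ : H → ℂ} {ε : ℤ} (g : GR p N y H χ ψ ε) :
    IsIrr χ ∧ IsIrr ψ ∧ (ε = 1 ∨ (ε = -1 ∧ p ≠ 2)) ∧
    ∃ (θ : Iv N y) (η : Iv (N.comap H.subtype) (⟨y, d.hyH⟩ : H)),
      Rel p N (KK N y) H le_KK θ.1 η.1 ∧ Ov N χ θ.1 ∧ Ov (N.comap H.subtype) ψ η.1 ∧
      ψ 1 * θ.1 1 = χ 1 * η.1 1 := by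
  obtain ⟨W, _, _, _, W', _, _, _, R, R', ξ, ξ', g⟩ := g
  obtain ⟨h1, h2⟩ := d.inv_rN q.toParts g.sd
  refine ⟨g.irr, g.irr', g.sd.eps, ⟨rN R, h1⟩, ⟨rM R', h2⟩, d.sd_rel q.toParts g.sd, g.ov, g.ov',
    ?_⟩
  change ψ 1 * rN R 1 = χ 1 * rM R' 1
  -- the degrees
  have hc : CH p R R' (1 : H) (LinearEquiv.refl ℂ W) (LinearEquiv.refl ℂ W') := by
    refine CP.triv (x := (1 : (KK N y).comap H.subtype)) ?_ (fun w => ?_) (fun w => ?_)
      (fun z => ?_) (fun z => ?_)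
    · rw [map_one]
      exact Subgroup.one_mem _
    · rw [map_one, map_one]
      rfl
    · rw [map_one]
      rfl
    · rfl
    · rfl
  obtain ⟨s, h3, h4⟩ := g.cc 1 _ _ hc
  have h5 : ξ 1 = s * rN R 1 := by
    have h6 := h3 1
    have e1 : ((1 : N) : G) * ((1 : H) : G) = 1 := by simp
    rw [e1] at h6
    exact h6
  have h6 : ξ' 1 = s * rM R' 1 := by
    have h7 := h4 1
    have e1 : ((1 : N.comap H.subtype) : H) * 1 = 1 := by simp
    rw [e1] at h7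
    exact h7
  have h7 : χ 1 = (St (rN R)).index * ξ 1 := by
    rw [g.cf.ind 1]
    have e1 : ∀ x : G, ξ (x⁻¹ * 1 * x) = ξ 1 := fun x => by
      congr 1
      group
    rw [Finset.sum_congr rfl fun x _ => e1 x, Finset.sum_const, Finset.card_univ, nsmul_eq_mul,
      ← Nat.card_eq_fintype_card, ← Subgroup.index_mul_card (St (rN R))]
    have h2 : (Nat.card (St (rN R)) : ℂ) ≠ 0 := IC.cardG_ne
    push_cast
    field_simp
  have h8 : ψ 1 = (St (rM R')).index * ξ' 1 := by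
    rw [g.cf'.ind 1]
    have e1 : ∀ x : H, ξ' (x⁻¹ * 1 * x) = ξ' 1 := fun x => by
      congr 1
      group
    rw [Finset.sum_congr rfl fun x _ => e1 x, Finset.sum_const, Finset.card_univ, nsmul_eq_mul,
      ← Nat.card_eq_fintype_card, ← Subgroup.index_mul_card (St (rM R'))]
    have h2 : (Nat.card (St (rM R')) : ℂ) ≠ 0 := IC.cardG_ne
    push_cast
    field_simp
  have h9 : (St (rM R')).index = (St (rN R)).index := by
    have hNT : N ≤ St (rN R) := by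
      intro n hn m
      rw [← h1.1.conj m ⟨n, hn⟩]
      congr 1
    rw [← index_comap hNT d.hNH]
    congr 1
    ext h
    exact (d.sd_stab q.toParts g.sd h).symm
  rw [h7, h8, h5, h6, h9]
  ring

/-- **The canonical bijection.** -/
theorem canon (q : Parts2) (gdx : S_GDX) :
    ∃ (f : Ab N y ≃ Ab (N.comap H.subtype) (⟨y, d.hyH⟩ : H)) (s : Ab N y → ℤ),
      ∀ χ, GR p N y H χ.1 (f χ).1 (s χ) := by
  have h1 : ∀ χ : Ab N y, ∃ (ψ : Ab (N.comap H.subtype) (⟨y, d.hyH⟩ : H)) (ε : ℤ),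
      GR p N y H χ.1 ψ.1 ε := by
    intro χ
    obtain ⟨θ, hθ⟩ := χ.2.2
    obtain ⟨ψ, ε, g⟩ := d.gr_ex q gdx χ.2.1 θ hθ
    obtain ⟨-, h2, -, -, η, -, -, h3, -⟩ := d.gr_ab q g
    exact ⟨⟨ψ, h2, η, h3⟩, ε, g⟩
  choose f s hf using h1
  have hb : Function.Bijective f := by
    constructor
    · intro χ χ' h
      have h2 := hf χ'
      rw [← h] at h2
      exact Subtype.ext (d.gr_left q (hf χ) h2).1
    · intro ψ
      obtain ⟨η, hη⟩ := ψ.2.2
      obtain ⟨χ, ε, g⟩ := d.gr_ex' q gdx ψ.2.1 η hη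
      obtain ⟨h2, -, -, θ, -, -, h3, -⟩ := d.gr_ab q g
      exact ⟨⟨χ, h2, θ, h3⟩, Subtype.ext (d.gr_right q (hf ⟨χ, h2, θ, h3⟩) g).1⟩
  exact ⟨Equiv.ofBijective f hb, s, hf⟩

end TD

end

end Pool.Agent.Q17.TC
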