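import Pool.Agent.Q17.TC.C1

/-!
# Canonical pairs of lifts: properties
-/

set_option autoImplicit false

open scoped BigOperators Classical
open Pool.Agent.Helper884 Representation Pool.Agent.H254R3.IN Pool.Agent.Y62
open Pool.Agent.Q239.TC (op op_apply dT_eq dT_mul dT_smul dT_one dT_ne)

noncomputable section

namespace Pool.Agent.Q17.TC

lemma card_lin {Q : Type} [Group Q] [Finite Q] {p : ℕ} (hp : p.Prime) (h1 : Nat.card Q = p) :
    Finite (Q →* ℂˣ) ∧ Nat.card (Q →* ℂˣ) = p := by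
  have : Fact p.Prime := ⟨hp⟩
  have hcyc : IsCyclic Q := isCyclic_of_prime_card h1
  let i : CommGroup Q := hcyc.commGroup
  have hcard : Nat.card (Q →* ℂˣ) = p := by
    have : NeZero (Monoid.exponent Q) := ⟨Monoid.exponent_ne_zero_of_finite⟩
    exact (CommGroup.card_monoidHom_of_hasEnoughRootsOfUnity Q ℂ).trans h1
  exact ⟨Nat.finite_of_card_ne_zero (by
    rw [hcard]
    exact hp.ne_zero), hcard⟩

section core

variable {A A' : Type} [Group A] [Group A'] {W W' : Type}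
  [AddCommGroup W] [Module ℂ W] [AddCommGroup W'] [Module ℂ W']
  {p : ℕ} {j : A' →* A} {B : Subgroup A} {R : Representation ℂ A W}
  {R' : Representation ℂ A' W'} {ε : ℤ}

namespace Au

variable {a b : MulAut A} {a' b' : MulAut A'}

lemma mem (h : Au j B a a') {x : A} : a x ∈ B ↔ x ∈ B := by
  constructor
  · intro h1
    have := B.mul_mem (B.inv_mem (h.tr x)) h1
    simpa using this
  · intro h1
    have := B.mul_mem (h.tr x) h1
    rwa [inv_mul_cancel_right] at this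

lemma mul (h : Au j B a a') (k : Au j B b b') : Au j B (a * b) (a' * b') := by
  refine ⟨fun x => ?_, fun x => ?_⟩
  · rw [MulAut.mul_apply, MulAut.mul_apply, h.com, k.com]
  · rw [MulAut.mul_apply]
    have := B.mul_mem (h.tr (b x)) (k.tr x)
    simpa [mul_assoc] using this

lemma inv (h : Au j B a a') : Au j B a⁻¹ a'⁻¹ := by
  have e : ∀ x, a (a⁻¹ x) = x := fun x => by
    rw [← MulAut.mul_apply, mul_inv_cancel, MulAut.one_apply]
  have e' : ∀ x, a' (a'⁻¹ x) = x := fun x => by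
    rw [← MulAut.mul_apply, mul_inv_cancel, MulAut.one_apply]
  refine ⟨fun x => ?_, fun x => ?_⟩
  · apply a.injective
    rw [← h.com, e', e]
  · have := B.inv_mem (h.tr (a⁻¹ x))
    rw [e] at this
    simpa using this

lemma one : Au j B 1 1 := by
  refine ⟨fun x => rfl, fun x => ?_⟩
  rw [MulAut.one_apply, mul_inv_cancel]
  exact B.one_mem

lemma tr' (h : Au j B a a') (x : A') : j (a' x * x⁻¹) ∈ B := by
  rw [map_mul, map_inv, h.com]
  exact h.tr _

end Au

namespace LP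

variable {a b : MulAut A} {a' b' : MulAut A'} {u v : W ≃ₗ[ℂ] W} {u' v' : W' ≃ₗ[ℂ] W'}

lemma mul (h : LP j B R R' a a' u u') (k : LP j B R R' b b' v v') (hb : Au j B b b') :
    LP j B R R' (a * b) (a' * b') (v.trans u) (v'.trans u') := by
  refine ⟨fun x hx w => ?_, fun x hx w => ?_⟩
  · rw [LinearEquiv.trans_apply, LinearEquiv.trans_apply, k.l x hx, h.l _ (hb.mem.mpr hx)]
    rfl
  · rw [LinearEquiv.trans_apply, LinearEquiv.trans_apply, k.l' x hx, h.l' _ (by
      rw [hb.com]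
      exact hb.mem.mpr hx)]
    rfl

lemma inv (h : LP j B R R' a a' u u') (ha : Au j B a a') :
    LP j B R R' a⁻¹ a'⁻¹ u.symm u'.symm := by
  have e : ∀ x, a (a⁻¹ x) = x := fun x => by
    rw [← MulAut.mul_apply, mul_inv_cancel, MulAut.one_apply]
  have e' : ∀ x, a' (a'⁻¹ x) = x := fun x => by
    rw [← MulAut.mul_apply, mul_inv_cancel, MulAut.one_apply]
  refine ⟨fun x hx w => ?_, fun x hx w => ?_⟩
  · rw [LinearEquiv.symm_apply_eq, h.l _ (ha.inv.mem.mpr hx), e, u.apply_symm_apply]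
  · rw [LinearEquiv.symm_apply_eq, h.l' _ (by
      rw [ha.inv.com]
      exact ha.inv.mem.mpr hx), e', u'.apply_symm_apply]

lemma smul (h : LP j B R R' a a' u u') {c c' : ℂ} (hv : ∀ w, v w = c • u w)
    (hv' : ∀ w, v' w = c' • u' w) : LP j B R R' a a' v v' := by
  refine ⟨fun x hx w => ?_, fun x hx w => ?_⟩
  · rw [hv, hv, h.l x hx, map_smul]
  · rw [hv', hv', h.l' x hx, map_smul]

end LP

variable [Fintype A] [Fintype A'] [FiniteDimensional ℂ W] [FiniteDimensional ℂ W']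

namespace AD

variable (d : AD p j B R R' ε)

include d

omit [Fintype A'] [FiniteDimensional ℂ W'] in
lemma irrep (hom : S_HOM) : (rsB B R).IsIrreducible := irr_of_char hom (rsB B R) d.irrB

omit [Fintype A] [FiniteDimensional ℂ W] in
lemma irrep' (hom : S_HOM) : (rsB (B.comap j) R').IsIrreducible :=
  irr_of_char hom (rsB (B.comap j) R') d.irrB'

variable {a b : MulAut A} {a' b' : MulAut A'} {u v : W ≃ₗ[ℂ] W} {u' v' : W' ≃ₗ[ℂ] W'}

/-- a pair of lifts permutes the spaces of intertwiners -/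
lemma shift (hom : S_HOM) (h : Au j B a a') (hl : LP j B R R' a a' u u') :
    ∃ l₀ : A' →* ℂˣ, (∀ x, j x ∈ B → l₀ x = 1) ∧
      ∀ l : A' →* ℂˣ, (∀ x, j x ∈ B → l x = 1) → ∀ v ∈ Va j R R' l,
        (u : W →ₗ[ℂ] W) ∘ₗ v ∘ₗ (u'.symm : W' →ₗ[ℂ] W') ∈ Va j R R' (l * l₀) := by
  have := d.nB
  obtain ⟨α, hα, hα'⟩ := lamA d.nB (d.irrep hom) h.tr hl.l
  obtain ⟨β, hβ, hβ'⟩ := lamA (B := B.comap j) inferInstance (d.irrep' hom) h.tr' hl.l'
  refine ⟨β * (α.comp j)⁻¹, fun k hk => ?_, fun l htr v hv => ?_⟩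
  · have h1 : β k = 1 := hβ k hk
    have h2 : (α.comp j) k = 1 := hα _ hk
    rw [MonoidHom.mul_apply, MonoidHom.inv_apply, h1, h2, inv_one, mul_one]
  · intro k w
    set k₁ : A' := a'⁻¹ k with hk₁
    have e1 : a' k₁ = k := by
      rw [hk₁, ← MulAut.mul_apply, mul_inv_cancel, MulAut.one_apply]
    have e2 : a (j k₁) = j k := by rw [← h.com, e1]
    have e3 : ∀ l : A' →* ℂˣ, (∀ x, j x ∈ B → l x = 1) → l k₁ = l k := by
      intro l hl
      have h1 := hl _ (h.inv.tr' k)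
      rw [map_mul, map_inv, mul_inv_eq_one] at h1
      exact h1
    have h1 : ∀ w : W, R (j k) (u w) = ((α (j k₁) : ℂˣ) : ℂ)⁻¹ • u (R (j k₁) w) := by
      intro w
      rw [hα', e2, smul_smul, inv_mul_cancel₀ (Units.ne_zero _), one_smul]
    have h2 : ∀ w : W', R' k₁ (u'.symm w) = ((β k₁ : ℂˣ) : ℂ) • u'.symm (R' k w) := by
      intro w
      have h3 := hβ' k₁ (u'.symm w)
      rw [e1, u'.apply_symm_apply] at h3
      rw [← map_smul, ← h3, u'.symm_apply_apply]
    simp only [LinearMap.comp_apply, LinearEquiv.coe_coe]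
    rw [h1, hv, h2, map_smul, map_smul, map_smul, smul_smul, smul_smul]
    congr 1
    have h3 := e3 l htr
    have h4 := e3 β hβ
    have h5 := e3 (α.comp j) (fun k hk => hα _ hk)
    simp only [MonoidHom.mul_apply, MonoidHom.inv_apply, MonoidHom.comp_apply, Units.val_mul,
      Units.val_inv_eq_inv_val] at h5 ⊢
    rw [h3, h4, h5]
    ring

/-- a pair of lifts stabilises the spaces of intertwiners -/
lemma stab (hom : S_HOM) (h : Au j B a a') (hl : LP j B R R' a a' u u') {l : A' →* ℂˣ}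
    (htr : ∀ x, j x ∈ B → l x = 1) (v : W' →ₗ[ℂ] W) (hv : v ∈ Va j R R' l) :
    op u u' v ∈ Va j R R' l := by
  rw [op_apply]
  obtain ⟨l₀, hl₀, h1⟩ := d.shift hom h hl
  obtain ⟨t, ht⟩ := d.dim hom
  have h2 : l₀ = 1 := by
    by_contra hne
    have hinv : ∀ x, j x ∈ B → l₀⁻¹ x = 1 := by
      intro k hk
      rw [MonoidHom.inv_apply, hl₀ k hk, inv_one]
    have hone : ∀ x, j x ∈ B → (1 : A' →* ℂˣ) x = 1 := fun k _ => rfl
    have h3 := MD.conj_inj u u' (h1 1 hone)
    have h4 := MD.conj_inj u u' (h1 l₀⁻¹ hinv)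
    have e1 : (1 : A' →* ℂˣ) * l₀ = l₀ := MonoidHom.ext fun k => one_mul _
    have e2 : l₀⁻¹ * l₀ = 1 := MonoidHom.ext fun k => inv_mul_cancel _
    rw [e1] at h3
    rw [e2] at h4
    have h5 := ht 1 hone
    have h6 := ht l₀ hl₀
    have h7 := ht l₀⁻¹ hinv
    rw [if_pos rfl] at h5
    rw [if_neg hne] at h6
    have e3 : ¬ l₀⁻¹ = 1 := by
      intro h8
      apply hne
      ext k
      have h9 := DFunLike.congr_fun h8 k
      rw [MonoidHom.inv_apply, MonoidHom.one_apply, inv_eq_one] at h9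
      rw [h9]
      rfl
    rw [if_neg e3] at h7
    rcases d.eps' with h8 | h8 <;> omega
  have h3 := h1 l htr v hv
  have e1 : l * (1 : A' →* ℂˣ) = l := MonoidHom.ext fun k => mul_one _
  rwa [h2, e1] at h3

lemma D_ne (hom : S_HOM) (h : Au j B a a') (hl : LP j B R R' a a' u u') {l : A' →* ℂˣ}
    (htr : ∀ x, j x ∈ B → l x = 1) : dT (Va j R R' l) u u' ≠ 0 :=
  dT_ne _ _ _ (d.stab hom h hl htr) (d.stab hom h.inv (hl.inv h) htr)

lemma D_mul (hom : S_HOM) (h : Au j B a a') (hl : LP j B R R' a a' u u') (k : Au j B b b')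
    (kl : LP j B R R' b b' v v') {l : A' →* ℂˣ} (htr : ∀ x, j x ∈ B → l x = 1) :
    dT (Va j R R' l) (v.trans u) (v'.trans u') =
      dT (Va j R R' l) u u' * dT (Va j R R' l) v v' :=
  dT_mul _ _ _ _ _ (d.stab hom h hl htr) (d.stab hom k kl htr)

lemma qD_mul (hom : S_HOM) (h : Au j B a a') (hl : LP j B R R' a a' u u') (k : Au j B b b')
    (kl : LP j B R R' b b' v v') (l : Ln j B) :
    qD j R R' l.1 (v.trans u) (v'.trans u') = qD j R R' l.1 u u' * qD j R R' l.1 v v' := by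
  unfold qD
  rw [d.D_mul hom h hl k kl l.2.1, d.D_mul hom h hl k kl (l := 1) (fun _ _ => rfl),
    mul_div_mul_comm]

lemma qD_ne (hom : S_HOM) (h : Au j B a a') (hl : LP j B R R' a a' u u') (l : Ln j B) :
    qD j R R' l.1 u u' ≠ 0 :=
  div_ne_zero (d.D_ne hom h hl (fun _ _ => rfl)) (d.D_ne hom h hl l.2.1)

lemma qD_smul (hom : S_HOM) (h : Au j B a a') (hl : LP j B R R' a a' u u') {c c' : ℂ}
    (hc : c ≠ 0) (hc' : c' ≠ 0) (hv : ∀ w, v w = c • u w) (hv' : ∀ w, v' w = c' • u' w)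
    (l : Ln j B) : qD j R R' l.1 v v' = (c / c') ^ ε * qD j R R' l.1 u u' := by
  obtain ⟨t, ht⟩ := d.dim hom
  have h1 := ht 1 (fun _ _ => rfl)
  have h2 := ht l.1 l.2.1
  rw [if_pos rfl] at h1
  rw [if_neg l.2.2, add_zero] at h2
  unfold qD
  rw [dT_smul _ u v u' v' c c' hc' hv hv' (d.stab hom h hl (l := 1) (fun _ _ => rfl)),
    dT_smul _ u v u' v' c c' hc' hv hv' (d.stab hom h hl l.2.1), mul_div_mul_comm]
  congr 1
  rw [← zpow_natCast, ← zpow_natCast, ← zpow_sub₀ (div_ne_zero hc hc')]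
  congr 1
  omega

omit [Fintype A] [Fintype A'] [FiniteDimensional ℂ W] [FiniteDimensional ℂ W'] d in
lemma qD_triv {x : A'} (hx : j x ∈ B) (hu : ∀ w, u w = R (j x) w) (hu' : ∀ w, u' w = R' x w)
    (l : Ln j B) : qD j R R' l.1 u u' = 1 := by
  have key : ∀ l : A' →* ℂˣ, (∀ x, j x ∈ B → l x = 1) → ∀ v ∈ Va j R R' l, op u u' v = v := by
    intro l hl v hv
    rw [op_apply]
    ext w
    simp only [LinearMap.comp_apply, LinearEquiv.coe_coe]
    obtain ⟨z, rfl⟩ := u'.surjective w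
    rw [u'.symm_apply_apply, hu, hu', hv x z, hl x hx, Units.val_one, one_smul]
  unfold qD
  rw [dT_one _ _ _ (key 1 (fun _ _ => rfl)), dT_one _ _ _ (key l.1 l.2.1), div_one]

omit [Fintype A] [FiniteDimensional ℂ W] [FiniteDimensional ℂ W'] in
lemma card_Ln : Finite (Ln j B) ∧ Nat.card (Ln j B) = p - 1 := by
  have hB := d.nB
  set M := B.comap j with hM
  obtain ⟨hfin, hcard⟩ := card_lin (Q := A' ⧸ M) d.hp d.idx'
  let e : Ln j B ≃ {q : (A' ⧸ M) →* ℂˣ // q ≠ 1} :=
    { toFun := fun l => ⟨QuotientGroup.lift M l.1 (fun x hx => l.2.1 x hx), fun h => l.2.2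
        (MonoidHom.ext fun x => DFunLike.congr_fun h (QuotientGroup.mk x))⟩
      invFun := fun q => ⟨q.1.comp (QuotientGroup.mk' M), fun x hx => by
        rw [MonoidHom.comp_apply]
        have h2 : (QuotientGroup.mk' M) x = 1 := (QuotientGroup.eq_one_iff x).mpr hx
        rw [h2, map_one], fun h => q.2 (MonoidHom.ext fun z => by
        obtain ⟨x, rfl⟩ := QuotientGroup.mk_surjective z
        have h2 := DFunLike.congr_fun h x
        rw [MonoidHom.comp_apply] at h2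
        exact h2)⟩
      left_inv := fun l => Subtype.ext (MonoidHom.ext fun x => rfl)
      right_inv := fun q => Subtype.ext (MonoidHom.ext fun z => by
        obtain ⟨x, rfl⟩ := QuotientGroup.mk_surjective z
        rfl) }
  refine ⟨Finite.of_equiv _ e.symm, ?_⟩
  rw [Nat.card_congr e]
  have h3 : Nat.card {q : (A' ⧸ M) →* ℂˣ // q = 1} + Nat.card {q : (A' ⧸ M) →* ℂˣ // q ≠ 1} =
      p := by
    rw [← Nat.card_sum, ← hcard]
    exact Nat.card_congr (Equiv.sumCompl (fun q : (A' ⧸ M) →* ℂˣ => q = 1))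
  have h4 : Nat.card {q : (A' ⧸ M) →* ℂˣ // q = 1} = 1 := by
    rw [Nat.card_eq_one_iff_unique]
    exact ⟨⟨fun x y => Subtype.ext (x.2.trans y.2.symm)⟩, ⟨⟨1, rfl⟩⟩⟩
  rw [h4] at h3
  omega

end AD

end core

end Pool.Agent.Q17.TC
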