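import Pool.Agent.Q17.TC.C2

/-!
# Canonical pairs of lifts: existence and uniqueness
-/

set_option autoImplicit false

open scoped BigOperators Classical
open Pool.Agent.Helper884 Representation Pool.Agent.H254R3.IN Pool.Agent.Y62
open Pool.Agent.Q239.TC (op op_apply dT_eq dT_mul dT_smul dT_one dT_ne)

noncomputable section

namespace Pool.Agent.Q17.TC

lemma tor_mul {p : ℕ} {x y : ℂ} (hx : ∃ n : ℕ, x ^ p ^ n = 1) (hy : ∃ n : ℕ, y ^ p ^ n = 1) :
    ∃ n : ℕ, (x * y) ^ p ^ n = 1 := by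
  obtain ⟨n, hn⟩ := hx
  obtain ⟨m, hm⟩ := hy
  refine ⟨n + m, ?_⟩
  rw [mul_pow, pow_add, pow_mul, hn, one_pow, one_mul, mul_comm (p ^ n), pow_mul, hm, one_pow]

lemma tor_inv {p : ℕ} {x : ℂ} (hx : ∃ n : ℕ, x ^ p ^ n = 1) : ∃ n : ℕ, (x⁻¹) ^ p ^ n = 1 := by
  obtain ⟨n, hn⟩ := hx
  exact ⟨n, by rw [inv_pow, hn, inv_one]⟩

lemma tor_prod {p : ℕ} {ι : Type} (s : Finset ι) {f : ι → ℂ}
    (h : ∀ i ∈ s, ∃ n : ℕ, f i ^ p ^ n = 1) : ∃ n : ℕ, (∏ i ∈ s, f i) ^ p ^ n = 1 := by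
  induction s using Finset.induction_on with
  | empty => exact ⟨0, by simp⟩
  | insert a s ha ih =>
    rw [Finset.prod_insert ha]
    exact tor_mul (h a (Finset.mem_insert_self a s))
      (ih fun i hi => h i (Finset.mem_insert_of_mem hi))

section core

variable {A A' : Type} [Group A] [Group A'] {W W' : Type}
  [AddCommGroup W] [Module ℂ W] [AddCommGroup W'] [Module ℂ W']
  {p : ℕ} {j : A' →* A} {B : Subgroup A} {R : Representation ℂ A W}
  {R' : Representation ℂ A' W'} {ε : ℤ}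
  [Fintype A] [Fintype A'] [FiniteDimensional ℂ W] [FiniteDimensional ℂ W']

variable {a b : MulAut A} {a' b' : MulAut A'} {u v : W ≃ₗ[ℂ] W} {u' v' : W' ≃ₗ[ℂ] W'}

/-- two lifts of the same automorphism differ by a scalar -/
lemma lift_unique {A W : Type} [Group A] [AddCommGroup W] [Module ℂ W] [FiniteDimensional ℂ W]
    {B : Subgroup A} {R : Representation ℂ A W} (irr : (rsB B R).IsIrreducible) {a : MulAut A}
    {u v : W ≃ₗ[ℂ] W} (hu : ∀ x ∈ B, ∀ w, u (R x w) = R (a x) (u w))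
    (hv : ∀ x ∈ B, ∀ w, v (R x w) = R (a x) (v w)) : ∃ c : ℂ, c ≠ 0 ∧ ∀ w, v w = c • u w := by
  obtain ⟨c, hc⟩ := schur _ irr ((u.symm : W →ₗ[ℂ] W) ∘ₗ (v : W →ₗ[ℂ] W)) (by
    rintro ⟨n, hn⟩ w
    simp only [LinearMap.comp_apply, LinearEquiv.coe_coe]
    change u.symm (v (R n w)) = R n (u.symm (v w))
    rw [hv n hn, LinearEquiv.symm_apply_eq, hu n hn, LinearEquiv.apply_symm_apply])
  have h1 : ∀ w, v w = c • u w := by
    intro w
    have h2 := congrArg (fun T : W →ₗ[ℂ] W => T w) hc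
    simp only [LinearMap.comp_apply, LinearEquiv.coe_coe, LinearMap.smul_apply,
      LinearMap.id_apply] at h2
    rw [LinearEquiv.symm_apply_eq, map_smul] at h2
    exact h2
  refine ⟨c, ?_, h1⟩
  rintro rfl
  have := irr_nontrivial _ irr
  obtain ⟨w, hw⟩ := exists_ne (0 : W)
  have h3 := h1 w
  rw [zero_smul] at h3
  exact hw (v.map_eq_zero_iff.1 h3)

namespace CP

lemma mul (d : AD p j B R R' ε) (hom : S_HOM) (h : Au j B a a') (k : Au j B b b')
    (c : CP p j B R R' a a' u u') (c' : CP p j B R R' b b' v v') :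
    CP p j B R R' (a * b) (a' * b') (v.trans u) (v'.trans u') := by
  obtain ⟨hfin, -⟩ := d.card_Ln
  refine ⟨c.lp.mul c'.lp k, fun l => ?_, ?_⟩
  · rw [d.qD_mul hom h c.lp k c'.lp]
    exact tor_mul (c.tor l) (c'.tor l)
  · have h1 : ∀ l : Ln j B, qD j R R' l.1 (v.trans u) (v'.trans u') =
        qD j R R' l.1 u u' * qD j R R' l.1 v v' := fun l => d.qD_mul hom h c.lp k c'.lp l
    rw [finprod_congr h1, finprod_mul_distrib (Set.toFinite _) (Set.toFinite _), c.prd, c'.prd,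
      one_mul]

omit [Fintype A] [Fintype A'] [FiniteDimensional ℂ W] [FiniteDimensional ℂ W'] in
lemma triv {x : A'} (hx : j x ∈ B) (hu : ∀ w, u w = R (j x) w) (hu' : ∀ w, u' w = R' x w)
    (ha : ∀ z, a z = j x * z * (j x)⁻¹) (ha' : ∀ z, a' z = x * z * x⁻¹) :
    CP p j B R R' a a' u u' := by
  refine ⟨⟨fun z _ w => ?_, fun z _ w => ?_⟩, fun l => ⟨0, ?_⟩, ?_⟩
  · rw [hu, hu, ha, ← Module.End.mul_apply, ← Module.End.mul_apply, ← map_mul, ← map_mul]
    congr 2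
    group
  · rw [hu', hu', ha', ← Module.End.mul_apply, ← Module.End.mul_apply, ← map_mul, ← map_mul]
    congr 2
    group
  · rw [AD.qD_triv hx hu hu', one_pow]
  · have h1 : ∀ l : Ln j B, qD j R R' l.1 u u' = 1 := fun l => AD.qD_triv hx hu hu' l
    rw [finprod_congr h1, finprod_one]

lemma smul (d : AD p j B R R' ε) (hom : S_HOM) (h : Au j B a a')
    (k : CP p j B R R' a a' u u') {c : ℂ} (hc : c ≠ 0) (hv : ∀ w, v w = c • u w)
    (hv' : ∀ w, v' w = c • u' w) : CP p j B R R' a a' v v' := by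
  have h1 : ∀ l : Ln j B, qD j R R' l.1 v v' = qD j R R' l.1 u u' := by
    intro l
    rw [d.qD_smul hom h k.lp hc hc hv hv', div_self hc, one_zpow, one_mul]
  refine ⟨k.lp.smul hv hv', fun l => ?_, ?_⟩
  · rw [h1]
    exact k.tor l
  · rw [finprod_congr h1]
    exact k.prd

lemma unique (d : AD p j B R R' ε) (hom : S_HOM) (h : Au j B a a')
    (k : CP p j B R R' a a' u u') (k' : CP p j B R R' a a' v v') {c c' : ℂ} (hc : c ≠ 0)
    (hc' : c' ≠ 0) (hv : ∀ w, v w = c • u w) (hv' : ∀ w, v' w = c' • u' w) : c = c' := by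
  obtain ⟨hfin, hcard⟩ := d.card_Ln
  have hp := d.hp
  set z : ℂ := (c / c') ^ ε with hz
  have h1 : ∀ l : Ln j B, qD j R R' l.1 v v' = z * qD j R R' l.1 u u' := fun l =>
    d.qD_smul hom h k.lp hc hc' hv hv' l
  have hz1 : z ^ (p - 1) = 1 := by
    have h2 := k'.prd
    rw [finprod_congr h1, finprod_mul_distrib (Set.toFinite _) (Set.toFinite _), k.prd,
      mul_one] at h2
    have : Fintype (Ln j B) := Fintype.ofFinite _
    rw [finprod_eq_prod_of_fintype, Finset.prod_const, Finset.card_univ,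
      ← Nat.card_eq_fintype_card, hcard] at h2
    exact h2
  have hz2 : z = 1 := by
    rcases Nat.lt_or_ge 2 p with h2 | h2
    · obtain ⟨l⟩ : Nonempty (Ln j B) := by
        rw [← Finite.card_pos_iff, hcard]
        omega
      have h3 := k'.tor l
      rw [h1] at h3
      have h4 := tor_mul h3 (tor_inv (k.tor l))
      rw [mul_inv_cancel_right₀ (d.qD_ne hom h k.lp l)] at h4
      obtain ⟨n, hn⟩ := h4
      have h5 : orderOf z ∣ p - 1 := orderOf_dvd_of_pow_eq_one hz1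
      have h6 : orderOf z ∣ p ^ n := orderOf_dvd_of_pow_eq_one hn
      have h7 : Nat.Coprime (p ^ n) (p - 1) :=
        Nat.Coprime.pow_left n ((Nat.Prime.coprime_iff_not_dvd hp).mpr fun h8 =>
          absurd (Nat.le_of_dvd (by omega) h8) (by omega))
      exact orderOf_eq_one_iff.mp (Nat.eq_one_of_dvd_coprimes h7 h6 h5)
    · have h3 : p = 2 := le_antisymm h2 hp.two_le
      rw [h3] at hz1
      simpa using hz1
  have h3 : c / c' = 1 := by
    rcases d.eps' with h4 | h4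
    · rw [hz, h4, zpow_one] at hz2
      exact hz2
    · rw [hz, h4, zpow_neg, zpow_one, inv_eq_one] at hz2
      exact hz2
  rwa [div_eq_one_iff_eq hc'] at h3

lemma exist (d : AD p j B R R' ε) (hom : S_HOM) (h : Au j B a a') (hl : LP j B R R' a a' u u')
    (ht : ∀ l l₂ : Ln j B, ∃ n : ℕ, (qD j R R' l.1 u u' / qD j R R' l₂.1 u u') ^ p ^ n = 1) :
    ∃ (c : ℂ) (v' : W' ≃ₗ[ℂ] W'), c ≠ 0 ∧ (∀ w, v' w = c • u' w) ∧
      CP p j B R R' a a' u v' := by
  obtain ⟨hfin, hcard⟩ := d.card_Ln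
  have hp := d.hp
  have : Fintype (Ln j B) := Fintype.ofFinite _
  -- the factor
  have key : ∃ z : ℂ, z ≠ 0 ∧ (∀ l : Ln j B, ∃ n : ℕ, (z * qD j R R' l.1 u u') ^ p ^ n = 1) ∧
      ∏ l : Ln j B, (z * qD j R R' l.1 u u') = 1 := by
    obtain ⟨l₀⟩ : Nonempty (Ln j B) := by
      rw [← Finite.card_pos_iff, hcard]
      have := hp.two_le
      omega
    set q₀ := qD j R R' l₀.1 u u' with hq₀
    have hq₀' : q₀ ≠ 0 := d.qD_ne hom h hl l₀
    have h1 : ∀ l : Ln j B, ∃ n : ℕ, (q₀⁻¹ * qD j R R' l.1 u u') ^ p ^ n = 1 := by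
      intro l
      have := ht l l₀
      rwa [div_eq_inv_mul] at this
    obtain ⟨m, hm⟩ := tor_prod Finset.univ (fun l _ => h1 l)
    set b := ∏ l : Ln j B, (q₀⁻¹ * qD j R R' l.1 u u') with hb
    have hb0 : b ≠ 0 := by
      intro h2
      rw [h2, zero_pow (pow_ne_zero m hp.ne_zero)] at hm
      exact zero_ne_one hm
    have hcop : Nat.Coprime (p - 1) (p ^ m) := by
      apply Nat.Coprime.symm
      apply Nat.Coprime.pow_left m
      rcases Nat.lt_or_ge 2 p with h2 | h2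
      · exact (Nat.Prime.coprime_iff_not_dvd hp).mpr fun h8 =>
          absurd (Nat.le_of_dvd (by omega) h8) (by omega)
      · have h3 : p = 2 := le_antisymm h2 hp.two_le
        rw [h3]
        norm_num
    obtain ⟨t, ht'⟩ := Int.mod_coprime hcop
    have h2 : (b ^ t) ^ (p - 1) = b := by
      obtain ⟨s, hs⟩ := ht'.dvd
      have h3 : ((p - 1 : ℕ) : ℤ) * t = 1 - (p ^ m : ℕ) * s := by
        rw [← hs]
        ring
      rw [← zpow_natCast, ← zpow_mul, mul_comm, h3, zpow_sub₀ hb0, zpow_one, zpow_mul,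
        zpow_natCast, hm, one_zpow, div_one]
    refine ⟨(b ^ t)⁻¹ * q₀⁻¹, mul_ne_zero (inv_ne_zero (zpow_ne_zero _ hb0)) (inv_ne_zero hq₀'),
      fun l => ?_, ?_⟩
    · rw [mul_assoc]
      refine tor_mul (tor_inv ⟨m, ?_⟩) (h1 l)
      rw [← zpow_natCast, ← zpow_mul, mul_comm, zpow_mul, zpow_natCast, hm, one_zpow]
    · have h3 : ∀ l : Ln j B, (b ^ t)⁻¹ * q₀⁻¹ * qD j R R' l.1 u u' =
          (b ^ t)⁻¹ * (q₀⁻¹ * qD j R R' l.1 u u') := fun l => mul_assoc _ _ _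
      rw [Finset.prod_congr rfl fun l _ => h3 l, Finset.prod_mul_distrib, Finset.prod_const,
        Finset.card_univ, ← Nat.card_eq_fintype_card, hcard, inv_pow, h2, ← hb,
        inv_mul_cancel₀ hb0]
  obtain ⟨z, hz0, hz1, hz2⟩ := key
  -- the scalar
  obtain ⟨c, hc0, hc⟩ : ∃ c : ℂ, c ≠ 0 ∧ (1 / c) ^ ε = z := by
    rcases d.eps' with h1 | h1
    · exact ⟨z⁻¹, inv_ne_zero hz0, by rw [h1, zpow_one, one_div, inv_inv]⟩
    · exact ⟨z, hz0, by rw [h1, zpow_neg, zpow_one, one_div, inv_inv]⟩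
  have e1 : ∀ w, (u'.trans (LinearEquiv.smulOfNeZero ℂ W' c hc0)) w = c • u' w := fun w => rfl
  refine ⟨c, u'.trans (LinearEquiv.smulOfNeZero ℂ W' c hc0), hc0, e1, ?_⟩
  have h1 : ∀ l : Ln j B, qD j R R' l.1 u (u'.trans (LinearEquiv.smulOfNeZero ℂ W' c hc0)) =
      z * qD j R R' l.1 u u' := by
    intro l
    rw [d.qD_smul hom h hl one_ne_zero hc0 (fun w => (one_smul _ _).symm) e1, hc]
  refine ⟨hl.smul (fun w => (one_smul _ _).symm) e1, fun l => ?_, ?_⟩
  · rw [h1]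
    exact hz1 l
  · rw [finprod_congr h1, finprod_eq_prod_of_fintype]
    exact hz2

end CP

end core

end Pool.Agent.Q17.TC
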