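import Pool.Agent.Q17.TC.D2
import Pool.Agent.Q21.CO.Main

/-!
# Statements of the parts of the second stage of project TC

Proved parts of the first stage: `t_ORT`, `t_HOM`, `t_LFT`, `t_DEC`, `t_SQ`, `t_REP`, `t_NRM`,
`t_KC`, `t_TI`, `t_RL` in `Pool.Agent.Q277.TC.*` (namespace `Pool.Agent.Q17.TC`), `t_IRN`,
`irr_of_char` (a representation with irreducible character is irreducible) in
`Pool.Agent.Q17.TC.IRN`, `t_CL`, `t_EXT`, `t_MAT`, `t_TR` in `Pool.Agent.Q239.TC.*`; there also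
`op`, `op_apply`, `dT_eq`, `dT_mul`, `dT_smul`, `dT_one`, `dT_ne`. `lam` in `Q17.TC.MT2`.
-/

set_option autoImplicit false

open scoped BigOperators Classical
open Pool.Agent.Helper884 Representation Pool.Agent.H254R3.IN Pool.Agent.Y62 Pool.Agent.Q21.CO

noncomputable section

namespace Pool.Agent.Q17.TC

/-- DET. Endomorphisms with the same traces of powers up to a natural constant have the same
determinant. Proof: `tr (f ^ j) = ∑ λ ^ j` over the roots `λ` of the characteristic polynomial with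
multiplicity (`f` is triangularisable over `ℂ`). With `m`, `n` the multiplicities for `f`, `g`:
`∑_λ (m(λ) - n(λ) - c [λ = 1]) λ ^ j = 0` for all `j ≥ 0`, and the functions `j ↦ λ ^ j` are
linearly independent (Vandermonde, or Dedekind: `linearIndependent_monoidHom` on `Multiplicative ℕ`),
so the characteristic polynomial of `f` is `(X - 1) ^ c` times that of `g`. -/
def S_DET : Prop := ∀ (V V' : Type) [AddCommGroup V] [Module ℂ V] [FiniteDimensional ℂ V]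
  [AddCommGroup V'] [Module ℂ V'] [FiniteDimensional ℂ V'] (f : V →ₗ[ℂ] V) (g : V' →ₗ[ℂ] V')
  (c : ℕ), (∀ j : ℕ, LinearMap.trace ℂ V (f ^ j) = LinearMap.trace ℂ V' (g ^ j) + c) →
    LinearMap.det f = LinearMap.det g

/-- RP. Pairs of lifts with the same traces up to the sign `ε` outside `B` have `qD = 1`. Proof:
`v ↦ u v u'⁻¹` maps `Va l` to itself; let `f_l` be its restriction. The projection of `W' →ₗ W` onto
`Va l` is `v ↦ |A'|⁻¹ ∑ₓ l(x)⁻¹ R(j x) v R'(x)⁻¹` and the trace of `v ↦ a v b` is `tr(a) tr(b)`, so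
`tr(f_l ^ k) = |A'|⁻¹ ∑ₓ l(x)⁻¹ tr(R(j x) u ^ k) tr(u' ^ (-k) R'(x⁻¹))`. The terms with `j x ∈ B` do
not depend on `l`, the others are `ε` times those of
`c_l = |A'|⁻¹ ∑ₓ l(x)⁻¹ tr(R'(x) u' ^ k) tr(u' ^ (-k) R'(x⁻¹))`, and `c_l` is `1` for `l = 1` (ORT)
and `0` for `l ≠ 1` (the sum of `l(x)⁻¹ R'(x) C R'(x⁻¹)` over `x` is an intertwiner between `R'` and
its twist by `l`, which are not isomorphic, since the character of `R'` does not vanish outside the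
preimage of `B`: norm of the restriction). Hence `tr(f_1 ^ k) - tr(f_l ^ k) = ε` for all `k ≥ 0`;
use DET with `c = 1`. The determinants are not zero. -/
def S_RP : Prop := ∀ (A A' W W' : Type) [Group A] [Fintype A] [Group A'] [Fintype A']
  [AddCommGroup W] [Module ℂ W] [FiniteDimensional ℂ W] [AddCommGroup W'] [Module ℂ W']
  [FiniteDimensional ℂ W'] (p : ℕ) (j : A' →* A) (B : Subgroup A) (R : Representation ℂ A W)
  (R' : Representation ℂ A' W') (ε : ℤ), AD p j B R R' ε → ∀ (a : MulAut A) (a' : MulAut A'),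
  Au j B a a' → ∀ (u : W ≃ₗ[ℂ] W) (u' : W' ≃ₗ[ℂ] W'), (∀ x w, u (R x w) = R (a x) (u w)) →
  (∀ x w, u' (R' x w) = R' (a' x) (u' w)) →
  (∀ x, j x ∉ B → ∀ k : ℕ, LinearMap.trace ℂ W (R (j x) ∘ₗ (u : W →ₗ[ℂ] W) ^ k) =
    ε * LinearMap.trace ℂ W' (R' x ∘ₗ (u' : W' →ₗ[ℂ] W') ^ k)) →
  ∀ l : Ln j B, qD j R R' l.1 u u' = 1

/-- TRP. Transport of the determinants along semilinear bijections. Proof: `v ↦ e v e'⁻¹` is a
`σ`-semilinear bijection `Va j R R' l → Va j₂ R₂ R₂' l₂` which intertwines `v ↦ u v u'⁻¹` and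
`v ↦ u₂ v u₂'⁻¹`; a basis of the first space is mapped to a basis of the second and the matrix
changes by `σ` (`Basis.mapCoeffs`, `RingHom.map_det`). If one of the spaces is not preserved the
other is not. -/
def S_TRP : Prop := ∀ (A A' A₂ A₂' W W' W₂ W₂' : Type) [Group A] [Group A'] [Group A₂] [Group A₂']
  [AddCommGroup W] [Module ℂ W] [FiniteDimensional ℂ W] [AddCommGroup W'] [Module ℂ W']
  [FiniteDimensional ℂ W'] [AddCommGroup W₂] [Module ℂ W₂] [FiniteDimensional ℂ W₂]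
  [AddCommGroup W₂'] [Module ℂ W₂'] [FiniteDimensional ℂ W₂'] (j : A' →* A) (j₂ : A₂' →* A₂)
  (α : A₂ ≃* A) (α' : A₂' ≃* A'), (∀ x, α (j₂ x) = j (α' x)) → ∀ (R : Representation ℂ A W)
  (R' : Representation ℂ A' W') (R₂ : Representation ℂ A₂ W₂) (R₂' : Representation ℂ A₂' W₂')
  (σ : ℂ ≃+* ℂ) (e : W ≃+ W₂) (e' : W' ≃+ W₂'), (∀ (c : ℂ) w, e (c • w) = σ c • e w) →
  (∀ (c : ℂ) w, e' (c • w) = σ c • e' w) → ∀ m : A₂ →* ℂˣ,
  (∀ x w, e (R (α x) w) = ((m x : ℂˣ) : ℂ) • R₂ x (e w)) →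
  (∀ x w, e' (R' (α' x) w) = ((m (j₂ x) : ℂˣ) : ℂ) • R₂' x (e' w)) →
  ∀ (u : W ≃ₗ[ℂ] W) (u' : W' ≃ₗ[ℂ] W') (u₂ : W₂ ≃ₗ[ℂ] W₂) (u₂' : W₂' ≃ₗ[ℂ] W₂'),
  (∀ w, u₂ (e w) = e (u w)) → (∀ w, u₂' (e' w) = e' (u' w)) →
  ∀ (l : A' →* ℂˣ) (l₂ : A₂' →* ℂˣ), (∀ x, ((l₂ x : ℂˣ) : ℂ) = σ (l (α' x) : ℂˣ)) →
    dT (Va j₂ R₂ R₂' l₂) u₂ u₂' = σ (dT (Va j R R' l) u u')

/-- KH. The coset correspondence with an additional `p`-regular element `h ∈ H`. Proof. Let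
`K = N⟨y⟩`, `C = ⟨h⟩` (`Subgroup.zpowers (h : G)`), `K ⋊ C` the semidirect product for the conjugation
action (`SemidirectProduct`, `MulAut.conjNormal`; `K` is normal). Its subgroup
`N' = {(k, c) : k ∈ N}` is the kernel of `(k, c) ↦ kN ∈ K / N` (a homomorphism since
`[G, K] ≤ N`), so it is normal of index `p`; `y' = (y, 1)`, `H' = {(k, c) : k ∈ H}` (the preimage of
`H` under `(k, c) ↦ k c`), and `P' = {(k, 1) : k ∈ P}` is a Sylow `p`-subgroup of `K ⋊ C`, as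
`P ∩ K` is one of `K` and `p ∤ |C|`. `TD p N' y' H' P'` holds: if `x ∈ P ∩ yN` and `(n, c)` commutes
with `(x, 1)` then `n c ∈ C_G(x)`, so `n c ∈ H` by `t_TI` (with `g = n c`, `h = x`) and `n ∈ H`.
`R₁(k, hⁱ) = R(k) uⁱ` is a representation of `K ⋊ C` (well defined as `u ^ orderOf h = 1`;
`SemidirectProduct.lift`), irreducible, and its character does not vanish outside `N'`. By `t_KC` for
`K ⋊ C` there are a sign `ε` and an irreducible character `ψ` of `H'` with `χ = ε ψ` on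
`H' ∖ N'`, where `χ` is the character of `R₁`. Let `X` be a representation with character `ψ`,
`R' = X` on `{(k, 1) : k ∈ K ∩ H}`, `u' = X(1, h)`. Everything is clear except that `R'` is
irreducible. Let `η` be the irreducible character of `K ∩ H` with `R.character = ε' η` outside `N`
(`t_KC` for `G`), so `ψ = ε ε' η` on `(K ∩ H) ∖ N`. `η` is invariant under `h` (by the uniqueness in
`t_KC`, since `R.character` is). Let `μ` be a generator of the linear characters of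
`(K ∩ H) / (N ∩ H)`, `n_i` the multiplicity of `μⁱ η` in `ψ` restricted to `K ∩ H`. From
`∑_{x ∉ N} ψ(x) (μⁱη)(x⁻¹) = ε ε' |K ∩ H| ([i = 0] - 1/p)` one gets `n_0 - n_i = ε ε'` for `i ≠ 0`.
As `μⁱη` is `H'`-invariant, `n_i > 0` implies that `ψ` restricts to `n_i μⁱη` (`t_SQ`), so at most
one `n_i` is not zero. If `ε ε' = 1` then `n_0 ≥ 1`, so `n_i = 0` and `n_0 = 1`. If `ε ε' = -1` then
`p ≠ 2`, so there are at least two `i ≠ 0` and `n_i = n_0 + 1 ≥ 1` for them, a contradiction. So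
`ψ` restricts to `η`, and `R'` is irreducible by `irr_of_char`. -/
def S_KH : Prop := ∀ (G W : Type) [Group G] [Fintype G] [AddCommGroup W] [Module ℂ W]
  [FiniteDimensional ℂ W] (p : ℕ) [Fact p.Prime] (N : Subgroup G) (y : G) (H : Subgroup G)
  (P : Sylow p G), TD p N y H P → ∀ R : Representation ℂ (KK N y) W, R.IsIrreducible →
  (∃ k : KK N y, (k : G) ∉ N ∧ R.character k ≠ 0) → ∀ h : H, ¬ p ∣ orderOf h →
  ∀ u : W ≃ₗ[ℂ] W,
  (∀ x x' : KK N y, (x' : G) = h * x * (h : G)⁻¹ → ∀ w, u (R x w) = R x' (u w)) →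
  (u : W →ₗ[ℂ] W) ^ orderOf h = 1 →
  ∃ (W' : Type) (_ : AddCommGroup W') (_ : Module ℂ W') (_ : FiniteDimensional ℂ W')
    (R' : Representation ℂ ((KK N y).comap H.subtype) W') (u' : W' ≃ₗ[ℂ] W') (ε : ℤ),
    SD p N y H R R' ε ∧
    (∀ x x' : (KK N y).comap H.subtype, (x' : H) = h * x * h⁻¹ → ∀ w, u' (R' x w) = R' x' (u' w)) ∧
    (u' : W' →ₗ[ℂ] W') ^ orderOf h = 1 ∧
    ∀ (x : H) (hx : (x : G) ∈ KK N y), (x : G) ∉ N → ∀ k : ℕ,
      LinearMap.trace ℂ W (R ⟨x, hx⟩ ∘ₗ (u : W →ₗ[ℂ] W) ^ k) =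
        ε * LinearMap.trace ℂ W' (R' ⟨x, hx⟩ ∘ₗ (u' : W' →ₗ[ℂ] W') ^ k)

/-- NOR. Normalised lifts of `p`-regular elements. Proof: `K = N⟨y⟩`. By `lam`
`u R(x) = l(x) R(g x g⁻¹) u` for a linear character `l` of `K` which is trivial on `N`; so
`l ^ p = 1`. As `g x g⁻¹ ∈ x N`, iterating gives `u ^ n R(x) = l(x) ^ n R(x) u ^ n` for
`n = orderOf g`, and `u ^ n` is a scalar (Schur for `N`); so `l ^ n = 1` and `l = 1`. Take
`v = c u` with `c ^ n u ^ n = 1`. -/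
def S_NOR : Prop := ∀ (G W : Type) [Group G] [Fintype G] [AddCommGroup W] [Module ℂ W]
  [FiniteDimensional ℂ W] (p : ℕ) [Fact p.Prime] (N : Subgroup G) (y : G) (H : Subgroup G)
  (P : Sylow p G), TD p N y H P → ∀ R : Representation ℂ (KK N y) W, R.IsIrreducible →
  (∃ k : KK N y, (k : G) ∉ N ∧ R.character k ≠ 0) → ∀ g : G, ¬ p ∣ orderOf g →
  ∀ u : W ≃ₗ[ℂ] W,
  (∀ x x' : KK N y, (x : G) ∈ N → (x' : G) = g * x * g⁻¹ → ∀ w, u (R x w) = R x' (u w)) →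
  ∃ v : W ≃ₗ[ℂ] W, (∃ c : ℂ, c ≠ 0 ∧ ∀ w, v w = c • u w) ∧
    (∀ x x' : KK N y, (x' : G) = g * x * g⁻¹ → ∀ w, v (R x w) = R x' (v w)) ∧
    (v : W →ₗ[ℂ] W) ^ orderOf g = 1

/-- CM. Proof: put `C = A B`, so `C ^ pᵐ = B ^ pᵐ` for `m ≥ a`. For `C` with `C ^ k = 1`, `k > 0`, the
trace of `Cʲ` is the sum of the `j`-th powers of the eigenvalues, which are roots of unity, so
`tr(C) ^ p ≡ tr(C ^ p)` modulo `O.nonunits`, and `tr(C) ^ pᵐ ≡ tr(C ^ pᵐ) = tr(B ^ pᵐ) ≡ tr(B) ^ pᵐ`;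
in the residue field (characteristic `p`) this gives `tr(C) ≡ tr(B)`. Or diagonalise `A` and `B`
simultaneously: the eigenvalues of `A` are `≡ 1`. -/
def S_CM : Prop := ∀ (p : ℕ) (O : ValuationSubring ℂ), p.Prime → (p : ℂ) ∈ O.nonunits →
  ∀ (V : Type) [AddCommGroup V] [Module ℂ V] [FiniteDimensional ℂ V] (A B : Module.End ℂ V),
  Commute A B → ∀ a n : ℕ, 0 < n → A ^ p ^ a = 1 → B ^ n = 1 →
    LinearMap.trace ℂ V (A * B) - LinearMap.trace ℂ V B ∈ O.nonunits ∧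
    LinearMap.trace ℂ V B ∈ O

/-- INT. The scalars of DEC are integral. Proof: let `X` be a representation with character `χ`,
`S = {f : W → V | X(m) f = f ρ(m) for m ∈ N}`, `τ f = X(g) f u⁻¹` on `S`; `τ ^ n = 1`, so the trace of
`τ` is a sum of roots of unity; it is `|N|⁻¹ ∑ₘ χ(m g) tr(u⁻¹ ρ(m⁻¹)) = s` (see the proof of REP in
`Q277.TC.Rep`, and ORT). -/
def S_INT : Prop := ∀ (G W : Type) [Group G] [Fintype G] [AddCommGroup W] [Module ℂ W]
  [FiniteDimensional ℂ W] (N : Subgroup G) [N.Normal] (ρ : Representation ℂ N W),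
  ρ.IsIrreducible → ∀ χ : G → ℂ, IsIrr χ → ∀ (g : G) (u : W ≃ₗ[ℂ] W), Lf ρ g u → ∀ n : ℕ, 0 < n →
  g ^ n = 1 → (u : W →ₗ[ℂ] W) ^ n = 1 → ∀ s : ℂ, (∀ m : N, χ (m * g) = s * tr ρ u m) →
    IsIntegral ℤ s

/-- IND. Proof (see `Q21.CO.ind_block` for a similar one): with `C` the class of `x` in `G`,
`ω_χ(x) χ(s) = ∑_{z ∈ C} χ(z s)` (class sums act as scalars: `class_scalar`, `Om_ind`,
`conv_scalar`), and the `p`-element `y` acts on `C` by conjugation with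
`χ((y z y⁻¹) s) = χ(z s)`, so modulo `O.nonunits` only the `z ∈ C ∩ C_G(y)` contribute (`sum_fix`);
for these `z s ∈ C_G(y)` and `χ(z s) ≡ ε ψ(z s)`. In the same way
`(∑_{z ∈ C ∩ H} ψ(z) / ψ(1)) ψ(s) = ∑_{z ∈ C ∩ H} ψ(z s) ≡ ∑_{z ∈ C ∩ C_G(y)} ψ(z s)`. As
`χ(s) ≡ ε ψ(s)` is not zero modulo `O.nonunits` the claim follows. -/
def S_IND : Prop := ∀ (G : Type) [Group G] [Fintype G] (p : ℕ) [Fact p.Prime]
  (O : ValuationSubring ℂ), (p : ℂ) ∈ O.nonunits → ∀ (H : Subgroup G) (y : G),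
  (∃ k, orderOf y = p ^ k) → (∀ g, Commute y g → g ∈ H) → ∀ (χ : G → ℂ) (ψ : H → ℂ), IsIrr χ →
  IsIrr ψ → ∀ ε : ℤ, (∀ (g : G) (hg : g ∈ H), Commute y g → χ g - ε * ψ ⟨g, hg⟩ ∈ O.nonunits) →
  ∀ s : G, Commute y s → red O (χ s) ≠ 0 → ∀ x : G,
    omega χ x - ∑ᶠ z : {z : H // IsConj x (z : G)}, ψ z / ψ 1 ∈ O.nonunits

/-- MEM. Two characters of `H` that induce the same block of `G` are in the same block (see
`Q21.CO.same_block`, the case `H = N_G(D)`). Note `N_G(D) ≤ H` by the third assumption. Step A: if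
`k ∈ H` centralises `D` and `D` is a Sylow `p`-subgroup of `C_G(k)` then
`ω_χ(k) ≡ ω_ψ(k)`: the sum of the assumption is `∑ ω_ψ(k')` over the classes of `H` contained in the
class of `k` in `G`; if `ω_ψ(k')` is not zero then a Sylow `p`-subgroup `Q` of `C_H(k')` has
`|Q| ≥ |D|`, so it is a Sylow `p`-subgroup of `C_G(k')`, hence `Q = g⁻¹ D g` for some `g` with
`k' = g⁻¹ k g`, and `g ∈ H` by the third assumption. Step B:
`ω_ψ(h) ω_ψ(s) = ∑_K conv(h, s)(K) ω_ψ(K)` over the classes `K` of `H`, and the same for `φ`. If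
`conv(h, s)(K) ≢ 0` and `ω_ψ(K) ≢ 0` (or `ω_φ(K) ≢ 0`), `k ∈ K`, let `Q` be a Sylow `p`-subgroup of
`C_H(k)`, so `|Q| ≥ |D|`. `Q` acts on `{x : x ~ h, x⁻¹ k ~ s}` by conjugation, so there is a fixed
point `x` and `Q` centralises `x⁻¹ k`, a conjugate of `s` in `H`; as `D` is a Sylow `p`-subgroup of
`C_G(s)`, `Q` is conjugate to `D` in `H`. So after conjugation `k ∈ C_H(D)` and `D` is a Sylow
`p`-subgroup of `C_H(k)`, hence of `C_G(k)` (otherwise `N_{C_G(k)}(D) ≤ N_G(D) ≤ H` would contain a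
larger `p`-group), and Step A gives `ω_ψ(K) ≡ ω_χ(k) ≡ ω_φ(K)`. Step C:
`ω_ψ(s) ≡ ω_χ(s) ≡ ω_φ(s) ≢ 0`; cancel. -/
def S_MEM : Prop := ∀ (G : Type) [Group G] [Fintype G] (p : ℕ) [Fact p.Prime]
  (O : ValuationSubring ℂ), (p : ℂ) ∈ O.nonunits → ∀ (H D : Subgroup G), IsPGroup p D → D ≤ H →
  (∀ g : G, (∀ x ∈ D, g⁻¹ * x * g ∈ H) → g ∈ H) → ∀ χ : G → ℂ, IsIrr χ → ∀ ψ φ : H → ℂ, IsIrr ψ →
  IsIrr φ →
  (∀ x, omega χ x - ∑ᶠ z : {z : H // IsConj x (z : G)}, ψ z / ψ 1 ∈ O.nonunits) →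
  (∀ x, omega χ x - ∑ᶠ z : {z : H // IsConj x (z : G)}, φ z / φ 1 ∈ O.nonunits) →
  (∀ h : H, red O (omega ψ h) ≠ 0 →
    Nat.card D ∣ Nat.card (Subgroup.centralizer ({h} : Set H))) →
  (∀ h : H, red O (omega φ h) ≠ 0 →
    Nat.card D ∣ Nat.card (Subgroup.centralizer ({h} : Set H))) →
  ∀ s : H, (s : G) ∈ Subgroup.centralizer (D : Set G) → ¬ p ∣ kk D (s : G) →
  red O (omega χ s) ≠ 0 → ∀ h : H, red O (omega ψ h) = red O (omega φ h)

end Pool.Agent.Q17.TC
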