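import Pool.Agent.Q17.TC.C3
import Pool.Agent.Q17.TC.Stm2
import Pool.Agent.Q17.TC.ASM3

/-!
# Canonical pairs of lifts for elements of `H`
-/

set_option autoImplicit false

open scoped BigOperators Classical
open Pool.Agent.Helper884 Representation Pool.Agent.H254R3.IN Pool.Agent.Y62
open Pool.Agent.Q239.TC (op op_apply dT_eq dT_mul dT_smul dT_one dT_ne)

noncomputable section

namespace Pool.Agent.Q17.TC

/-- irreducible representations with the same character are isomorphic -/
lemma iso_of_char {G W W₁ : Type} [Group G] [Fintype G] [AddCommGroup W] [Module ℂ W]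
    [FiniteDimensional ℂ W] [AddCommGroup W₁] [Module ℂ W₁] [FiniteDimensional ℂ W₁]
    {ρ : Representation ℂ G W} {ρ₁ : Representation ℂ G W₁} (h : ρ.IsIrreducible)
    (h₁ : ρ₁.IsIrreducible) (hc : ρ.character = ρ₁.character) :
    ∃ e : W ≃ₗ[ℂ] W₁, ∀ g w, e (ρ g w) = ρ₁ g (e w) := by
  have : Invertible (Nat.card G : ℂ) := invertibleOfNonzero IC.cardG_ne
  have h3 := Representation.char_orthonormal ρ₁ ρ
  have h4 : Nonempty (Representation.Equiv ρ ρ₁) := by
    by_contra hn
    rw [if_neg hn] at h3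
    have h5 : IC.B ρ₁.character ρ.character = 0 := by simpa [IC.B] using h3
    rw [hc, IC.B_irr ⟨W₁, _, _, inferInstance, ρ₁, h₁, rfl⟩ ⟨W₁, _, _, inferInstance, ρ₁, h₁, rfl⟩,
      if_pos rfl] at h5
    exact one_ne_zero h5
  obtain ⟨f⟩ := h4
  exact ⟨f.toLinearEquiv, fun g w => LinearMap.congr_fun (f.isIntertwining' g) w⟩

section grp

variable {G : Type} [Group G] [Fintype G] {N : Subgroup G} [N.Normal] {y : G}
  [(KK N y).Normal] {H : Subgroup G} {p : ℕ} [hp : Fact p.Prime] {P : Sylow p G}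

/-- the inclusion `K ∩ H → K` -/
abbrev jK (N : Subgroup G) (y : G) (H : Subgroup G) : (KK N y).comap H.subtype →* KK N y :=
  ci H.subtype (KK N y)

/-- `N` as a subgroup of `K` -/
abbrev BK (N : Subgroup G) (y : G) : Subgroup (KK N y) := N.subgroupOf (KK N y)

/-- canonical pairs of lifts of `h ∈ H` -/
abbrev CH (p : ℕ) {W W' : Type} [AddCommGroup W] [Module ℂ W] [AddCommGroup W'] [Module ℂ W']
    {N : Subgroup G} {y : G} [(KK N y).Normal] {H : Subgroup G}
    (R : Representation ℂ (KK N y) W) (R' : Representation ℂ ((KK N y).comap H.subtype) W')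
    (h : H) (u : W ≃ₗ[ℂ] W) (u' : W' ≃ₗ[ℂ] W') : Prop :=
  CP p (jK N y H) (BK N y) R R' (MulAut.conjNormal (h : G)) (MulAut.conjNormal h) u u'

/-- pairs of lifts of `h ∈ H` -/
abbrev LH {W W' : Type} [AddCommGroup W] [Module ℂ W] [AddCommGroup W'] [Module ℂ W']
    {N : Subgroup G} {y : G} [(KK N y).Normal] {H : Subgroup G}
    (R : Representation ℂ (KK N y) W) (R' : Representation ℂ ((KK N y).comap H.subtype) W')
    (h : H) (u : W ≃ₗ[ℂ] W) (u' : W' ≃ₗ[ℂ] W') : Prop :=
  LP (jK N y H) (BK N y) R R' (MulAut.conjNormal (h : G)) (MulAut.conjNormal h) u u'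

variable {W W' : Type} [AddCommGroup W] [Module ℂ W] [FiniteDimensional ℂ W]
  [AddCommGroup W'] [Module ℂ W'] [FiniteDimensional ℂ W']
  {R : Representation ℂ (KK N y) W} {R' : Representation ℂ ((KK N y).comap H.subtype) W'} {ε : ℤ}

namespace TD

variable (d : TD p N y H P)

include d

omit hp in
lemma au (h : H) : Au (jK N y H) (BK N y) (MulAut.conjNormal (h : G)) (MulAut.conjNormal h) := by
  refine ⟨fun x => rfl, fun x => ?_⟩
  rw [Subgroup.mem_subgroupOf]
  have h1 := KK_com d.hcen (h : G) x x.2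
  exact h1

omit [(KK N y).Normal] in
lemma toAD (ext : S_EXT) (s : SD p N y H R R' ε) : AD p (jK N y H) (BK N y) R R' ε := by
  have hle : N.comap H.subtype ≤ (KK N y).comap H.subtype := Subgroup.comap_mono le_KK
  have h1 : IsIrr R.character := ⟨W, _, _, inferInstance, R, s.irr, rfl⟩
  have h2 : IsIrr R'.character := ⟨W', _, _, inferInstance, R', s.irr', rfl⟩
  refine ⟨hp.out, inferInstance, d.idx, ?_, s.irr, s.irr', ?_, ?_, s.eps, ?_⟩
  · intro a
    obtain ⟨n, hn, h, hh, e⟩ := d.hNH a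
    have hK : h ∈ KK N y := by
      have h3 := (KK N y).mul_mem ((KK N y).inv_mem (le_KK hn)) a.2
      rwa [e, inv_mul_cancel_left] at h3
    exact ⟨⟨n, le_KK hn⟩, hn, ⟨⟨h, hh⟩, hK⟩, Subtype.ext e⟩
  · rw [irr_sub le_KK]
    exact ext1 ext le_KK d.idx' h1 s.nv
  · have h3 := ext1 ext hle d.idxH h2 s.nv'
    rw [← irr_sub hle] at h3
    exact h3
  · intro x hx
    exact s.val x.1 x.2 hx

end TD

end grp

end Pool.Agent.Q17.TC
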