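import Pool.Agent.Q17.TC.C4

/-!
# Canonical pairs of lifts: `p`-regular elements and torsion
-/

set_option autoImplicit false

open scoped BigOperators Classical
open Pool.Agent.Helper884 Representation Pool.Agent.H254R3.IN Pool.Agent.Y62
open Pool.Agent.Q239.TC (op op_apply dT_eq dT_mul dT_smul dT_one dT_ne)

noncomputable section

namespace Pool.Agent.Q17.TC

section pw

variable {A A' : Type} [Group A] [Group A'] {W W' : Type}
  [AddCommGroup W] [Module ℂ W] [AddCommGroup W'] [Module ℂ W']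
  {p : ℕ} {j : A' →* A} {B : Subgroup A} {R : Representation ℂ A W}
  {R' : Representation ℂ A' W'} {ε : ℤ}
  [Fintype A] [Fintype A'] [FiniteDimensional ℂ W] [FiniteDimensional ℂ W']
  {a : MulAut A} {a' : MulAut A'} {u : W ≃ₗ[ℂ] W} {u' : W' ≃ₗ[ℂ] W'}

omit [Fintype A] [Fintype A'] in
lemma Au.pow (h : Au j B a a') (k : ℕ) : Au j B (a ^ k) (a' ^ k) := by
  induction k with
  | zero =>
    rw [pow_zero, pow_zero]
    exact Au.one
  | succ k ih =>
    rw [pow_succ, pow_succ]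
    exact ih.mul h

omit [Fintype A] [Fintype A'] [FiniteDimensional ℂ W] [FiniteDimensional ℂ W'] in
lemma LP.pow (h : Au j B a a') (hl : LP j B R R' a a' u u') (k : ℕ) :
    LP j B R R' (a ^ k) (a' ^ k) (u ^ k) (u' ^ k) := by
  induction k with
  | zero => exact ⟨fun x _ w => rfl, fun x _ w => rfl⟩
  | succ k ih =>
    rw [pow_succ, pow_succ]
    exact ih.mul hl h

lemma AD.qD_pow (d : AD p j B R R' ε) (hom : S_HOM) (h : Au j B a a')
    (hl : LP j B R R' a a' u u') (l : Ln j B) (k : ℕ) :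
    qD j R R' l.1 (u ^ k) (u' ^ k) = qD j R R' l.1 u u' ^ k := by
  induction k with
  | zero =>
    rw [pow_zero]
    have h1 : j (1 : A') ∈ B := by
      rw [map_one]
      exact B.one_mem
    exact AD.qD_triv h1 (fun w => by rw [map_one, map_one]; rfl) (fun w => by rw [map_one]; rfl) l
  | succ k ih =>
    have h1 := d.qD_mul hom (h.pow k) (hl.pow h k) h hl l
    rw [pow_succ (qD j R R' l.1 u u'), ← ih, ← h1]
    rfl

end pw

section grp

variable {G : Type} [Group G] [Fintype G] {N : Subgroup G} [N.Normal] {y : G}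
  [(KK N y).Normal] {H : Subgroup G} {p : ℕ} [hp : Fact p.Prime] {P : Sylow p G}
  {W W' : Type} [AddCommGroup W] [Module ℂ W] [FiniteDimensional ℂ W]
  [AddCommGroup W'] [Module ℂ W'] [FiniteDimensional ℂ W']
  {R : Representation ℂ (KK N y) W} {R' : Representation ℂ ((KK N y).comap H.subtype) W'} {ε : ℤ}

namespace TD

variable (d : TD p N y H P)

include d

omit [N.Normal] [(KK N y).Normal] in
/-- the sign and the second character are determined -/
lemma sd_unique (kc : S_KC) (s : SD p N y H R R' ε) {W₁ : Type} [AddCommGroup W₁] [Module ℂ W₁]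
    [FiniteDimensional ℂ W₁] {R₁ : Representation ℂ ((KK N y).comap H.subtype) W₁} {ε₁ : ℤ}
    (s₁ : SD p N y H R R₁ ε₁) : R'.character = R₁.character ∧ ε = ε₁ := by
  have h1 : IsIrr R.character := ⟨W, _, _, inferInstance, R, s.irr, rfl⟩
  have h2 : IsIrr R'.character := ⟨W', _, _, inferInstance, R', s.irr', rfl⟩
  have h3 : IsIrr R₁.character := ⟨W₁, _, _, inferInstance, R₁, s₁.irr', rfl⟩
  have h4 := ((kc G p N y H P d).2.2.1 _ _ _ _ ε ε₁ s.eps s₁.eps h1 h1 h2 h3 s.nv s.val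
    s₁.val).mp rfl
  refine ⟨h4, ?_⟩
  obtain ⟨k, hk, hk'⟩ := s.nv'
  have h5 := s.val k.1 k.2 hk
  have h6 := s₁.val k.1 k.2 hk
  rw [h5, ← h4] at h6
  have h7 : (ε : ℂ) = ε₁ := mul_right_cancel₀ hk' h6
  exact_mod_cast h7

/-- normalised canonical pairs for `p`-regular elements -/
theorem preg (hom : S_HOM) (ext : S_EXT) (kc : S_KC) (rp : S_RP) (trp : S_TRP) (kh : S_KH)
    (nor : S_NOR) (s : SD p N y H R R' ε) {h : H} (hreg : ¬ p ∣ orderOf h) {u : W ≃ₗ[ℂ] W}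
    (hu : ∀ x ∈ BK N y, ∀ w, u (R x w) = R (MulAut.conjNormal (h : G) x) (u w)) :
    ∃ (v : W ≃ₗ[ℂ] W) (v' : W' ≃ₗ[ℂ] W'), (∃ c : ℂ, c ≠ 0 ∧ ∀ w, v w = c • u w) ∧
      CH p R R' h v v' ∧ (∀ l : Ln (jK N y H) (BK N y), qD (jK N y H) R R' l.1 v v' = 1) ∧
      (v : W →ₗ[ℂ] W) ^ orderOf h = 1 ∧ (v' : W' →ₗ[ℂ] W') ^ orderOf h = 1 ∧
      (∀ x w, v (R x w) = R (MulAut.conjNormal (h : G) x) (v w)) ∧
      (∀ x w, v' (R' x w) = R' (MulAut.conjNormal h x) (v' w)) ∧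
      ∀ (x : H) (hx : (x : G) ∈ KK N y), (x : G) ∉ N →
        LinearMap.trace ℂ W (R ⟨x, hx⟩ ∘ₗ (v : W →ₗ[ℂ] W)) =
          ε * LinearMap.trace ℂ W' (R' ⟨x, hx⟩ ∘ₗ (v' : W' →ₗ[ℂ] W')) := by
  have hreg' : ¬ p ∣ orderOf (h : G) := by rwa [Subgroup.orderOf_coe]
  obtain ⟨v, hvu, hv1, hv2⟩ := nor G W p N y H P d R s.irr s.nv (h : G) hreg' u (by
    intro x x' hx hx' w
    rw [hu x hx]
    congr 2
    exact Subtype.ext hx'.symm)
  rw [Subgroup.orderOf_coe] at hv2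
  obtain ⟨W₁, _, _, _, R₁, u₁, ε₁, s₁, h1, h2, h3⟩ := kh G W p N y H P d R s.irr s.nv h hreg v
    hv1 hv2
  obtain ⟨hch, hεε⟩ := d.sd_unique kc s s₁
  subst hεε
  obtain ⟨e', he'⟩ := iso_of_char s₁.irr' s.irr' hch.symm
  -- the lift for `R'`
  set v' : W' ≃ₗ[ℂ] W' := (e'.symm.trans u₁).trans e' with hv'
  have hv'e : ∀ w, v' (e' w) = e' (u₁ w) := by
    intro w
    rw [hv', LinearEquiv.trans_apply, LinearEquiv.trans_apply, e'.symm_apply_apply]
  have hv'p : ∀ (k : ℕ) (w : W₁), ((v' : W' →ₗ[ℂ] W') ^ k) (e' w) =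
      e' (((u₁ : W₁ →ₗ[ℂ] W₁) ^ k) w) := by
    intro k
    induction k with
    | zero =>
      intro w
      rfl
    | succ k ih =>
      intro w
      rw [pow_succ, pow_succ, Module.End.mul_apply, Module.End.mul_apply, LinearEquiv.coe_coe,
        LinearEquiv.coe_coe, hv'e, ih]
  have hexact : ∀ x w, v (R x w) = R (MulAut.conjNormal (h : G) x) (v w) := fun x w =>
    hv1 x _ (by simp) w
  have hexact₁ : ∀ x w, u₁ (R₁ x w) = R₁ (MulAut.conjNormal h x) (u₁ w) := fun x w =>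
    h1 x _ rfl w
  have hexact' : ∀ x w, v' (R' x w) = R' (MulAut.conjNormal h x) (v' w) := by
    intro x w
    obtain ⟨z, rfl⟩ := e'.surjective w
    rw [← he', hv'e, hv'e, hexact₁, he']
  -- the determinants
  have hq : ∀ l : Ln (jK N y H) (BK N y), qD (jK N y H) R R' l.1 v v' = 1 := by
    intro l
    have h5 := rp _ _ W W₁ p (jK N y H) (BK N y) R R₁ ε (d.toAD ext s₁)
      (MulAut.conjNormal (h : G)) (MulAut.conjNormal h) (d.au h) v u₁ hexact hexact₁
      (fun x hx k => h3 x.1 x.2 hx k) l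
    rw [← h5]
    have h6 : ∀ l : (KK N y).comap H.subtype →* ℂˣ,
        dT (Va (jK N y H) R R' l) v v' = dT (Va (jK N y H) R R₁ l) v u₁ := by
      intro l
      have h7 := trp _ _ _ _ W W₁ W W' (jK N y H) (jK N y H) (MulEquiv.refl _) (MulEquiv.refl _)
        (fun _ => rfl) R R₁ R R' (RingEquiv.refl ℂ) (AddEquiv.refl W) e'.toAddEquiv
        (fun _ _ => rfl) (fun c w => e'.map_smul c w) 1
        (fun x w => by
          change R x w = ((1 : ℂˣ) : ℂ) • R x w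
          rw [Units.val_one, one_smul])
        (fun x w => by
          change e' (R₁ x w) = ((1 : ℂˣ) : ℂ) • R' x (e' w)
          rw [Units.val_one, one_smul, he']) v u₁ v v' (fun _ => rfl) (fun w => hv'e w) l l
        (fun _ => rfl)
      exact h7
    unfold qD
    rw [h6, h6]
  refine ⟨v, v', hvu, ⟨⟨fun x _ w => hexact x w, fun x _ w => hexact' x w⟩,
    fun l => ⟨0, by rw [hq, one_pow]⟩, by rw [finprod_congr hq, finprod_one]⟩, hq, hv2, ?_, hexact,
    hexact', ?_⟩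
  · ext w
    obtain ⟨z, rfl⟩ := e'.surjective w
    rw [hv'p, h2]
    rfl
  · intro x hx hn
    have h5 := h3 x hx hn 1
    rw [pow_one, pow_one] at h5
    rw [h5]
    congr 1
    have h6 : R' ⟨x, hx⟩ ∘ₗ (v' : W' →ₗ[ℂ] W') =
        e'.conj (R₁ ⟨x, hx⟩ ∘ₗ (u₁ : W₁ →ₗ[ℂ] W₁)) := by
      ext w
      obtain ⟨z, rfl⟩ := e'.surjective w
      simp only [LinearMap.comp_apply, LinearEquiv.coe_coe, LinearEquiv.conj_apply_apply,
        e'.symm_apply_apply]
      rw [hv'e, he']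
    rw [h6, LinearMap.trace_conj']

/-- the quotients `qD l / qD l₂` have `p`-power order -/
theorem tors (hom : S_HOM) (ext : S_EXT) (kc : S_KC) (rp : S_RP) (trp : S_TRP) (kh : S_KH)
    (nor : S_NOR) (s : SD p N y H R R' ε) {h : H} {u : W ≃ₗ[ℂ] W} {u' : W' ≃ₗ[ℂ] W'}
    (hl : LH R R' h u u') (l l₂ : Ln (jK N y H) (BK N y)) :
    ∃ n : ℕ, (qD (jK N y H) R R' l.1 u u' / qD (jK N y H) R R' l₂.1 u u') ^ p ^ n = 1 := by
  have dA := d.toAD ext s
  obtain ⟨n, m, hm, hnm⟩ : ∃ n m : ℕ, ¬ p ∣ m ∧ orderOf h = p ^ n * m := by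
    obtain ⟨n, m, hm, hnm⟩ := Nat.exists_eq_pow_mul_and_not_dvd
      (n := orderOf h) (orderOf_pos h).ne' p hp.out.ne_one
    exact ⟨n, m, hm, hnm⟩
  refine ⟨n, ?_⟩
  have hk : ¬ p ∣ orderOf (h ^ p ^ n) := by
    rw [orderOf_pow' h (pow_ne_zero n hp.out.ne_zero), hnm,
      Nat.gcd_eq_right (Dvd.intro m rfl), Nat.mul_div_cancel_left m (pow_pos hp.out.pos n)]
    exact hm
  have hlk := hl.pow (d.au h) (p ^ n)
  have hlk' : LH R R' (h ^ p ^ n) (u ^ p ^ n) (u' ^ p ^ n) := by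
    have e1 : (MulAut.conjNormal (((h ^ p ^ n : H)) : G) : MulAut (KK N y)) =
        MulAut.conjNormal (h : G) ^ p ^ n := by
      rw [← map_pow]
      rfl
    have e2 : (MulAut.conjNormal (h ^ p ^ n) : MulAut ((KK N y).comap H.subtype)) =
        MulAut.conjNormal h ^ p ^ n := map_pow _ _ _
    unfold LH
    rw [e1, e2]
    exact hlk
  obtain ⟨v, v', ⟨c, hc, hvu⟩, hcp, hq, -⟩ := d.preg hom ext kc rp trp kh nor s hk hlk'.l
  obtain ⟨c', hc', hvu'⟩ := lift_unique (dA.irrep' hom) hlk'.l' hcp.lp.l'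
  have h1 : ∀ l : Ln (jK N y H) (BK N y), (c / c') ^ ε * qD (jK N y H) R R' l.1 u u' ^ p ^ n = 1 := by
    intro l
    rw [← dA.qD_pow hom (d.au h) hl, ← dA.qD_smul hom (d.au _) hlk' hc hc' hvu hvu' l]
    exact hq l
  have h2 : (c / c') ^ ε ≠ 0 := zpow_ne_zero _ (div_ne_zero hc hc')
  rw [div_pow]
  have h3 : qD (jK N y H) R R' l₂.1 u u' ^ p ^ n ≠ 0 := by
    intro h4
    have h5 := h1 l₂
    rw [h4, mul_zero] at h5
    exact zero_ne_one h5
  rw [div_eq_one_iff_eq h3]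
  exact mul_left_cancel₀ h2 ((h1 l).trans (h1 l₂).symm)

end TD

end grp

end Pool.Agent.Q17.TC
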