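import Pool.Agent.Q17.TC.D3
import Pool.Agent.Y824.GA.Irr

/-!
# Transport along semilinear bijections
-/

set_option autoImplicit false

open scoped BigOperators Classical
open Pool.Agent.Helper884 Representation Pool.Agent.H254R3.IN Pool.Agent.Y62

noncomputable section

namespace Pool.Agent.Q17.TC

section semi

variable {W W₂ : Type} [AddCommGroup W] [Module ℂ W] [AddCommGroup W₂] [Module ℂ W₂]

/-- `e` is `σ`-semilinear -/
def Sem (σ : ℂ ≃+* ℂ) (e : W ≃+ W₂) : Prop := ∀ (c : ℂ) (w : W), e (c • w) = σ c • e w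

variable {σ : ℂ ≃+* ℂ} {e : W ≃+ W₂}

lemma Sem.symm (he : Sem σ e) (c : ℂ) (w : W₂) : e.symm (c • w) = σ.symm c • e.symm w := by
  rw [AddEquiv.symm_apply_eq, he, RingEquiv.apply_symm_apply, AddEquiv.apply_symm_apply]

/-- the trace of a semilinear conjugate -/
lemma Sem.trace [FiniteDimensional ℂ W] (he : Sem σ e) (f : W →ₗ[ℂ] W) (f₂ : W₂ →ₗ[ℂ] W₂)
    (h : ∀ w, f₂ (e w) = e (f w)) : LinearMap.trace ℂ W₂ f₂ = σ (LinearMap.trace ℂ W f) := by
  let b := Module.finBasis ℂ W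
  let E : W₂ ≃ₗ[ℂ] (Fin (Module.finrank ℂ W) → ℂ) :=
    { toFun := fun v => fun i => σ (b.equivFun (e.symm v) i)
      map_add' := fun v w => by
        funext i
        simp
      map_smul' := fun c v => by
        funext i
        rw [he.symm, map_smul]
        simp
      invFun := fun a => e (b.equivFun.symm fun i => σ.symm (a i))
      left_inv := fun v => by
        simp
      right_inv := fun a => by
        funext i
        change σ (b.equivFun (e.symm (e (b.equivFun.symm fun i => σ.symm (a i)))) i) = a i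
        rw [AddEquiv.symm_apply_apply, LinearEquiv.apply_symm_apply, RingEquiv.apply_symm_apply] }
  let b₂ := Module.Basis.ofEquivFun E
  have hb₂ : ∀ j, b₂ j = e (b j) := by
    intro j
    rw [Module.Basis.coe_ofEquivFun]
    change e (b.equivFun.symm fun i => σ.symm ((Pi.single j (1 : ℂ) :
      Fin (Module.finrank ℂ W) → ℂ) i)) = e (b j)
    congr 1
    rw [LinearEquiv.symm_apply_eq]
    funext i
    rw [Module.Basis.equivFun_apply, Module.Basis.repr_self]
    by_cases hij : i = j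
    · subst hij
      simp
    · rw [Pi.single_eq_of_ne hij, map_zero, Finsupp.single_eq_of_ne hij]
  rw [LinearMap.trace_eq_matrix_trace ℂ b₂, LinearMap.trace_eq_matrix_trace ℂ b, Matrix.trace,
    Matrix.trace, map_sum]
  refine Finset.sum_congr rfl fun i _ => ?_
  rw [Matrix.diag_apply, Matrix.diag_apply, LinearMap.toMatrix_apply, LinearMap.toMatrix_apply,
    hb₂, h]
  have h2 : b₂.repr (e (f (b i))) i = E (e (f (b i))) i := by
    rw [← Module.Basis.equivFun_apply, Module.Basis.equivFun_ofEquivFun]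
  rw [h2]
  change σ (b.equivFun (e.symm (e (f (b i)))) i) = _
  rw [AddEquiv.symm_apply_apply, Module.Basis.equivFun_apply]

/-- the module `W` with the scalars twisted by `σ` -/
def Tw (_ : ℂ ≃+* ℂ) (W : Type) : Type := W

instance (σ : ℂ ≃+* ℂ) (W : Type) [i : AddCommGroup W] : AddCommGroup (Tw σ W) := i

instance (σ : ℂ ≃+* ℂ) (W : Type) [AddCommGroup W] [i : Module ℂ W] : Module ℂ (Tw σ W) :=
  Module.compHom W (σ.symm : ℂ →+* ℂ)

/-- the identity -/
def tw (σ : ℂ ≃+* ℂ) (W : Type) [AddCommGroup W] : W ≃+ Tw σ W := AddEquiv.refl W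

lemma tw_sem (σ : ℂ ≃+* ℂ) (W : Type) [AddCommGroup W] [Module ℂ W] : Sem σ (tw σ W) := by
  intro c w
  change c • w = (σ.symm (σ c)) • w
  rw [RingEquiv.symm_apply_apply]

instance (σ : ℂ ≃+* ℂ) (W : Type) [AddCommGroup W] [Module ℂ W] [h : FiniteDimensional ℂ W] :
    FiniteDimensional ℂ (Tw σ W) := by
  obtain ⟨s, hs⟩ := h.fg_top
  refine ⟨⟨s.image (tw σ W), ?_⟩⟩
  rw [eq_top_iff]
  intro w _
  have h1 : (tw σ W).symm w ∈ Submodule.span ℂ (s : Set W) := by
    rw [hs]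
    exact Submodule.mem_top
  have h2 : ∀ x : W, x ∈ Submodule.span ℂ (s : Set W) →
      tw σ W x ∈ Submodule.span ℂ ((s.image (tw σ W) : Finset (Tw σ W)) : Set (Tw σ W)) := by
    intro x hx
    induction hx using Submodule.span_induction with
    | mem x hx =>
      apply Submodule.subset_span
      rw [Finset.coe_image]
      exact ⟨x, hx, rfl⟩
    | zero =>
      rw [map_zero]
      exact Submodule.zero_mem _
    | add x y _ _ hx hy =>
      rw [map_add]
      exact Submodule.add_mem _ hx hy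
    | smul c x _ hx =>
      rw [tw_sem σ W c x]
      exact Submodule.smul_mem _ _ hx
  exact h2 _ h1

/-- the semilinear conjugate of a representation -/
def twR (σ : ℂ ≃+* ℂ) {A : Type} [Group A] (R : Representation ℂ A W) :
    Representation ℂ A (Tw σ W) where
  toFun x :=
    { toFun := fun w => tw σ W (R x ((tw σ W).symm w))
      map_add' := fun a b => by rw [map_add, map_add, map_add]
      map_smul' := fun c a => by
        rw [(tw_sem σ W).symm, map_smul, tw_sem σ W, RingEquiv.apply_symm_apply,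
          RingHom.id_apply] }
  map_one' := by
    ext w
    change tw σ W (R 1 ((tw σ W).symm w)) = w
    rw [map_one]
    rfl
  map_mul' x y := by
    ext w
    change tw σ W (R (x * y) ((tw σ W).symm w)) = _
    rw [map_mul]
    rfl

lemma twR_apply (σ : ℂ ≃+* ℂ) {A : Type} [Group A] (R : Representation ℂ A W) (x : A) (w : W) :
    twR σ R x (tw σ W w) = tw σ W (R x w) := rfl

end semi

section cp

variable {A A' : Type} [Group A] [Group A'] {W W' W₂ W₂' : Type}
  [AddCommGroup W] [Module ℂ W] [FiniteDimensional ℂ W] [AddCommGroup W'] [Module ℂ W']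
  [FiniteDimensional ℂ W'] [AddCommGroup W₂] [Module ℂ W₂] [FiniteDimensional ℂ W₂]
  [AddCommGroup W₂'] [Module ℂ W₂'] [FiniteDimensional ℂ W₂'] {p : ℕ} {j : A' →* A}
  {B : Subgroup A} {R : Representation ℂ A W} {R' : Representation ℂ A' W'}
  {R₂ : Representation ℂ A W₂} {R₂' : Representation ℂ A' W₂'} {σ : ℂ ≃+* ℂ} {e : W ≃+ W₂}
  {e' : W' ≃+ W₂'} {m : A →* ℂˣ} {α : A ≃* A} {α' : A' ≃* A'}
  {a a₂ : MulAut A} {a' a₂' : MulAut A'} {u : W ≃ₗ[ℂ] W} {u' : W' ≃ₗ[ℂ] W'}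
  {u₂ : W₂ ≃ₗ[ℂ] W₂} {u₂' : W₂' ≃ₗ[ℂ] W₂'}

/-- the action on the linear characters -/
def lnE (σ : ℂ ≃+* ℂ) (α' : A' ≃* A') (l : A' →* ℂˣ) : A' →* ℂˣ :=
  ((Units.map (σ : ℂ →* ℂ)).comp l).comp α'.toMonoidHom

lemma lnE_apply (l : A' →* ℂˣ) (x : A') : ((lnE σ α' l x : ℂˣ) : ℂ) = σ (l (α' x) : ℂˣ) := rfl

lemma lnE_symm (l : A' →* ℂˣ) : lnE σ α' (lnE σ.symm α'.symm l) = l := by
  ext x
  rw [lnE_apply, lnE_apply, RingEquiv.apply_symm_apply, MulEquiv.symm_apply_apply]

lemma lnE_symm' (l : A' →* ℂˣ) : lnE σ.symm α'.symm (lnE σ α' l) = l := by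
  ext x
  rw [lnE_apply, lnE_apply, RingEquiv.symm_apply_apply, MulEquiv.apply_symm_apply]

lemma lnE_mem (hα : ∀ x, j (α' x) ∈ B ↔ j x ∈ B) {l : A' →* ℂˣ}
    (hl : (∀ x, j x ∈ B → l x = 1) ∧ l ≠ 1) :
    (∀ x, j x ∈ B → lnE σ α' l x = 1) ∧ lnE σ α' l ≠ 1 := by
  refine ⟨fun x hx => ?_, fun h => hl.2 ?_⟩
  · apply Units.ext
    rw [lnE_apply, hl.1 _ ((hα x).mpr hx), Units.val_one, map_one]
  · rw [← lnE_symm' (σ := σ) (α' := α') l, h]
    ext x
    rw [lnE_apply]
    simp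

/-- the permutation of the linear characters -/
def lnP (σ : ℂ ≃+* ℂ) {α' : A' ≃* A'} (hα : ∀ x, j (α' x) ∈ B ↔ j x ∈ B) : Ln j B ≃ Ln j B where
  toFun l := ⟨lnE σ α' l.1, lnE_mem hα l.2⟩
  invFun l := ⟨lnE σ.symm α'.symm l.1, lnE_mem (fun x => by
    rw [← hα, MulEquiv.apply_symm_apply]) l.2⟩
  left_inv l := Subtype.ext (lnE_symm' l.1)
  right_inv l := Subtype.ext (lnE_symm l.1)

/-- transport of canonical pairs -/
lemma CP.transport (trp : S_TRP) (hfin : Finite (Ln j B)) (hj : ∀ x, α (j x) = j (α' x))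
    (hB : ∀ x, α x ∈ B ↔ x ∈ B) (he : Sem σ e) (he' : Sem σ e') (hm : ∀ x ∈ B, m x = 1)
    (hR : ∀ x w, e (R (α x) w) = ((m x : ℂˣ) : ℂ) • R₂ x (e w))
    (hR' : ∀ x w, e' (R' (α' x) w) = ((m (j x) : ℂˣ) : ℂ) • R₂' x (e' w))
    (ha : ∀ x, a (α x) = α (a₂ x)) (ha' : ∀ x, a' (α' x) = α' (a₂' x))
    (haB : ∀ x, a₂ x ∈ B ↔ x ∈ B) (haj : ∀ x, j (a₂' x) = a₂ (j x))
    (hu : ∀ w, u₂ (e w) = e (u w)) (hu' : ∀ w, u₂' (e' w) = e' (u' w))
    (c : CP p j B R₂ R₂' a₂ a₂' u₂ u₂') : CP p j B R R' a a' u u' := by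
  have hα : ∀ x, j (α' x) ∈ B ↔ j x ∈ B := fun x => by rw [← hj, hB]
  have key : ∀ l : Ln j B, qD j R₂ R₂' (lnP σ hα l).1 u₂ u₂' = σ (qD j R R' l.1 u u') := by
    intro l
    unfold qD
    rw [map_div₀]
    congr 1
    · exact trp A A' A A' W W' W₂ W₂' j j α α' hj R R' R₂ R₂' σ e e' he he' m hR hR' u u' u₂ u₂'
        hu hu' 1 1 (fun x => by
          rw [MonoidHom.one_apply, MonoidHom.one_apply, Units.val_one, map_one])
    · exact trp A A' A A' W W' W₂ W₂' j j α α' hj R R' R₂ R₂' σ e e' he he' m hR hR' u u' u₂ u₂'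
        hu hu' l.1 (lnE σ α' l.1) (fun x => rfl)
  refine ⟨⟨fun x hx w => ?_, fun x hx w => ?_⟩, fun l => ?_, ?_⟩
  · obtain ⟨x, rfl⟩ := α.surjective x
    have hx' := (hB x).mp hx
    apply e.injective
    rw [← hu, hR, hm x hx', ha, hR, hm _ ((haB x).mpr hx'), Units.val_one, one_smul, one_smul,
      c.lp.l x hx', hu]
  · obtain ⟨x, rfl⟩ := α'.surjective x
    have hx' := (hα x).mp hx
    apply e'.injective
    have hx'' : j (a₂' x) ∈ B := by rw [haj, haB]; exact hx'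
    rw [← hu', hR', hm _ hx', ha', hR', hm _ hx'', Units.val_one, one_smul, one_smul,
      c.lp.l' x hx', hu']
  · obtain ⟨n, hn⟩ := c.tor (lnP σ hα l)
    refine ⟨n, ?_⟩
    rw [key, ← map_pow] at hn
    apply σ.injective
    rw [hn, map_one]
  · apply σ.injective
    rw [map_one]
    have h1 := (σ : ℂ →* ℂ).map_finprod (f := fun l : Ln j B => qD j R R' l.1 u u')
      (Set.toFinite _)
    have h2 := finprod_comp_equiv (lnP σ hα) (f := fun l : Ln j B => qD j R₂ R₂' l.1 u₂ u₂')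
    have h3 : ∏ᶠ l : Ln j B, σ (qD j R R' l.1 u u') = 1 := by
      rw [← c.prd, ← h2]
      exact finprod_congr fun l => (key l).symm
    exact h1.trans h3

end cp

end Pool.Agent.Q17.TC
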