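import Pool.Agent.Q17.TC.ASM6

/-!
# The final statement, from the parts
-/

set_option autoImplicit false

open scoped BigOperators Classical
open Pool.Agent.Helper884 Representation Pool.Agent.H254R3.IN Pool.Agent.Y62
open Pool.Agent.Q1.MK (IrrP)

noncomputable section

namespace Pool.Agent.Q17.TC

/-- all parts -/
structure Parts : Prop where
  lft : S_LFT
  hom : S_HOM
  mat : S_MAT
  ext : S_EXT
  tr : S_TR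
  cl : S_CL
  kc : S_KC
  sq : S_SQ
  ti : S_TI

variable {G : Type} [Group G] [Fintype G] {N : Subgroup G} [N.Normal] {y : G}
  {H : Subgroup G} {p : ℕ} [hp : Fact p.Prime] {P : Sylow p G}

theorem main (q : Parts) (d : TD p N y H P) :
    Subgroup.normalizer ((P : Subgroup G) : Set G) ≤ H ∧
    ∃ (F : Iv N y ≃ Iv (N.comap H.subtype) (⟨y, d.hyH⟩ : H))
      (f : Ab N y ≃ Ab (N.comap H.subtype) (⟨y, d.hyH⟩ : H)) (g : IrrP p G ≃ IrrP p H),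
      (∀ θ, Rel p N (KK N y) H le_KK θ.1 (F θ).1) ∧
      (∀ (h : H) (θ θ' : Iv N y), (∀ n, θ'.1 n = θ.1 (MulAut.conjNormal (h : G) n)) →
        ∀ m, (F θ').1 m = (F θ).1 (MulAut.conjNormal h m)) ∧
      (∀ χ θ, Ov N χ.1 θ.1 ↔ Ov (N.comap H.subtype) (f χ).1 (F θ).1) ∧
      (∀ χ θ, Ov N χ.1 θ.1 → (f χ).1 1 * θ.1 1 = χ.1 1 * (F θ).1 1) ∧
      (∀ χ : IrrP p G, ∃ χ' : Ab N y, χ'.1 = (χ : G → ℂ) ∧ (f χ').1 = (g χ : H → ℂ)) ∧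
      ∀ χ : IrrP p G, ∃ ε : ℤ, (ε = 1 ∨ ε = -1) ∧
        ∀ n m : ℕ, (n : ℂ) = (χ : G → ℂ) 1 → (m : ℂ) = (g χ : H → ℂ) 1 →
          (n : ℤ) ≡ ε * m [ZMOD p] := by
  refine ⟨d.norm_le q.ti, ?_⟩
  obtain ⟨F, hF⟩ := d.exists_F q.ext q.kc
  obtain ⟨f, h1, h2⟩ := d.glob q.lft q.hom q.mat q.ext q.tr q.cl q.kc q.sq hF
  have hiff : ∀ χ : Ab N y, χ.1 ∈ IrrP p G ↔ (f χ).1 ∈ IrrP p H := by
    intro χ
    obtain ⟨θ, hθ⟩ := χ.2.2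
    obtain ⟨ε, -, -, h3⟩ := d.pprime q.hom q.lft q.sq q.cl q.kc χ.2.1 (f χ).2.1 θ.2.1 (hF θ) hθ
      (h2 χ θ hθ)
    exact h3
  let e₁ : IrrP p G ≃ {χ : Ab N y // χ.1 ∈ IrrP p G} :=
    { toFun := fun χ => ⟨⟨χ.1, χ.2.1, d.ov_G q.ext χ⟩, χ.2⟩
      invFun := fun χ => ⟨χ.1.1, χ.2⟩
      left_inv := fun _ => rfl
      right_inv := fun _ => rfl }
  let e₂ : IrrP p H ≃ {ψ : Ab (N.comap H.subtype) (⟨y, d.hyH⟩ : H) // ψ.1 ∈ IrrP p H} :=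
    { toFun := fun ψ => ⟨⟨ψ.1, ψ.2.1, d.ov_H q.ext ψ⟩, ψ.2⟩
      invFun := fun ψ => ⟨ψ.1.1, ψ.2⟩
      left_inv := fun _ => rfl
      right_inv := fun _ => rfl }
  refine ⟨F, f, e₁.trans ((f.subtypeEquiv hiff).trans e₂.symm), hF, ?_, h1, h2, ?_, ?_⟩
  · intro h θ θ' hθ m
    have h3 : θ' = θ.cj d.hcen h := Subtype.ext (funext hθ)
    rw [h3, d.F_equiv q.ext q.kc hF h θ]
    rfl
  · intro χ
    exact ⟨(e₁ χ).1, rfl, rfl⟩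
  · intro χ
    obtain ⟨θ, hθ⟩ := (e₁ χ).1.2.2
    obtain ⟨ε, hε, h3, -⟩ := d.pprime q.hom q.lft q.sq q.cl q.kc (e₁ χ).1.2.1 (f (e₁ χ).1).2.1
      θ.2.1 (hF θ) hθ (h2 _ θ hθ)
    exact ⟨ε, hε, h3⟩

end Pool.Agent.Q17.TC
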