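import Pool.Agent.Q17.TC.D3

/-!
# Statements of the parts of the third stage of project TC

Canonical pairs of lifts: `C2` (`Au`, `LP`, `AD`), `C3` (`CP.mul`, `CP.triv`, `CP.smul`, `CP.unique`,
`CP.exist`, `lift_unique`), `C4` (`CH`, `LH`, `jK`, `BK`, `iso_of_char`, `TD.au`, `TD.toAD`), `C5`
(`TD.preg`, `TD.tors`, `TD.sd_unique`), `D3` (`Cf`, `rN`, `rM`, `GD`, `GR`); `St`, `mem_St` in `ASM1`;
`iT`, `jT`, `eT`, `relC` in `ASM2`; `TD.hGH`, `TD.idx`, `TD.nK`, `Rel` in `ASM3`; `clif`, `ov_conj`,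
`clif_conj` in `ASM4`; `Iv`, `Ab` in `ASM5`.
-/

set_option autoImplicit false

open scoped BigOperators Classical
open Pool.Agent.Helper884 Representation Pool.Agent.H254R3.IN Pool.Agent.Y62 Pool.Agent.Q21.CO

noncomputable section

namespace Pool.Agent.Q17.TC

/-- GDX. The correspondence over one character, in canonical form. Proof: as `relC` (`ASM2`), with
`T = St (rN R)`; instead of `dM.matching` choose for every `h ∈ T ∩ H` a pair `(u h, u' h)` with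
`CH p R R' h (u h) (u' h)` (last hypothesis). This gives `Mat (iT T H) (N.comap T.subtype) ρ ρ' u u'`:
`lf`, `lf'` are `LP.l`, `LP.l'`; `mul`: the pairs `(u (h k), u' (h k))` and `(u h ∘ u k, u' h ∘ u' k)`
(`CP.mul`) both satisfy `CH` for `h k`, by `lift_unique` they differ by scalars `c`, `c'` and
`CP.unique` gives `c = c'`; `res`: `(R m, R' m)` satisfies `CH` for `m ∈ N ∩ H` by `CP.triv`
(`TD.toAD ext s` is the needed `AD`, `TD.au` the needed `Au`). `S_TR` gives the bijection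
`ξ₀ ↦ ξ₀'` with `Cor`, `S_CL` for `G` and for `H` gives `χ`, `ψ`; `ξ`, `ξ'` are the extensions of
`ξ₀`, `ξ₀'` by zero. `cc`: if `CH p R R' h v v'` then `h ∈ T` (`v` carries the restriction of `R` to
`N` to its conjugate) and `v = c u h`, `v' = c u' h` (`lift_unique`, `CP.unique`), so the scalar for
`(v, v')` is `s(h) / c`. -/
def S_GDX : Prop := ∀ (G W W' : Type) [Group G] [Fintype G] [AddCommGroup W] [Module ℂ W]
  [FiniteDimensional ℂ W] [AddCommGroup W'] [Module ℂ W'] [FiniteDimensional ℂ W'] (p : ℕ)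
  [Fact p.Prime] (N : Subgroup G) [N.Normal] (y : G) [(KK N y).Normal] (H : Subgroup G)
  (P : Sylow p G), TD p N y H P → ∀ (R : Representation ℂ (KK N y) W)
  (R' : Representation ℂ ((KK N y).comap H.subtype) W') (ε : ℤ), SD p N y H R R' ε →
  (∀ h : H, (h : G) ∈ St (rN R) ↔ h ∈ St (rM R')) →
  (∀ h : H, (h : G) ∈ St (rN R) → ∃ (u : W ≃ₗ[ℂ] W) (u' : W' ≃ₗ[ℂ] W'), CH p R R' h u u') →
  ∃ e : {χ : G → ℂ // IsIrr χ ∧ Ov N χ (rN R)} ≃
      {ψ : H → ℂ // IsIrr ψ ∧ Ov (N.comap H.subtype) ψ (rM R')},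
    ∀ χ, ∃ (ξ : G → ℂ) (ξ' : H → ℂ), GD p N y H R R' ε χ.1 (e χ).1 ξ ξ'

/-- CG. Corresponding characters are congruent up to the sign on `C_G(y)`. Proof. Let `R`, ..., `ξ'`
be as in `GR`, `T = St (rN R)`; `St (rM R') = T ∩ H` (fifth hypothesis). (a) Let `h ∈ T ∩ H` be a
`p`-regular element and `y' ∈ H ∩ K`, `y' ∉ N` a `p`-element commuting with `h`. Then
`ξ(h) - ε ξ'(h) ∈ O.nonunits`: let `u` be a lift of `h` for the restriction of `R` to `N` (`S_LFT`),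
and `(v, v')` the pair of `TD.preg`; by `GD.cc` with `n = 1`, `m = 1`: `ξ(h) = s tr(v)`,
`ξ'(h) = s tr(v')`. `v` commutes with `R(y')` since `v R(y') = R(h y' h⁻¹) v`, and `R(y')` has
`p`-power order, so `S_CM` gives `tr(R(y') v) ≡ tr(v)`, and in the same way
`tr(R'(y') v') ≡ tr(v')`; `tr(R(y') v) = ε tr(R'(y') v')`, hence `tr(v) ≡ ε tr(v')`. The scalar `s`
is integral by `S_INT` (for the group `T`, its normal subgroup `N ∩ T`, the restriction of `R`, the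
character `ξ` of `T`), so it is in `O`. (b) For a `p`-regular `g` commuting with `y`:
`χ(g) = |T|⁻¹ ∑_{x ∈ G} ξ(x⁻¹ g x)`, the summand depends only on the coset `x T` (`ξ` is a class
function of `T`, extended by zero), and as `G = H T` the cosets `x T`, `x ∈ G`, correspond to
the cosets `x (T ∩ H)`, `x ∈ H`; so `χ(g) = ∑_q ξ(x_q⁻¹ g x_q)` over representatives `x_q ∈ H` of
`H / (T ∩ H)`, and in the same way `ψ(g) = ∑_q ξ'(x_q⁻¹ g x_q)`. If `x_q⁻¹ g x_q ∈ T` use (a) with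
`y' = x_q⁻¹ y x_q` (`y' ∈ yN` as `y` is central modulo `N`); otherwise both terms are zero. (c) In
general `g = y₁ g'` with `y₁`, `g'` powers of `g`, `y₁` a `p`-element, `g'` `p`-regular; by
`val_red` (`Y62.Sec`) `χ(g) ≡ χ(g')` and `ψ(g) ≡ ψ(g')`. -/
def S_CG : Prop := ∀ (G : Type) [Group G] [Fintype G] (p : ℕ) [Fact p.Prime]
  (O : ValuationSubring ℂ), (p : ℂ) ∈ O.nonunits → ∀ (N : Subgroup G) [N.Normal] (y : G)
  [(KK N y).Normal] (H : Subgroup G) (P : Sylow p G), TD p N y H P →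
  (∀ (W W' : Type) [AddCommGroup W] [Module ℂ W] [FiniteDimensional ℂ W] [AddCommGroup W']
    [Module ℂ W'] [FiniteDimensional ℂ W'] (R : Representation ℂ (KK N y) W)
    (R' : Representation ℂ ((KK N y).comap H.subtype) W') (ε : ℤ), SD p N y H R R' ε →
    ∀ h : H, (h : G) ∈ St (rN R) ↔ h ∈ St (rM R')) →
  ∀ (χ : G → ℂ) (ψ : H → ℂ) (ε : ℤ), GR p N y H χ ψ ε → ∀ (g : G) (hg : g ∈ H), Commute y g →
    χ g - ε * ψ ⟨g, hg⟩ ∈ O.nonunits

/-- AB. Proof: choose an irreducible character `θ₀` of `N` with `Ov N χ θ₀` (`IC.expand` for the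
restriction of `χ`), `T = St θ₀`. By `S_CL` `χ` is induced from a character of `T`, so
`x⁻¹ (y s) x ∈ T` for some `x`. As `y` is a power of `y s`, `x⁻¹ y x ∈ T`. Take
`θ(n) = θ₀(x⁻¹ n x)`; it is over `χ` by `ov_conj`. -/
def S_AB : Prop := ∀ (G : Type) [Group G] [Fintype G] (p : ℕ) [Fact p.Prime] (N : Subgroup G)
  [N.Normal] (y s : G) (k : ℕ), orderOf y = p ^ k → ¬ p ∣ orderOf s → Commute y s →
  ∀ χ : G → ℂ, IsIrr χ → χ (y * s) ≠ 0 → ∃ θ : Iv N y, Ov N χ θ.1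

/-- BLK. Blocks and heights under a bijection with the congruence of CG. `H` is a subgroup which
contains every `g ∈ G` that conjugates `y` into `H`, `b` is a block of `H` with the same defect
group `D` as `B`, with a Brauer correspondent `b₀` in `N_H(D)`, and `b^G = B`; `s` is a
`p`-regular element of a defect class. Proof. First part: this is Step A of MEM (in
`Pool.Agent.Q239.TC.MEM`) applied to `s`; its hypothesis for `ψ ∈ b` (`|D|` divides `|C_H(h)|` if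
`ω_ψ(h) ≢ 0`) is `lam_zero_G` (`H254R3.IN.Compare2`) for `b₀` and `b`. Second part: `height_val`
(`Q21.CO.Blk`) for `H`, `D.subgroupOf H`, `uu_mem` (`H254R3.IN.Fin`). Third part. `χ(s) ≡ ε ψ(s)`; by
`height_val`, for `χ ∈ B`: `χ(s) ≢ 0` iff `uu χ ≢ 0`, the same for `b`. If `χ ∈ B` has height zero
then `χ(s) ≢ 0`, so `ω_χ` is induced from `ω_ψ` (`S_IND`, with this `s`), and `ψ(s) ≢ 0`. For `h` with
`ω_ψ(h) ≢ 0`: `ψ(s) = ω_ψ(s) uu(ψ) |C_H(s)|/|D|` and `ψ(h) = ω_ψ(h) uu(ψ) |C_H(h)|/|D|`, so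
`|D| / |C_H(h)| = ω_ψ(h) uu(ψ) / ψ(h)`... precisely
`(|C_H(h)| / |D|) ψ(s) ω_ψ(h) = ψ(h) ω_ψ(s) |C_H(s)|/|D| ∈ O` and `ψ(s)`, `ω_ψ(h)` are units, so
`|C_H(h)| / |D| ∈ O` and, `|D|` being a power of `p`, `|D|` divides `|C_H(h)|`. Now `S_MEM` for `ψ`
and a member `φ` of `b` gives `ψ ∈ b` (`block_of_red`). Conversely if `ψ ∈ b` has height zero then
`ψ(s) ≢ 0`, `χ(s) ≢ 0`, `S_IND` gives `ω_χ(x) ≡ ∑ ψ(z)/ψ(1) ≡ ω_{χ₀}(x)` for `χ₀ ∈ B`, so `χ ∈ B`.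
Last equation: as in `Q21.CO.Main` (`BD.rel`, end): `val_eq_kk`, `ω_χ(s) ≡ ω_ψ(s) ≢ 0` and
`kk D s ≡ kk (D.subgroupOf H) s` modulo `p`, both prime to `p` (`|C_G(s)| / |C_H(s)| ≡ 1` modulo
`p`: `D` acts on the cosets of `C_H(s)` in `C_G(s)` by left multiplication and by the assumption on
`H` the only fixed coset is `C_H(s)`). -/
def S_BLK : Prop := ∀ (G : Type) [Group G] [Fintype G] (p : ℕ) [Fact p.Prime]
  (O : ValuationSubring ℂ), (p : ℂ) ∈ O.nonunits → ∀ (H : Subgroup G) (y : G),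
  (∃ k, orderOf y = p ^ k) → (∀ g : G, g⁻¹ * y * g ∈ H → g ∈ H) → ∀ D : Subgroup G,
  IsPGroup p D → D ≤ H → y ∈ D → ∀ (B : Set (G → ℂ)) (b : Set (H → ℂ)), IsBlock O B →
  IsDefectGroup p O B D → IsBlock O b → IsDefectGroup p O b (D.subgroupOf H) →
  ∀ b₀ : Set (NN (D.subgroupOf H) → ℂ), IsBrauerCorrespondent p O (D.subgroupOf H) b b₀ →
  (∀ χ ∈ B, ∀ θ ∈ b, ∀ x : G,
    omega χ x - ∑ᶠ z : {z : H // IsConj x (z : G)}, θ z / θ 1 ∈ O.nonunits) →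
  ∀ s : H, (s : G) ∈ Sp p D → ¬ p ∣ kk D (s : G) → (∀ χ ∈ B, red O (omega χ (s : G)) ≠ 0) →
  (∀ χ ∈ B, ∀ ψ ∈ b, red O (omega ψ s) = red O (omega χ (s : G))) ∧
  (∀ ψ ∈ b, red O (uu (D.subgroupOf H) ψ) ≠ 0 → red O (ψ s) ≠ 0) ∧
  ∀ (χ : G → ℂ) (ψ : H → ℂ) (ε : ℤ), IsIrr χ → IsIrr ψ → (ε = 1 ∨ ε = -1) →
    (∀ (g : G) (hg : g ∈ H), Commute y g → χ g - ε * ψ ⟨g, hg⟩ ∈ O.nonunits) →
    ((χ ∈ B ∧ red O (uu D χ) ≠ 0) ↔ (ψ ∈ b ∧ red O (uu (D.subgroupOf H) ψ) ≠ 0)) ∧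
    (χ ∈ B → ψ ∈ b → red O (uu D χ) = red O (ε : ℂ) * red O (uu (D.subgroupOf H) ψ))

/-- `N_H(D) ≅ N_G(D)` if `N_G(D) ≤ H` -/
def eN {G : Type} [Group G] {H D : Subgroup G} (hD : D ≤ H) (hN : NN D ≤ H) :
    NN (D.subgroupOf H) ≃* NN D where
  toFun x := ⟨x.1.1, by
    have h1 := Subgroup.mem_normalizer_iff.mp x.2
    rw [Subgroup.mem_normalizer_iff]
    intro d
    constructor
    · intro hd
      exact Subgroup.mem_subgroupOf.mp ((h1 ⟨d, hD hd⟩).mp (Subgroup.mem_subgroupOf.mpr hd))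
    · intro hd
      have h2 : (x.1 : G)⁻¹ * (x.1 * d * (x.1 : G)⁻¹) * x.1 ∈ H :=
        H.mul_mem (H.mul_mem (H.inv_mem x.1.2) (hD hd)) x.1.2
      have h3 : (x.1 : G)⁻¹ * (x.1 * d * (x.1 : G)⁻¹) * x.1 = d := by group
      rw [h3] at h2
      exact Subgroup.mem_subgroupOf.mp ((h1 ⟨d, h2⟩).mpr (Subgroup.mem_subgroupOf.mpr hd))⟩
  invFun x := ⟨⟨x.1, hN x.2⟩, by
    have h1 := Subgroup.mem_normalizer_iff.mp x.2
    rw [Subgroup.mem_normalizer_iff]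
    intro d
    exact h1 d⟩
  left_inv _ := rfl
  right_inv _ := rfl
  map_mul' _ _ := rfl

/-- TRN. Transitivity of block induction: if `b₀` is the Brauer correspondent of `B` in `N_G(D)` and
of `b` in `N_H(D) = N_G(D)` then `b^G = B`. Proof: by `induced_sum` (`H254R3.IN.Compare2`) for `H`
`ω_ψ(K) ≡ ∑ ω_θ(L)` over the classes `L` of `N_H(D)` in the class `K` of `H`, and `ω_χ(x) ≡ ∑ ω_θ(L)`
over the classes of `N_G(D)` in the class of `x`; `∑_{z ∈ H, z ~ x} ψ(z)/ψ(1) = ∑_K ω_ψ(K)` over the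
classes `K` of `H` in the class of `x` (`sum_pred`). -/
def S_TRN : Prop := ∀ (G : Type) [Group G] [Fintype G] (p : ℕ) [Fact p.Prime]
  (O : ValuationSubring ℂ), (p : ℂ) ∈ O.nonunits → ∀ (H D : Subgroup G) (hD : D ≤ H)
  (hN : NN D ≤ H) (B : Set (G → ℂ)) (b : Set (H → ℂ)) (b₀ : Set (NN D → ℂ)), IsBlock O B →
  IsBlock O b → IsBrauerCorrespondent p O D B b₀ →
  IsBrauerCorrespondent p O (D.subgroupOf H) b {θ | ∃ θ₀ ∈ b₀, θ = fun x => θ₀ (eN hD hN x)} →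
  ∀ χ ∈ B, ∀ ψ ∈ b, ∀ x : G,
    omega χ x - ∑ᶠ z : {z : H // IsConj x (z : G)}, ψ z / ψ 1 ∈ O.nonunits

end Pool.Agent.Q17.TC
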