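import Pool.Agent.Q17.TC.C7
import Pool.Agent.Q17.TC.Stm3
import Pool.Agent.Q17.TC.Fin

/-!
# The canonical relation: alignment and uniqueness
-/

set_option autoImplicit false

open scoped BigOperators Classical
open Pool.Agent.Helper884 Representation Pool.Agent.H254R3.IN Pool.Agent.Y62

noncomputable section

namespace Pool.Agent.Q17.TC

/-- the parts of the second stage -/
structure Parts2 : Prop extends Parts where
  ort : S_ORT
  rp : S_RP
  trp : S_TRP
  kh : S_KH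
  nor : S_NOR

section cf

variable {G : Type} [Group G] [Fintype G] {N : Subgroup G} [N.Normal]

/-- the Clifford correspondent is unique -/
lemma Cf.unique (cl : S_CL) {θ : N → ℂ} (hθ : IsIrr θ) {χ ξ₁ ξ₂ : G → ℂ} (hχ : IsIrr χ)
    (ho : Ov N χ θ) (c₁ : Cf θ χ ξ₁) (c₂ : Cf θ χ ξ₂) : ξ₁ = ξ₂ := by
  obtain ⟨e, he⟩ := cl G N θ hθ (St θ) (fun g => Iff.rfl)
  have key : ∀ ξ : G → ℂ, ∀ c : Cf θ χ ξ, e ⟨fun t : St θ => ξ t, c.irr, c.ov⟩ = ⟨χ, hχ, ho⟩ := by
    intro ξ c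
    apply Subtype.ext
    funext g
    refine (he _ g).trans (Eq.trans ?_ (c.ind g).symm)
    congr 1
    refine Finset.sum_congr rfl fun x _ => ?_
    split_ifs with h
    · rfl
    · exact (c.zero _ h).symm
  have h1 := e.injective ((key ξ₁ c₁).trans (key ξ₂ c₂).symm)
  funext g
  by_cases hg : g ∈ St θ
  · exact congrFun (congrArg Subtype.val h1) ⟨g, hg⟩
  · rw [c₁.zero _ hg, c₂.zero _ hg]

/-- some trace is not zero -/
lemma trace_ne (ort : S_ORT) {A W : Type} [Group A] [Fintype A] [AddCommGroup W] [Module ℂ W]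
    [FiniteDimensional ℂ W] {ρ : Representation ℂ A W} (h : ρ.IsIrreducible) (u : W ≃ₗ[ℂ] W) :
    ∃ n : A, LinearMap.trace ℂ W (ρ n ∘ₗ (u : W →ₗ[ℂ] W)) ≠ 0 := by
  have := irr_nontrivial _ h
  have h1 := ort A W ρ h (u : W →ₗ[ℂ] W) (u.symm : W →ₗ[ℂ] W)
  by_contra hne
  push Not at hne
  have h2 : (u : W →ₗ[ℂ] W) ∘ₗ (u.symm : W →ₗ[ℂ] W) = LinearMap.id := by
    ext w
    simp
  have h3 : (Module.finrank ℂ W : ℂ) ≠ 0 := by
    exact_mod_cast (Module.finrank_pos (R := ℂ) (M := W)).ne'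
  rw [h2, LinearMap.trace_id, div_mul_cancel₀ _ h3, Finset.sum_eq_zero] at h1
  · exact (IC.cardG_ne (G := A)) h1.symm
  · intro n _
    have h4 := hne n
    rw [LinearMap.trace_comp_comm'] at h4
    rw [h4, zero_mul]

end cf

section

variable {G : Type} [Group G] [Fintype G] {N : Subgroup G} [N.Normal] {y : G}
  [(KK N y).Normal] {H : Subgroup G} {p : ℕ} [hp : Fact p.Prime] {P : Sylow p G}
  {W W' : Type} [AddCommGroup W] [Module ℂ W] [FiniteDimensional ℂ W]
  [AddCommGroup W'] [Module ℂ W'] [FiniteDimensional ℂ W']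
  {R : Representation ℂ (KK N y) W} {R' : Representation ℂ ((KK N y).comap H.subtype) W'} {ε : ℤ}

/-- the restriction to `N` -/
def rsN {W : Type} [AddCommGroup W] [Module ℂ W] (R : Representation ℂ (KK N y) W) :
    Representation ℂ N W := R.comp (Subgroup.inclusion le_KK)

/-- the restriction to `N ∩ H` -/
def rsM {W' : Type} [AddCommGroup W'] [Module ℂ W']
    (R' : Representation ℂ ((KK N y).comap H.subtype) W') :
    Representation ℂ (N.comap H.subtype) W' :=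
  R'.comp (Subgroup.inclusion (Subgroup.comap_mono le_KK))

omit [Fintype G] [N.Normal] [(KK N y).Normal] [FiniteDimensional ℂ W] in
lemma rsN_char : (rsN R).character = rN R := rfl

omit [Fintype G] [N.Normal] [(KK N y).Normal] [FiniteDimensional ℂ W'] in
lemma rsM_char : (rsM R').character = rM R' := rfl

namespace TD

variable (d : TD p N y H P)

include d

omit [(KK N y).Normal] [FiniteDimensional ℂ W'] in
lemma irrN (q : Parts) (s : SD p N y H R R' ε) : IsIrr (rN R) :=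
  ext1 q.ext le_KK d.idx' ⟨W, _, _, inferInstance, R, s.irr, rfl⟩ s.nv

omit [(KK N y).Normal] [FiniteDimensional ℂ W] in
lemma irrM (q : Parts) (s : SD p N y H R R' ε) : IsIrr (rM R') :=
  ext1 q.ext (Subgroup.comap_mono le_KK) d.idxH ⟨W', _, _, inferInstance, R', s.irr', rfl⟩ s.nv'

omit [(KK N y).Normal] in
lemma sd_rel (q : Parts) (s : SD p N y H R R' ε) :
    Rel p N (KK N y) H le_KK (rN R) (rM R') :=
  ⟨R.character, R'.character, ε, d.irrN q s, d.irrM q s, ⟨W, _, _, inferInstance, R, s.irr, rfl⟩,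
    ⟨W', _, _, inferInstance, R', s.irr', rfl⟩, fun _ => rfl, fun _ => rfl, s.eps, s.val⟩

lemma sd_stab (q : Parts) (s : SD p N y H R R' ε) (h : H) :
    (h : G) ∈ St (rN R) ↔ h ∈ St (rM R') := by
  have h1 := d.sd_rel q s
  have h2 := h1.conj h
  constructor
  · intro h3
    have h4 : (fun n => rN R (MulAut.conjNormal (h : G) n)) = rN R := funext h3
    rw [h4] at h2
    intro n
    exact congrFun (d.rel_unique q.ext q.kc h2 h1) n
  · intro h3
    have h4 : (fun n => rM R' (MulAut.conjNormal h n)) = rM R' := funext h3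
    rw [h4] at h2
    intro n
    exact congrFun (d.rel_unique' q.ext q.kc h2 h1) n

/-- canonical pairs exist -/
lemma exh (q : Parts2) (s : SD p N y H R R' ε) {h : H} (hh : (h : G) ∈ St (rN R)) :
    ∃ (u : W ≃ₗ[ℂ] W) (u' : W' ≃ₗ[ℂ] W'), CH p R R' h u u' := by
  have hi : (rsN R).IsIrreducible := irr_of_char q.hom _ (d.irrN q.toParts s)
  have hi' : (rsM R').IsIrreducible := irr_of_char q.hom _ (d.irrM q.toParts s)
  obtain ⟨u, hu⟩ := q.lft G W N (rsN R) hi h hh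
  obtain ⟨u', hu'⟩ := q.lft H W' (N.comap H.subtype) (rsM R') hi' h
    ((d.sd_stab q.toParts s h).mp hh)
  have hl : LH R R' h u u' := ⟨fun x hx w => hu ⟨x, hx⟩ w, fun x hx w => hu' ⟨x.1, hx⟩ w⟩
  obtain ⟨c, v', -, -, hc⟩ := CP.exist (d.toAD q.ext s) q.hom (d.au h) hl
    (fun l l₂ => d.tors q.hom q.ext q.kc q.rp q.trp q.kh q.nor s hl l l₂)
  exact ⟨u, v', hc⟩

/-- the second character is determined by the first for fixed representations -/
lemma gd_right (q : Parts2) {χ : G → ℂ} {ψ₁ ψ₂ : H → ℂ} {ξ₁ ξ₂ : G → ℂ} {ξ₁' ξ₂' : H → ℂ}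
    (g₁ : GD p N y H R R' ε χ ψ₁ ξ₁ ξ₁') (g₂ : GD p N y H R R' ε χ ψ₂ ξ₂ ξ₂') : ψ₁ = ψ₂ := by
  have hN := d.irrN q.toParts g₁.sd
  have hM := d.irrM q.toParts g₁.sd
  have h1 : ξ₁ = ξ₂ := Cf.unique q.cl hN g₁.irr g₁.ov g₁.cf g₂.cf
  subst h1
  have hi : (rsN R).IsIrreducible := irr_of_char q.hom _ hN
  have h2 : ξ₁' = ξ₂' := by
    funext h
    by_cases hh : h ∈ St (rM R')
    · obtain ⟨u, u', hc⟩ := d.exh q g₁.sd ((d.sd_stab q.toParts g₁.sd h).mpr hh)
      obtain ⟨s₁, h3, h4⟩ := g₁.cc h u u' hc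
      obtain ⟨s₂, h5, h6⟩ := g₂.cc h u u' hc
      obtain ⟨n, hn⟩ := trace_ne q.ort hi u
      have h7 : s₁ = s₂ := by
        have h8 := (h3 n).symm.trans (h5 n)
        exact mul_right_cancel₀ hn h8
      have e0 : ((1 : N.comap H.subtype) : H) * h = h := one_mul h
      rw [← e0, h4 1, h6 1, h7]
    · rw [g₁.cf'.zero _ hh, g₂.cf'.zero _ hh]
  subst h2
  funext x
  rw [g₁.cf'.ind, g₂.cf'.ind]

/-- the first character is determined by the second for fixed representations -/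
lemma gd_left (q : Parts2) {χ₁ χ₂ : G → ℂ} {ψ : H → ℂ} {ξ₁ ξ₂ : G → ℂ} {ξ₁' ξ₂' : H → ℂ}
    (g₁ : GD p N y H R R' ε χ₁ ψ ξ₁ ξ₁') (g₂ : GD p N y H R R' ε χ₂ ψ ξ₂ ξ₂') : χ₁ = χ₂ := by
  have hN := d.irrN q.toParts g₁.sd
  have hM := d.irrM q.toParts g₁.sd
  have h1 : ξ₁' = ξ₂' := Cf.unique q.cl hM g₁.irr' g₁.ov' g₁.cf' g₂.cf'
  subst h1
  have hi : (rsM R').IsIrreducible := irr_of_char q.hom _ hM
  have h2 : ξ₁ = ξ₂ := by
    funext x
    by_cases hx : x ∈ St (rN R)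
    · obtain ⟨n₀, hn₀, h, hh, rfl⟩ := d.hNH x
      have hst : h ∈ St (rN R) := by
        have h3 : N ≤ St (rN R) := by
          intro n hn m
          rw [← hN.conj m ⟨n, hn⟩]
          congr 1
        have h4 := (St (rN R)).mul_mem ((St (rN R)).inv_mem (h3 hn₀)) hx
        rwa [inv_mul_cancel_left] at h4
      obtain ⟨u, u', hc⟩ := d.exh q g₁.sd (h := ⟨h, hh⟩) hst
      obtain ⟨s₁, h3, h4⟩ := g₁.cc _ u u' hc
      obtain ⟨s₂, h5, h6⟩ := g₂.cc _ u u' hc
      obtain ⟨m, hm⟩ := trace_ne q.ort hi u'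
      have h7 : s₁ = s₂ := by
        have h8 := (h4 m).symm.trans (h6 m)
        exact mul_right_cancel₀ hm h8
      have h8 := h3 ⟨n₀, hn₀⟩
      have h9 := h5 ⟨n₀, hn₀⟩
      exact h8.trans (by rw [h7]; exact h9.symm)
    · rw [g₁.cf.zero _ hx, g₂.cf.zero _ hx]
  subst h2
  funext x
  rw [g₁.cf.ind, g₂.cf.ind]

omit hp [(KK N y).Normal] in
lemma al_conj (h : H) : Al N y H (MulAut.conj (h : G)) := by
  refine ⟨fun g => ?_, fun g => ?_, ?_⟩
  · rw [MulAut.conj_apply]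
    constructor
    · intro h1
      have h2 := (inferInstance : N.Normal).conj_mem _ h1 (h : G)⁻¹
      have e1 : (h : G)⁻¹ * (h * g * (h : G)⁻¹) * (h : G)⁻¹⁻¹ = g := by group
      rwa [e1] at h2
    · intro h1
      exact (inferInstance : N.Normal).conj_mem _ h1 _
  · rw [MulAut.conj_apply]
    constructor
    · intro h1
      have h2 := H.mul_mem (H.mul_mem (H.inv_mem h.2) h1) h.2
      have e1 : (h : G)⁻¹ * (h * g * (h : G)⁻¹) * h = g := by group
      rwa [e1] at h2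
    · intro h1
      exact H.mul_mem (H.mul_mem h.2 h1) (H.inv_mem h.2)
  · rw [MulAut.conj_apply]
    have h1 := (inferInstance : N.Normal).conj_mem _ (d.hcen h) y⁻¹
    have e1 : y⁻¹ * (h * y * (h : G)⁻¹ * y⁻¹) * y⁻¹⁻¹ = y⁻¹ * (h * y * (h : G)⁻¹) := by group
    rwa [e1] at h1

end TD

end

end Pool.Agent.Q17.TC
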