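import Pool.Agent.Q17.TC.C8

/-!
# The canonical relation: uniqueness and equivariance
-/

set_option autoImplicit false

open scoped BigOperators Classical
open Pool.Agent.Helper884 Representation Pool.Agent.H254R3.IN Pool.Agent.Y62

noncomputable section

namespace Pool.Agent.Q17.TC

section

variable {G : Type} [Group G] [Fintype G] {N : Subgroup G} [N.Normal] {y : G}
  [(KK N y).Normal] {H : Subgroup G} {p : ℕ} [hp : Fact p.Prime] {P : Sylow p G}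
  {W W' W₂ W₂' : Type} [AddCommGroup W] [Module ℂ W] [FiniteDimensional ℂ W]
  [AddCommGroup W'] [Module ℂ W'] [FiniteDimensional ℂ W']
  [AddCommGroup W₂] [Module ℂ W₂] [FiniteDimensional ℂ W₂]
  [AddCommGroup W₂'] [Module ℂ W₂'] [FiniteDimensional ℂ W₂']
  {R : Representation ℂ (KK N y) W} {R' : Representation ℂ ((KK N y).comap H.subtype) W'}
  {R₂ : Representation ℂ (KK N y) W₂} {R₂' : Representation ℂ ((KK N y).comap H.subtype) W₂'}
  {ε ε₂ : ℤ}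

lemma sem_refl (W : Type) [AddCommGroup W] [Module ℂ W] :
    Sem (RingEquiv.refl ℂ) (AddEquiv.refl W) := fun _ _ => rfl

lemma sem_lin {W W₂ : Type} [AddCommGroup W] [Module ℂ W] [AddCommGroup W₂] [Module ℂ W₂]
    (e : W ≃ₗ[ℂ] W₂) : Sem (RingEquiv.refl ℂ) e.toAddEquiv := fun c w => e.map_smul c w

namespace TD

variable (d : TD p N y H P)

include d

omit [(KK N y).Normal] in
/-- the representations for two conjugate characters -/
lemma align (q : Parts2) (s : SD p N y H R R' ε) (s₂ : SD p N y H R₂ R₂' ε₂) (h : H)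
    (hh : ∀ n : N, rN R₂ n = rN R (MulAut.conjNormal (h : G) n)) : ε = ε₂ ∧
    ∃ (e : W ≃ₗ[ℂ] W₂) (e' : W' ≃ₗ[ℂ] W₂') (m : KK N y →* ℂˣ),
      (∀ x : KK N y, (x : G) ∈ N → m x = 1) ∧
      (∀ x w, e (R ((d.al_conj h).rK x) w) = ((m x : ℂˣ) : ℂ) • R₂ x (e w)) ∧
      ∀ x w, e' (R' ((d.al_conj h).rKH x) w) =
        ((m (ci H.subtype (KK N y) x) : ℂˣ) : ℂ) • R₂' x (e' w) := by
  set al := d.al_conj h with hal
  have i1 : IsIrr R.character := ⟨W, _, _, inferInstance, R, s.irr, rfl⟩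
  have i2 : IsIrr R₂.character := ⟨W₂, _, _, inferInstance, R₂, s₂.irr, rfl⟩
  have i3 : IsIrr (fun n : N => R.character (al.rK ⟨n, le_KK n.2⟩)) := by
    have h1 : (fun n : N => R.character (al.rK ⟨n, le_KK n.2⟩)) = rN R₂ := by
      funext n
      rw [hh]
      rfl
    rw [h1]
    exact d.irrN q.toParts s₂
  obtain ⟨l, hl, hl'⟩ := ext4 q.ext le_KK d.idx' (irr_comp i1 al.rK) i2 i3 (fun n => (hh n).symm)
  -- the first isomorphism
  let S : Representation ℂ (KK N y) W := twr l (R.comp al.rK.toMonoidHom)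
  have hS : S.character = R₂.character := by
    funext k
    rw [hl' k]
    exact twr_char l _ k
  have hSi : S.IsIrreducible := by
    apply irr_of_char q.hom
    rw [hS]
    exact i2
  obtain ⟨e, he⟩ := iso_of_char hSi s₂.irr hS
  have he1 : ∀ x w, e (R (al.rK x) w) = ((l⁻¹ x : ℂˣ) : ℂ) • R₂ x (e w) := by
    intro x w
    rw [← he]
    change e (R (al.rK x) w) = _ • e (((l x : ℂˣ) : ℂ) • R (al.rK x) w)
    rw [map_smul, smul_smul, MonoidHom.inv_apply, Units.val_inv_eq_inv_val,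
      inv_mul_cancel₀ (Units.ne_zero _), one_smul]
  -- the second isomorphism
  let S' : Representation ℂ ((KK N y).comap H.subtype) W' :=
    twr (l.comp (ci H.subtype (KK N y))) (R'.comp al.rKH.toMonoidHom)
  have he2 : ∀ x w, AddEquiv.refl W' (R' (al.rKH x) w) =
      ((l⁻¹ (ci H.subtype (KK N y) x) : ℂˣ) : ℂ) • S' x (AddEquiv.refl W' w) := by
    intro x w
    change R' (al.rKH x) w = _ • (((l (ci H.subtype (KK N y) x) : ℂˣ) : ℂ) • R' (al.rKH x) w)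
    rw [smul_smul, MonoidHom.inv_apply, Units.val_inv_eq_inv_val,
      inv_mul_cancel₀ (Units.ne_zero _), one_smul]
  have s₃ : SD p N y H R₂ S' ε := SD.transport q.hom al (sem_lin e) (sem_refl W') he1 he2 s
  obtain ⟨h3, h4⟩ := d.sd_unique q.kc s₃ s₂
  obtain ⟨e', he'⟩ := iso_of_char s₃.irr' s₂.irr' h3
  refine ⟨h4, e, e', l⁻¹, fun x hx => ?_, he1, fun x w => ?_⟩
  · rw [MonoidHom.inv_apply, hl x hx, inv_one]
  · rw [← he']
    change e' (R' (al.rKH x) w) = _ • e' (((l (ci H.subtype (KK N y) x) : ℂˣ) : ℂ) •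
      R' (al.rKH x) w)
    rw [map_smul, smul_smul, MonoidHom.inv_apply, Units.val_inv_eq_inv_val,
      inv_mul_cancel₀ (Units.ne_zero _), one_smul]

/-- the relation for other representations -/
lemma gd_align (q : Parts2) {χ : G → ℂ} {ψ : H → ℂ} {ξ : G → ℂ} {ξ' : H → ℂ}
    (g : GD p N y H R R' ε χ ψ ξ ξ') (s₂ : SD p N y H R₂ R₂' ε₂) (h : H)
    (hh : ∀ n : N, rN R₂ n = rN R (MulAut.conjNormal (h : G) n)) : ε = ε₂ ∧
    ∃ (ξ₂ : G → ℂ) (ξ₂' : H → ℂ), GD p N y H R₂ R₂' ε χ ψ ξ₂ ξ₂' := by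
  obtain ⟨h1, e, e', m, hm, he, he'⟩ := d.align q g.sd s₂ h hh
  have h2 := g.transport q.hom q.trp (d.toAD q.ext g.sd).card_Ln.1 (d.al_conj h) (sem_lin e)
    (sem_lin e') hm he he'
  have h3 : (fun x => (RingEquiv.refl ℂ) (χ (MulAut.conj (h : G) x))) = χ := by
    funext x
    exact g.irr.conj x h
  have h4 : (fun x => (RingEquiv.refl ℂ) (ψ ((d.al_conj h).rH x))) = ψ := by
    funext x
    exact g.irr'.conj x h
  rw [h3, h4] at h2
  exact ⟨h1, _, _, h2⟩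

/-- the relation is a function -/
theorem gr_right (q : Parts2) {χ : G → ℂ} {ψ₁ ψ₂ : H → ℂ} (g₁ : GR p N y H χ ψ₁ ε)
    (g₂ : GR p N y H χ ψ₂ ε₂) : ψ₁ = ψ₂ ∧ ε = ε₂ := by
  obtain ⟨W, _, _, _, W', _, _, _, R, R', ξ, ξ', g₁⟩ := g₁
  obtain ⟨W₂, _, _, _, W₂', _, _, _, R₂, R₂', ξ₂, ξ₂', g₂⟩ := g₂
  have hN := d.irrN q.toParts g₁.sd
  obtain ⟨x, hx⟩ := clif_conj q.hom q.lft q.sq q.cl hN (d.irrN q.toParts g₂.sd) g₁.irr g₁.ov g₂.ov
  obtain ⟨n, hn, h, hh, rfl⟩ := d.hNH x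
  rw [conj_mul hN hn] at hx
  obtain ⟨h1, ξ₃, ξ₃', g₃⟩ := d.gd_align q g₁ g₂.sd ⟨h, hh⟩ (fun m => congrFun hx m)
  subst h1
  exact ⟨d.gd_right q g₃ g₂, rfl⟩

/-- the relation is injective -/
theorem gr_left (q : Parts2) {χ₁ χ₂ : G → ℂ} {ψ : H → ℂ} (g₁ : GR p N y H χ₁ ψ ε)
    (g₂ : GR p N y H χ₂ ψ ε₂) : χ₁ = χ₂ ∧ ε = ε₂ := by
  obtain ⟨W, _, _, _, W', _, _, _, R, R', ξ, ξ', g₁⟩ := g₁
  obtain ⟨W₂, _, _, _, W₂', _, _, _, R₂, R₂', ξ₂, ξ₂', g₂⟩ := g₂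
  have hM := d.irrM q.toParts g₁.sd
  obtain ⟨h, hh⟩ := clif_conj q.hom q.lft q.sq q.cl hM (d.irrM q.toParts g₂.sd) g₁.irr' g₁.ov'
    g₂.ov'
  have h2 := (d.sd_rel q.toParts g₁.sd).conj h
  rw [← hh] at h2
  have h3 := d.rel_unique' q.ext q.kc (d.sd_rel q.toParts g₂.sd) h2
  obtain ⟨h1, ξ₃, ξ₃', g₃⟩ := d.gd_align q g₁ g₂.sd h (fun m => congrFun h3 m)
  subst h1
  exact ⟨d.gd_left q g₃ g₂, rfl⟩

/-- the relation is equivariant -/
theorem gr_equiv (q : Parts2) {α : G ≃* G} (al : Al N y H α) (σ : ℂ ≃+* ℂ) {χ : G → ℂ}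
    {ψ : H → ℂ} (g : GR p N y H χ ψ ε) :
    GR p N y H (fun x => σ (χ (α x))) (fun x => σ (ψ (al.rH x))) ε := by
  obtain ⟨W, _, _, _, W', _, _, _, R, R', ξ, ξ', g⟩ := g
  refine ⟨Tw σ W, inferInstance, inferInstance, inferInstance, Tw σ W', inferInstance,
    inferInstance, inferInstance, twR σ (R.comp al.rK.toMonoidHom),
    twR σ (R'.comp al.rKH.toMonoidHom), _, _,
    g.transport (m := 1) q.hom q.trp (d.toAD q.ext g.sd).card_Ln.1 al (tw_sem σ W) (tw_sem σ W')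
      (fun _ _ => rfl) (fun x w => ?_) (fun x w => ?_)⟩
  · rw [MonoidHom.one_apply, Units.val_one, one_smul, twR_apply]
    rfl
  · rw [MonoidHom.one_apply, Units.val_one, one_smul, twR_apply]
    rfl

end TD

end

end Pool.Agent.Q17.TC
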