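import Pool.Agent.Q17.TC.GDX

/-!
# The congruence on the centraliser of `y`
-/

set_option autoImplicit false

open scoped BigOperators Classical
open Pool.Agent.Helper884 Representation Pool.Agent.H254R3.IN Pool.Agent.Y62 Pool.Agent.Q21.CO

noncomputable section

namespace Pool.Agent.Q17.TC

section nu

variable {O : ValuationSubring ℂ}

lemma nu_iff {x : ℂ} : x ∈ O.nonunits ↔ x ∈ O ∧ red O x = 0 := by
  constructor
  · intro h
    have h1 : x ∈ O := O.nonunits_subset h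
    refine ⟨h1, ?_⟩
    have h2 := (red_eq_iff (O := O) h1 O.zero_mem).mpr (by rwa [sub_zero])
    rw [h2, red_zero]
  · rintro ⟨h1, h2⟩
    have h3 := (red_eq_iff (O := O) h1 O.zero_mem).mp (by rw [h2, red_zero])
    rwa [sub_zero] at h3

lemma nu_add {x y : ℂ} (hx : x ∈ O.nonunits) (hy : y ∈ O.nonunits) : x + y ∈ O.nonunits := by
  rw [nu_iff] at hx hy ⊢
  exact ⟨O.add_mem _ _ hx.1 hy.1, by rw [red_add hx.1 hy.1, hx.2, hy.2, add_zero]⟩

lemma nu_mul {x y : ℂ} (hx : x ∈ O) (hy : y ∈ O.nonunits) : x * y ∈ O.nonunits := by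
  rw [nu_iff] at hy ⊢
  exact ⟨O.mul_mem _ _ hx hy.1, by rw [red_mul hx hy.1, hy.2, mul_zero]⟩

lemma nu_sum {ι : Type*} (s : Finset ι) (f : ι → ℂ) (h : ∀ i ∈ s, f i ∈ O.nonunits) :
    ∑ i ∈ s, f i ∈ O.nonunits := by
  rw [nu_iff]
  have h1 : ∀ i ∈ s, f i ∈ O := fun i hi => (nu_iff.mp (h i hi)).1
  exact ⟨sum_mem' s f h1, by
    rw [red_sum s f h1, Finset.sum_eq_zero fun i hi => (nu_iff.mp (h i hi)).2]⟩

end nu

/-- sums over cosets -/
lemma sum_cosets {G : Type} [Group G] [Fintype G] (T : Subgroup G) (F : G ⧸ T → ℂ) :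
    ∑ x : G, F (QuotientGroup.mk x) = (Nat.card T : ℂ) * ∑ q : G ⧸ T, F q := by
  rw [← Finset.sum_fiberwise Finset.univ (fun x : G => (QuotientGroup.mk x : G ⧸ T)),
    Finset.mul_sum]
  refine Finset.sum_congr rfl fun q _ => ?_
  obtain ⟨g, rfl⟩ := QuotientGroup.mk_surjective q
  rw [Finset.sum_congr rfl (g := fun _ => F (QuotientGroup.mk g)) (fun x hx => by
    rw [(Finset.mem_filter.mp hx).2]), Finset.sum_const, nsmul_eq_mul]
  congr 1
  have h1 : (Finset.univ.filter (fun x : G => (QuotientGroup.mk x : G ⧸ T) =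
      QuotientGroup.mk g)).card = Nat.card T := by
    rw [Nat.card_eq_fintype_card, ← Finset.card_univ]
    symm
    refine Finset.card_bij (fun (t : T) _ => g * t) ?_ ?_ ?_
    · intro t _
      rw [Finset.mem_filter]
      refine ⟨Finset.mem_univ _, ?_⟩
      rw [eq_comm, QuotientGroup.eq, inv_mul_cancel_left]
      exact t.2
    · intro a _ b _ hab
      exact Subtype.ext (mul_left_cancel hab)
    · intro x hx
      have h2 := (Finset.mem_filter.mp hx).2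
      rw [eq_comm, QuotientGroup.eq] at h2
      exact ⟨⟨_, h2⟩, Finset.mem_univ _, by simp⟩
  exact_mod_cast h1

/-- the decomposition into the `p`-part and the `p`-regular part -/
lemma p_parts {G : Type} [Group G] [Finite G] (p : ℕ) [hp : Fact p.Prime] (g : G) :
    ∃ (a b : G) (k : ℕ), g = a * b ∧ Commute a b ∧ orderOf a = p ^ k ∧ ¬ p ∣ orderOf b ∧
      a ∈ Subgroup.zpowers g ∧ b ∈ Subgroup.zpowers g := by
  obtain ⟨n, m, hm, hnm⟩ := Nat.exists_eq_pow_mul_and_not_dvd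
    (n := orderOf g) (orderOf_pos g).ne' p hp.out.ne_one
  have hcop : IsCoprime ((p ^ n : ℕ) : ℤ) (m : ℤ) :=
    Nat.isCoprime_iff_coprime.mpr
      (Nat.Coprime.pow_left n ((Nat.Prime.coprime_iff_not_dvd hp.out).mpr hm))
  obtain ⟨u, v, huv⟩ := hcop
  have hg : g ^ ((p ^ n : ℕ) * (m : ℕ) : ℤ) = 1 := by
    have h1 : ((p ^ n : ℕ) * (m : ℕ) : ℤ) = ((p ^ n * m : ℕ) : ℤ) := by push_cast; ring
    rw [h1, zpow_natCast, ← hnm, pow_orderOf_eq_one]
  have ha : orderOf (g ^ (v * m)) ∣ p ^ n := by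
    apply orderOf_dvd_of_pow_eq_one
    rw [← zpow_natCast, ← zpow_mul]
    have h1 : v * m * ((p ^ n : ℕ) : ℤ) = ((p ^ n : ℕ) * (m : ℕ) : ℤ) * v := by ring
    rw [h1, zpow_mul, hg, one_zpow]
  have hb : orderOf (g ^ (u * (p ^ n : ℕ))) ∣ m := by
    apply orderOf_dvd_of_pow_eq_one
    rw [← zpow_natCast, ← zpow_mul]
    have h1 : u * ((p ^ n : ℕ) : ℤ) * (m : ℤ) = ((p ^ n : ℕ) * (m : ℕ) : ℤ) * u := by ring
    rw [h1, zpow_mul, hg, one_zpow]
  obtain ⟨k, -, hk⟩ := (Nat.dvd_prime_pow hp.out).mp ha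
  refine ⟨g ^ (v * m), g ^ (u * (p ^ n : ℕ)), k, ?_, ?_, hk, fun h => hm (h.trans hb),
    Subgroup.zpow_mem _ (Subgroup.mem_zpowers g) _, Subgroup.zpow_mem _ (Subgroup.mem_zpowers g) _⟩
  · rw [← zpow_add, add_comm, huv, zpow_one]
  · exact (Commute.refl g).zpow_zpow _ _

section

variable {G : Type} [Group G] [Fintype G] {N : Subgroup G} [N.Normal] {y : G}
  [(KK N y).Normal] {H : Subgroup G} {p : ℕ} [hp : Fact p.Prime] {P : Sylow p G}
  {W W' : Type} [AddCommGroup W] [Module ℂ W] [FiniteDimensional ℂ W]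
  [AddCommGroup W'] [Module ℂ W'] [FiniteDimensional ℂ W']
  {R : Representation ℂ (KK N y) W} {R' : Representation ℂ ((KK N y).comap H.subtype) W'} {ε : ℤ}

namespace TD

variable (d : TD p N y H P)

include d

/-- the congruence for the Clifford correspondents -/
lemma cong_xi (q : Parts2) (cm : S_CM) (int : S_INT) {O : ValuationSubring ℂ}
    (hpO : (p : ℂ) ∈ O.nonunits) {χ : G → ℂ} {ψ : H → ℂ} {ξ : G → ℂ} {ξ' : H → ℂ}
    (g : GD p N y H R R' ε χ ψ ξ ξ') {h : H} (hT : (h : G) ∈ St (rN R))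
    (hreg : ¬ p ∣ orderOf h) {z : H} (hz : (z : G) ∈ KK N y) (hzN : (z : G) ∉ N) {k : ℕ}
    (hk : z ^ p ^ k = 1) (hc : Commute z h) : ξ h - ε * ξ' h ∈ O.nonunits := by
  have iN := d.irrN q.toParts g.sd
  have hi : (rsN R).IsIrreducible := irr_of_char q.hom _ iN
  obtain ⟨u, hu⟩ := q.lft G W N (rsN R) hi h hT
  obtain ⟨v, v', -, hcp, -, hv, hv', hex, hex', htr⟩ := d.preg q.hom q.ext q.kc q.rp q.trp q.kh
    q.nor g.sd hreg (u := u) (fun x hx w => hu ⟨x, hx⟩ w)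
  obtain ⟨s, h1, h2⟩ := g.cc h v v' hcp
  -- values at `h`
  have h3 : ξ h = s * LinearMap.trace ℂ W (v : W →ₗ[ℂ] W) := by
    have h4 := h1 1
    have e1 : ((1 : N) : G) * (h : G) = h := one_mul _
    have e2 : R ⟨((1 : N) : G), le_KK (1 : N).2⟩ = 1 := map_one R
    rw [e1, e2] at h4
    exact h4
  have h4 : ξ' h = s * LinearMap.trace ℂ W' (v' : W' →ₗ[ℂ] W') := by
    have h4 := h2 1
    have e1 : ((1 : N.comap H.subtype) : H) * h = h := one_mul _
    have e2 : R' ⟨((1 : N.comap H.subtype) : H), le_KK (1 : N.comap H.subtype).2⟩ = 1 :=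
      map_one R'
    rw [e1, e2] at h4
    exact h4
  -- the scalar
  have hNT : N ≤ St (rN R) := by
    intro n hn m
    rw [← iN.conj m ⟨n, hn⟩]
    congr 1
  have hs : s ∈ O := by
    apply mem_of_isIntegral
    let ρ : Representation ℂ (N.comap (St (rN R)).subtype) W :=
      (rsN R).comp (eT hNT).toMonoidHom
    have hρ : ρ.IsIrreducible := irr_of_char q.hom _ (irr_comp iN (eT hNT))
    refine int (St (rN R)) W (N.comap (St (rN R)).subtype) ρ hρ (fun t => ξ t) g.cf.irr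
      ⟨h, hT⟩ v ?_ (orderOf h) (orderOf_pos h) ?_ hv s ?_
    · intro n w
      exact hex ⟨n.1.1, le_KK n.2⟩ w
    · apply Subtype.ext
      change (h : G) ^ orderOf h = 1
      exact congrArg Subtype.val (pow_orderOf_eq_one h)
    · intro m
      exact h1 ⟨m.1.1, m.2⟩
  -- the congruences of the traces
  have h5 := htr z hz hzN
  have hzh : (h : G) * z * (h : G)⁻¹ = z := by
    have := congrArg Subtype.val hc.eq
    rw [mul_inv_eq_iff_eq_mul]
    exact this.symm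
  have c1 := cm p O hp.out hpO W (R ⟨z, hz⟩) (v : W →ₗ[ℂ] W) (by
    change R ⟨z, hz⟩ ∘ₗ (v : W →ₗ[ℂ] W) = (v : W →ₗ[ℂ] W) ∘ₗ R ⟨z, hz⟩
    ext w
    rw [LinearMap.comp_apply, LinearMap.comp_apply, LinearEquiv.coe_coe, hex]
    congr 2
    exact Subtype.ext hzh.symm) k (orderOf h) (orderOf_pos h) (by
    rw [← map_pow]
    have e1 : (⟨(z : G), hz⟩ : KK N y) ^ p ^ k = 1 := by
      apply Subtype.ext
      change (z : G) ^ p ^ k = 1
      exact congrArg Subtype.val hk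
    rw [e1, map_one]) hv
  have c2 := cm p O hp.out hpO W' (R' ⟨z, hz⟩) (v' : W' →ₗ[ℂ] W') (by
    change R' ⟨z, hz⟩ ∘ₗ (v' : W' →ₗ[ℂ] W') = (v' : W' →ₗ[ℂ] W') ∘ₗ R' ⟨z, hz⟩
    ext w
    rw [LinearMap.comp_apply, LinearMap.comp_apply, LinearEquiv.coe_coe, hex']
    congr 2
    apply Subtype.ext
    apply Subtype.ext
    exact hzh.symm) k (orderOf h) (orderOf_pos h) (by
    rw [← map_pow]
    have e1 : (⟨z, hz⟩ : (KK N y).comap H.subtype) ^ p ^ k = 1 := by
      apply Subtype.ext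
      exact hk
    rw [e1, map_one]) hv'
  have h6 : ξ h - ε * ξ' h = s * (-1 * (LinearMap.trace ℂ W (R ⟨z, hz⟩ * (v : W →ₗ[ℂ] W)) -
      LinearMap.trace ℂ W (v : W →ₗ[ℂ] W)) + ε * (LinearMap.trace ℂ W' (R' ⟨z, hz⟩ *
      (v' : W' →ₗ[ℂ] W')) - LinearMap.trace ℂ W' (v' : W' →ₗ[ℂ] W'))) := by
    have h7 : LinearMap.trace ℂ W (R ⟨z, hz⟩ * (v : W →ₗ[ℂ] W)) =
        ε * LinearMap.trace ℂ W' (R' ⟨z, hz⟩ * (v' : W' →ₗ[ℂ] W')) := h5
    rw [h3, h4, h7]
    ring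
  rw [h6]
  exact nu_mul hs (nu_add (nu_mul (O.neg_mem _ O.one_mem) c1.1) (nu_mul (intCast_mem' ε) c2.1))

/-- the congruence on the centraliser of `y` -/
theorem cong (q : Parts2) (cm : S_CM) (int : S_INT) {O : ValuationSubring ℂ}
    (hpO : (p : ℂ) ∈ O.nonunits) {χ : G → ℂ} {ψ : H → ℂ} (g : GR p N y H χ ψ ε) {z : G}
    (hz : z ∈ H) (hyz : Commute y z) : χ z - ε * ψ ⟨z, hz⟩ ∈ O.nonunits := by
  obtain ⟨W, _, _, _, W', _, _, _, R, R', ξ, ξ', g⟩ := g
  have hst := d.sd_stab q.toParts g.sd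
  have iN := d.irrN q.toParts g.sd
  set T := St (rN R) with hT
  have hNT : N ≤ T := by
    intro n hn m
    rw [← iN.conj m ⟨n, hn⟩]
    congr 1
  have hTH : T.comap H.subtype = St (rM R') := by
    ext h
    exact hst h
  have hyk : ∃ k, y ^ p ^ k = 1 := by
    obtain ⟨k, hk⟩ := P.isPGroup' ⟨y, d.hyP⟩
    exact ⟨k, congrArg Subtype.val hk⟩
  obtain ⟨k₀, hk₀⟩ := hyk
  have hyH := d.hyH
  -- class functions
  have hξ : ∀ x t : G, t ∈ T → ξ (t⁻¹ * x * t) = ξ x := by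
    intro x t ht
    by_cases hx : x ∈ T
    · have h1 := g.cf.irr.conj ⟨x, hx⟩ (⟨t, ht⟩⁻¹)
      rw [inv_inv] at h1
      exact h1
    · rw [g.cf.zero _ hx, g.cf.zero]
      intro h
      apply hx
      have h2 := T.mul_mem (T.mul_mem ht h) (T.inv_mem ht)
      have e1 : t * (t⁻¹ * x * t) * t⁻¹ = x := by group
      rwa [e1] at h2
  have hξ' : ∀ x t : H, t ∈ St (rM R') → ξ' (t⁻¹ * x * t) = ξ' x := by
    intro x t ht
    by_cases hx : x ∈ St (rM R')
    · have h1 := g.cf'.irr.conj ⟨x, hx⟩ (⟨t, ht⟩⁻¹)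
      rw [inv_inv] at h1
      exact h1
    · rw [g.cf'.zero _ hx, g.cf'.zero]
      intro h
      apply hx
      have h2 := (St (rM R')).mul_mem ((St (rM R')).mul_mem ht h) ((St (rM R')).inv_mem ht)
      have e1 : t * (t⁻¹ * x * t) * t⁻¹ = x := by group
      rwa [e1] at h2
  -- `p`-regular elements
  have key : ∀ w : H, Commute y (w : G) → ¬ p ∣ orderOf w → χ w - ε * ψ w ∈ O.nonunits := by
    intro w hyw hreg
    let F : G ⧸ T → ℂ := fun c => Quotient.liftOn' c (fun x => ξ (x⁻¹ * w * x)) (by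
      intro a b hab
      rw [QuotientGroup.leftRel_apply] at hab
      have h1 := hξ (a⁻¹ * w * a) (a⁻¹ * b) hab
      rw [← h1]
      congr 1
      group)
    let F' : H ⧸ St (rM R') → ℂ := fun c => Quotient.liftOn' c (fun x => ξ' (x⁻¹ * w * x)) (by
      intro a b hab
      rw [QuotientGroup.leftRel_apply] at hab
      have h1 := hξ' (a⁻¹ * w * a) (a⁻¹ * b) hab
      rw [← h1]
      congr 1
      group)
    have hχ : χ w = ∑ c : G ⧸ T, F c := by
      rw [g.cf.ind]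
      have h1 := sum_cosets T F
      have h2 : ∑ x : G, F (QuotientGroup.mk x) = ∑ x : G, ξ (x⁻¹ * w * x) := rfl
      rw [h2] at h1
      rw [h1, inv_mul_cancel_left₀ (IC.cardG_ne (G := T))]
    have hψ : ψ w = ∑ c : H ⧸ St (rM R'), F' c := by
      rw [g.cf'.ind]
      have h1 := sum_cosets (St (rM R')) F'
      have h2 : ∑ x : H, F' (QuotientGroup.mk x) = ∑ x : H, ξ' (x⁻¹ * w * x) := rfl
      rw [h2] at h1
      rw [h1, inv_mul_cancel_left₀ (IC.cardG_ne (G := St (rM R')))]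
    -- the cosets
    let ι : H ⧸ St (rM R') → G ⧸ T := fun c => Quotient.liftOn' c
      (fun x => (QuotientGroup.mk (x : G) : G ⧸ T)) (by
      intro a b hab
      rw [QuotientGroup.leftRel_apply] at hab
      rw [QuotientGroup.eq]
      exact (hst (a⁻¹ * b)).mpr hab)
    have hι : Function.Bijective ι := by
      constructor
      · intro a b hab
        obtain ⟨a, rfl⟩ := QuotientGroup.mk_surjective a
        obtain ⟨b, rfl⟩ := QuotientGroup.mk_surjective b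
        have h1 : (QuotientGroup.mk (a : G) : G ⧸ T) = QuotientGroup.mk (b : G) := hab
        rw [QuotientGroup.eq] at h1 ⊢
        exact (hst (a⁻¹ * b)).mp h1
      · intro c
        obtain ⟨x, rfl⟩ := QuotientGroup.mk_surjective c
        obtain ⟨n, hn, h, hh, rfl⟩ := d.hNH x
        refine ⟨QuotientGroup.mk ⟨h, hh⟩, ?_⟩
        change (QuotientGroup.mk h : G ⧸ T) = QuotientGroup.mk (n * h)
        rw [QuotientGroup.eq, ← mul_assoc]
        have h1 := hNT ((inferInstance : N.Normal).conj_mem _ hn h⁻¹)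
        rwa [inv_inv] at h1
    have h1 : ∑ c : G ⧸ T, F c = ∑ c : H ⧸ St (rM R'), F (ι c) :=
      (Fintype.sum_bijective ι hι _ _ (fun _ => rfl)).symm
    rw [hχ, hψ, h1, Finset.mul_sum, ← Finset.sum_sub_distrib]
    refine nu_sum _ _ fun c _ => ?_
    obtain ⟨x, rfl⟩ := QuotientGroup.mk_surjective c
    change ξ ((x : G)⁻¹ * w * x) - ε * ξ' (x⁻¹ * w * x) ∈ O.nonunits
    by_cases hx : (x : G)⁻¹ * w * x ∈ T
    · have hyK : ((x⁻¹ * ⟨y, hyH⟩ * x : H) : G) ∈ KK N y := by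
        have := (inferInstance : (KK N y).Normal).conj_mem _ (y_mem (N := N) (y := y)) (x : G)⁻¹
        rwa [inv_inv] at this
      have hyN : ((x⁻¹ * ⟨y, hyH⟩ * x : H) : G) ∉ N := by
        intro h2
        apply d.hyN
        have h3 := (inferInstance : N.Normal).conj_mem _ h2 (x : G)
        have e1 : (x : G) * ((x⁻¹ * ⟨y, hyH⟩ * x : H) : G) * (x : G)⁻¹ = y := by
          change (x : G) * ((x : G)⁻¹ * y * x) * (x : G)⁻¹ = y
          group
        rwa [e1] at h3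
      have hpow : (x⁻¹ * ⟨y, hyH⟩ * x : H) ^ p ^ k₀ = 1 := by
        have e1 : (x⁻¹ * ⟨y, hyH⟩ * x : H) = x⁻¹ * ⟨y, hyH⟩ * x⁻¹⁻¹ := by rw [inv_inv]
        rw [e1, conj_pow]
        have e2 : (⟨y, hyH⟩ : H) ^ p ^ k₀ = 1 := Subtype.ext hk₀
        rw [e2]
        group
      have hcom : Commute (x⁻¹ * ⟨y, hyH⟩ * x : H) (x⁻¹ * w * x) := by
        have h2 : (⟨y, hyH⟩ : H) * w = w * ⟨y, hyH⟩ := Subtype.ext hyw.eq
        change x⁻¹ * ⟨y, hyH⟩ * x * (x⁻¹ * w * x) = x⁻¹ * w * x * (x⁻¹ * ⟨y, hyH⟩ * x)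
        have e1 : x⁻¹ * ⟨y, hyH⟩ * x * (x⁻¹ * w * x) = x⁻¹ * (⟨y, hyH⟩ * w) * x := by group
        have e2 : x⁻¹ * w * x * (x⁻¹ * ⟨y, hyH⟩ * x) = x⁻¹ * (w * ⟨y, hyH⟩) * x := by group
        rw [e1, e2, h2]
      have hord : ¬ p ∣ orderOf (x⁻¹ * w * x) := by
        have h2 : IsConj w (x⁻¹ * w * x) := isConj_iff.mpr ⟨x⁻¹, by rw [inv_inv]⟩
        rw [← orderOf_isConj h2]
        exact hreg
      exact d.cong_xi q cm int hpO g (h := x⁻¹ * w * x) hx hord hyK hyN hpow hcom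
    · have hx' : x⁻¹ * w * x ∉ St (rM R') := fun h2 => hx ((hst _).mpr h2)
      rw [g.cf.zero _ hx, g.cf'.zero _ hx', mul_zero, sub_zero]
      exact nu_iff.mpr ⟨O.zero_mem, red_zero⟩
  -- the general case
  obtain ⟨a, b, k, hab, hcom, ha, hb, haz, hbz⟩ := p_parts p (⟨z, hz⟩ : H)
  have hyb : Commute y (b : G) := by
    obtain ⟨i, rfl⟩ := Subgroup.mem_zpowers_iff.mp hbz
    exact hyz.zpow_right i
  have h1 := key b hyb hb
  have hχO : ∀ x, χ x ∈ O := fun x => g.irr.val_mem O x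
  have hψO : ∀ x, ψ x ∈ O := fun x => g.irr'.val_mem O x
  have h2 := val_red hpO g.irr' ha hcom 1
  rw [pow_one, ← hab] at h2
  have hcomG : Commute (a : G) (b : G) := congrArg Subtype.val hcom.eq
  have haG : orderOf (a : G) = p ^ k := by rw [Subgroup.orderOf_coe, ha]
  have h3 := val_red hpO g.irr haG hcomG 1
  have h4 : (a : G) * b = z := congrArg Subtype.val hab.symm
  rw [pow_one, h4] at h3
  rw [← red_eq_iff (hχO _) (O.mul_mem _ _ (intCast_mem' ε) (hψO _)), red_mul (intCast_mem' ε)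
    (hψO _)] at h1 ⊢
  rw [h3, h2, h1]

end TD

end

end Pool.Agent.Q17.TC
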