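import Pool.Agent.Q17.TC.MT4

/-!
# Definitions for the second stage of project TC: canonical pairs of lifts
-/

set_option autoImplicit false

open scoped BigOperators Classical
open Pool.Agent.Helper884 Representation Pool.Agent.H254R3.IN Pool.Agent.Y62

noncomputable section

namespace Pool.Agent.Q17.TC

section core

variable {A A' : Type} [Group A] [Group A'] {W W' : Type} [AddCommGroup W] [Module ℂ W]
  [AddCommGroup W'] [Module ℂ W']

/-- the intertwiners `v : W' → W`, `R(j x) v = l(x) v R'(x)` for `x ∈ A'` -/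
def Va (j : A' →* A) (R : Representation ℂ A W) (R' : Representation ℂ A' W') (l : A' →* ℂˣ) :
    Submodule ℂ (W' →ₗ[ℂ] W) where
  carrier := {v | ∀ (x : A') (w : W'), R (j x) (v w) = ((l x : ℂˣ) : ℂ) • v (R' x w)}
  add_mem' := by
    intro a b ha hb x w
    rw [LinearMap.add_apply, LinearMap.add_apply, map_add, ha, hb, smul_add]
  zero_mem' := by
    intro x w
    rw [LinearMap.zero_apply, LinearMap.zero_apply, map_zero, smul_zero]
  smul_mem' := by
    intro c a ha x w
    rw [LinearMap.smul_apply, LinearMap.smul_apply, map_smul, ha, smul_comm]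

/-- `(u, u')` is a pair of lifts of the automorphisms `a`, `a'` for the restrictions of `R`, `R'` to
`B` and its preimage -/
structure LP (j : A' →* A) (B : Subgroup A) (R : Representation ℂ A W)
    (R' : Representation ℂ A' W') (a : MulAut A) (a' : MulAut A') (u : W ≃ₗ[ℂ] W)
    (u' : W' ≃ₗ[ℂ] W') : Prop where
  l : ∀ x ∈ B, ∀ w, u (R x w) = R (a x) (u w)
  l' : ∀ x, j x ∈ B → ∀ w, u' (R' x w) = R' (a' x) (u' w)

/-- the quotient of the determinants of `v ↦ u v u'⁻¹` on `Va 1` and `Va l` -/
def qD (j : A' →* A) (R : Representation ℂ A W) (R' : Representation ℂ A' W') (l : A' →* ℂˣ)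
    (u : W ≃ₗ[ℂ] W) (u' : W' ≃ₗ[ℂ] W') : ℂ :=
  dT (Va j R R' 1) u u' / dT (Va j R R' l) u u'

/-- the nontrivial linear characters of `A'` which are trivial on the preimage of `B` -/
def Ln (j : A' →* A) (B : Subgroup A) : Type :=
  {l : A' →* ℂˣ // (∀ x, j x ∈ B → l x = 1) ∧ l ≠ 1}

/-- canonical pairs of lifts -/
structure CP (p : ℕ) (j : A' →* A) (B : Subgroup A) (R : Representation ℂ A W)
    (R' : Representation ℂ A' W') (a : MulAut A) (a' : MulAut A') (u : W ≃ₗ[ℂ] W)
    (u' : W' ≃ₗ[ℂ] W') : Prop where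
  lp : LP j B R R' a a' u u'
  tor : ∀ l : Ln j B, ∃ n : ℕ, qD j R R' l.1 u u' ^ p ^ n = 1
  prd : ∏ᶠ l : Ln j B, qD j R R' l.1 u u' = 1

/-- The data: a normal subgroup `B` of prime index `p` of `A`, a homomorphism `j : A' → A` with
`A = B j(A')`, representations `R`, `R'` whose restrictions to `B` and its preimage are irreducible,
with characters equal up to the sign `ε` outside. -/
structure AD (p : ℕ) (j : A' →* A) (B : Subgroup A) (R : Representation ℂ A W)
    (R' : Representation ℂ A' W') (ε : ℤ) : Prop where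
  hp : p.Prime
  nB : B.Normal
  hidx : B.index = p
  hj : ∀ a : A, ∃ b ∈ B, ∃ x, a = b * j x
  irr : R.IsIrreducible
  irr' : R'.IsIrreducible
  irrB : IsIrr (fun b : B => R.character b)
  irrB' : IsIrr (fun b : B.comap j => R'.character b)
  eps : ε = 1 ∨ (ε = -1 ∧ p ≠ 2)
  val : ∀ x, j x ∉ B → R.character (j x) = ε * R'.character x

/-- compatible automorphisms of `A`, `A'`, acting trivially on `A / B` -/
structure Au (j : A' →* A) (B : Subgroup A) (a : MulAut A) (a' : MulAut A') : Prop where
  com : ∀ x, j (a' x) = a (j x)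
  tr : ∀ x, a x * x⁻¹ ∈ B

end core

/-- the data at the level of the groups: `R`, `R'` are irreducible representations of `K = N⟨y⟩` and
`K ∩ H` whose characters do not vanish outside `N` and are equal up to the sign `ε` outside `N` -/
structure SD {G : Type} [Group G] {W W' : Type} [AddCommGroup W] [Module ℂ W]
    [AddCommGroup W'] [Module ℂ W'] (p : ℕ) (N : Subgroup G) (y : G) (H : Subgroup G)
    (R : Representation ℂ (KK N y) W) (R' : Representation ℂ ((KK N y).comap H.subtype) W')
    (ε : ℤ) : Prop where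
  irr : R.IsIrreducible
  irr' : R'.IsIrreducible
  nv : ∃ k : KK N y, (k : G) ∉ N ∧ R.character k ≠ 0
  nv' : ∃ k : (KK N y).comap H.subtype, ((k : H) : G) ∉ N ∧ R'.character k ≠ 0
  eps : ε = 1 ∨ (ε = -1 ∧ p ≠ 2)
  val : Rl N (KK N y) H ε R.character R'.character

end Pool.Agent.Q17.TC
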