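import Pool.Agent.Q17.TC.C5
import Pool.Agent.Q17.TC.ASM5

/-!
# The canonical relation between the characters of `G` and of `H`
-/

set_option autoImplicit false

open scoped BigOperators Classical
open Pool.Agent.Helper884 Representation Pool.Agent.H254R3.IN Pool.Agent.Y62

noncomputable section

namespace Pool.Agent.Q17.TC

/-- `ξ` is (the extension by zero of) the irreducible character over `θ` of the stabiliser of `θ`
which induces `χ` -/
structure Cf {G : Type} [Group G] [Fintype G] {N : Subgroup G} [N.Normal] (θ : N → ℂ)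
    (χ ξ : G → ℂ) : Prop where
  zero : ∀ g, g ∉ St θ → ξ g = 0
  irr : IsIrr (fun t : St θ => ξ t)
  ov : Ov (N.comap (St θ).subtype) (fun t : St θ => ξ t) (fun n => θ ⟨n, n.2⟩)
  ind : ∀ g, χ g = (Nat.card (St θ) : ℂ)⁻¹ * ∑ x : G, ξ (x⁻¹ * g * x)

/-- the restriction of the character of `R` to `N` -/
def rN {G : Type} [Group G] {W : Type} [AddCommGroup W] [Module ℂ W] {N : Subgroup G} {y : G}
    (R : Representation ℂ (KK N y) W) (n : N) : ℂ := R.character ⟨n, le_KK n.2⟩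

/-- the restriction of the character of `R'` to `N ∩ H` -/
def rM {G : Type} [Group G] {W' : Type} [AddCommGroup W'] [Module ℂ W'] {N : Subgroup G} {y : G}
    {H : Subgroup G} (R' : Representation ℂ ((KK N y).comap H.subtype) W')
    (m : N.comap H.subtype) : ℂ := R'.character ⟨m, le_KK m.2⟩

/-- the characters `χ` of `G` and `ψ` of `H` correspond by means of the data `R`, `R'`, `ξ`, `ξ'` -/
structure GD {G : Type} [Group G] [Fintype G] {W W' : Type} [AddCommGroup W] [Module ℂ W]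
    [AddCommGroup W'] [Module ℂ W'] (p : ℕ) (N : Subgroup G) [N.Normal] (y : G)
    [(KK N y).Normal] (H : Subgroup G) (R : Representation ℂ (KK N y) W)
    (R' : Representation ℂ ((KK N y).comap H.subtype) W') (ε : ℤ) (χ : G → ℂ) (ψ : H → ℂ)
    (ξ : G → ℂ) (ξ' : H → ℂ) : Prop where
  sd : SD p N y H R R' ε
  irr : IsIrr χ
  irr' : IsIrr ψ
  ov : Ov N χ (rN R)
  ov' : Ov (N.comap H.subtype) ψ (rM R')
  cf : Cf (rN R) χ ξ
  cf' : Cf (rM R') ψ ξ'
  cc : ∀ (h : H) (u : W ≃ₗ[ℂ] W) (u' : W' ≃ₗ[ℂ] W'), CH p R R' h u u' → ∃ s : ℂ,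
    (∀ n : N, ξ (n * h) = s * LinearMap.trace ℂ W (R ⟨n, le_KK n.2⟩ ∘ₗ (u : W →ₗ[ℂ] W))) ∧
    ∀ m : N.comap H.subtype, ξ' (m * h) =
      s * LinearMap.trace ℂ W' (R' ⟨m, le_KK m.2⟩ ∘ₗ (u' : W' →ₗ[ℂ] W'))

/-- the canonical relation -/
def GR {G : Type} [Group G] [Fintype G] (p : ℕ) (N : Subgroup G) [N.Normal] (y : G)
    [(KK N y).Normal] (H : Subgroup G) (χ : G → ℂ) (ψ : H → ℂ) (ε : ℤ) : Prop :=
  ∃ (W : Type) (_ : AddCommGroup W) (_ : Module ℂ W) (_ : FiniteDimensional ℂ W)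
    (W' : Type) (_ : AddCommGroup W') (_ : Module ℂ W') (_ : FiniteDimensional ℂ W')
    (R : Representation ℂ (KK N y) W) (R' : Representation ℂ ((KK N y).comap H.subtype) W')
    (ξ : G → ℂ) (ξ' : H → ℂ), GD p N y H R R' ε χ ψ ξ ξ'

end Pool.Agent.Q17.TC
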