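import Pool.Agent.Q1.MK.Trn

/-!
# Definitions for project TC (character triples over a self-centralising coset)
-/

set_option autoImplicit false

open scoped BigOperators Classical
open Pool.Agent.Helper884 Representation Pool.Agent.H254R3.IN Pool.Agent.Y62

noncomputable section

namespace Pool.Agent.Q17.TC

section lifts

variable {G H : Type} [Group G] [Group H] {W W' : Type} [AddCommGroup W] [Module ℂ W]
  [AddCommGroup W'] [Module ℂ W']

/-- `u` is a lift of `g` for the representation `ρ` of the normal subgroup `N`: it carries `ρ` to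
its conjugate by `g`. -/
def Lf {N : Subgroup G} [N.Normal] (ρ : Representation ℂ N W) (g : G) (u : W ≃ₗ[ℂ] W) : Prop :=
  ∀ (n : N) (w : W), u (ρ n w) = ρ (MulAut.conjNormal g n) (u w)

/-- A matching: a choice of lifts `u h` for `ρ` (a representation of `N`) and `u' h` for `ρ'` (a
representation of the preimage of `N` under `i : H → G`) with the same factor set, which are equal
to `ρ`, `ρ'` up to the same scalar on the preimage of `N`. -/
structure Mat (i : H →* G) (N : Subgroup G) [N.Normal] (ρ : Representation ℂ N W)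
    (ρ' : Representation ℂ (N.comap i) W') (u : H → (W ≃ₗ[ℂ] W)) (u' : H → (W' ≃ₗ[ℂ] W')) :
    Prop where
  lf : ∀ h, Lf ρ (i h) (u h)
  lf' : ∀ h, Lf ρ' h (u' h)
  mul : ∀ h k, ∃ c : ℂ, c ≠ 0 ∧ (∀ w, u (h * k) w = c • u h (u k w)) ∧
    ∀ w, u' (h * k) w = c • u' h (u' k w)
  res : ∀ m : N.comap i, ∃ c : ℂ, c ≠ 0 ∧ (∀ w, u m w = c • ρ ⟨i m, m.2⟩ w) ∧
    ∀ w, u' m w = c • ρ' m w

/-- the trace of `ρ(n) u` -/
def tr {N : Subgroup G} (ρ : Representation ℂ N W) (u : W ≃ₗ[ℂ] W) (n : N) : ℂ :=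
  LinearMap.trace ℂ W (ρ n ∘ₗ (u : W →ₗ[ℂ] W))

/-- the characters `χ` of `G` and `ψ` of `H` correspond under the matching -/
def Cor (i : H →* G) (N : Subgroup G) (ρ : Representation ℂ N W)
    (ρ' : Representation ℂ (N.comap i) W') (u : H → (W ≃ₗ[ℂ] W)) (u' : H → (W' ≃ₗ[ℂ] W'))
    (χ : G → ℂ) (ψ : H → ℂ) : Prop :=
  ∃ s : H → ℂ, (∀ (n : N) (h : H), χ (n * i h) = s h * tr ρ (u h) n) ∧
    ∀ (m : N.comap i) (h : H), ψ (m * h) = s h * tr ρ' (u' h) m

end lifts

/-- the character `χ` of `G` lies over the character `θ` of `N` -/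
def Ov {G : Type} [Group G] [Fintype G] (N : Subgroup G) (χ : G → ℂ) (θ : N → ℂ) : Prop :=
  IC.B (fun n : N => χ n) θ ≠ 0

/-- The data: a normal subgroup `N`, an element `y ∈ P` of order `p` and central modulo `N`, and a
subgroup `H ⊇ P` with `G = NH` which contains `C_N(x)` for all `x ∈ P ∩ yN`. -/
structure TD {G : Type} [Group G] [Fintype G] (p : ℕ) (N : Subgroup G) (y : G) (H : Subgroup G)
    (P : Sylow p G) : Prop where
  hN : N.Normal
  hyN : y ∉ N
  hyp : y ^ p ∈ N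
  hcen : ∀ g : G, g * y * g⁻¹ * y⁻¹ ∈ N
  hyP : y ∈ P
  hPH : (P : Subgroup G) ≤ H
  hNH : ∀ g : G, ∃ n ∈ N, ∃ h ∈ H, g = n * h
  hC : ∀ x ∈ P, y⁻¹ * x ∈ N → ∀ n ∈ N, Commute n x → n ∈ H

/-- the subgroup `K = N⟨y⟩` -/
def KK {G : Type} [Group G] (N : Subgroup G) (y : G) : Subgroup G := N ⊔ Subgroup.zpowers y

/-- `θ` (a character of `K`) and `η` (a character of `K ∩ H`) agree up to the sign `ε` outside
`N` -/
def Rl {G : Type} [Group G] (N K H : Subgroup G) (ε : ℤ) (θ : K → ℂ) (η : K.comap H.subtype → ℂ) :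
    Prop :=
  ∀ (h : H) (hk : (h : G) ∈ K), (h : G) ∉ N → θ ⟨h, hk⟩ = ε * η ⟨h, hk⟩

/-- conjugate of a function on a normal subgroup -/
def cjf {G : Type} [Group G] {N : Subgroup G} [N.Normal] (g : G) (θ : N → ℂ) (n : N) : ℂ :=
  θ (MulAut.conjNormal g n)

end Pool.Agent.Q17.TC
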