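import Pool.Agent.Q17.TC.C8

/-!
# The canonical correspondence over one character
-/

set_option autoImplicit false

open scoped BigOperators Classical
open Pool.Agent.Helper884 Representation Pool.Agent.H254R3.IN Pool.Agent.Y62

noncomputable section

namespace Pool.Agent.Q17.TC

lemma Cf.of {G : Type} [Group G] [Fintype G] {N : Subgroup G} [N.Normal] {θ : N → ℂ}
    {T' : Subgroup G} (h : T' = St θ) {χ : G → ℂ} (ξ₀ : T' → ℂ) (irr : IsIrr ξ₀)
    (ov : Ov (N.comap T'.subtype) ξ₀ (fun n => θ ⟨n, n.2⟩))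
    (ind : ∀ g, χ g = (Nat.card T' : ℂ)⁻¹ *
      ∑ x : G, (if h : x⁻¹ * g * x ∈ T' then ξ₀ ⟨x⁻¹ * g * x, h⟩ else 0)) :
    Cf θ χ (fun g => if h : g ∈ T' then ξ₀ ⟨g, h⟩ else 0) := by
  subst h
  have h1 : (fun t : St θ => (if h : (t : G) ∈ St θ then ξ₀ ⟨t, h⟩ else 0)) = ξ₀ := by
    funext t
    rw [dif_pos t.2]
  refine ⟨fun g hg => dif_neg hg, ?_, ?_, ind⟩
  · rw [h1]
    exact irr
  · rw [h1]
    exact ov

/-- the operator of `x` as an equivalence -/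
def rgE {A W : Type} [Group A] [AddCommGroup W] [Module ℂ W] (R : Representation ℂ A W) (x : A) :
    W ≃ₗ[ℂ] W where
  toFun := R x
  map_add' := map_add _
  map_smul' := map_smul _
  invFun := R x⁻¹
  left_inv w := by
    rw [← Module.End.mul_apply, ← map_mul, inv_mul_cancel, map_one]
    rfl
  right_inv w := by
    rw [← Module.End.mul_apply, ← map_mul, mul_inv_cancel, map_one]
    rfl

section

variable {G : Type} [Group G] [Fintype G] {N : Subgroup G} {y : G}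
  [(KK N y).Normal] {H : Subgroup G} {p : ℕ}
  {W W' : Type} [AddCommGroup W] [Module ℂ W] [FiniteDimensional ℂ W]
  [AddCommGroup W'] [Module ℂ W'] [FiniteDimensional ℂ W']
  {R : Representation ℂ (KK N y) W} {R' : Representation ℂ ((KK N y).comap H.subtype) W'} {ε : ℤ}

/-- an element with a lift is in the stabiliser -/
lemma mem_of_lift {A W : Type} [Group A] {N K : Subgroup A} [N.Normal] [K.Normal]
    [AddCommGroup W] [Module ℂ W] [FiniteDimensional ℂ W] (hNK : N ≤ K) {R : Representation ℂ K W}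
    {h : A} {u : W ≃ₗ[ℂ] W}
    (hu : ∀ x : K, (x : A) ∈ N → ∀ w, u (R x w) = R (MulAut.conjNormal h x) (u w)) (n : N) :
    R.character ⟨MulAut.conjNormal h n, hNK (MulAut.conjNormal h n).2⟩ =
      R.character ⟨n, hNK n.2⟩ := by
  change LinearMap.trace ℂ W (R _) = LinearMap.trace ℂ W (R _)
  have h1 : R ⟨MulAut.conjNormal h n, hNK (MulAut.conjNormal h n).2⟩ =
      u.conj (R ⟨n, hNK n.2⟩) := by
    ext w
    rw [LinearEquiv.conj_apply_apply, hu _ n.2, u.apply_symm_apply]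
    rfl
  rw [h1, LinearMap.trace_conj']

/-- canonical pairs are unique -/
lemma CH.unique (dA : AD p (jK N y H) (BK N y) R R' ε) (hom : S_HOM)
    (hau : ∀ h : H, Au (jK N y H) (BK N y) (MulAut.conjNormal (h : G)) (MulAut.conjNormal h))
    {h : H} {u v : W ≃ₗ[ℂ] W} {u' v' : W' ≃ₗ[ℂ] W'} (c : CH p R R' h u u')
    (c' : CH p R R' h v v') :
    ∃ z : ℂ, z ≠ 0 ∧ (∀ w, v w = z • u w) ∧ ∀ w, v' w = z • u' w := by
  obtain ⟨z, hz, h1⟩ := lift_unique (dA.irrep hom) c.lp.l c'.lp.l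
  obtain ⟨z', hz', h2⟩ := lift_unique (dA.irrep' hom) c.lp.l' c'.lp.l'
  have h3 := CP.unique dA hom (hau h) c c' hz hz' h1 h2
  subst h3
  exact ⟨z, hz, h1, h2⟩

end

theorem t_GDX (hom : S_HOM) (ext : S_EXT) (tr : S_TR) (cl : S_CL) : S_GDX := by
  intro G W W' _ _ _ _ _ _ _ _ p _ N _ y _ H P d R R' ε s hst hex
  have dA := d.toAD ext s
  have hau : ∀ h : H, Au (jK N y H) (BK N y) (MulAut.conjNormal (h : G)) (MulAut.conjNormal h) :=
    fun h => d.au h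
  have iN : IsIrr (rN R) := ext1 ext le_KK d.idx' ⟨W, _, _, inferInstance, R, s.irr, rfl⟩ s.nv
  have iM : IsIrr (rM R') := ext1 ext (Subgroup.comap_mono le_KK) d.idxH
    ⟨W', _, _, inferInstance, R', s.irr', rfl⟩ s.nv'
  set T : Subgroup G := St (rN R) with hT
  have hNT : N ≤ T := by
    intro n hn m
    rw [← iN.conj m ⟨n, hn⟩]
    congr 1
  have hTH : T.comap H.subtype = St (rM R') := by
    ext h
    exact hst h
  have hGT : ∀ g : T, ∃ n ∈ N.comap T.subtype, ∃ h, g = n * iT T H h := by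
    intro g
    obtain ⟨n, hn, h, hh, e⟩ := d.hNH g
    have h1 : h ∈ T := by
      have h2 := T.mul_mem (T.inv_mem (hNT hn)) g.2
      rwa [e, inv_mul_cancel_left] at h2
    exact ⟨⟨n, hNT hn⟩, hn, ⟨⟨h, hh⟩, h1⟩, Subtype.ext e⟩
  -- the representations
  let ρ : Representation ℂ (N.comap T.subtype) W := (rsN R).comp (eT hNT).toMonoidHom
  let ρ' : Representation ℂ ((N.comap T.subtype).comap (iT T H)) W' :=
    (rsM R').comp (eT' H hNT).toMonoidHom
  have hρ : ρ.IsIrreducible := irr_of_char hom _ (irr_comp iN (eT hNT))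
  have hρ' : ρ'.IsIrreducible := irr_of_char hom _ (irr_comp iM (eT' H hNT))
  -- the matching
  have hch : ∀ h : T.comap H.subtype, ∃ (u : W ≃ₗ[ℂ] W) (u' : W' ≃ₗ[ℂ] W'),
      CH p R R' (h : H) u u' := fun h => hex h h.2
  choose u u' hu using hch
  have hm : Mat (iT T H) (N.comap T.subtype) ρ ρ' u u' := by
    refine ⟨fun h n w => ?_, fun h n w => ?_, fun h k => ?_, fun m => ?_⟩
    · exact (hu h).lp.l ⟨n.1.1, le_KK n.2⟩ n.2 w
    · exact (hu h).lp.l' ⟨n.1.1, le_KK n.2⟩ n.2 w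
    · have h1 : CH p R R' ((h * k : T.comap H.subtype) : H) ((u k).trans (u h))
          ((u' k).trans (u' h)) := by
        have h2 := CP.mul dA hom (hau h) (hau k) (hu h) (hu k)
        have e1 : (MulAut.conjNormal ((((h * k : T.comap H.subtype) : H)) : G) :
            MulAut (KK N y)) = MulAut.conjNormal ((h : H) : G) * MulAut.conjNormal ((k : H) : G) :=
          map_mul _ _ _
        have e2 : (MulAut.conjNormal ((h * k : T.comap H.subtype) : H) :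
            MulAut ((KK N y).comap H.subtype)) =
            MulAut.conjNormal (h : H) * MulAut.conjNormal (k : H) := map_mul _ _ _
        unfold CH
        rw [e1, e2]
        exact h2
      obtain ⟨z, hz, h3, h4⟩ := CH.unique dA hom hau h1 (hu (h * k))
      exact ⟨z, hz, h3, h4⟩
    · have h1 : CH p R R' ((m : T.comap H.subtype) : H) (rgE R ⟨m.1.1, le_KK m.2⟩)
          (rgE R' ⟨m.1.1, le_KK m.2⟩) := by
        refine CP.triv (x := (⟨m.1.1, le_KK m.2⟩ : (KK N y).comap H.subtype)) ?_ (fun w => rfl)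
          (fun w => rfl) (fun z => ?_) (fun z => ?_)
        · exact m.2
        · rfl
        · rfl
      obtain ⟨z, hz, h3, h4⟩ := CH.unique dA hom hau h1 (hu m)
      exact ⟨z, hz, h3, h4⟩
  obtain ⟨e₁, he₁⟩ := tr T (T.comap H.subtype) W W' (iT T H) (N.comap T.subtype) ρ ρ' u u'
    hGT hρ hρ' hm
  obtain ⟨e₂, he₂⟩ := cl G N (rN R) iN T (fun g => Iff.rfl)
  obtain ⟨e₃, he₃⟩ := cl H (N.comap H.subtype) (rM R') iM (T.comap H.subtype) hst
  let f₂ : {ξ : T → ℂ // IsIrr ξ ∧ Ov (N.comap T.subtype) ξ ρ.character} ≃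
      {χ : G → ℂ // IsIrr χ ∧ Ov N χ (rN R)} := e₂
  let f₃ : {ξ : T.comap H.subtype → ℂ // IsIrr ξ ∧
      Ov ((N.comap T.subtype).comap (iT T H)) ξ ρ'.character} ≃
      {χ : H → ℂ // IsIrr χ ∧ Ov (N.comap H.subtype) χ (rM R')} := e₃
  refine ⟨f₂.symm.trans (e₁.trans f₃), fun χ => ?_⟩
  obtain ⟨ξ, rfl⟩ := f₂.surjective χ
  rw [Equiv.trans_apply, Equiv.symm_apply_apply, Equiv.trans_apply]
  refine ⟨fun g => if h : g ∈ T then ξ.1 ⟨g, h⟩ else 0,
    fun g => if h : g ∈ T.comap H.subtype then (e₁ ξ).1 ⟨g, h⟩ else 0, s, (f₂ ξ).2.1,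
    (f₃ (e₁ ξ)).2.1, (f₂ ξ).2.2, (f₃ (e₁ ξ)).2.2, Cf.of rfl ξ.1 ξ.2.1 ξ.2.2 (fun g => he₂ ξ g),
    Cf.of hTH (e₁ ξ).1 (e₁ ξ).2.1 (e₁ ξ).2.2 (fun g => he₃ (e₁ ξ) g), ?_⟩
  intro h v v' hv
  have hhT : (h : G) ∈ T := fun n => mem_of_lift le_KK (fun x hx w => hv.lp.l x hx w) n
  obtain ⟨z, hz, h1, h2⟩ := CH.unique dA hom hau (hu ⟨h, hhT⟩) hv
  obtain ⟨t, h3, h4⟩ := he₁ ξ
  refine ⟨t ⟨h, hhT⟩ / z, fun n => ?_, fun m => ?_⟩
  · have h5 := h3 ⟨⟨n, hNT n.2⟩, n.2⟩ ⟨h, hhT⟩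
    have h6 : (n : G) * h ∈ T := T.mul_mem (hNT n.2) hhT
    rw [dif_pos h6]
    have h7 : LinearMap.trace ℂ W (R ⟨n, le_KK n.2⟩ ∘ₗ (v : W →ₗ[ℂ] W)) =
        z * LinearMap.trace ℂ W (R ⟨n, le_KK n.2⟩ ∘ₗ (u ⟨h, hhT⟩ : W →ₗ[ℂ] W)) := by
      rw [← smul_eq_mul, ← map_smul]
      congr 1
      ext w
      rw [LinearMap.comp_apply, LinearMap.smul_apply, LinearMap.comp_apply, LinearEquiv.coe_coe,
        LinearEquiv.coe_coe, h1, map_smul]
    rw [h7, div_mul_eq_mul_div, mul_left_comm, mul_div_cancel_left₀ _ hz]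
    exact h5
  · have h5 := h4 ⟨⟨m, hNT m.2⟩, m.2⟩ ⟨h, hhT⟩
    have h6 : (m : H) * h ∈ T.comap H.subtype :=
      (T.comap H.subtype).mul_mem (hNT m.2 : (m : H) ∈ T.comap H.subtype) hhT
    rw [dif_pos h6]
    have h7 : LinearMap.trace ℂ W' (R' ⟨m, le_KK m.2⟩ ∘ₗ (v' : W' →ₗ[ℂ] W')) =
        z * LinearMap.trace ℂ W' (R' ⟨m, le_KK m.2⟩ ∘ₗ (u' ⟨h, hhT⟩ : W' →ₗ[ℂ] W')) := by
      rw [← smul_eq_mul, ← map_smul]
      congr 1
      ext w
      rw [LinearMap.comp_apply, LinearMap.smul_apply, LinearMap.comp_apply, LinearEquiv.coe_coe,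
        LinearEquiv.coe_coe, h2, map_smul]
    rw [h7, div_mul_eq_mul_div, mul_left_comm, mul_div_cancel_left₀ _ hz]
    exact h5

end Pool.Agent.Q17.TC
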