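import Pool.Agent.Q17.TC.Stm

/-!
# Tools for the matching: transport, splitting of sums, comparison of lifts
-/

set_option autoImplicit false

open scoped BigOperators Classical
open Pool.Agent.Helper884 Representation Pool.Agent.H254R3.IN Pool.Agent.Y62

noncomputable section

namespace Pool.Agent.Q17.TC

lemma irr_sub {G : Type} [Group G] {N K : Subgroup G} (h : N ≤ K) (f : K → ℂ) :
    IsIrr (fun n : N.subgroupOf K => f n) ↔ IsIrr (fun n : N => f ⟨n, h n.2⟩) := by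
  constructor
  · intro h1
    exact irr_comp h1 (Subgroup.subgroupOfEquivOfLe h).symm
  · intro h1
    exact irr_comp h1 (Subgroup.subgroupOfEquivOfLe h)

section ext

variable {G : Type} [Group G] [Fintype G] {N K : Subgroup G} [N.Normal]

lemma ext1 (ext : S_EXT) (h : N ≤ K) (hp : (N.relIndex K).Prime) {χ : K → ℂ} (h1 : IsIrr χ)
    (h2 : ∃ k : K, (k : G) ∉ N ∧ χ k ≠ 0) : IsIrr (fun n : N => χ ⟨n, h n.2⟩) := by
  rw [← irr_sub h]
  obtain ⟨k, hk, hk'⟩ := h2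
  exact (ext K (N.subgroupOf K) hp).1 χ h1 ⟨k, fun hh => hk (Subgroup.mem_subgroupOf.mp hh), hk'⟩

lemma ext2 (ext : S_EXT) (h : N ≤ K) (hp : (N.relIndex K).Prime) {θ : N → ℂ} (h1 : IsIrr θ)
    (h2 : ∀ k ∈ K, ∀ n : N, θ (MulAut.conjNormal k n) = θ n) :
    ∃ χ : K → ℂ, IsIrr χ ∧ ∀ n : N, χ ⟨n, h n.2⟩ = θ n := by
  obtain ⟨χ, h3, h4⟩ := (ext K (N.subgroupOf K) hp).2.1
    (fun n => θ (Subgroup.subgroupOfEquivOfLe h n)) (irr_comp h1 _) (by
      intro k n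
      have h5 := h2 k k.2 (Subgroup.subgroupOfEquivOfLe h n)
      rw [← h5]
      rfl)
  refine ⟨χ, h3, fun n => ?_⟩
  have h5 := h4 ((Subgroup.subgroupOfEquivOfLe h).symm n)
  rw [MulEquiv.apply_symm_apply] at h5
  exact h5

lemma ext3 (ext : S_EXT) (h : N ≤ K) (hp : (N.relIndex K).Prime) {χ : K → ℂ} (h1 : IsIrr χ)
    (h2 : IsIrr (fun n : N => χ ⟨n, h n.2⟩)) : ∃ k : K, (k : G) ∉ N ∧ χ k ≠ 0 := by
  rw [← irr_sub h] at h2
  obtain ⟨k, hk, hk'⟩ := (ext K (N.subgroupOf K) hp).2.2.1 χ h1 h2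
  exact ⟨k, fun hh => hk (Subgroup.mem_subgroupOf.mpr hh), hk'⟩

lemma ext4 (ext : S_EXT) (h : N ≤ K) (hp : (N.relIndex K).Prime) {χ χ' : K → ℂ} (h1 : IsIrr χ)
    (h1' : IsIrr χ') (h2 : IsIrr (fun n : N => χ ⟨n, h n.2⟩))
    (h3 : ∀ n : N, χ ⟨n, h n.2⟩ = χ' ⟨n, h n.2⟩) :
    ∃ l : K →* ℂˣ, (∀ k : K, (k : G) ∈ N → l k = 1) ∧ ∀ k, χ' k = (l k : ℂ) * χ k := by
  rw [← irr_sub h] at h2
  obtain ⟨l, hl, hl'⟩ := (ext K (N.subgroupOf K) hp).2.2.2 χ χ' h1 h1' h2 (fun n =>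
    h3 ⟨n, Subgroup.mem_subgroupOf.mp n.2⟩)
  exact ⟨l, fun k hk => hl ⟨k, Subgroup.mem_subgroupOf.mpr hk⟩, hl'⟩

omit [N.Normal] in
lemma sum_split (h : N ≤ K) (F : K → ℂ) : ∑ k, F k = ∑ n : N, F ⟨n, h n.2⟩ +
    ∑ k ∈ Finset.univ.filter (fun k : K => (k : G) ∉ N), F k := by
  rw [← Finset.sum_filter_add_sum_filter_not Finset.univ (fun k : K => (k : G) ∈ N)]
  congr 1
  symm
  refine Finset.sum_bij (fun (n : N) _ => (⟨n, h n.2⟩ : K)) ?_ ?_ ?_ ?_
  · intro n _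
    exact Finset.mem_filter.mpr ⟨Finset.mem_univ _, n.2⟩
  · intro a _ b _ hab
    exact Subtype.ext (congrArg (fun x : K => (x : G)) hab)
  · intro k hk
    exact ⟨⟨k, (Finset.mem_filter.mp hk).2⟩, Finset.mem_univ _, rfl⟩
  · intro n _
    rfl

omit [N.Normal] in
lemma card_lt (h : N ≤ K) (hp : (N.relIndex K).Prime) : Nat.card N < Nat.card K := by
  have h1 : Nat.card N * N.relIndex K = Nat.card K := by
    rw [Subgroup.relIndex, mul_comm, ← Nat.card_congr (Subgroup.subgroupOfEquivOfLe h).toEquiv]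
    exact Subgroup.index_mul_card _
  have h2 : 0 < Nat.card N := Nat.card_pos
  have h3 := hp.two_le
  nlinarith

/-- a nontrivial linear character of `K / N` -/
lemma exists_lin_ne (hp : (N.relIndex K).Prime) :
    ∃ l : K →* ℂˣ, (∀ k : K, (k : G) ∈ N → l k = 1) ∧ l ≠ 1 := by
  have h1 : (Nat.card (K ⧸ N.subgroupOf K)).Prime := hp
  have h2 : IsCyclic (K ⧸ N.subgroupOf K) := by
    have : Fact (Nat.card (K ⧸ N.subgroupOf K)).Prime := ⟨h1⟩
    exact isCyclic_of_prime_card (p := Nat.card (K ⧸ N.subgroupOf K)) rfl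
  obtain ⟨l, hl⟩ := IC.exists_faithful h2
  refine ⟨l.comp (QuotientGroup.mk' _), fun k hk => ?_, fun h3 => ?_⟩
  · rw [MonoidHom.comp_apply]
    have h4 : (QuotientGroup.mk' (N.subgroupOf K)) k = 1 :=
      (QuotientGroup.eq_one_iff k).mpr (Subgroup.mem_subgroupOf.mpr hk)
    rw [h4, map_one]
  · have h4 : Nontrivial (K ⧸ N.subgroupOf K) := by
      rw [← Finite.one_lt_card_iff_nontrivial]
      exact h1.one_lt
    obtain ⟨x, hx⟩ := exists_ne (1 : K ⧸ N.subgroupOf K)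
    obtain ⟨k, rfl⟩ := QuotientGroup.mk_surjective x
    apply hx
    apply hl
    have h5 := DFunLike.congr_fun h3 k
    rw [MonoidHom.comp_apply] at h5
    rw [map_one]
    exact h5

omit [Fintype G] [N.Normal] in
/-- a linear character of `K / N` that is trivial at one element outside `N` is trivial -/
lemma lin_one (hp : (N.relIndex K).Prime) {l : K →* ℂˣ}
    (hl : ∀ k : K, (k : G) ∈ N → l k = 1) {k : K} (hk : (k : G) ∉ N) (hk1 : l k = 1) : l = 1 := by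
  have h1 : N.subgroupOf K ≤ l.ker := fun x hx => hl x (Subgroup.mem_subgroupOf.mp hx)
  have h2 : (N.subgroupOf K).relIndex l.ker * l.ker.index = (N.subgroupOf K).index :=
    Subgroup.relIndex_mul_index h1
  have h3 : (N.subgroupOf K).relIndex l.ker ≠ 1 := by
    intro h4
    rw [Subgroup.relIndex_eq_one] at h4
    exact hk (Subgroup.mem_subgroupOf.mp (h4 hk1))
  have h4 : l.ker.index = 1 := by
    have h5 : (N.subgroupOf K).index.Prime := hp
    rcases (Nat.prime_mul_iff.mp (h2 ▸ h5)) with h6 | h6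
    · exact h6.2
    · exact absurd h6.2 h3
  rw [Subgroup.index_eq_one] at h4
  exact MonoidHom.ker_eq_top_iff.mp h4

end ext

end Pool.Agent.Q17.TC
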