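import Pool.Agent.Q17.TC.MT1

/-!
# Existence of the matching
-/

set_option autoImplicit false

open scoped BigOperators Classical
open Pool.Agent.Helper884 Representation Pool.Agent.H254R3.IN Pool.Agent.Y62

noncomputable section

namespace Pool.Agent.Q17.TC

lemma lf_symm {G : Type} [Group G] {W : Type} [AddCommGroup W] [Module ℂ W] {N : Subgroup G}
    [N.Normal] {ρ : Representation ℂ N W} {g : G} {u : W ≃ₗ[ℂ] W} (hu : Lf ρ g u) (n : N) (w : W) :
    u.symm (ρ (MulAut.conjNormal g n) w) = ρ n (u.symm w) := by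
  have h := hu n (u.symm w)
  rw [u.apply_symm_apply] at h
  rw [← h, u.symm_apply_apply]

/-- comparison of an extension with its conjugate -/
lemma lam {G : Type} [Group G] {W : Type} [AddCommGroup W] [Module ℂ W]
    [FiniteDimensional ℂ W] {N K : Subgroup G} [N.Normal] [K.Normal] (hNK : N ≤ K)
    {ρ : Representation ℂ N W} {R : Representation ℂ K W} (irr : ρ.IsIrreducible)
    (res : ∀ n : N, R ⟨n, hNK n.2⟩ = ρ n) {g : G} {u : W ≃ₗ[ℂ] W} (hu : Lf ρ g u) :
    ∃ l : K →* ℂˣ, (∀ x : K, (x : G) ∈ N → l x = 1) ∧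
      ∀ (x : K) (w : W), u (R x w) = (l x : ℂ) • R (MulAut.conjNormal g x) (u w) := by
  have := irr_nontrivial ρ irr
  have hRρ : ∀ (x : K) (n : N) (w : W), R x (ρ n w) = ρ (MulAut.conjNormal (x : G) n) (R x w) := by
    intro x n w
    rw [← res, ← res, ← Module.End.mul_apply, ← Module.End.mul_apply, ← map_mul, ← map_mul]
    congr 2
    apply Subtype.ext
    simp
  have hR1 : ∀ (x : K) (w : W), R x⁻¹ (R x w) = w := by
    intro x w
    rw [← Module.End.mul_apply, ← map_mul, inv_mul_cancel, map_one]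
    rfl
  have hR2 : ∀ (x : K) (w : W), R x (R x⁻¹ w) = w := by
    intro x w
    rw [← Module.End.mul_apply, ← map_mul, mul_inv_cancel, map_one]
    rfl
  have key : ∀ x : K, ∃ c : ℂ, ∀ w : W, u (R x w) = c • R (MulAut.conjNormal g x) (u w) := by
    intro x
    obtain ⟨c, hc⟩ := schur ρ irr
      ((R (MulAut.conjNormal g x)⁻¹) ∘ₗ (u : W →ₗ[ℂ] W) ∘ₗ (R x) ∘ₗ (u.symm : W →ₗ[ℂ] W)) (by
        intro n w
        simp only [LinearMap.comp_apply, LinearEquiv.coe_coe]
        have e1 : n = MulAut.conjNormal g (MulAut.conjNormal g⁻¹ n) := by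
          apply Subtype.ext
          simp [mul_assoc]
        conv_lhs => rw [e1, lf_symm hu, hRρ, hu, hRρ]
        congr 2
        apply Subtype.ext
        simp [mul_assoc])
    refine ⟨c, fun w => ?_⟩
    have h1 := LinearMap.congr_fun hc (u w)
    simp only [LinearMap.comp_apply, LinearEquiv.coe_coe, u.symm_apply_apply,
      LinearMap.smul_apply, LinearMap.id_apply] at h1
    have h2 := congrArg (R (MulAut.conjNormal g x)) h1
    rw [hR2, map_smul] at h2
    exact h2
  choose c hc using key
  obtain ⟨w₀, hw₀⟩ := exists_ne (0 : W)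
  have uniq : ∀ (x : K) (a b : ℂ), a • R x (u w₀) = b • R x (u w₀) → a = b := by
    intro x a b hab
    have h1 : R x (u w₀) ≠ 0 := by
      intro h2
      have h3 := hR1 x (u w₀)
      rw [h2, map_zero] at h3
      exact hw₀ (u.map_eq_zero_iff.mp h3.symm)
    exact smul_left_injective ℂ h1 hab
  have hc1 : ∀ x : K, (x : G) ∈ N → c x = 1 := by
    intro x hx
    apply uniq (MulAut.conjNormal g x)
    rw [← hc x w₀, one_smul]
    have h1 := hu ⟨x, hx⟩ w₀
    rw [← res, ← res] at h1
    exact h1
  let c' : K →* ℂ :=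
    { toFun := c
      map_one' := hc1 1 N.one_mem
      map_mul' := fun x y => by
        apply uniq (MulAut.conjNormal g (x * y))
        rw [← hc, map_mul, Module.End.mul_apply, hc, hc, map_mul, map_mul, Module.End.mul_apply,
          map_smul, smul_smul, mul_comm] }
  refine ⟨c'.toHomUnits, fun x hx => ?_, fun x w => ?_⟩
  · apply Units.ext
    exact hc1 x hx
  · exact hc x w

end Pool.Agent.Q17.TC
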