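import Pool.Agent.Q17.TC.MT2

/-!
# Existence of the matching, II: class functions
-/

set_option autoImplicit false

open scoped BigOperators Classical
open Pool.Agent.Helper884 Representation Pool.Agent.H254R3.IN Pool.Agent.Y62

noncomputable section

namespace Pool.Agent.Q17.TC

/-- the map `K.comap i → K` -/
def ci {G H : Type} [Group G] [Group H] (i : H →* G) (K : Subgroup G) : K.comap i →* K where
  toFun k := ⟨i k, k.2⟩
  map_one' := Subtype.ext (map_one i)
  map_mul' a b := Subtype.ext (map_mul i _ _)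

/-- the indices are the same -/
lemma rel_comap {G H : Type} [Group G] [Group H] (i : H →* G) {N K : Subgroup G} [N.Normal]
    (h : N ≤ K) (hGH : ∀ g : G, ∃ n ∈ N, ∃ h, g = n * i h) :
    (N.comap i).relIndex (K.comap i) = N.relIndex K := by
  rw [Subgroup.relIndex_comap, ← Subgroup.relIndex_sup_left]
  congr 1
  apply le_antisymm
  · refine sup_le h ?_
    rintro _ ⟨k, hk, rfl⟩
    exact hk
  · intro k hk
    obtain ⟨n, hn, x, rfl⟩ := hGH k
    refine Subgroup.mul_mem_sup hn ⟨x, ?_, rfl⟩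
    change i x ∈ K
    have h2 := K.mul_mem (K.inv_mem (h hn)) hk
    rwa [inv_mul_cancel_left] at h2

section cf

variable {G : Type} [Group G] [Fintype G] {N K : Subgroup G} [N.Normal]

/-- inner product over the complement of `N` in `K` -/
lemma B_split (h : N ≤ K) (f f' : K → ℂ) : (Nat.card K : ℂ) * IC.B f f' =
    (Nat.card N : ℂ) * IC.B (fun n : N => f ⟨n, h n.2⟩) (fun n : N => f' ⟨n, h n.2⟩) +
    ∑ k ∈ Finset.univ.filter (fun k : K => (k : G) ∉ N), f k * f' k⁻¹ := by
  unfold IC.B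
  rw [mul_inv_cancel_left₀ IC.cardG_ne, mul_inv_cancel_left₀ IC.cardG_ne, sum_split h]
  rfl

lemma sum_out (h : N ≤ K) {χ : K → ℂ} (h1 : IsIrr χ) (h2 : IsIrr (fun n : N => χ ⟨n, h n.2⟩)) :
    ∑ k ∈ Finset.univ.filter (fun k : K => (k : G) ∉ N), χ k * χ k⁻¹ =
      (Nat.card K : ℂ) - Nat.card N := by
  have h3 := B_split h χ χ
  rw [IC.B_irr h1 h1, IC.B_irr h2 h2, if_pos rfl, if_pos rfl] at h3
  rw [← mul_one (Nat.card K : ℂ), h3]
  ring

/-- Two irreducible characters of `K` which agree outside `N` are equal if one of them is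
irreducible on `N`. -/
lemma eq_of_out (h : N ≤ K) (hp : (N.relIndex K).Prime) {χ χ' : K → ℂ} (h1 : IsIrr χ)
    (h1' : IsIrr χ') (h2 : IsIrr (fun n : N => χ ⟨n, h n.2⟩))
    (h2' : IsIrr (fun n : N => χ' ⟨n, h n.2⟩)) (h3 : ∀ k : K, (k : G) ∉ N → χ k = χ' k) :
    χ = χ' := by
  by_contra hne
  have h4 := B_split h χ χ'
  rw [IC.B_irr h1 h1', if_neg hne, IC.B_irr h2 h2', mul_zero] at h4
  have h5 : ∑ k ∈ Finset.univ.filter (fun k : K => (k : G) ∉ N), χ k * χ' k⁻¹ =
      (Nat.card K : ℂ) - Nat.card N := by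
    rw [← sum_out h h1 h2]
    refine Finset.sum_congr rfl fun k hk => ?_
    rw [h3 k⁻¹ (fun h6 => (Finset.mem_filter.mp hk).2 (by
      have := N.inv_mem h6
      simpa using this))]
  rw [h5] at h4
  have h6 := card_lt h hp
  split_ifs at h4 with h7
  · have h8 : (Nat.card K : ℂ) = 0 := by
      rw [mul_one] at h4
      linear_combination -h4
    exact IC.cardG_ne h8
  · have h8 : (Nat.card K : ℂ) = Nat.card N := by
      rw [mul_zero, zero_add] at h4
      linear_combination -h4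
    have h9 : Nat.card K = Nat.card N := by exact_mod_cast h8
    omega

/-- the inner product of `χ` and `l χ` -/
lemma B_tw (ext : S_EXT) (h : N ≤ K) (hp : (N.relIndex K).Prime) {χ : K → ℂ} (h1 : IsIrr χ)
    (h2 : IsIrr (fun n : N => χ ⟨n, h n.2⟩)) {l : K →* ℂˣ}
    (hl : ∀ k : K, (k : G) ∈ N → l k = 1) :
    IC.B χ (fun k => ((l k : ℂˣ) : ℂ) * χ k) = if l = 1 then 1 else 0 := by
  rw [IC.B_irr h1 (irr_twist h1 l)]
  congr 1
  apply propext
  constructor
  · intro h3
    obtain ⟨k, hk, hk'⟩ := ext3 ext h hp h1 h2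
    have h4 := congrFun h3 k
    refine lin_one hp hl hk (Units.ext ?_)
    have h5 : ((l k : ℂˣ) : ℂ) * χ k = 1 * χ k := by rw [one_mul]; exact h4.symm
    exact mul_right_cancel₀ hk' h5
  · rintro rfl
    funext k
    simp

end cf

/-- the restriction of `η` to the preimage of `N` is `H`-invariant -/
lemma inv_eta (ext : S_EXT) {G H : Type} [Group G] [Fintype G] [Group H] [Fintype H] (i : H →* G)
    {N K : Subgroup G} [N.Normal] [K.Normal] (hNK : N ≤ K) (hp : (N.relIndex K).Prime)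
    (hGH : ∀ g : G, ∃ n ∈ N, ∃ h, g = n * i h) {θ : K → ℂ} (hθ : IsIrr θ)
    (hθN : IsIrr (fun n : N => θ ⟨n, hNK n.2⟩)) {η : K.comap i → ℂ} (hη : IsIrr η)
    (hle : N.comap i ≤ K.comap i)
    (hηN : IsIrr (fun n : N.comap i => η ⟨n, hle n.2⟩)) {ε : ℤ} (hε : ε = 1 ∨ ε = -1)
    (hval : ∀ k : K.comap i, i k ∉ N → θ (ci i K k) = ε * η k)
    (hinv : ∀ (g : G) (n : N), θ ⟨MulAut.conjNormal g n, hNK (MulAut.conjNormal g n).2⟩ =
      θ ⟨n, hNK n.2⟩) (h : H) (m : N.comap i) :
    η ⟨MulAut.conjNormal h m, hle (MulAut.conjNormal h m).2⟩ = η ⟨m, hle m.2⟩ := by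
  have hp' : ((N.comap i).relIndex (K.comap i)).Prime := by rwa [rel_comap i hNK hGH]
  have hεε : (ε : ℂ) * ε = 1 := by rcases hε with h | h <;> rw [h] <;> norm_num
  -- the conjugate of `θ`
  have h1 : IsIrr (fun k : K => θ (MulAut.conjNormal (i h) k)) := irr_comp hθ _
  obtain ⟨l, hl, hl'⟩ := ext4 ext hNK hp hθ h1 hθN (fun n => (hinv (i h) n).symm)
  have h2 : IsIrr (fun k : K.comap i => η (MulAut.conjNormal h k)) := irr_comp hη _
  have h3 : IsIrr (fun k : K.comap i => (((l.comp (ci i K)) k : ℂˣ) : ℂ) * η k) :=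
    irr_twist hη _
  have h4 : (fun k : K.comap i => η (MulAut.conjNormal h k)) =
      fun k : K.comap i => (((l.comp (ci i K)) k : ℂˣ) : ℂ) * η k := by
    refine eq_of_out hle hp' h2 h3 ?_ ?_ fun k hk => ?_
    · exact irr_comp hηN (MulAut.conjNormal h)
    · have h5 : (fun n : N.comap i => (((l.comp (ci i K)) ⟨n, hle n.2⟩ : ℂˣ) : ℂ) *
          η ⟨n, hle n.2⟩) = fun n : N.comap i => η ⟨n, hle n.2⟩ := by
        funext n
        have h6 : (l.comp (ci i K)) ⟨n, hle n.2⟩ = 1 := hl _ n.2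
        rw [h6]
        simp
      rw [h5]
      exact hηN
    · have hk' : i k ∉ N := hk
      have h5 : i (MulAut.conjNormal h k : K.comap i) ∉ N := by
        intro h6
        apply hk'
        have h7 := (inferInstance : N.Normal).conj_mem _ h6 (i h)⁻¹
        simpa [mul_assoc] using h7
      have h6 := hval _ h5
      have h7 := hval k hk'
      have h8 := hl' (ci i K k)
      have h9 : MulAut.conjNormal (i h) (ci i K k) = ci i K (MulAut.conjNormal h k) := by
        apply Subtype.ext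
        simp [ci]
      simp only [h9] at h8
      rw [h6, h7] at h8
      have h10 : (ε : ℂ) * (ε * η (MulAut.conjNormal h k)) =
          (ε : ℂ) * (((l (ci i K k) : ℂˣ) : ℂ) * (ε * η k)) := by rw [h8]
      calc η (MulAut.conjNormal h k) = (ε : ℂ) * (ε * η (MulAut.conjNormal h k)) := by
            rw [← mul_assoc, hεε, one_mul]
        _ = _ := h10
        _ = ((l (ci i K k) : ℂˣ) : ℂ) * η k * ((ε : ℂ) * ε) := by ring
        _ = _ := by rw [hεε, mul_one]; rfl
  have h5 := congrFun h4 ⟨m, hle m.2⟩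
  have h6 : (l.comp (ci i K)) ⟨m, hle m.2⟩ = 1 := hl _ m.2
  simp only [h6, Units.val_one, one_mul] at h5
  rw [← h5]
  rfl

end Pool.Agent.Q17.TC
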