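import Pool.Agent.Q17.TC.MT3

/-!
# Existence of the matching, III
-/

set_option autoImplicit false

open scoped BigOperators Classical
open Pool.Agent.Helper884 Representation Pool.Agent.H254R3.IN Pool.Agent.Y62

noncomputable section

namespace Pool.Agent.Q17.TC

/-- The data for the matching: representations `R`, `R'` of `K` and of its preimage whose
restrictions `ρ`, `ρ'` to `N` and its preimage are irreducible, with characters equal up to the
sign `ε` outside `N`. -/
structure MD {G H : Type} [Group G] [Group H] {W W' : Type} [AddCommGroup W] [Module ℂ W]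
    [AddCommGroup W'] [Module ℂ W'] (p : ℕ) (i : H →* G) (N K : Subgroup G) [N.Normal] [K.Normal]
    (ρ : Representation ℂ N W) (ρ' : Representation ℂ (N.comap i) W') (R : Representation ℂ K W)
    (R' : Representation ℂ (K.comap i) W') (ε : ℤ) : Prop where
  hp : p.Prime
  hNK : N ≤ K
  hidx : N.relIndex K = p
  hcom : ∀ g k, k ∈ K → g * k * g⁻¹ * k⁻¹ ∈ N
  hGH : ∀ g : G, ∃ n ∈ N, ∃ h, g = n * i h
  irr : ρ.IsIrreducible
  irr' : ρ'.IsIrreducible
  res : ∀ n : N, R ⟨n, hNK n.2⟩ = ρ n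
  res' : ∀ m : N.comap i, R' ⟨m, hNK m.2⟩ = ρ' m
  eps : ε = 1 ∨ ε = -1
  val : ∀ k : K.comap i, i k ∉ N → R.character (ci i K k) = ε * R'.character k
  inv : ∀ (g : G) (n : N), ρ.character (MulAut.conjNormal g n) = ρ.character n

/-- a representation is irreducible if its restriction is -/
lemma irr_of_res {K N W : Type} [Group K] [Group N] [AddCommGroup W] [Module ℂ W] (f : N →* K)
    (R : Representation ℂ K W) (ρ : Representation ℂ N W) (h : ∀ n, R (f n) = ρ n)
    (irr : ρ.IsIrreducible) : R.IsIrreducible := by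
  let f : Subrepresentation R → Subrepresentation ρ := fun S => ⟨S.toSubmodule, by
    intro n x hx
    rw [← h]
    exact S.apply_mem_toSubmodule _ hx⟩
  have hbot : ∀ S : Subrepresentation R, f S = ⊥ → S = ⊥ := fun S hS =>
    Subrepresentation.toSubmodule_injective (congrArg (fun T => T.toSubmodule) hS)
  have htop : ∀ S : Subrepresentation R, f S = ⊤ → S = ⊤ := fun S hS =>
    Subrepresentation.toSubmodule_injective (congrArg (fun T => T.toSubmodule) hS)
  have : Nontrivial (Subrepresentation R) := by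
    refine ⟨⊥, ⊤, fun h1 => ?_⟩
    have h2 : (⊥ : Subrepresentation ρ) = ⊤ :=
      Subrepresentation.toSubmodule_injective
        (congrArg (fun T : Subrepresentation R => T.toSubmodule) h1)
    exact bot_ne_top h2
  refine ⟨fun S => ?_⟩
  rcases irr.eq_bot_or_eq_top (f S) with h1 | h1
  · exact Or.inl (hbot S h1)
  · exact Or.inr (htop S h1)

/-- the twist of a representation -/
def twr {K W : Type} [Group K] [AddCommGroup W] [Module ℂ W] (l : K →* ℂˣ)
    (R : Representation ℂ K W) : Representation ℂ K W where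
  toFun k := ((l k : ℂˣ) : ℂ) • R k
  map_one' := by simp
  map_mul' a b := by
    simp only [map_mul, Units.val_mul]
    rw [smul_mul_smul_comm]

lemma twr_char {K W : Type} [Group K] [AddCommGroup W] [Module ℂ W] (l : K →* ℂˣ)
    (R : Representation ℂ K W) (k : K) :
    (twr l R).character k = ((l k : ℂˣ) : ℂ) * R.character k := by
  change LinearMap.trace ℂ W (((l k : ℂˣ) : ℂ) • R k) = _
  rw [map_smul]
  rfl

variable {G H : Type} [Group G] [Fintype G] [Group H] [Fintype H] {W W' : Type} [AddCommGroup W]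
  [Module ℂ W] [FiniteDimensional ℂ W] [AddCommGroup W'] [Module ℂ W'] [FiniteDimensional ℂ W']
  {p : ℕ} {i : H →* G} {N K : Subgroup G} [N.Normal] [K.Normal]
  {ρ : Representation ℂ N W} {ρ' : Representation ℂ (N.comap i) W'} {R : Representation ℂ K W}
  {R' : Representation ℂ (K.comap i) W'} {ε : ℤ}

/-- the space of intertwiners, twisted by `l` -/
def VV (i : H →* G) {K : Subgroup G} (R : Representation ℂ K W)
    (R' : Representation ℂ (K.comap i) W') (l : K.comap i →* ℂˣ) : Submodule ℂ (W' →ₗ[ℂ] W) where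
  carrier := {v | ∀ k : K.comap i, R (ci i K k) ∘ₗ v = v ∘ₗ (twr l R') k}
  add_mem' := by
    intro a b ha hb k
    rw [LinearMap.comp_add, ha k, hb k, LinearMap.add_comp]
  zero_mem' := by
    intro k
    rw [LinearMap.comp_zero, LinearMap.zero_comp]
  smul_mem' := by
    intro c a ha k
    rw [LinearMap.comp_smul, ha k, LinearMap.smul_comp]

omit [Fintype G] [Fintype H] [FiniteDimensional ℂ W] [FiniteDimensional ℂ W'] [K.Normal] in
lemma mem_VV {l : K.comap i →* ℂˣ} {v : W' →ₗ[ℂ] W} : v ∈ VV i R R' l ↔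
    ∀ (k : K.comap i) (w : W'), R (ci i K k) (v w) = ((l k : ℂˣ) : ℂ) • v (R' k w) := by
  constructor
  · intro h k w
    have h1 := LinearMap.congr_fun (h k) w
    have h2 : (v ∘ₗ (twr l R') k) w = ((l k : ℂˣ) : ℂ) • v (R' k w) := by
      change v (((l k : ℂˣ) : ℂ) • R' k w) = _
      rw [map_smul]
    rw [← h2]
    exact h1
  · intro h k
    ext w
    change R (ci i K k) (v w) = v (((l k : ℂˣ) : ℂ) • R' k w)
    rw [map_smul]
    exact h k w

namespace MD

variable (d : MD p i N K ρ ρ' R R' ε)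

include d

omit [Fintype G] [Fintype H] [FiniteDimensional ℂ W] [FiniteDimensional ℂ W'] in
lemma hle : N.comap i ≤ K.comap i := Subgroup.comap_mono d.hNK

omit [Fintype G] [Fintype H] [FiniteDimensional ℂ W] [FiniteDimensional ℂ W'] in
lemma hp' : ((N.comap i).relIndex (K.comap i)).Prime := by
  rw [rel_comap i d.hNK d.hGH, d.hidx]
  exact d.hp

omit [Fintype G] [Fintype H] [FiniteDimensional ℂ W'] in
lemma irrR : IsIrr R.character := ⟨W, _, _, inferInstance, R,
  irr_of_res (Subgroup.inclusion d.hNK) R ρ d.res d.irr, rfl⟩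

omit [Fintype G] [Fintype H] [FiniteDimensional ℂ W] in
lemma irrR' : IsIrr R'.character := ⟨W', _, _, inferInstance, R',
  irr_of_res (Subgroup.inclusion d.hle) R' ρ' d.res' d.irr', rfl⟩

omit [Fintype G] [Fintype H] [FiniteDimensional ℂ W'] in
lemma irrN : IsIrr (fun n : N => R.character ⟨n, d.hNK n.2⟩) := by
  refine ⟨W, _, _, inferInstance, ρ, d.irr, ?_⟩
  funext n
  change LinearMap.trace ℂ W (R _) = LinearMap.trace ℂ W (ρ n)
  rw [d.res]

omit [Fintype G] [Fintype H] [FiniteDimensional ℂ W] in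
lemma irrN' : IsIrr (fun n : N.comap i => R'.character ⟨n, d.hle n.2⟩) := by
  refine ⟨W', _, _, inferInstance, ρ', d.irr', ?_⟩
  funext n
  change LinearMap.trace ℂ W' (R' _) = LinearMap.trace ℂ W' (ρ' n)
  rw [d.res']

/-- the character of `ρ'` is invariant -/
lemma inv' (ext : S_EXT) (h : H) (m : N.comap i) :
    ρ'.character (MulAut.conjNormal h m) = ρ'.character m := by
  have h1 := inv_eta ext i d.hNK (by rw [d.hidx]; exact d.hp) d.hGH d.irrR d.irrN d.irrR' d.hle
    d.irrN' d.eps d.val (fun g n => by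
      have h2 := d.inv g n
      change LinearMap.trace ℂ W (R _) = LinearMap.trace ℂ W (R _)
      rw [d.res, d.res]
      exact h2) h m
  change LinearMap.trace ℂ W' (ρ' _) = LinearMap.trace ℂ W' (ρ' _)
  rw [← d.res', ← d.res']
  exact h1

omit [Fintype G] in
/-- the dimensions of the spaces of intertwiners -/
lemma dim (hom : S_HOM) (ext : S_EXT) : ∃ A : ℤ, ∀ l : K.comap i →* ℂˣ,
    (∀ k : K.comap i, i k ∈ N → l k = 1) →
      (Module.finrank ℂ (VV i R R' l) : ℤ) = A + if l = 1 then ε else 0 := by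
  set a : ℂ := (Nat.card (K.comap i) : ℂ)⁻¹ * ((Nat.card (N.comap i) : ℂ) *
    IC.B (fun m : N.comap i => R.character (ci i K ⟨m, d.hle m.2⟩))
      (fun m : N.comap i => R'.character ⟨m, d.hle m.2⟩) -
    ε * ((Nat.card (N.comap i) : ℂ))) with ha
  have key : ∀ l : K.comap i →* ℂˣ, (∀ k : K.comap i, i k ∈ N → l k = 1) →
      (Module.finrank ℂ (VV i R R' l) : ℂ) = a + if l = 1 then (ε : ℂ) else 0 := by
    intro l hl
    let R₁ : Representation ℂ (K.comap i) W := R.comp (ci i K)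
    have h1 := hom (K.comap i) W W' R₁ (twr l R') (VV i R R' l) (fun v => Iff.rfl)
    have h2 : R₁.character = fun k : K.comap i => R.character (ci i K k) := rfl
    have h3 : (twr l R').character = fun k : K.comap i => ((l k : ℂˣ) : ℂ) * R'.character k :=
      funext fun k => twr_char l R' k
    rw [h2, h3] at h1
    have h4 := B_split d.hle (fun k : K.comap i => R.character (ci i K k))
      (fun k : K.comap i => ((l k : ℂˣ) : ℂ) * R'.character k)
    have h5 := B_split d.hle (R'.character) (fun k : K.comap i => ((l k : ℂˣ) : ℂ) * R'.character k)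
    rw [B_tw ext d.hle d.hp' d.irrR' d.irrN' hl] at h5
    have h6 : (fun n : N.comap i => ((l ⟨n, d.hle n.2⟩ : ℂˣ) : ℂ) * R'.character ⟨n, d.hle n.2⟩) =
        fun n : N.comap i => R'.character ⟨n, d.hle n.2⟩ := by
      funext n
      rw [hl ⟨n, d.hle n.2⟩ n.2]
      simp
    rw [h6] at h4 h5
    rw [IC.B_irr d.irrN' d.irrN', if_pos rfl] at h5
    have h7 : ∑ k ∈ Finset.univ.filter (fun k : K.comap i => (k : H) ∉ N.comap i),
        R.character (ci i K k) * (((l k⁻¹ : ℂˣ) : ℂ) * R'.character k⁻¹) =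
        ε * ∑ k ∈ Finset.univ.filter (fun k : K.comap i => (k : H) ∉ N.comap i),
        R'.character k * (((l k⁻¹ : ℂˣ) : ℂ) * R'.character k⁻¹) := by
      rw [Finset.mul_sum]
      refine Finset.sum_congr rfl fun k hk => ?_
      rw [d.val k (Finset.mem_filter.mp hk).2]
      ring
    rw [h7] at h4
    have hc : (Nat.card (K.comap i) : ℂ) ≠ 0 := IC.cardG_ne
    rw [h1]
    have h8 : (Nat.card (K.comap i) : ℂ) * IC.B (fun k : K.comap i => R.character (ci i K k))
        (fun k : K.comap i => ((l k : ℂˣ) : ℂ) * R'.character k) =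
        (Nat.card (K.comap i) : ℂ) * (a + if l = 1 then (ε : ℂ) else 0) := by
      rw [h4, ha, mul_add, mul_inv_cancel_left₀ hc]
      split_ifs at h5 ⊢ with h9
      · linear_combination (-(ε : ℂ)) * h5
      · linear_combination (-(ε : ℂ)) * h5
    exact mul_left_cancel₀ hc h8
  obtain ⟨l₀, hl₀, hne⟩ := exists_lin_ne d.hp'
  have h1 := key l₀ hl₀
  rw [if_neg hne, add_zero] at h1
  refine ⟨Module.finrank ℂ (VV i R R' l₀), fun l hl => ?_⟩
  have h2 := key l hl
  rw [← h1] at h2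
  split_ifs at h2 ⊢ with h3
  · exact_mod_cast h2
  · exact_mod_cast h2

omit [Fintype G] [Fintype H] in
/-- a pair of lifts permutes the spaces of intertwiners -/
lemma shift {h : H} {u : W ≃ₗ[ℂ] W} {u' : W' ≃ₗ[ℂ] W'} (hu : Lf ρ (i h) u) (hu' : Lf ρ' h u') :
    ∃ l₀ : K.comap i →* ℂˣ, (∀ k : K.comap i, i k ∈ N → l₀ k = 1) ∧
      ∀ l : K.comap i →* ℂˣ, (∀ k : K.comap i, i k ∈ N → l k = 1) → ∀ v ∈ VV i R R' l,
        (u : W →ₗ[ℂ] W) ∘ₗ v ∘ₗ (u'.symm : W' →ₗ[ℂ] W') ∈ VV i R R' (l * l₀) := by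
  obtain ⟨a, ha, ha'⟩ := lam d.hNK d.irr d.res hu
  obtain ⟨b, hb, hb'⟩ := lam d.hle d.irr' d.res' hu'
  refine ⟨b * (a.comp (ci i K))⁻¹, fun k hk => ?_, fun l hl v hv => ?_⟩
  · have h1 : b k = 1 := hb k hk
    have h2 : (a.comp (ci i K)) k = 1 := ha _ hk
    rw [MonoidHom.mul_apply, MonoidHom.inv_apply, h1, h2, inv_one, mul_one]
  · rw [mem_VV] at hv ⊢
    intro k w
    set k₁ : K.comap i := MulAut.conjNormal h⁻¹ k with hk₁
    have e1 : MulAut.conjNormal h k₁ = k := by
      apply Subtype.ext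
      simp [hk₁]
    have e2 : MulAut.conjNormal (i h) (ci i K k₁) = ci i K k := by
      apply Subtype.ext
      simp [ci, hk₁, mul_assoc]
    -- a linear character trivial on the preimage of `N` has the same value at `k` and `k₁`
    have e3 : ∀ l : K.comap i →* ℂˣ, (∀ k : K.comap i, i k ∈ N → l k = 1) → l k₁ = l k := by
      intro l hl
      have h1 : l (k₁ * k⁻¹) = 1 := by
        apply hl
        have h2 := d.hcom (i h)⁻¹ (i k) k.2
        simpa [hk₁] using h2
      rw [map_mul, map_inv, mul_inv_eq_one] at h1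
      exact h1
    have h1 : ∀ w : W, R (ci i K k) (u w) = ((a (ci i K k₁) : ℂˣ) : ℂ)⁻¹ • u (R (ci i K k₁) w) := by
      intro w
      rw [ha', e2, smul_smul, inv_mul_cancel₀ (Units.ne_zero _), one_smul]
    have h2 : ∀ w : W', R' k₁ (u'.symm w) = ((b k₁ : ℂˣ) : ℂ) • u'.symm (R' k w) := by
      intro w
      have h3 := hb' k₁ (u'.symm w)
      rw [e1, u'.apply_symm_apply] at h3
      rw [← map_smul, ← h3, u'.symm_apply_apply]
    simp only [LinearMap.comp_apply, LinearEquiv.coe_coe]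
    rw [h1, hv, h2, map_smul, map_smul, map_smul, smul_smul, smul_smul]
    congr 1
    have h3 := e3 l hl
    have h4 := e3 b hb
    have h5 := e3 (a.comp (ci i K)) (fun k hk => ha _ hk)
    simp only [MonoidHom.mul_apply, MonoidHom.inv_apply, MonoidHom.comp_apply, Units.val_mul,
      Units.val_inv_eq_inv_val] at h5 ⊢
    rw [h3, h4, h5]
    ring

omit [Fintype G] [Fintype H] [N.Normal] [K.Normal] d in
lemma conj_inj (u : W ≃ₗ[ℂ] W) (u' : W' ≃ₗ[ℂ] W') {V V' : Submodule ℂ (W' →ₗ[ℂ] W)}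
    (h : ∀ v ∈ V, (u : W →ₗ[ℂ] W) ∘ₗ v ∘ₗ (u'.symm : W' →ₗ[ℂ] W') ∈ V') :
    Module.finrank ℂ V ≤ Module.finrank ℂ V' := by
  let f : V →ₗ[ℂ] V' :=
    { toFun := fun v => ⟨(u : W →ₗ[ℂ] W) ∘ₗ (v : W' →ₗ[ℂ] W) ∘ₗ (u'.symm : W' →ₗ[ℂ] W'), h v v.2⟩
      map_add' := fun a b => Subtype.ext (by
        simp only [Submodule.coe_add, LinearMap.add_comp, LinearMap.comp_add])
      map_smul' := fun c a => Subtype.ext (by
        simp only [Submodule.coe_smul, LinearMap.smul_comp, LinearMap.comp_smul,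
          RingHom.id_apply]) }
  refine LinearMap.finrank_le_finrank_of_injective (f := f) ?_
  intro a b hab
  have h1 := congrArg (fun x : V' => (x : W' →ₗ[ℂ] W)) hab
  apply Subtype.ext
  ext w
  have h2 := LinearMap.congr_fun h1 (u' w)
  change u ((a : W' →ₗ[ℂ] W) (u'.symm (u' w))) = u ((b : W' →ₗ[ℂ] W) (u'.symm (u' w))) at h2
  rw [u'.symm_apply_apply] at h2
  exact u.injective h2

/-- a pair of lifts stabilises the spaces of intertwiners -/
lemma stab (hom : S_HOM) (ext : S_EXT) {h : H} {u : W ≃ₗ[ℂ] W} {u' : W' ≃ₗ[ℂ] W'}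
    (hu : Lf ρ (i h) u) (hu' : Lf ρ' h u') (l : K.comap i →* ℂˣ)
    (hl : ∀ k : K.comap i, i k ∈ N → l k = 1) (v : W' →ₗ[ℂ] W) (hv : v ∈ VV i R R' l) :
    (u : W →ₗ[ℂ] W) ∘ₗ v ∘ₗ (u'.symm : W' →ₗ[ℂ] W') ∈ VV i R R' l := by
  obtain ⟨l₀, hl₀, h1⟩ := d.shift hu hu'
  obtain ⟨A, hA⟩ := d.dim hom ext
  have h2 : l₀ = 1 := by
    by_contra hne
    have hinv : ∀ k : K.comap i, i k ∈ N → l₀⁻¹ k = 1 := by
      intro k hk
      rw [MonoidHom.inv_apply, hl₀ k hk, inv_one]
    have hone : ∀ k : K.comap i, i k ∈ N → (1 : K.comap i →* ℂˣ) k = 1 := fun k _ => rfl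
    have h3 := conj_inj u u' (h1 1 hone)
    have h4 := conj_inj u u' (h1 l₀⁻¹ hinv)
    have e1 : (1 : K.comap i →* ℂˣ) * l₀ = l₀ := MonoidHom.ext fun k => one_mul _
    have e2 : l₀⁻¹ * l₀ = 1 := MonoidHom.ext fun k => inv_mul_cancel _
    rw [e1] at h3
    rw [e2] at h4
    have h5 := hA 1 hone
    have h6 := hA l₀ hl₀
    have h7 := hA l₀⁻¹ hinv
    rw [if_pos rfl] at h5
    rw [if_neg hne] at h6
    have e3 : ¬ l₀⁻¹ = 1 := by
      intro h8
      apply hne
      ext k
      have h9 := DFunLike.congr_fun h8 k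
      rw [MonoidHom.inv_apply, MonoidHom.one_apply, inv_eq_one] at h9
      rw [h9]
      rfl
    rw [if_neg e3] at h7
    rcases d.eps with h8 | h8 <;> omega
  have h3 := h1 l hl v hv
  have e1 : l * (1 : K.comap i →* ℂˣ) = l := MonoidHom.ext fun k => mul_one _
  rwa [h2, e1] at h3

/-- **Existence of the matching.** -/
theorem matching (lft : S_LFT) (hom : S_HOM) (mat : S_MAT) (ext : S_EXT) :
    ∃ (u : H → (W ≃ₗ[ℂ] W)) (u' : H → (W' ≃ₗ[ℂ] W')), Mat i N ρ ρ' u u' := by
  obtain ⟨A, hA⟩ := d.dim hom ext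
  obtain ⟨l, hl, hne⟩ := exists_lin_ne d.hp'
  have hone : ∀ k : K.comap i, i k ∈ N → (1 : K.comap i →* ℂˣ) k = 1 := fun k _ => rfl
  have h1 := hA 1 hone
  have h2 := hA l hl
  rw [if_pos rfl] at h1
  rw [if_neg hne] at h2
  have triv : ∀ l : K.comap i →* ℂˣ, (∀ k : K.comap i, i k ∈ N → l k = 1) →
      ∀ v ∈ VV i R R' l, ∀ m : N.comap i, ρ ⟨i m, m.2⟩ ∘ₗ v = v ∘ₗ ρ' m := by
    intro l hl v hv m
    rw [mem_VV] at hv
    ext w
    have h3 := hv ⟨m, d.hle m.2⟩ w
    rw [hl ⟨m, d.hle m.2⟩ m.2, d.res', Units.val_one, one_smul] at h3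
    rw [LinearMap.comp_apply, LinearMap.comp_apply, ← h3, ← d.res]
    rfl
  obtain ⟨u, u', h3, -⟩ := mat G H W W' i N ρ ρ' d.irr d.irr' (VV i R R' 1) (VV i R R' l)
    (fun v hv => by
      rcases hv with hv | hv
      · exact triv 1 hone v hv
      · exact triv l hl v hv)
    (fun h u u' hu hu' => ⟨fun v hv => d.stab hom ext hu hu' 1 hone v hv,
      fun v hv => d.stab hom ext hu hu' l hl v hv⟩)
    (by rcases d.eps with h4 | h4 <;> omega)
    (fun h => lft G W N ρ d.irr (i h) (d.inv (i h)))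
    (fun h => lft H W' (N.comap i) ρ' d.irr' h (d.inv' ext h))
  exact ⟨u, u', h3⟩

end MD

end Pool.Agent.Q17.TC
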