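import Pool.Agent.Q17.TC.C10
import Pool.Agent.Q17.TC.CG

/-!
# The canonical bijection: all properties
-/

set_option autoImplicit false

open scoped BigOperators Classical
open Pool.Agent.Helper884 Representation Pool.Agent.H254R3.IN Pool.Agent.Y62
open Pool.Agent.Q1.MK (IrrP)

noncomputable section

namespace Pool.Agent.Q17.TC

variable {G : Type} [Group G] [Fintype G] {N : Subgroup G} [N.Normal] {y : G}
  {H : Subgroup G} {p : ℕ} [hp : Fact p.Prime] {P : Sylow p G}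

/-- the equivariance of the bijections -/
def Eqv {A B : Type} (y : G) (N H : Subgroup G) (a : A → G → ℂ) (b : B → H → ℂ) (f : A → B) :
    Prop :=
  ∀ (σ : ℂ ≃+* ℂ) (α : G ≃* G), Al N y H α → ∀ χ χ' : A,
    (∀ x, a χ' x = σ (a χ (α x))) → ∀ k k' : H, (k' : G) = α k → b (f χ') k = σ (b (f χ) k')

/-- the congruences -/
def Cgr {A B : Type} (p : ℕ) (y : G) (H : Subgroup G) (a : A → G → ℂ) (b : B → H → ℂ)
    (f : A → B) : Prop :=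
  ∀ χ : A, ∃ ε : ℤ, (ε = 1 ∨ (ε = -1 ∧ p ≠ 2)) ∧ ∀ O : ValuationSubring ℂ, (p : ℂ) ∈ O.nonunits →
    ∀ k : H, Commute y (k : G) → a χ k - ε * b (f χ) k ∈ O.nonunits

omit [N.Normal] in
lemma TD.cen_le (ti : S_TI) (d : TD p N y H P) {g : G} (hg : Commute y g) : g ∈ H := by
  refine (ti G p N y H P d).1 g y d.hyH y_mem d.hyN ?_
  have h1 : g⁻¹ * y * g = y := by
    rw [mul_assoc, hg.eq]
    group
  rw [h1]
  exact d.hyH

omit hp in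
/-- the relation between the characters of `N` and `N ∩ H` is equivariant -/
lemma Rel.tr {α : G ≃* G} (al : Al N y H α) (σ : ℂ ≃+* ℂ) {θ : N → ℂ}
    {η : N.comap H.subtype → ℂ} (r : Rel p N (KK N y) H le_KK θ η) :
    Rel p N (KK N y) H le_KK (fun n => σ (θ (rst α al.aN n)))
      (fun m => σ (η (rst al.rH al.aM m))) := by
  obtain ⟨a, b, ε, r⟩ := r
  refine ⟨fun k => σ (a (al.rK k)), fun k => σ (b (al.rKH k)), ε,
    irr_gal σ (irr_comp r.irr _), irr_gal σ (irr_comp r.irr' _), irr_gal σ (irr_comp r.ext _),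
    irr_gal σ (irr_comp r.ext' _), fun n => ?_, fun m => ?_, r.sgn, ?_⟩
  · rw [← r.res]
    rfl
  · rw [← r.res']
    rfl
  · intro x hx hn
    have h1 := r.val (al.rH x) ((al.aK x).mpr hx) (fun h => hn ((al.aN _).mp h))
    have h2 : a (al.rK ⟨x, hx⟩) = ε * b (al.rKH ⟨x, hx⟩) := h1
    change σ (a (al.rK ⟨x, hx⟩)) = ε * σ (b (al.rKH ⟨x, hx⟩))
    rw [h2, map_mul, map_intCast]

theorem main2 (q : Parts2) (cm : S_CM) (int : S_INT) (gdx : S_GDX) (d : TD p N y H P) :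
    Subgroup.normalizer ((P : Subgroup G) : Set G) ≤ H ∧
    ∃ (F : Iv N y ≃ Iv (N.comap H.subtype) (⟨y, d.hyH⟩ : H))
      (f : Ab N y ≃ Ab (N.comap H.subtype) (⟨y, d.hyH⟩ : H)) (g : IrrP p G ≃ IrrP p H),
      (∀ θ, Rel p N (KK N y) H le_KK θ.1 (F θ).1) ∧
      (∀ (h : H) (θ θ' : Iv N y), (∀ n, θ'.1 n = θ.1 (MulAut.conjNormal (h : G) n)) →
        ∀ m, (F θ').1 m = (F θ).1 (MulAut.conjNormal h m)) ∧
      (∀ (σ : ℂ ≃+* ℂ) (α : G ≃* G), Al N y H α → ∀ θ θ' : Iv N y,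
        (∀ n n' : N, (n' : G) = α n → θ'.1 n = σ (θ.1 n')) →
        ∀ m m' : N.comap H.subtype, ((m' : H) : G) = α (m : H) →
        (F θ').1 m = σ ((F θ).1 m')) ∧
      (∀ χ θ, Ov N χ.1 θ.1 ↔ Ov (N.comap H.subtype) (f χ).1 (F θ).1) ∧
      (∀ χ θ, Ov N χ.1 θ.1 → (f χ).1 1 * θ.1 1 = χ.1 1 * (F θ).1 1) ∧
      Eqv y N H (fun χ : Ab N y => χ.1)
        (fun ψ : Ab (N.comap H.subtype) (⟨y, d.hyH⟩ : H) => ψ.1) f ∧
      Cgr p y H (fun χ : Ab N y => χ.1)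
        (fun ψ : Ab (N.comap H.subtype) (⟨y, d.hyH⟩ : H) => ψ.1) f ∧
      (∀ χ : IrrP p G, ∃ χ' : Ab N y, χ'.1 = (χ : G → ℂ) ∧ (f χ').1 = (g χ : H → ℂ)) ∧
      (∀ ψ : IrrP p H, ∃ ψ' : Ab (N.comap H.subtype) (⟨y, d.hyH⟩ : H), ψ'.1 = (ψ : H → ℂ)) ∧
      Eqv y N H (fun χ : IrrP p G => (χ : G → ℂ)) (fun ψ : IrrP p H => (ψ : H → ℂ)) g ∧
      Cgr p y H (fun χ : IrrP p G => (χ : G → ℂ)) (fun ψ : IrrP p H => (ψ : H → ℂ)) g := by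
  refine ⟨d.norm_le q.ti, ?_⟩
  have := d.nK
  obtain ⟨F, hF⟩ := d.exists_F q.ext q.kc
  obtain ⟨f, s, hf⟩ := d.canon q gdx
  -- characters under `χ`
  have base : ∀ χ : Ab N y, ∃ θ₀ : Iv N y, Ov N χ.1 θ₀.1 ∧
      Ov (N.comap H.subtype) (f χ).1 (F θ₀).1 ∧ (f χ).1 1 * θ₀.1 1 = χ.1 1 * (F θ₀).1 1 := by
    intro χ
    obtain ⟨-, -, -, θ, η, h1, h2, h3, h4⟩ := d.gr_ab q (hf χ)
    have h5 : F θ = η := Subtype.ext (d.rel_unique q.ext q.kc (hF θ) h1)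
    refine ⟨θ, h2, ?_, ?_⟩
    · rw [h5]
      exact h3
    · rw [h5]
      exact h4
  have hG : ∀ χ : G → ℂ, IsIrr χ → ∀ θ θ' : Iv N y, Ov N χ θ.1 → Ov N χ θ'.1 →
      ∃ h : H, θ' = θ.cj d.hcen h := by
    intro χ hχ θ θ' h1 h2
    obtain ⟨g, hg⟩ := clif_conj q.hom q.lft q.sq q.cl θ.2.1 θ'.2.1 hχ h1 h2
    obtain ⟨n, hn, h, hh, rfl⟩ := d.hNH g
    refine ⟨⟨h, hh⟩, Subtype.ext ?_⟩
    rw [hg, conj_mul θ.2.1 hn]
    rfl
  have hH : ∀ ψ : H → ℂ, IsIrr ψ → ∀ θ θ' : Iv N y, Ov (N.comap H.subtype) ψ (F θ).1 →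
      Ov (N.comap H.subtype) ψ (F θ').1 → ∃ h : H, θ' = θ.cj d.hcen h := by
    intro ψ hψ θ θ' h1 h2
    obtain ⟨h, hh⟩ := clif_conj q.hom q.lft q.sq q.cl (F θ).2.1 (F θ').2.1 hψ h1 h2
    refine ⟨h, F.injective ?_⟩
    rw [d.F_equiv q.ext q.kc hF h θ]
    exact Subtype.ext hh
  have hov : ∀ (χ : Ab N y) (θ : Iv N y),
      Ov N χ.1 θ.1 ↔ Ov (N.comap H.subtype) (f χ).1 (F θ).1 := by
    intro χ θ
    obtain ⟨θ₀, h1, h2, -⟩ := base χ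
    constructor
    · intro h3
      obtain ⟨h, rfl⟩ := hG χ.1 χ.2.1 θ₀ θ h1 h3
      rw [d.F_equiv q.ext q.kc hF h θ₀]
      exact (ov_conj (f χ).2.1 h).mpr h2
    · intro h3
      obtain ⟨h, rfl⟩ := hH (f χ).1 (f χ).2.1 θ₀ θ h2 h3
      exact (ov_conj χ.2.1 (h : G)).mpr h1
  have hdeg : ∀ (χ : Ab N y) (θ : Iv N y), Ov N χ.1 θ.1 →
      (f χ).1 1 * θ.1 1 = χ.1 1 * (F θ).1 1 := by
    intro χ θ h3
    obtain ⟨θ₀, h1, -, h2⟩ := base χ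
    obtain ⟨h, rfl⟩ := hG χ.1 χ.2.1 θ₀ θ h1 h3
    have h6 : (θ₀.cj d.hcen h).1 1 = θ₀.1 1 := by
      change θ₀.1 (MulAut.conjNormal (h : G) 1) = _
      rw [map_one]
    have h7 : (F (θ₀.cj d.hcen h)).1 1 = (F θ₀).1 1 := by
      rw [d.F_equiv q.ext q.kc hF h]
      change (F θ₀).1 (MulAut.conjNormal h 1) = _
      rw [map_one]
    rw [h6, h7]
    exact h2
  have heqv : ∀ (σ : ℂ ≃+* ℂ) (α : G ≃* G), Al N y H α → ∀ χ χ' : Ab N y,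
      (∀ x, χ'.1 x = σ (χ.1 (α x))) → ∀ k k' : H, (k' : G) = α k →
      (f χ').1 k = σ ((f χ).1 k') := by
    intro σ α al χ χ' h1 k k' hk
    have h2 := d.gr_equiv q al σ (hf χ)
    have h3 : (fun x => σ (χ.1 (α x))) = χ'.1 := (funext h1).symm
    rw [h3] at h2
    have h4 := (d.gr_right q (hf χ') h2).1
    rw [h4]
    have h5 : k' = al.rH k := Subtype.ext hk
    rw [h5]
  have hcg : ∀ χ : Ab N y, ∃ ε : ℤ, (ε = 1 ∨ (ε = -1 ∧ p ≠ 2)) ∧ ∀ O : ValuationSubring ℂ,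
      (p : ℂ) ∈ O.nonunits → ∀ k : H, Commute y (k : G) → χ.1 k - ε * (f χ).1 k ∈ O.nonunits := by
    intro χ
    obtain ⟨-, -, h1, -⟩ := d.gr_ab q (hf χ)
    exact ⟨s χ, h1, fun O hO k hk => d.cong q cm int hO (hf χ) k.2 hk⟩
  have hiff : ∀ χ : Ab N y, χ.1 ∈ IrrP p G ↔ (f χ).1 ∈ IrrP p H := by
    intro χ
    obtain ⟨θ, hθ⟩ := χ.2.2
    obtain ⟨ε, -, -, h3⟩ := d.pprime q.hom q.lft q.sq q.cl q.kc χ.2.1 (f χ).2.1 θ.2.1 (hF θ) hθ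
      (hdeg χ θ hθ)
    exact h3
  let e₁ : IrrP p G ≃ {χ : Ab N y // χ.1 ∈ IrrP p G} :=
    { toFun := fun χ => ⟨⟨χ.1, χ.2.1, d.ov_G q.ext χ⟩, χ.2⟩
      invFun := fun χ => ⟨χ.1.1, χ.2⟩
      left_inv := fun _ => rfl
      right_inv := fun _ => rfl }
  let e₂ : IrrP p H ≃ {ψ : Ab (N.comap H.subtype) (⟨y, d.hyH⟩ : H) // ψ.1 ∈ IrrP p H} :=
    { toFun := fun ψ => ⟨⟨ψ.1, ψ.2.1, d.ov_H q.ext ψ⟩, ψ.2⟩
      invFun := fun ψ => ⟨ψ.1.1, ψ.2⟩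
      left_inv := fun _ => rfl
      right_inv := fun _ => rfl }
  refine ⟨F, f, e₁.trans ((f.subtypeEquiv hiff).trans e₂.symm), hF, ?_, ?_, hov, hdeg, heqv, hcg,
    ?_, ?_, ?_, ?_⟩
  · intro h θ θ' hθ m
    have h3 : θ' = θ.cj d.hcen h := Subtype.ext (funext hθ)
    rw [h3, d.F_equiv q.ext q.kc hF h θ]
    rfl
  · intro σ α al θ θ' h1 m m' hm
    have h2 := (hF θ).tr al σ
    have h3 : (fun n => σ (θ.1 (rst α al.aN n))) = θ'.1 := by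
      funext n
      exact (h1 n (rst α al.aN n) rfl).symm
    rw [h3] at h2
    rw [d.rel_unique q.ext q.kc (hF θ') h2]
    have h4 : m' = rst al.rH al.aM m := Subtype.ext (Subtype.ext hm)
    rw [h4]
  · intro χ
    exact ⟨(e₁ χ).1, rfl, rfl⟩
  · intro ψ
    exact ⟨(e₂ ψ).1, rfl⟩
  · intro σ α al χ χ' h1 k k' hk
    exact heqv σ α al (e₁ χ).1 (e₁ χ').1 h1 k k' hk
  · intro χ
    exact hcg (e₁ χ).1

end Pool.Agent.Q17.TC
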